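import Pool.Agent.H574R2.Q4.Defs
import Pool.Agent.H337R2.LZ.A5

/-! Task A: linear algebra of the mixed determinant with three blocks. -/

open Polynomial Pool.Agent.H337R2

namespace Pool.Agent.H574R2.Q4

noncomputable section

/-- block-major enumeration -/
private def A_e (m : ℕ) : Fin m × Fin 3 ≃ Fin (3 * m) := (Equiv.prodComm _ _).trans finProdFinEquiv

private lemma A_e_val (m : ℕ) (b : Fin m) (a : Fin 3) : (A_e m (b, a)).1 = b.1 + m * a.1 := rfl

private def A_cm {K : Type} [CommRing K] [Algebra ℚ K] (N : ℕ) (P : ℕ → ℚ[X]) : Matrix (Fin N) (Fin N) K :=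
  Matrix.of fun a k : Fin N => algebraMap ℚ K ((P a.1).coeff k.1)

private lemma A_expand (m : ℕ) (P : ℚ[X]) (h : P.natDegree < m) :
    P = ∑ k ∈ Finset.range m, (P.coeff k) • (X ^ k : ℚ[X]) := by
  conv_lhs => rw [P.as_sum_range' m h]
  apply Finset.sum_congr rfl
  intro k _
  rw [← Polynomial.C_mul_X_pow_eq_monomial, Polynomial.smul_eq_C_mul]

private lemma A_left {K : Type} [CommRing K] [Algebra ℚ K] (A : ℚ[X] →ₗ[ℚ] K) (m : ℕ) (P R : ℚ[X])
    (h : P.natDegree < m) :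
    A (P * R) = ∑ k : Fin m, algebraMap ℚ K (P.coeff k.1) * A (X ^ k.1 * R) := by
  conv_lhs => rw [A_expand m P h, Finset.sum_mul, map_sum]
  rw [Fin.sum_univ_eq_sum_range (fun k => algebraMap ℚ K (P.coeff k) * A (X ^ k * R)) m]
  apply Finset.sum_congr rfl
  intro k _
  rw [smul_mul_assoc, map_smul, Algebra.smul_def]

private lemma A_right {K : Type} [CommRing K] [Algebra ℚ K] (A : ℚ[X] →ₗ[ℚ] K) (m : ℕ) (P R : ℚ[X])
    (h : P.natDegree < m) :
    A (R * P) = ∑ k : Fin m, A (R * X ^ k.1) * algebraMap ℚ K (P.coeff k.1) := by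
  rw [mul_comm, A_left A m P R h]
  apply Finset.sum_congr rfl
  intro k _
  rw [mul_comm, mul_comm R]

/-- the matrix on the product index -/
private def A_T {K : Type} [CommRing K] [Algebra ℚ K] (L : Fin 3 → (ℚ[X] →ₗ[ℚ] K)) (m : ℕ) :
    Matrix (Fin (3 * m)) (Fin m × Fin 3) K :=
  Matrix.of fun i j => L j.2 (X ^ i.1 * X ^ j.1.1)

private lemma A_gen {K : Type} [CommRing K] [Algebra ℚ K] (L : Fin 3 → (ℚ[X] →ₗ[ℚ] K)) (m : ℕ)
    (Q : ℕ → ℚ[X]) (P : Fin 3 → ℕ → ℚ[X])
    (hQ : ∀ i < 3 * m, (Q i).natDegree < 3 * m) (hP : ∀ a, ∀ i < m, (P a i).natDegree < m) :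
    (Matrix.of fun (i : Fin (3 * m)) (j : Fin m × Fin 3) => L j.2 (Q i.1 * P j.2 j.1.1)) =
      A_cm (K := K) (3 * m) Q * A_T L m * Matrix.blockDiagonal (fun a : Fin 3 => (A_cm (K := K) m (P a)).transpose) := by
  have hUT : ∀ (i : Fin (3 * m)) (j : Fin m × Fin 3), (A_cm (K := K) (3 * m) Q * A_T L m) i j =
      L j.2 (Q i.1 * X ^ j.1.1) := by
    intro i j
    rw [Matrix.mul_apply, A_left (L j.2) (3 * m) (Q i.1) _ (hQ _ i.2)]
    rfl
  ext i j
  rw [Matrix.mul_apply, Matrix.of_apply, Fintype.sum_prod_type_right]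
  rw [Finset.sum_eq_single j.2]
  · rw [A_right (L j.2) m (P j.2 j.1.1) (Q i.1) (hP _ _ j.1.2)]
    apply Finset.sum_congr rfl
    intro l _
    rw [hUT, Matrix.blockDiagonal_apply]
    simp [A_cm]
  · intro a _ ha
    apply Finset.sum_eq_zero
    intro l _
    rw [Matrix.blockDiagonal_apply, if_neg ha, mul_zero]
  · intro h
    exact absurd (Finset.mem_univ _) h

private lemma A_gen_det {K : Type} [CommRing K] [Algebra ℚ K] (L : Fin 3 → (ℚ[X] →ₗ[ℚ] K)) (m : ℕ)
    (Q : ℕ → ℚ[X]) (P : Fin 3 → ℕ → ℚ[X])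
    (hQ : ∀ i < 3 * m, (Q i).natDegree < 3 * m) (hP : ∀ a, ∀ i < m, (P a i).natDegree < m) :
    ((Matrix.of fun (i : Fin (3 * m)) (j : Fin m × Fin 3) => L j.2 (Q i.1 * P j.2 j.1.1)).submatrix
      (A_e m) id).det =
      (A_cm (K := K) (3 * m) Q).det * ((A_T L m).submatrix (A_e m) id).det *
        ∏ a : Fin 3, (A_cm (K := K) m (P a)).det := by
  rw [A_gen L m Q P hQ hP]
  have h1 : (A_cm (K := K) (3 * m) Q * A_T L m *
      Matrix.blockDiagonal (fun a : Fin 3 => (A_cm (K := K) m (P a)).transpose)).submatrix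
      (A_e m) id = (A_cm (K := K) (3 * m) Q).submatrix (A_e m) (A_e m) * (A_T L m).submatrix (A_e m) id *
        Matrix.blockDiagonal (fun a : Fin 3 => (A_cm (K := K) m (P a)).transpose) := by
    rw [Matrix.submatrix_mul _ _ (A_e m) id id Function.bijective_id,
      Matrix.submatrix_mul _ _ (A_e m) (A_e m) id (A_e m).bijective, Matrix.submatrix_id_id]
  rw [h1, Matrix.det_mul, Matrix.det_mul, Matrix.det_submatrix_equiv_self, Matrix.det_blockDiagonal]
  simp only [Matrix.det_transpose]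

/-- the matrices on `Fin (3 m)` -/
private lemma A_fin {K : Type} [CommRing K] (F : Fin 3 → ℕ → ℕ → K) (m : ℕ) :
    (Matrix.of fun i j : Fin (3 * m) => if j.1 < m then F 0 i.1 j.1
      else if j.1 < 2 * m then F 1 i.1 (j.1 - m) else F 2 i.1 (j.1 - 2 * m)).det =
    ((Matrix.of fun (i : Fin (3 * m)) (j : Fin m × Fin 3) => F j.2 i.1 j.1.1).submatrix (A_e m) id).det := by
  rw [← Matrix.det_submatrix_equiv_self (A_e m)]
  congr 1
  ext i j
  obtain ⟨b, a⟩ := j
  have hb := b.2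
  simp only [Matrix.submatrix_apply, Matrix.of_apply, id]
  have hv := A_e_val m b a
  rw [hv]
  fin_cases a
  · simp only [Fin.zero_eta, Fin.val_zero, mul_zero, add_zero]
    rw [if_pos hb]
  · simp only [Fin.mk_one, Fin.val_one, mul_one]
    rw [if_neg (by omega), if_pos (by omega), Nat.add_sub_cancel]
  · simp only [Fin.reduceFinMk, Fin.val_two]
    rw [if_neg (by omega), if_neg (by omega), show b.1 + m * 2 - 2 * m = b.1 by omega]

private lemma A_cm_monic {K : Type} [CommRing K] [Algebra ℚ K] (N : ℕ) (P : ℕ → ℚ[X])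
    (hP : ∀ i < N, (P i).Monic ∧ (P i).natDegree = i) : (A_cm (K := K) N P).det = 1 := by
  rw [Matrix.det_of_isLowerTriangular]
  · apply Finset.prod_eq_one
    intro i _
    have h := hP i.1 i.2
    have h3 := h.1
    rw [Polynomial.Monic, Polynomial.leadingCoeff, h.2] at h3
    change algebraMap ℚ K ((P i.1).coeff i.1) = 1
    rw [h3, map_one]
  · intro i j hij
    change algebraMap ℚ K ((P i.1).coeff j.1) = 0
    rw [Polynomial.coeff_eq_zero_of_natDegree_lt, map_zero]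
    rw [(hP i.1 i.2).2]
    exact hij

/-- three functionals -/
private def A_L {K : Type} [CommRing K] [Algebra ℚ K] (A B C : ℚ[X] →ₗ[ℚ] K) : Fin 3 → (ℚ[X] →ₗ[ℚ] K) :=
  fun a => if a = 0 then A else if a = 1 then B else C

private lemma A_MD3 {K : Type} [CommRing K] [Algebra ℚ K] (A B C : ℚ[X] →ₗ[ℚ] K) (m : ℕ) :
    (Matrix.of fun i j : Fin (3 * m) => if j.1 < m then A (X ^ (i.1 + j.1))
      else if j.1 < 2 * m then B (X ^ (i.1 + (j.1 - m))) else C (X ^ (i.1 + (j.1 - 2 * m)))).det =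
    ((A_T (A_L A B C) m).submatrix (A_e m) id).det := by
  have := A_fin (fun a i j => (A_L A B C) a (X ^ i * X ^ j)) m
  simp only [← pow_add] at this
  unfold A_T
  simp only [← pow_add]
  exact this

private lemma A_gen3 {K : Type} [CommRing K] [Algebra ℚ K] (A B C : ℚ[X] →ₗ[ℚ] K) (m : ℕ)
    (Q P P' P'' : ℕ → ℚ[X])
    (hQ : ∀ i < 3 * m, (Q i).natDegree < 3 * m) (hP : ∀ i < m, (P i).natDegree < m)
    (hP' : ∀ i < m, (P' i).natDegree < m) (hP'' : ∀ i < m, (P'' i).natDegree < m) :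
    (Matrix.of fun i j : Fin (3 * m) => if j.1 < m then A (Q i.1 * P j.1)
      else if j.1 < 2 * m then B (Q i.1 * P' (j.1 - m)) else C (Q i.1 * P'' (j.1 - 2 * m))).det =
    (A_cm (K := K) (3 * m) Q).det * (Matrix.of fun i j : Fin (3 * m) => if j.1 < m then A (X ^ (i.1 + j.1))
      else if j.1 < 2 * m then B (X ^ (i.1 + (j.1 - m))) else C (X ^ (i.1 + (j.1 - 2 * m)))).det *
    ((A_cm (K := K) m P).det * (A_cm (K := K) m P').det * (A_cm (K := K) m P'').det) := by
  have h1 := A_fin (fun a i j => (A_L A B C) a (Q i * (if a = 0 then P else if a = 1 then P' else P'') j)) m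
  have h2 := A_gen_det (A_L A B C) m Q (fun a => if a = 0 then P else if a = 1 then P' else P'') hQ (by
    intro a i hi
    fin_cases a
    · exact hP i hi
    · exact hP' i hi
    · exact hP'' i hi)
  rw [Fin.prod_univ_three] at h2
  rw [A_MD3]
  exact h1.trans h2

theorem A1_monic (A B C : ℚ[X] →ₗ[ℚ] ℚ) (m : ℕ) (Q P P' P'' : ℕ → ℚ[X])
    (hQ : ∀ i < 3 * m, (Q i).Monic ∧ (Q i).natDegree = i) (hP : ∀ i < m, (P i).Monic ∧ (P i).natDegree = i)
    (hP' : ∀ i < m, (P' i).Monic ∧ (P' i).natDegree = i) (hP'' : ∀ i < m, (P'' i).Monic ∧ (P'' i).natDegree = i) :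
    (Matrix.of fun i j : Fin (3 * m) =>
      if j.1 < m then A (Q i.1 * P j.1)
      else if j.1 < 2 * m then B (Q i.1 * P' (j.1 - m))
      else C (Q i.1 * P'' (j.1 - 2 * m))).det = MD3 A B C m := by
  rw [A_gen3 A B C m Q P P' P'' (fun i hi => by rw [(hQ i hi).2]; exact hi)
    (fun i hi => by rw [(hP i hi).2]; exact hi) (fun i hi => by rw [(hP' i hi).2]; exact hi)
    (fun i hi => by rw [(hP'' i hi).2]; exact hi), A_cm_monic _ _ hQ, A_cm_monic _ _ hP, A_cm_monic _ _ hP',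
    A_cm_monic _ _ hP'', one_mul, one_mul, one_mul, mul_one]
  rfl

/-! ### A2 -/

private def A_g {S : Type} {m : ℕ} (eS : S ≃ Fin m) : (S ⊕ S) ⊕ S ≃ Fin m × Fin 3 where
  toFun := Sum.elim (Sum.elim (fun s => (eS s, 0)) (fun s => (eS s, 1))) (fun s => (eS s, 2))
  invFun := fun p => if p.2 = 0 then Sum.inl (Sum.inl (eS.symm p.1))
    else if p.2 = 1 then Sum.inl (Sum.inr (eS.symm p.1)) else Sum.inr (eS.symm p.1)
  left_inv := by rintro ((s | s) | s) <;> simp
  right_inv := by rintro ⟨b, a⟩; fin_cases a <;> simp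

theorem A2_MD_ne (A B C : ℚ[X] →ₗ[ℚ] ℚ) (m : ℕ) (R S : Type) [Fintype R] [DecidableEq R] [Fintype S]
    (e : R ≃ (S ⊕ S) ⊕ S) (hS : Fintype.card S = m) (Q : R → ℚ[X]) (P : S → ℚ[X])
    (hQ : ∀ r, (Q r).natDegree < 3 * m) (hP : ∀ s, (P s).natDegree < m)
    (h : (Matrix.of fun r s : R => Sum.elim (Sum.elim (fun c => A (Q r * P c)) (fun c => B (Q r * P c)))
      (fun c => C (Q r * P c)) (e s)).det ≠ 0) : MD3 A B C m ≠ 0 := by
  obtain ⟨eS⟩ : Nonempty (S ≃ Fin m) := ⟨Fintype.equivFinOfCardEq hS⟩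
  obtain ⟨σ, hσ⟩ : ∃ σ : R ≃ Fin m × Fin 3, σ = e.trans (A_g eS) := ⟨_, rfl⟩
  intro h0
  apply h
  rw [← Matrix.det_submatrix_equiv_self σ.symm]
  have h2 := A_gen_det (A_L A B C) m (fun i => if hi : i < 3 * m then Q (σ.symm ((A_e m).symm ⟨i, hi⟩)) else 0)
    (fun _ i => if hi : i < m then P (eS.symm ⟨i, hi⟩) else 0)
    (fun i hi => by simp only [dif_pos hi]; exact hQ _) (fun _ i hi => by simp only [dif_pos hi]; exact hP _)
  have h3 : (Matrix.of fun r s : R => Sum.elim (Sum.elim (fun c => A (Q r * P c)) (fun c => B (Q r * P c)))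
      (fun c => C (Q r * P c)) (e s)).submatrix σ.symm σ.symm =
      (Matrix.of fun (i : Fin (3 * m)) (j : Fin m × Fin 3) => (A_L A B C) j.2
        ((fun i => if hi : i < 3 * m then Q (σ.symm ((A_e m).symm ⟨i, hi⟩)) else 0) i.1 *
          (fun _ i => if hi : i < m then P (eS.symm ⟨i, hi⟩) else 0) j.2 j.1.1)).submatrix (A_e m) id := by
    ext i j
    obtain ⟨b, a⟩ := j
    simp only [Matrix.submatrix_apply, Matrix.of_apply, id]
    rw [dif_pos (A_e m i).2, dif_pos b.2]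
    have e1 : (A_e m).symm ⟨(A_e m i).1, (A_e m i).2⟩ = i := by simp
    rw [e1]
    have e2 : e (σ.symm (b, a)) = (A_g eS).symm (b, a) := by rw [hσ]; simp
    rw [e2]
    have e3 : (⟨b.1, b.2⟩ : Fin m) = b := rfl
    rw [e3]
    fin_cases a <;> simp [A_g, A_L]
  rw [h3, h2]
  have h4 : ((A_T (A_L A B C) m).submatrix (A_e m) id).det = 0 := by
    rw [← A_MD3]
    exact h0
  rw [h4, mul_zero, zero_mul]

/-! ### A5: the coefficient matrix of a Lagrange basis -/

private def A5_PL {N : ℕ} (x : Fin N → ℚ) (k : Fin N) : ℚ[X] :=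
  ∏ l ∈ Finset.univ.erase k, (X - Polynomial.C (x l))

private lemma A5_deg {N : ℕ} (x : Fin N → ℚ) (k : Fin N) : (A5_PL x k).natDegree < N := by
  unfold A5_PL
  rw [Polynomial.natDegree_prod_of_monic _ _ (fun i _ => Polynomial.monic_X_sub_C _)]
  simp only [Polynomial.natDegree_X_sub_C, Finset.sum_const, smul_eq_mul, mul_one]
  rw [Finset.card_erase_of_mem (Finset.mem_univ _), Finset.card_univ, Fintype.card_fin]
  have := k.2
  omega

private lemma A5_eval {N : ℕ} (x : Fin N → ℚ) (k : Fin N) (y : ℚ) :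
    (A5_PL x k).eval y = ∏ l ∈ Finset.univ.erase k, (y - x l) := by
  unfold A5_PL
  rw [Polynomial.eval_prod]
  simp

private lemma A5_eval_ne {N : ℕ} (x : Fin N → ℚ) {k l : Fin N} (h : k ≠ l) :
    (A5_PL x k).eval (x l) = 0 := by
  rw [A5_eval]
  exact Finset.prod_eq_zero (Finset.mem_erase.2 ⟨h.symm, Finset.mem_univ _⟩) (sub_self _)

private lemma A5_prod_sq {m : ℕ} (x : Fin m → ℚ) :
    (∏ k : Fin m, ∏ l ∈ Finset.univ.erase k, (x k - x l)) ^ 2 =
      (∏ i : Fin m, ∏ j ∈ Finset.Ioi i, (x j - x i)) ^ 4 := by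
  have h1 : (∏ k : Fin m, ∏ l ∈ Finset.univ.erase k, (x k - x l)) ^ 2 =
      ∏ k : Fin m, ∏ l ∈ Finset.univ.erase k, (x l - x k) ^ 2 := by
    rw [← Finset.prod_pow]
    apply Finset.prod_congr rfl; intro k _
    rw [← Finset.prod_pow]
    apply Finset.prod_congr rfl; intro l _
    ring
  have h2 : ∀ k : Fin m, ∏ l ∈ Finset.univ.erase k, (x l - x k) ^ 2 =
      (∏ l ∈ Finset.Ioi k, (x l - x k) ^ 2) * ∏ l ∈ Finset.Iio k, (x l - x k) ^ 2 := by
    intro k
    rw [← Finset.prod_union]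
    · congr 1
      ext l
      simp only [Finset.mem_erase, Finset.mem_univ, and_true, Finset.mem_union, Finset.mem_Ioi,
        Finset.mem_Iio]
      constructor
      · intro h
        rcases lt_trichotomy k l with h' | h' | h'
        · left; exact h'
        · exact absurd h'.symm h
        · right; exact h'
      · rintro (h | h)
        · exact ne_of_gt h
        · exact ne_of_lt h
    · rw [Finset.disjoint_left]
      intro l h3 h4
      rw [Finset.mem_Ioi] at h3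
      rw [Finset.mem_Iio] at h4
      exact absurd (lt_trans h3 h4) (lt_irrefl _)
  have h3 : ∏ k : Fin m, ∏ l ∈ Finset.Iio k, (x l - x k) ^ 2 =
      ∏ l : Fin m, ∏ k ∈ Finset.Ioi l, (x k - x l) ^ 2 := by
    rw [Finset.prod_comm' (t' := Finset.univ) (s' := fun l => Finset.Ioi l)]
    · apply Finset.prod_congr rfl; intro l _
      apply Finset.prod_congr rfl; intro k _
      ring
    · intro k l
      simp
  rw [h1]
  simp_rw [h2]
  rw [Finset.prod_mul_distrib, h3]
  simp_rw [Finset.prod_pow]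
  ring

private lemma A5_coef_sq {N : ℕ} (x : Fin N → ℚ) (hx : Function.Injective x) :
    (Matrix.of fun a k : Fin N => (A5_PL x a).coeff (k : ℕ)).det ^ 2 =
      |∏ k : Fin N, ∏ l ∈ Finset.univ.erase k, (x k - x l)| := by
  set Cm := (Matrix.of fun (a : Fin N) (k : Fin N) => (A5_PL x a).coeff (k : ℕ)) with hCm
  set V := ∏ i : Fin N, ∏ j ∈ Finset.Ioi i, (x j - x i) with hV
  have hV0 : V ≠ 0 := by
    rw [hV]
    rw [Finset.prod_ne_zero_iff]; intro i _
    rw [Finset.prod_ne_zero_iff]; intro j hj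
    rw [Finset.mem_Ioi] at hj
    exact sub_ne_zero.2 (fun h => absurd (hx h) (ne_of_gt hj))
  have h1 : Cm * (Matrix.vandermonde x).transpose =
      Matrix.diagonal (fun k => ∏ l ∈ Finset.univ.erase k, (x k - x l)) := by
    ext k l
    rw [Matrix.mul_apply]
    have h2 : ∑ j : Fin N, Cm k j * (Matrix.vandermonde x).transpose j l =
        (A5_PL x k).eval (x l) := by
      rw [Polynomial.eval_eq_sum_range' (A5_deg x k)]
      rw [← Fin.sum_univ_eq_sum_range (fun i => (A5_PL x k).coeff i * x l ^ i) N]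
      rfl
    rw [h2]
    by_cases h : k = l
    · subst h
      rw [Matrix.diagonal_apply_eq, A5_eval]
    · rw [Matrix.diagonal_apply_ne _ h, A5_eval_ne x h]
  have h2 : Cm.det * V = ∏ k : Fin N, ∏ l ∈ Finset.univ.erase k, (x k - x l) := by
    have := congrArg Matrix.det h1
    rw [Matrix.det_mul, Matrix.det_transpose, Matrix.det_vandermonde, Matrix.det_diagonal] at this
    exact this
  have h4 := A5_prod_sq x
  have h3 : Cm.det ^ 2 = V ^ 2 := by
    have h4' := h4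
    rw [← h2, ← hV] at h4'
    have h5 : V ^ 2 * (Cm.det ^ 2 - V ^ 2) = 0 := by linear_combination h4'
    rcases mul_eq_zero.1 h5 with h6 | h6
    · exact absurd h6 (pow_ne_zero 2 hV0)
    · exact sub_eq_zero.1 h6
  have h7 : |∏ k : Fin N, ∏ l ∈ Finset.univ.erase k, (x k - x l)| ^ 2 = (V ^ 2) ^ 2 := by
    rw [sq_abs, h4]; ring
  rw [h3]
  exact ((pow_left_inj₀ (abs_nonneg _) (sq_nonneg _) two_ne_zero).1 h7).symm

/-! ### blocks of nodes -/

private def A5_emb (a N : ℕ) : Fin N ↪ ℕ :=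
  ⟨fun l => a + l.1, fun l l' h => Fin.ext (by simpa using h)⟩

private lemma A5_map (a N : ℕ) : Finset.univ.map (A5_emb a N) = Finset.Ico a (a + N) := by
  ext i
  simp only [Finset.mem_map, Finset.mem_univ, true_and, Finset.mem_Ico]
  constructor
  · rintro ⟨l, rfl⟩
    change a ≤ a + l.1 ∧ a + l.1 < a + N
    omega
  · intro h
    exact ⟨⟨i - a, by omega⟩, by change a + (i - a) = i; omega⟩

private lemma A5_erase (a N : ℕ) (k : Fin N) :
    (Finset.Ico a (a + N)).erase (a + k.1) = (Finset.univ.erase k).map (A5_emb a N) := by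
  rw [Finset.map_erase, A5_map]
  rfl

private lemma A5_lag (a N : ℕ) (z : ℕ → ℚ) (k : Fin N) :
    Pool.Agent.LZ.lag (Finset.Ico a (a + N)) z (a + k.1) = A5_PL (fun l : Fin N => z (a + l.1)) k := by
  unfold Pool.Agent.LZ.lag A5_PL
  rw [A5_erase, Finset.prod_map]
  rfl

private lemma A5_VD (a N : ℕ) (z : ℕ → ℚ) :
    Pool.Agent.LZ.VD (Finset.Ico a (a + N)) z = ((|∏ k : Fin N, ∏ l ∈ Finset.univ.erase k,
      (z (a + k.1) - z (a + l.1))| : ℚ) : ℝ) := by
  unfold Pool.Agent.LZ.VD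
  conv_lhs => rw [← A5_map]
  rw [Finset.prod_map, Finset.abs_prod, Rat.cast_prod]
  apply Finset.prod_congr rfl
  intro k _
  rw [Finset.abs_prod, Rat.cast_prod]
  have h : (Finset.univ.map (A5_emb a N)).erase ((A5_emb a N) k) =
      (Finset.univ.erase k).map (A5_emb a N) := by rw [Finset.map_erase]
  rw [h, Finset.prod_map]
  apply Finset.prod_congr rfl
  intro l _
  rw [Rat.cast_abs]
  rfl

/-- the coefficient matrix of `N` polynomials -/
private def A5_cm (N : ℕ) (P : ℕ → ℚ[X]) : Matrix (Fin N) (Fin N) ℝ :=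
  Matrix.of fun a k : Fin N => (((P a.1).coeff k.1 : ℚ) : ℝ)

private lemma A5_cm_sq (a N : ℕ) (z : ℕ → ℚ) (hz : Set.InjOn z (Finset.Ico a (a + N))) :
    (A5_cm N (fun i => Pool.Agent.LZ.lag (Finset.Ico a (a + N)) z (a + i))).det ^ 2 =
      Pool.Agent.LZ.VD (Finset.Ico a (a + N)) z := by
  have hx : Function.Injective (fun l : Fin N => z (a + l.1)) := by
    intro l l' h
    have h1 := hz (by simp) (by simp) h
    exact Fin.ext (by omega)
  have h1 := A5_coef_sq _ hx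
  rw [A5_VD, ← h1]
  have h2 : A5_cm N (fun i => Pool.Agent.LZ.lag (Finset.Ico a (a + N)) z (a + i)) =
      (Matrix.of fun b k : Fin N => (A5_PL (fun l : Fin N => z (a + l.1)) b).coeff (k : ℕ)).map
        (Rat.castHom ℝ) := by
    ext b k
    change (((Pool.Agent.LZ.lag (Finset.Ico a (a + N)) z (a + b.1)).coeff k.1 : ℚ) : ℝ) = _
    rw [A5_lag]
    rfl
  rw [h2]
  have h3 := RingHom.map_det (Rat.castHom ℝ)
    (Matrix.of fun b k : Fin N => (A5_PL (fun l : Fin N => z (a + l.1)) b).coeff (k : ℕ))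
  rw [RingHom.mapMatrix_apply] at h3
  rw [← h3, Rat.cast_pow]
  rfl


private lemma A_cm_sq (a N : ℕ) (z : ℕ → ℚ) (hz : Set.InjOn z (Finset.Ico a (a + N))) :
    (A_cm (K := ℝ) N (fun i => lag (Finset.Ico a (a + N)) z (a + i))).det ^ 2 =
      VD (Finset.Ico a (a + N)) z := by
  have h := A5_cm_sq a N z hz
  exact h

private def A_N (θ₁ θ₂ : ℝ) : Matrix (Fin 3) (Fin 3) ℝ := !![1, 0, 0; θ₁, 1, 0; θ₂, 0, 1]

private lemma A_N_det (θ₁ θ₂ : ℝ) : (A_N θ₁ θ₂).det = 1 := by
  rw [A_N, Matrix.det_fin_three]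
  simp

private lemma A_col (A B C : ℚ[X] →ₗ[ℚ] ℝ) (A' : ℚ[X] →ₗ[ℚ] ℝ) (θ₁ θ₂ : ℝ)
    (hA : ∀ F, A' F = A F + θ₁ * B F + θ₂ * C F) (m : ℕ) :
    ((A_T (A_L A' B C) m).submatrix (A_e m) id).det = ((A_T (A_L A B C) m).submatrix (A_e m) id).det := by
  have h1 : A_T (A_L A' B C) m = A_T (A_L A B C) m *
      Matrix.kroneckerMap (· * ·) (1 : Matrix (Fin m) (Fin m) ℝ) (A_N θ₁ θ₂) := by
    ext i j
    obtain ⟨b, a⟩ := j
    rw [Matrix.mul_apply, Fintype.sum_prod_type, Finset.sum_eq_single b]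
    · rw [Fin.sum_univ_three]
      simp only [Matrix.kroneckerMap_apply, Matrix.one_apply_eq, one_mul]
      fin_cases a
      · simp [A_T, A_L, A_N, hA]
        ring
      · simp [A_T, A_L, A_N]
      · simp [A_T, A_L, A_N]
    · intro c _ hc
      apply Finset.sum_eq_zero
      intro a' _
      rw [Matrix.kroneckerMap_apply, Matrix.one_apply_ne hc, zero_mul, mul_zero]
    · intro h
      exact absurd (Finset.mem_univ _) h
  rw [h1, Matrix.submatrix_mul _ _ (A_e m) id id Function.bijective_id, Matrix.submatrix_id_id, Matrix.det_mul,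
    Matrix.det_kronecker, Matrix.det_one, A_N_det, one_pow, one_pow, one_mul, mul_one]

private def A_cast (B : ℚ[X] →ₗ[ℚ] ℚ) : ℚ[X] →ₗ[ℚ] ℝ where
  toFun := fun F => ((B F : ℚ) : ℝ)
  map_add' := fun F G => by rw [map_add]; push_cast; ring
  map_smul' := fun c F => by
    rw [map_smul, smul_eq_mul, RingHom.id_apply, Rat.smul_def]
    push_cast
    ring

private lemma A_cast_det (A B C : ℚ[X] →ₗ[ℚ] ℚ) (m : ℕ) :
    ((A_T (A_L (A_cast A) (A_cast B) (A_cast C)) m).submatrix (A_e m) id).det = ((MD3 A B C m : ℚ) : ℝ) := by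
  have h0 : MD3 A B C m = ((A_T (A_L A B C) m).submatrix (A_e m) id).det := A_MD3 A B C m
  have h2 := RingHom.map_det (Rat.castHom ℝ) ((A_T (A_L A B C) m).submatrix (A_e m) id)
  rw [RingHom.mapMatrix_apply] at h2
  rw [h0]
  refine Eq.trans ?_ h2.symm
  congr 1
  ext i j
  obtain ⟨b, a⟩ := j
  fin_cases a <;> simp [A_T, A_L, A_cast]

/-- Lagrange bases -/
theorem A5_lagrange (A B C : ℚ[X] →ₗ[ℚ] ℚ) (θ₁ θ₂ : ℝ) (m : ℕ) (z : ℕ → ℚ)
    (hz : Set.InjOn z (Finset.range (3 * m))) :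
    ((Matrix.of fun i j : Fin (3 * m) =>
      if j.1 < m then
        ((A (lag (Finset.range (3 * m)) z i.1 * lag (Finset.range m) z j.1) : ℚ) : ℝ) +
          θ₁ * ((B (lag (Finset.range (3 * m)) z i.1 * lag (Finset.range m) z j.1) : ℚ) : ℝ) +
          θ₂ * ((C (lag (Finset.range (3 * m)) z i.1 * lag (Finset.range m) z j.1) : ℚ) : ℝ)
      else if j.1 < 2 * m then
        ((B (lag (Finset.range (3 * m)) z i.1 * lag (Finset.Ico m (2 * m)) z j.1) : ℚ) : ℝ)
      else ((C (lag (Finset.range (3 * m)) z i.1 * lag (Finset.Ico (2 * m) (3 * m)) z j.1) : ℚ) : ℝ)).det) ^ 2 =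
    ((MD3 A B C m : ℚ) : ℝ) ^ 2 * (VD (Finset.range (3 * m)) z * VD (Finset.range m) z *
      VD (Finset.Ico m (2 * m)) z * VD (Finset.Ico (2 * m) (3 * m)) z) := by
  obtain ⟨A', hA'⟩ : ∃ A' : ℚ[X] →ₗ[ℚ] ℝ, ∀ F, A' F = A_cast A F + θ₁ * A_cast B F + θ₂ * A_cast C F :=
    ⟨A_cast A + θ₁ • A_cast B + θ₂ • A_cast C, fun F => by
      simp [LinearMap.add_apply, LinearMap.smul_apply]⟩
  have hr1 : Finset.range (3 * m) = Finset.Ico 0 (0 + 3 * m) := by
    rw [Finset.range_eq_Ico, zero_add]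
  have hr2 : Finset.range m = Finset.Ico 0 (0 + m) := by rw [Finset.range_eq_Ico, zero_add]
  have hr3 : Finset.Ico m (2 * m) = Finset.Ico m (m + m) := by rw [two_mul]
  have hr4 : Finset.Ico (2 * m) (3 * m) = Finset.Ico (2 * m) (2 * m + m) := by
    congr 1
    ring
  have hdeg : ∀ (a N : ℕ), ∀ i < N, (lag (Finset.Ico a (a + N)) z (a + i)).natDegree < N := by
    intro a N i hi
    have := A5_lag a N z ⟨i, hi⟩
    simp only at this
    change (Pool.Agent.LZ.lag (Finset.Ico a (a + N)) z (a + i)).natDegree < N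
    rw [this]
    exact A5_deg _ _
  have hG := A_gen3 A' (A_cast B) (A_cast C) m (fun i => lag (Finset.Ico 0 (0 + 3 * m)) z (0 + i))
    (fun i => lag (Finset.Ico 0 (0 + m)) z (0 + i)) (fun i => lag (Finset.Ico m (m + m)) z (m + i))
    (fun i => lag (Finset.Ico (2 * m) (2 * m + m)) z (2 * m + i))
    (hdeg 0 (3 * m)) (hdeg 0 m) (hdeg m m) (hdeg (2 * m) m)
  have hmat : (Matrix.of fun i j : Fin (3 * m) =>
      if j.1 < m then
        ((A (lag (Finset.range (3 * m)) z i.1 * lag (Finset.range m) z j.1) : ℚ) : ℝ) +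
          θ₁ * ((B (lag (Finset.range (3 * m)) z i.1 * lag (Finset.range m) z j.1) : ℚ) : ℝ) +
          θ₂ * ((C (lag (Finset.range (3 * m)) z i.1 * lag (Finset.range m) z j.1) : ℚ) : ℝ)
      else if j.1 < 2 * m then
        ((B (lag (Finset.range (3 * m)) z i.1 * lag (Finset.Ico m (2 * m)) z j.1) : ℚ) : ℝ)
      else ((C (lag (Finset.range (3 * m)) z i.1 * lag (Finset.Ico (2 * m) (3 * m)) z j.1) : ℚ) : ℝ)) =
      (Matrix.of fun i j : Fin (3 * m) =>
      if j.1 < m then A' ((fun i => lag (Finset.Ico 0 (0 + 3 * m)) z (0 + i)) i.1 *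
        (fun i => lag (Finset.Ico 0 (0 + m)) z (0 + i)) j.1)
      else if j.1 < 2 * m then (A_cast B) ((fun i => lag (Finset.Ico 0 (0 + 3 * m)) z (0 + i)) i.1 *
        (fun i => lag (Finset.Ico m (m + m)) z (m + i)) (j.1 - m))
      else (A_cast C) ((fun i => lag (Finset.Ico 0 (0 + 3 * m)) z (0 + i)) i.1 *
        (fun i => lag (Finset.Ico (2 * m) (2 * m + m)) z (2 * m + i)) (j.1 - 2 * m))) := by
    ext i j
    rw [Matrix.of_apply, Matrix.of_apply]
    simp only [← hr1, ← hr2, ← hr3, ← hr4]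
    by_cases h : j.1 < m
    · rw [if_pos h, if_pos h, hA', zero_add, zero_add]
      rfl
    · rw [if_neg h, if_neg h]
      by_cases h' : j.1 < 2 * m
      · rw [if_pos h', if_pos h', zero_add, Nat.add_sub_cancel' (by omega)]
        rfl
      · rw [if_neg h', if_neg h', zero_add, Nat.add_sub_cancel' (by omega)]
        rfl
  rw [hmat, hG, A_MD3, A_col (A_cast A) (A_cast B) (A_cast C) A' θ₁ θ₂ hA' m, A_cast_det]
  rw [mul_pow, mul_pow, mul_pow, mul_pow, A_cm_sq 0 (3 * m) z (by rw [← hr1]; exact hz),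
    A_cm_sq 0 m z (by
      rw [← hr2]
      exact hz.mono (by intro i hi; simp only [Finset.coe_range, Set.mem_Iio] at hi ⊢; omega)),
    A_cm_sq m m z (by
      rw [← hr3]
      exact hz.mono (by
        intro i hi
        simp only [Finset.coe_range, Set.mem_Iio, Finset.coe_Ico, Set.mem_Ico] at hi ⊢
        omega)),
    A_cm_sq (2 * m) m z (by
      rw [← hr4]
      exact hz.mono (by
        intro i hi
        simp only [Finset.coe_range, Set.mem_Iio, Finset.coe_Ico, Set.mem_Ico] at hi ⊢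
        omega)), hr1, hr2, hr3, hr4]
  ring

end

end Pool.Agent.H574R2.Q4
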