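import Pool.Agent.H574R2.Q4.Defs
import Pool.Agent.H337R2.LZ.A3

/-! Assembly of the archimedean part (three blocks), with the statements of the other tasks as hypotheses.
Adapted from `H574R2/D9/AM.lean` (helper220). -/

set_option maxHeartbeats 4000000

open Polynomial Pool.Agent.H337R2 Filter Topology

namespace Pool.Agent.H574R2.Q4

noncomputable section

namespace AM

/-- statement of `A5_lagrange` -/
def SA5 : Prop := ∀ (A B C : ℚ[X] →ₗ[ℚ] ℚ) (θ₁ θ₂ : ℝ) (m : ℕ) (z : ℕ → ℚ)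
    (_ : Set.InjOn z (Finset.range (3 * m))),
    ((Matrix.of fun i j : Fin (3 * m) =>
      if j.1 < m then
        ((A (lag (Finset.range (3 * m)) z i.1 * lag (Finset.range m) z j.1) : ℚ) : ℝ) +
          θ₁ * ((B (lag (Finset.range (3 * m)) z i.1 * lag (Finset.range m) z j.1) : ℚ) : ℝ) +
          θ₂ * ((C (lag (Finset.range (3 * m)) z i.1 * lag (Finset.range m) z j.1) : ℚ) : ℝ)
      else if j.1 < 2 * m then
        ((B (lag (Finset.range (3 * m)) z i.1 * lag (Finset.Ico m (2 * m)) z j.1) : ℚ) : ℝ)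
      else ((C (lag (Finset.range (3 * m)) z i.1 * lag (Finset.Ico (2 * m) (3 * m)) z j.1) : ℚ) : ℝ)).det) ^ 2 =
    ((MD3 A B C m : ℚ) : ℝ) ^ 2 * (VD (Finset.range (3 * m)) z * VD (Finset.range m) z *
      VD (Finset.Ico m (2 * m)) z * VD (Finset.Ico (2 * m) (3 * m)) z)

/-- statement of `G0_zq_inj` -/
def SG0z : Prop := ∀ {n : ℕ} (_ : 30 ≤ n), Set.InjOn (zq n) (Finset.range (36 * n - 72))

/-- statement of `G0_nd_X` -/
def SG0X : Prop := ∀ {n i : ℕ} (_ : 30 ≤ n) (_ : 9 * n - 1 ≤ i) (_ : i < 12 * n - 24),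
    1200 * n ≤ nd n i ∧ nd n i < 1404 * n

/-- statement of `G0_nd_Y` -/
def SG0Y : Prop := ∀ {n i : ℕ} (_ : 30 ≤ n) (_ : 12 * n - 24 ≤ i) (_ : i < 36 * n - 72),
    0 ≤ nd n i ∧ nd n i < 81 * n

/-- statement of `G1_entryN` -/
def SG1 : Prop := ∀ {n : ℕ} (_ : 30 ≤ n) (α β γ : ℕ → ℚ) (θ₁ θ₂ : ℝ)
    (_ : ∀ i, Odd i → 3 ≤ i → i ≤ 75 → zr i = (α i : ℝ) + θ₁ * (β i : ℝ) + θ₂ * (γ i : ℝ)) (MM : ℝ) (_ : 0 ≤ MM)
    (_ : ∀ v : ℕ, 12 * n ≤ v →
      wv n v * Real.exp (Lp n (Finset.range (36 * n - 72)) (100 * v) + Lp n (Finset.range (12 * n - 24)) (100 * v)) ≤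
        MM / (v : ℝ) ^ 2)
    (i j : ℕ) (_ : i < 36 * n - 72) (_ : j < 12 * n - 24),
    |((AL n α (lag (Finset.range (36 * n - 72)) (zq n) i * lag (Finset.range (12 * n - 24)) (zq n) j) : ℚ) : ℝ) + θ₁ *
      ((BL n β (lag (Finset.range (36 * n - 72)) (zq n) i * lag (Finset.range (12 * n - 24)) (zq n) j) : ℚ) : ℝ) + θ₂ *
      ((BL n γ (lag (Finset.range (36 * n - 72)) (zq n) i * lag (Finset.range (12 * n - 24)) (zq n) j) : ℚ) : ℝ)| ≤
    (if j < 9 * n - 1 then wv n (3 * n + 1 + j) *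
      Real.exp (Lp n (Finset.range (36 * n - 72)) (100 * (3 * n + 1 + j)) +
        Lp n (Finset.range (12 * n - 24)) (100 * (3 * n + 1 + j))) else 0) + 1000 * MM

/-- statement of `G2_entryY` -/
def SG2 : Prop := ∀ (β : ℕ → ℚ), ∃ C : ℝ, 0 < C ∧ ∀ n : ℕ, 30 ≤ n → ∀ a b : ℕ,
    (a = 12 * n - 24 ∧ b = 24 * n - 48 ∨ a = 24 * n - 48 ∧ b = 36 * n - 72) → ∀ MY : ℝ,
    (∀ u : ℤ, |u| ≤ n → n * phi (100 * (u : ℝ) / n) + Lp n (Finset.range (36 * n - 72)) (100 * u) +
      Lp n (Finset.Ico a b) (100 * u) ≤ MY) →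
    ∀ i < 36 * n - 72, ∀ j, a ≤ j → j < b →
    |((BL n β (lag (Finset.range (36 * n - 72)) (zq n) i * lag (Finset.Ico a b) (zq n) j) : ℚ) : ℝ)| ≤
      Real.exp (MY + C * Real.log n)

/-- statement of `G3_Lp` -/
def SG3 : Prop := ∃ C : ℝ, 0 < C ∧ ∀ n : ℕ, 30 ≤ n → ∀ a b : ℕ, a ≤ b → b ≤ 12 → ∀ u : ℤ,
    |Lp n (Finset.Ico (a * (3 * n - 6)) (b * (3 * n - 6))) u -
      (n * ∑ g ∈ Finset.Ico a b, Ub g ((u : ℝ) / n) + 6 * (b - a) * n * Real.log n)| ≤ C * Real.log (n + |(u : ℝ)|)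

/-- statement of `G4_weight` -/
def SG4 : Prop := ∃ C : ℝ, 0 < C ∧ ∀ n : ℕ, 30 ≤ n → ∀ v : ℕ, 3 * n < v →
    |Real.log (wv n v) - n * phi (100 * (v : ℝ) / n)| ≤ C * Real.log (n + v)

/-- statement of `G5_sat` -/
def SG5 : Prop := ∃ C : ℝ, 0 < C ∧ ∀ n : ℕ, 30 ≤ n →
    ∑ i ∈ Finset.range (9 * n - 1), (Real.log (wv n (3 * n + 1 + i)) + Lp n (Finset.range (9 * n - 1)) (100 * (3 * n + 1 + i))) ≤
      eS * (n : ℝ) ^ 2 + 162 * (n : ℝ) ^ 2 * Real.log n + C * n * Real.log n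

/-- statement of `G6_pair` -/
def SG6 : Prop := ∃ C : ℝ, 0 < C ∧ ∀ n : ℕ, 30 ≤ n → ∀ g < 12, ∀ h < 12, ∀ o : ℤ, 0 ≤ o → o ≤ 1 →
    |∑ j ∈ Finset.range (3 * n - 6), Lp n (Finset.Ico (h * (3 * n - 6)) ((h + 1) * (3 * n - 6)))
        (bb g * n + cc g * (j : ℤ) + o) -
      (en g h * (n : ℝ) ^ 2 + 18 * (n : ℝ) ^ 2 * Real.log n)| ≤ C * n * Real.log n

/-- statement of `G6_cross` -/
def SG6c : Prop := ∀ {n : ℕ} (_ : 30 ≤ n),
    (Real.log (VD (Finset.range (36 * n - 72)) (zq n)) + Real.log (VD (Finset.range (12 * n - 24)) (zq n)) +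
      Real.log (VD (Finset.Ico (12 * n - 24) (24 * n - 48)) (zq n)) +
      Real.log (VD (Finset.Ico (24 * n - 48) (36 * n - 72)) (zq n))) / 2 ≥
    ∑ i ∈ Finset.range (9 * n - 1), (Lp n (Finset.range (36 * n - 72)) (nd n i) + Lp n (Finset.range (12 * n - 24)) (nd n i)
      - Lp n (Finset.range (9 * n - 1)) (nd n i)) +
    ∑ i ∈ Finset.Ico (9 * n - 1) (12 * n - 24), Lp n (Finset.Ico (9 * n - 1) (36 * n - 72)) (nd n i) +
    ∑ i ∈ Finset.Ico (12 * n - 24) (24 * n - 48), Lp n (Finset.Ico (12 * n - 24) (36 * n - 72)) (nd n i) +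
    ∑ i ∈ Finset.Ico (24 * n - 48) (36 * n - 72), Lp n (Finset.Ico (24 * n - 48) (36 * n - 72)) (nd n i)
      - 100 * n * Real.log (100 * n)

/-- statement of `V1_upper` -/
def SV1 : Prop := ∀ (w : ℝ) (_ : 1200 ≤ w), FN w ≤ -201

/-- statement of `V1_tail` -/
def SV1t : Prop := ∀ (w : ℝ) (_ : 10000 ≤ w), FN w ≤ -201 - 4 * (Real.log w - Real.log 10000)

/-- statement of `V2_lower` -/
def SV2 : Prop := ∀ (w : ℝ) (_ : 300 ≤ w) (_ : w ≤ 1200), -202 ≤ FN w

/-- statement of `V3_upperY` -/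
def SV3 : Prop := ∀ (w : ℝ) (_ : -100 ≤ w) (_ : w ≤ 100), FY w ≤ 68

/-- statement of `V4_eS` -/
def SV4 : Prop := eS ≤ -2725

/-- statement of `V5_eN` -/
def SV5 : Prop := -529 ≤ eN

lemma wv_pos (n : ℕ) {v : ℕ} (hv : 0 < v) : 0 < wv n v := by
  unfold wv
  have : (0 : ℝ) < v := by exact_mod_cast hv
  positivity

lemma cast_le {n : ℕ} (hn : 30 ≤ n) : (30 : ℝ) ≤ n := by exact_mod_cast hn

lemma log2_le {n : ℕ} (hn : 30 ≤ n) : Real.log 2 ≤ Real.log n :=
  Real.log_le_log (by norm_num) (by linarith [cast_le hn])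

lemma log3_le {n : ℕ} (hn : 30 ≤ n) : 3 ≤ Real.log n := by
  have h1 : (30 : ℝ) ≤ n := cast_le hn
  rw [Real.le_log_iff_exp_le (by linarith)]
  have h2 : Real.exp 3 = Real.exp 1 ^ 3 := by
    rw [← Real.exp_nat_mul]; norm_num
  have h3 := Real.exp_one_lt_d9
  have h4 : Real.exp 1 ^ 3 ≤ 3 ^ 3 := by
    apply pow_le_pow_left₀ (Real.exp_pos _).le
    linarith
  rw [h2]
  linarith

/-- any constant is `O(log n)` -/
lemma const_le (c : ℝ) : ∃ K : ℝ, 0 ≤ K ∧ ∀ n : ℕ, 30 ≤ n → c ≤ K * Real.log n := by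
  have hl2 : 0 < Real.log 2 := Real.log_pos (by norm_num)
  refine ⟨|c| / Real.log 2, by positivity, fun n hn => ?_⟩
  calc c ≤ |c| := le_abs_self _
    _ = |c| / Real.log 2 * Real.log 2 := by field_simp
    _ ≤ _ := by
      have := log2_le hn
      gcongr

/-- `log (2^a y) ≤ (a+1) log y` if `log 2 ≤ log y` -/
lemma log_pow_mul {x y : ℝ} (a : ℕ) (hx : 0 < x) (hy : 0 < y) (h2 : Real.log 2 ≤ Real.log y)
    (h : x ≤ 2 ^ a * y) : Real.log x ≤ (a + 1) * Real.log y := by
  have e1 : Real.log x ≤ Real.log (2 ^ a * y) := Real.log_le_log hx h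
  rw [Real.log_mul (by positivity) hy.ne', Real.log_pow] at e1
  have : (a : ℝ) * Real.log 2 ≤ a * Real.log y := by gcongr
  linarith

lemma e12 (n : ℕ) : 12 * n - 24 = 4 * (3 * n - 6) := by omega
lemma e24 (n : ℕ) : 24 * n - 48 = 8 * (3 * n - 6) := by omega
lemma e36 (n : ℕ) : 36 * n - 72 = 12 * (3 * n - 6) := by omega

lemma range4 (n : ℕ) : Finset.range (12 * n - 24) = Finset.Ico (0 * (3 * n - 6)) (4 * (3 * n - 6)) := by
  rw [Nat.zero_mul, Finset.range_eq_Ico, e12]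

lemma range12 (n : ℕ) : Finset.range (36 * n - 72) = Finset.Ico (0 * (3 * n - 6)) (12 * (3 * n - 6)) := by
  rw [Nat.zero_mul, Finset.range_eq_Ico, e36]

lemma Ub_shift (w : ℝ) : ∑ g ∈ Finset.Ico 8 12, Ub g w = ∑ g ∈ Finset.Ico 4 8, Ub g w := by
  have h : ∀ g ∈ Finset.Ico 4 8, Ub (g + 4) w = Ub g w := by
    intro g hg
    rw [Finset.mem_Ico] at hg
    obtain ⟨h1, h2⟩ := hg
    interval_cases g <;> rfl
  have : Finset.Ico 8 12 = (Finset.Ico 4 8).map (addRightEmbedding 4) := by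
    rw [Finset.map_add_right_Ico]
  rw [this, Finset.sum_map]
  exact Finset.sum_congr rfl h

lemma Ub_total (w : ℝ) : ∑ g ∈ Finset.Ico 0 12, Ub g w =
    ∑ g ∈ Finset.range 4, Ub g w + 2 * ∑ g ∈ Finset.Ico 4 8, Ub g w := by
  have h1 : ∑ g ∈ Finset.Ico 0 12, Ub g w = ∑ g ∈ Finset.Ico 0 4, Ub g w + ∑ g ∈ Finset.Ico 4 8, Ub g w +
      ∑ g ∈ Finset.Ico 8 12, Ub g w := by
    rw [Finset.sum_Ico_consecutive _ (by norm_num) (by norm_num),
      Finset.sum_Ico_consecutive _ (by norm_num) (by norm_num)]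
  rw [h1, Ub_shift, Finset.range_eq_Ico]
  ring

/-- the total potential of the zeta part at the lattice points -/
lemma pot (G3 : SG3) (G4 : SG4) : ∃ C : ℝ, 0 < C ∧ ∀ n : ℕ, 30 ≤ n → ∀ v : ℕ, 3 * n < v →
    |Real.log (wv n v) + (Lp n (Finset.range (36 * n - 72)) (100 * v) + Lp n (Finset.range (12 * n - 24)) (100 * v)) -
      (n * FN (100 * (v : ℝ) / n) + 96 * n * Real.log n)| ≤ C * Real.log (n + v) := by
  obtain ⟨C3, hC3, h3⟩ := G3
  obtain ⟨C4, hC4, h4⟩ := G4
  refine ⟨C4 + 16 * C3, by positivity, fun n hn t ht => ?_⟩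
  have hn' := cast_le hn
  have ht0 : (0 : ℝ) ≤ t := Nat.cast_nonneg t
  have hl2 : 0 < Real.log 2 := Real.log_pos (by norm_num)
  have hl : Real.log 2 ≤ Real.log (n + t) := Real.log_le_log (by norm_num) (by linarith)
  have a1 := abs_le.mp (h4 n hn t ht)
  have a2 := abs_le.mp (h3 n hn 0 12 (by norm_num) le_rfl (100 * (t : ℤ)))
  have a3 := abs_le.mp (h3 n hn 0 4 (by norm_num) (by norm_num) (100 * (t : ℤ)))
  rw [← range12] at a2
  rw [← range4] at a3
  push_cast at a2 a3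
  have habs : |100 * (t : ℝ)| = 100 * t := abs_of_nonneg (by positivity)
  rw [habs] at a2 a3
  have hlog : Real.log ((n : ℝ) + 100 * t) ≤ 8 * Real.log (n + t) := by
    have := log_pow_mul (x := (n : ℝ) + 100 * t) (y := n + t) 7 (by linarith) (by linarith) hl
      (by linarith)
    push_cast at this
    linarith
  rw [Ub_total] at a2
  rw [← Finset.range_eq_Ico] at a3
  have hC3l : C3 * Real.log ((n : ℝ) + 100 * t) ≤ 8 * (C3 * Real.log (n + t)) := by
    calc C3 * Real.log ((n : ℝ) + 100 * t) ≤ C3 * (8 * Real.log (n + t)) := by gcongr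
      _ = _ := by ring
  have hs8 : ∑ g ∈ Finset.range 8, Ub g (100 * (t : ℝ) / n) =
      ∑ g ∈ Finset.range 4, Ub g (100 * (t : ℝ) / n) + ∑ g ∈ Finset.Ico 4 8, Ub g (100 * (t : ℝ) / n) := by
    rw [Finset.range_eq_Ico, Finset.range_eq_Ico, Finset.sum_Ico_consecutive _ (by norm_num) (by norm_num)]
  have e2 : (n : ℝ) * FN (100 * (t : ℝ) / n) + 96 * n * Real.log n =
      n * phi (100 * (t : ℝ) / n) +
      (n * (∑ g ∈ Finset.range 4, Ub g (100 * (t : ℝ) / n) + 2 * ∑ g ∈ Finset.Ico 4 8, Ub g (100 * (t : ℝ) / n)) +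
        6 * 12 * n * Real.log n) +
      (n * ∑ g ∈ Finset.range 4, Ub g (100 * (t : ℝ) / n) + 6 * 4 * n * Real.log n) := by
    unfold FN
    rw [hs8]
    ring
  have e3 : (C4 + 16 * C3) * Real.log ((n : ℝ) + t) = C4 * Real.log (n + t) +
      8 * (C3 * Real.log (n + t)) + 8 * (C3 * Real.log (n + t)) := by ring
  rw [e2, e3, abs_le]
  simp only [sub_zero] at a2 a3
  constructor <;> linarith

/-- the total potential of the pole parts at the poles -/
lemma potY (G3 : SG3) (V3 : SV3) : ∃ C : ℝ, 0 < C ∧ ∀ n : ℕ, 30 ≤ n → ∀ a b : ℕ,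
    (a = 12 * n - 24 ∧ b = 24 * n - 48 ∨ a = 24 * n - 48 ∧ b = 36 * n - 72) → ∀ u : ℤ, |u| ≤ n →
    n * phi (100 * (u : ℝ) / n) + Lp n (Finset.range (36 * n - 72)) (100 * u) +
      Lp n (Finset.Ico a b) (100 * u) ≤
      68 * n + 96 * n * Real.log n + C * Real.log n := by
  obtain ⟨C3, hC3, h3⟩ := G3
  refine ⟨16 * C3, by positivity, fun n hn a b hab u hu => ?_⟩
  have hn' := cast_le hn
  have hn0 : (0 : ℝ) < n := by linarith
  have hl2 : 0 < Real.log 2 := Real.log_pos (by norm_num)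
  have hl := log2_le hn
  have hu' : |(u : ℝ)| ≤ n := by exact_mod_cast hu
  have hu1 := abs_le.mp hu'
  have a2 := (abs_le.mp (h3 n hn 0 12 (by norm_num) le_rfl (100 * u))).2
  have a3 : Lp n (Finset.Ico a b) (100 * u) ≤
      n * ∑ g ∈ Finset.Ico 4 8, Ub g (((100 * u : ℤ) : ℝ) / n) + 6 * 4 * n * Real.log n +
        C3 * Real.log (n + |((100 * u : ℤ) : ℝ)|) := by
    rcases hab with ⟨rfl, rfl⟩ | ⟨rfl, rfl⟩
    · have := (abs_le.mp (h3 n hn 4 8 (by norm_num) (by norm_num) (100 * u))).2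
      rw [← e12, ← e24] at this
      push_cast at this ⊢
      linarith
    · have := (abs_le.mp (h3 n hn 8 12 (by norm_num) (by norm_num) (100 * u))).2
      rw [← e24, ← e36, Ub_shift] at this
      push_cast at this ⊢
      linarith
  rw [← range12] at a2
  push_cast at a2 a3
  have habs : |100 * (u : ℝ)| = 100 * |(u : ℝ)| := by rw [abs_mul]; norm_num
  rw [habs] at a2 a3
  have hab0 := abs_nonneg (u : ℝ)
  have hlog : Real.log ((n : ℝ) + 100 * |(u : ℝ)|) ≤ 8 * Real.log n := by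
    have := log_pow_mul (x := (n : ℝ) + 100 * |(u : ℝ)|) (y := n) 7 (by linarith) hn0 hl
      (by linarith)
    push_cast at this
    linarith
  rw [Ub_total] at a2
  have hC3l : C3 * Real.log ((n : ℝ) + 100 * |(u : ℝ)|) ≤ 8 * (C3 * Real.log n) := by
    calc C3 * Real.log ((n : ℝ) + 100 * |(u : ℝ)|) ≤ C3 * (8 * Real.log n) := by gcongr
      _ = _ := by ring
  have hw1 : -100 ≤ 100 * (u : ℝ) / n := by
    rw [le_div_iff₀ hn0]; linarith
  have hw2 : 100 * (u : ℝ) / n ≤ 100 := by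
    rw [div_le_iff₀ hn0]; linarith
  have hF := mul_le_mul_of_nonneg_left (V3 _ hw1 hw2) hn0.le
  unfold FY at hF
  have e3 : 16 * C3 * Real.log n = 8 * (C3 * Real.log n) + 8 * (C3 * Real.log n) := by ring
  rw [e3]
  simp only [sub_zero] at a2
  have e4 : (n : ℝ) * (phi (100 * (u : ℝ) / n) + ∑ g ∈ Finset.range 4, Ub g (100 * (u : ℝ) / n) +
      3 * ∑ g ∈ Finset.Ico 4 8, Ub g (100 * (u : ℝ) / n)) = n * phi (100 * (u : ℝ) / n) +
      n * (∑ g ∈ Finset.range 4, Ub g (100 * (u : ℝ) / n) + 2 * ∑ g ∈ Finset.Ico 4 8, Ub g (100 * (u : ℝ) / n)) +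
      n * ∑ g ∈ Finset.Ico 4 8, Ub g (100 * (u : ℝ) / n) := by ring
  rw [e4] at hF
  linarith

/-- the sup bound over the points outside of the saturated part -/
lemma supN (G3 : SG3) (G4 : SG4) (V1 : SV1) (V1t : SV1t) : ∃ K : ℝ, 0 ≤ K ∧ ∀ᶠ n : ℕ in atTop,
    ∀ v : ℕ, 12 * n ≤ v →
    wv n v * Real.exp (Lp n (Finset.range (36 * n - 72)) (100 * v) + Lp n (Finset.range (12 * n - 24)) (100 * v)) ≤
      Real.exp (-201 * n + 96 * n * Real.log n + K * Real.log n) / (v : ℝ) ^ 2 := by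
  obtain ⟨C, hC, h⟩ := pot G3 G4
  obtain ⟨n0, hn0⟩ := exists_nat_ge (C + 2)
  obtain ⟨K1, hK1, hK⟩ := const_le ((C + 2) * Real.log 10000)
  refine ⟨(C + 2) + K1, by positivity, ?_⟩
  filter_upwards [eventually_ge_atTop 30, eventually_ge_atTop n0] with n hn hnn t ht
  have hn' := cast_le hn
  have hnp : (0 : ℝ) < n := by linarith
  have ht' : 12 * (n : ℝ) ≤ t := by exact_mod_cast ht
  have ht1 : (0 : ℝ) < t := by linarith
  have ht2 : 0 < t := by omega
  have hCn : C + 2 ≤ n := hn0.trans (by exact_mod_cast hnn)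
  have hl2 : 0 < Real.log 2 := Real.log_pos (by norm_num)
  have hl := log2_le hn
  set L := Lp n (Finset.range (36 * n - 72)) (100 * t) + Lp n (Finset.range (12 * n - 24)) (100 * t) with hL
  rw [le_div_iff₀ (by positivity)]
  have hwp := wv_pos n ht2
  have e1 : wv n t * Real.exp L * (t : ℝ) ^ 2 =
      Real.exp (Real.log (wv n t) + L + 2 * Real.log t) := by
    rw [Real.exp_add (Real.log (wv n t) + L), Real.exp_add (Real.log (wv n t)) L, Real.exp_log hwp,
      show 2 * Real.log (t : ℝ) = Real.log ((t : ℝ) ^ 2) by rw [Real.log_pow]; norm_num,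
      Real.exp_log (by positivity)]
  rw [e1]
  apply Real.exp_le_exp.mpr
  have a1 := (abs_le.mp (h n hn t (by omega))).2
  rw [← hL] at a1
  have a2 : Real.log (t : ℝ) ≤ Real.log (n + t) := Real.log_le_log ht1 (by linarith)
  set w : ℝ := 100 * (t : ℝ) / n with hw
  have htw : (t : ℝ) = n * w / 100 := by rw [hw]; field_simp
  have hw20 : 1200 ≤ w := by rw [hw, le_div_iff₀ hnp]; linarith
  have hKn := hK n hn
  rcases le_total w 10000 with hw1 | hw1
  · have a3 := mul_le_mul_of_nonneg_left (V1 w hw20) hnp.le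
    have a4 : Real.log ((n : ℝ) + t) ≤ Real.log n + Real.log 10000 := by
      rw [← Real.log_mul hnp.ne' (by norm_num)]
      apply Real.log_le_log (by linarith)
      rw [htw]
      nlinarith
    have a5 : (C + 2) * Real.log ((n : ℝ) + t) ≤ (C + 2) * (Real.log n + Real.log 10000) := by gcongr
    nlinarith
  · have a3 := mul_le_mul_of_nonneg_left (V1t w hw1) hnp.le
    have hwp' : 0 < w := by linarith
    have a4 : Real.log ((n : ℝ) + t) ≤ Real.log n + Real.log w := by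
      rw [← Real.log_mul hnp.ne' hwp'.ne']
      apply Real.log_le_log (by linarith)
      rw [htw]
      nlinarith
    have a5 : (C + 2) * Real.log ((n : ℝ) + t) ≤ (C + 2) * (Real.log n + Real.log w) := by gcongr
    have a6 : 0 ≤ Real.log w - Real.log 10000 := by
      have := Real.log_le_log (by norm_num : (0 : ℝ) < 10000) hw1
      linarith
    have a7 : (C + 2) * (Real.log w - Real.log 10000) ≤ n * (Real.log w - Real.log 10000) := by gcongr
    have a8 : 0 ≤ (n : ℝ) * (Real.log w - Real.log 10000) := by positivity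
    nlinarith

/-- lower bound at the saturated nodes -/
lemma lowN (G3 : SG3) (G4 : SG4) (V2 : SV2) : ∃ K : ℝ, 0 ≤ K ∧ ∀ n : ℕ, 30 ≤ n → ∀ v : ℕ, 3 * n < v →
    v < 12 * n + 1 → -202 * n + 96 * n * Real.log n - K * Real.log n ≤ Real.log (wv n v) +
      (Lp n (Finset.range (36 * n - 72)) (100 * v) + Lp n (Finset.range (12 * n - 24)) (100 * v)) := by
  obtain ⟨C, hC, h⟩ := pot G3 G4
  refine ⟨5 * C, by positivity, fun n hn t ht1 ht2 => ?_⟩
  have hn' := cast_le hn
  have hnp : (0 : ℝ) < n := by linarith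
  have ht' : (t : ℝ) ≤ 12 * n := by exact_mod_cast (by omega : t ≤ 12 * n)
  have ht'' : 3 * (n : ℝ) ≤ t := by exact_mod_cast ht1.le
  have hl2 : 0 < Real.log 2 := Real.log_pos (by norm_num)
  have hl := log2_le hn
  have a1 := (abs_le.mp (h n hn t ht1)).1
  have hw0 : 300 ≤ 100 * (t : ℝ) / n := by rw [le_div_iff₀ hnp]; linarith
  have hw1 : 100 * (t : ℝ) / n ≤ 1200 := by rw [div_le_iff₀ hnp]; linarith
  have a2 := mul_le_mul_of_nonneg_left (V2 _ hw0 hw1) hnp.le
  have a3 : Real.log ((n : ℝ) + t) ≤ 5 * Real.log n := by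
    have := log_pow_mul (x := (n : ℝ) + t) (y := n) 4 (by linarith) hnp hl (by linarith)
    push_cast at this
    linarith
  have a4 : C * Real.log ((n : ℝ) + t) ≤ C * (5 * Real.log n) := by gcongr
  linarith

lemma blocks (n : ℕ) (f : ℕ → ℝ) (a b : ℕ) (hab : a ≤ b) :
    ∑ i ∈ Finset.Ico (a * n) (b * n), f i =
      ∑ g ∈ Finset.Ico a b, ∑ j ∈ Finset.range n, f (g * n + j) := by
  induction b, hab using Nat.le_induction with
  | base => simp
  | succ b hab ih =>
    rw [Finset.sum_Ico_succ_top hab, ← ih]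
    rw [← Finset.sum_Ico_consecutive f (Nat.mul_le_mul_right n hab)
      (Nat.mul_le_mul_right n (Nat.le_succ b))]
    congr 1
    rw [Finset.sum_Ico_eq_sum_range]
    have : (b + 1) * n - b * n = n := by
      rw [Nat.succ_mul]; omega
    rw [this]

/-- nodes of the bricks -/
def ndb (n : ℕ) (o : ℤ) (i : ℕ) : ℤ :=
  bb (i / (3 * n - 6)) * n + cc (i / (3 * n - 6)) * ((i % (3 * n - 6) : ℕ) : ℤ) + o

lemma nd_eq_ndb0 {n i : ℕ} (h : 9 * n - 1 ≤ i) (h2 : i < 24 * n - 48) : nd n i = ndb n 0 i := by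
  unfold nd ndb
  rw [if_neg (by omega), if_neg (by omega)]

lemma nd_eq_ndb1 {n i : ℕ} (hn : 30 ≤ n) (h : 24 * n - 48 ≤ i) : nd n i = ndb n 1 i := by
  unfold nd ndb
  rw [if_neg (by omega), if_pos h]

lemma nd_sat {n i : ℕ} (h : i < 9 * n - 1) : nd n i = 100 * (3 * n + 1 + i) := by
  unfold nd
  rw [if_pos h]

lemma ndb_block {n g j : ℕ} {o : ℤ} (hj : j < 3 * n - 6) :
    ndb n o (g * (3 * n - 6) + j) = bb g * n + cc g * (j : ℤ) + o := by
  have hn0 : 0 < 3 * n - 6 := by omega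
  unfold ndb
  have h1 : (g * (3 * n - 6) + j) / (3 * n - 6) = g := by
    rw [Nat.mul_comm, Nat.mul_add_div hn0, Nat.div_eq_of_lt hj, add_zero]
  have h2 : (g * (3 * n - 6) + j) % (3 * n - 6) = j := by
    rw [Nat.mul_comm, Nat.mul_add_mod, Nat.mod_eq_of_lt hj]
  rw [h1, h2]

lemma Lp_blocks (n a b : ℕ) (hab : a ≤ b) (u : ℤ) :
    Lp n (Finset.Ico (a * (3 * n - 6)) (b * (3 * n - 6))) u =
      ∑ h ∈ Finset.Ico a b, Lp n (Finset.Ico (h * (3 * n - 6)) ((h + 1) * (3 * n - 6))) u := by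
  unfold Lp
  rw [blocks (3 * n - 6) _ a b hab]
  apply Finset.sum_congr rfl
  intro h _
  rw [blocks (3 * n - 6) _ h (h + 1) (by omega)]
  simp

/-- mutual energy of two families of bricks -/
lemma energy {C : ℝ} (hC : 0 < C) {n : ℕ} (hn : 30 ≤ n) {o : ℤ}
    (h6 : ∀ g < 12, ∀ h < 12,
      |∑ j ∈ Finset.range (3 * n - 6), Lp n (Finset.Ico (h * (3 * n - 6)) ((h + 1) * (3 * n - 6)))
        (bb g * n + cc g * (j : ℤ) + o) -
      (en g h * (n : ℝ) ^ 2 + 18 * (n : ℝ) ^ 2 * Real.log n)| ≤ C * n * Real.log n)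
    (a b c d : ℕ) (hab : a ≤ b) (hb : b ≤ 12) (hcd : c ≤ d) (hd : d ≤ 12) :
    (∑ g ∈ Finset.Ico a b, ∑ h ∈ Finset.Ico c d, en g h) * (n : ℝ) ^ 2 +
      ((b - a : ℕ) : ℝ) * ((d - c : ℕ) : ℝ) * (18 * ((n : ℝ) ^ 2 * Real.log n)) - 144 * (C * n * Real.log n) ≤
    ∑ i ∈ Finset.Ico (a * (3 * n - 6)) (b * (3 * n - 6)),
      Lp n (Finset.Ico (c * (3 * n - 6)) (d * (3 * n - 6))) (ndb n o i) := by
  have hl2 : 0 < Real.log 2 := Real.log_pos (by norm_num)
  have hl := log2_le hn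
  have hE : 0 ≤ C * n * Real.log n := by positivity
  rw [blocks (3 * n - 6) _ a b hab]
  have e1 : ∑ g ∈ Finset.Ico a b, ∑ j ∈ Finset.range (3 * n - 6),
        Lp n (Finset.Ico (c * (3 * n - 6)) (d * (3 * n - 6))) (ndb n o (g * (3 * n - 6) + j)) =
      ∑ g ∈ Finset.Ico a b, ∑ h ∈ Finset.Ico c d, ∑ j ∈ Finset.range (3 * n - 6),
        Lp n (Finset.Ico (h * (3 * n - 6)) ((h + 1) * (3 * n - 6))) (bb g * n + cc g * (j : ℤ) + o) := by
    apply Finset.sum_congr rfl
    intro g _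
    rw [Finset.sum_comm]
    apply Finset.sum_congr rfl
    intro j hj
    rw [ndb_block (Finset.mem_range.mp hj), Lp_blocks n c d hcd]
  rw [e1]
  have e2 : (∑ g ∈ Finset.Ico a b, ∑ h ∈ Finset.Ico c d, en g h) * (n : ℝ) ^ 2 +
      ((b - a : ℕ) : ℝ) * ((d - c : ℕ) : ℝ) * (18 * ((n : ℝ) ^ 2 * Real.log n)) -
      ((b - a : ℕ) : ℝ) * ((d - c : ℕ) : ℝ) * (C * n * Real.log n) =
      ∑ g ∈ Finset.Ico a b, ∑ h ∈ Finset.Ico c d,
        (en g h * (n : ℝ) ^ 2 + 18 * (n : ℝ) ^ 2 * Real.log n - C * n * Real.log n) := by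
    simp only [Finset.sum_sub_distrib, Finset.sum_add_distrib, Finset.sum_const, Nat.card_Ico, nsmul_eq_mul,
      Finset.sum_mul]
    ring
  have e3 : ((b - a : ℕ) : ℝ) * ((d - c : ℕ) : ℝ) * (C * n * Real.log n) ≤ 144 * (C * n * Real.log n) := by
    apply mul_le_mul_of_nonneg_right _ hE
    have h1 : ((b - a : ℕ) : ℝ) ≤ 12 := by exact_mod_cast (by omega : b - a ≤ 12)
    have h2 : ((d - c : ℕ) : ℝ) ≤ 12 := by exact_mod_cast (by omega : d - c ≤ 12)
    calc ((b - a : ℕ) : ℝ) * ((d - c : ℕ) : ℝ) ≤ 12 * 12 := by gcongr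
      _ = 144 := by norm_num
  have e4 : ∑ g ∈ Finset.Ico a b, ∑ h ∈ Finset.Ico c d,
        (en g h * (n : ℝ) ^ 2 + 18 * (n : ℝ) ^ 2 * Real.log n - C * n * Real.log n) ≤
      ∑ g ∈ Finset.Ico a b, ∑ h ∈ Finset.Ico c d, ∑ j ∈ Finset.range (3 * n - 6),
        Lp n (Finset.Ico (h * (3 * n - 6)) ((h + 1) * (3 * n - 6))) (bb g * n + cc g * (j : ℤ) + o) := by
    apply Finset.sum_le_sum
    intro g hg
    apply Finset.sum_le_sum
    intro h hh
    rw [Finset.mem_Ico] at hg hh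
    have := (abs_le.mp (h6 g (by omega) h (by omega))).1
    linarith
  linarith

lemma log_le6 {n : ℕ} (hn : 30 ≤ n) {x : ℝ} (hx : |x| ≤ 29 * n) : Real.log x ≤ 6 * Real.log n := by
  have hn' := cast_le hn
  have hl2 : 0 < Real.log 2 := Real.log_pos (by norm_num)
  have hl := log2_le hn
  rw [← Real.log_abs]
  rcases eq_or_ne x 0 with h | h
  · rw [h, abs_zero, Real.log_zero]
    linarith
  · have := log_pow_mul (x := |x|) (y := n) 5 (abs_pos.mpr h) (by linarith) hl (by linarith)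
    push_cast at this
    linarith

lemma nd_bound (G0X : SG0X) (G0Y : SG0Y) {n i : ℕ} (hn : 30 ≤ n) (hi : i < 36 * n - 72) :
    0 ≤ nd n i ∧ nd n i ≤ 1404 * n := by
  by_cases h1 : i < 9 * n - 1
  · rw [nd_sat h1]
    constructor
    · positivity
    · have : (i : ℤ) ≤ 9 * n - 2 := by omega
      have h3 : (30 : ℤ) ≤ n := by exact_mod_cast hn
      linarith
  · by_cases h2 : i < 12 * n - 24
    · have := G0X hn (by omega) h2
      constructor
      · have h3 : (0 : ℤ) ≤ n := by positivity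
        linarith [this.1]
      · exact this.2.le
    · have := G0Y hn (by omega) hi
      have h3 : (0 : ℤ) ≤ n := by positivity
      constructor
      · exact this.1
      · linarith [this.2]

lemma term_le (G0X : SG0X) (G0Y : SG0Y) {n i : ℕ} (hn : 30 ≤ n) (hi : i < 36 * n - 72) {u : ℤ}
    (hu0 : 0 ≤ u) (hu : u ≤ 1404 * n) :
    Real.log (((u - nd n i : ℤ) : ℝ) / 100) + Real.log (((u + nd n i : ℤ) : ℝ) / 100) ≤ 12 * Real.log n := by
  obtain ⟨h1, h2⟩ := nd_bound G0X G0Y hn hi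
  have h1' : (0 : ℝ) ≤ nd n i := by exact_mod_cast h1
  have h2' : (nd n i : ℝ) ≤ 1404 * n := by exact_mod_cast h2
  have h3' : (0 : ℝ) ≤ u := by exact_mod_cast hu0
  have h4' : (u : ℝ) ≤ 1404 * n := by exact_mod_cast hu
  have hn0 : (0 : ℝ) ≤ n := Nat.cast_nonneg n
  have a1 : Real.log (((u - nd n i : ℤ) : ℝ) / 100) ≤ 6 * Real.log n := by
    apply log_le6 hn
    rw [abs_le]
    push_cast
    constructor <;> linarith
  have a2 : Real.log (((u + nd n i : ℤ) : ℝ) / 100) ≤ 6 * Real.log n := by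
    apply log_le6 hn
    rw [abs_le]
    push_cast
    constructor <;> linarith
  linarith

/-- crude bound of a partial potential -/
lemma Lp_le (G0X : SG0X) (G0Y : SG0Y) {n a b : ℕ} (hn : 30 ≤ n) (hb : b ≤ 36 * n - 72) {u : ℤ}
    (hu0 : 0 ≤ u) (hu : u ≤ 1404 * n) :
    Lp n (Finset.Ico a b) u ≤ ((b - a : ℕ) : ℝ) * (12 * Real.log n) := by
  unfold Lp
  calc _ ≤ ∑ i ∈ Finset.Ico a b, 12 * Real.log n := by
        apply Finset.sum_le_sum
        intro i hi
        rw [Finset.mem_Ico] at hi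
        exact term_le G0X G0Y hn (by omega) hu0 hu
    _ = _ := by rw [Finset.sum_const, Nat.card_Ico, nsmul_eq_mul]

lemma Lp_split (n a b c : ℕ) (hab : a ≤ b) (hbc : b ≤ c) (u : ℤ) :
    Lp n (Finset.Ico a c) u = Lp n (Finset.Ico a b) u + Lp n (Finset.Ico b c) u := by
  unfold Lp
  rw [Finset.sum_Ico_consecutive _ hab hbc]

/-- the energy of the first family, with the exact ranges -/
lemma energy1 (G0X : SG0X) (G0Y : SG0Y) {n : ℕ} (hn : 30 ≤ n) :
    ∑ i ∈ Finset.Ico (3 * (3 * n - 6)) (4 * (3 * n - 6)),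
        Lp n (Finset.Ico (3 * (3 * n - 6)) (12 * (3 * n - 6))) (ndb n 0 i) -
      6120 * (n * Real.log n) ≤
    ∑ i ∈ Finset.Ico (9 * n - 1) (12 * n - 24), Lp n (Finset.Ico (9 * n - 1) (36 * n - 72)) (nd n i) := by
  have hn' := cast_le hn
  have hl2 : 0 < Real.log 2 := Real.log_pos (by norm_num)
  have hl := log2_le hn
  have hln : 0 < Real.log n := by linarith
  have c1 : 3 * (3 * n - 6) ≤ 9 * n - 1 := by omega
  have c2 : 9 * n - 1 ≤ 4 * (3 * n - 6) := by omega
  have c3 : 9 * n - 1 ≤ 12 * (3 * n - 6) := by omega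
  rw [← Finset.sum_Ico_consecutive _ c1 c2]
  have hfirst : ∑ i ∈ Finset.Ico (3 * (3 * n - 6)) (9 * n - 1),
      Lp n (Finset.Ico (3 * (3 * n - 6)) (12 * (3 * n - 6))) (ndb n 0 i) ≤ 17 * (27 * n * (12 * Real.log n)) := by
    calc _ ≤ ∑ i ∈ Finset.Ico (3 * (3 * n - 6)) (9 * n - 1), 27 * (n : ℝ) * (12 * Real.log n) := by
          apply Finset.sum_le_sum
          intro i hi
          rw [Finset.mem_Ico] at hi
          obtain ⟨j, rfl⟩ := Nat.exists_eq_add_of_le hi.1
          have hj : j < 17 := by omega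
          rw [ndb_block (by omega)]
          have hb : bb 3 = 1200 := rfl
          have hc : cc 3 = 68 := rfl
          rw [hb, hc]
          have h30 : (30 : ℤ) ≤ n := by exact_mod_cast hn
          have hj' : (j : ℤ) < 17 := by exact_mod_cast hj
          refine (Lp_le G0X G0Y hn (by omega) (by positivity) (by push_cast; linarith)).trans ?_
          apply mul_le_mul_of_nonneg_right _ (by positivity)
          have : ((12 * (3 * n - 6) - 3 * (3 * n - 6) : ℕ) : ℝ) ≤ ((27 * n : ℕ) : ℝ) := by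
            exact_mod_cast (by omega : 12 * (3 * n - 6) - 3 * (3 * n - 6) ≤ 27 * n)
          push_cast at this
          exact this
      _ = ((9 * n - 1 - 3 * (3 * n - 6) : ℕ) : ℝ) * (27 * n * (12 * Real.log n)) := by
          rw [Finset.sum_const, Nat.card_Ico, nsmul_eq_mul]
      _ = 17 * (27 * n * (12 * Real.log n)) := by
          congr 1
          have : 9 * n - 1 - 3 * (3 * n - 6) = 17 := by omega
          rw [this]
          norm_num
  have hrest : ∑ i ∈ Finset.Ico (9 * n - 1) (4 * (3 * n - 6)),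
      Lp n (Finset.Ico (3 * (3 * n - 6)) (12 * (3 * n - 6))) (ndb n 0 i) ≤
      ∑ i ∈ Finset.Ico (9 * n - 1) (12 * n - 24), Lp n (Finset.Ico (9 * n - 1) (36 * n - 72)) (nd n i) +
        3 * n * (17 * (12 * Real.log n)) := by
    rw [← e12, ← e36]
    calc _ ≤ ∑ i ∈ Finset.Ico (9 * n - 1) (12 * n - 24),
          (Lp n (Finset.Ico (9 * n - 1) (36 * n - 72)) (nd n i) + 17 * (12 * Real.log n)) := by
          apply Finset.sum_le_sum
          intro i hi
          rw [Finset.mem_Ico] at hi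
          rw [← nd_eq_ndb0 hi.1 (by omega), Lp_split n (3 * (3 * n - 6)) (9 * n - 1) (36 * n - 72) c1 (by omega)]
          have hb := G0X hn hi.1 hi.2
          have h0 : (0 : ℤ) ≤ n := by positivity
          have := Lp_le G0X G0Y (a := 3 * (3 * n - 6)) (b := 9 * n - 1) (u := nd n i) hn (by omega)
            (by linarith [hb.1]) (by linarith [hb.2])
          have h17 : 9 * n - 1 - 3 * (3 * n - 6) = 17 := by omega
          rw [h17] at this
          push_cast at this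
          linarith
      _ = ∑ i ∈ Finset.Ico (9 * n - 1) (12 * n - 24), Lp n (Finset.Ico (9 * n - 1) (36 * n - 72)) (nd n i) +
          ((12 * n - 24 - (9 * n - 1) : ℕ) : ℝ) * (17 * (12 * Real.log n)) := by
          rw [Finset.sum_add_distrib, Finset.sum_const, Nat.card_Ico, nsmul_eq_mul]
      _ ≤ _ := by
          have h1 : ((12 * n - 24 - (9 * n - 1) : ℕ) : ℝ) ≤ 3 * n := by
            have : ((12 * n - 24 - (9 * n - 1) : ℕ) : ℝ) ≤ ((3 * n : ℕ) : ℝ) := by
              exact_mod_cast (by omega : 12 * n - 24 - (9 * n - 1) ≤ 3 * n)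
            push_cast at this
            exact this
          have h2 := mul_le_mul_of_nonneg_right h1 (show (0 : ℝ) ≤ 17 * (12 * Real.log n) by positivity)
          linarith
  nlinarith

lemma energy2 (n : ℕ) (hn : 30 ≤ n) :
    ∑ i ∈ Finset.Ico (4 * (3 * n - 6)) (8 * (3 * n - 6)),
      Lp n (Finset.Ico (4 * (3 * n - 6)) (12 * (3 * n - 6))) (ndb n 0 i) =
    ∑ i ∈ Finset.Ico (12 * n - 24) (24 * n - 48), Lp n (Finset.Ico (12 * n - 24) (36 * n - 72)) (nd n i) := by
  rw [← e12, ← e24, ← e36]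
  apply Finset.sum_congr rfl
  intro i hi
  rw [Finset.mem_Ico] at hi
  rw [nd_eq_ndb0 (by omega) (by omega)]

lemma energy3 (n : ℕ) (hn : 30 ≤ n) :
    ∑ i ∈ Finset.Ico (8 * (3 * n - 6)) (12 * (3 * n - 6)),
      Lp n (Finset.Ico (8 * (3 * n - 6)) (12 * (3 * n - 6))) (ndb n 1 i) =
    ∑ i ∈ Finset.Ico (24 * n - 48) (36 * n - 72), Lp n (Finset.Ico (24 * n - 48) (36 * n - 72)) (nd n i) := by
  rw [← e24, ← e36]
  apply Finset.sum_congr rfl
  intro i hi
  rw [Finset.mem_Ico] at hi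
  rw [nd_eq_ndb1 hn hi.1]

lemma logfac {n : ℕ} (hn : 30 ≤ n) : Real.log ((36 * n - 72).factorial : ℝ) ≤ 36 * n * (7 * Real.log n) := by
  have hn' := cast_le hn
  have hl2 : 0 < Real.log 2 := Real.log_pos (by norm_num)
  have hl := log2_le hn
  have h2 : (((36 * n - 72).factorial : ℕ) : ℝ) ≤ ((36 * n : ℕ) : ℝ) ^ (36 * n) := by
    have h3 : (36 * n - 72).factorial ≤ (36 * n) ^ (36 * n) :=
      (Nat.factorial_le (by omega)).trans (Nat.factorial_le_pow (36 * n))
    exact_mod_cast h3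
  calc Real.log ((36 * n - 72).factorial : ℝ) ≤ Real.log (((36 * n : ℕ) : ℝ) ^ (36 * n)) :=
        Real.log_le_log (by positivity) h2
    _ = 36 * n * Real.log (36 * n) := by rw [Real.log_pow]; push_cast; ring
    _ ≤ 36 * n * (7 * Real.log n) := by
        have := log_pow_mul (x := 36 * (n : ℝ)) (y := n) 6 (by linarith) (by linarith) hl (by linarith)
        push_cast at this
        have h5 : Real.log (36 * (n : ℝ)) ≤ 7 * Real.log n := by linarith
        gcongr

lemma VD_pos (G0z : SG0z) {n : ℕ} (hn : 30 ≤ n) {s : Finset ℕ} (hs : s ⊆ Finset.range (36 * n - 72)) :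
    0 < VD s (zq n) := by
  unfold VD Pool.Agent.LZ.VD
  apply Finset.prod_pos
  intro i hi
  apply Finset.prod_pos
  intro j hj
  rw [Finset.mem_erase] at hj
  rw [abs_pos]
  intro h0
  have h1 : zq n i - zq n j = 0 := by exact_mod_cast h0
  have h2 : zq n i = zq n j := by linarith
  exact hj.1 (G0z hn (by simpa using hs hj.2) (by simpa using hs hi) h2.symm)

lemma en_shift (g h : ℕ) (hh : h ∈ Finset.Ico 4 8) : en g (h + 4) = en g h := by
  rw [Finset.mem_Ico] at hh
  obtain ⟨h1, h2⟩ := hh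
  interval_cases h <;> rfl

lemma en_shift' (g h : ℕ) (hg : g ∈ Finset.Ico 4 8) : en (g + 4) h = en g h := by
  rw [Finset.mem_Ico] at hg
  obtain ⟨h1, h2⟩ := hg
  interval_cases g <;> rfl

lemma sum_shift (f : ℕ → ℝ) : ∑ g ∈ Finset.Ico 8 12, f g = ∑ g ∈ Finset.Ico 4 8, f (g + 4) := by
  have : Finset.Ico 8 12 = (Finset.Ico 4 8).map (addRightEmbedding 4) := by
    rw [Finset.map_add_right_Ico]
  rw [this, Finset.sum_map]
  rfl

lemma eN_eq : eN = ∑ h ∈ Finset.Ico 3 12, en 3 h +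
    ∑ g ∈ Finset.Ico 4 8, ∑ h ∈ Finset.Ico 4 12, en g h +
    ∑ g ∈ Finset.Ico 8 12, ∑ h ∈ Finset.Ico 8 12, en g h := by
  have s1 : ∀ g, ∑ h ∈ Finset.Ico 8 12, en g h = ∑ h ∈ Finset.Ico 4 8, en g h := by
    intro g
    rw [sum_shift]
    exact Finset.sum_congr rfl fun h hh => en_shift g h hh
  have s2 : ∀ g, ∑ h ∈ Finset.Ico 4 12, en g h = 2 * ∑ h ∈ Finset.Ico 4 8, en g h := by
    intro g
    rw [← Finset.sum_Ico_consecutive _ (by norm_num : 4 ≤ 8) (by norm_num : 8 ≤ 12), s1]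
    ring
  have s3 : ∑ h ∈ Finset.Ico 3 12, en 3 h = en 3 3 + 2 * ∑ h ∈ Finset.Ico 4 8, en 3 h := by
    rw [← Finset.sum_Ico_consecutive _ (by norm_num : 3 ≤ 4) (by norm_num : 4 ≤ 12), s2,
      show Finset.Ico 3 4 = {3} from rfl, Finset.sum_singleton]
  have s4 : ∑ g ∈ Finset.Ico 8 12, ∑ h ∈ Finset.Ico 8 12, en g h =
      ∑ g ∈ Finset.Ico 4 8, ∑ h ∈ Finset.Ico 4 8, en g h := by
    rw [sum_shift]
    apply Finset.sum_congr rfl
    intro g hg
    rw [s1]
    exact Finset.sum_congr rfl fun h _ => en_shift' g h hg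
  rw [s3, s4]
  simp only [s2]
  rw [← Finset.mul_sum]
  unfold eN
  ring

end AM

open AM in
/-- **the archimedean part**, with the statements of the other tasks as hypotheses -/
theorem A_main_of (A5 : AM.SA5) (G0z : AM.SG0z) (G0X : AM.SG0X) (G0Y : AM.SG0Y) (G1 : AM.SG1) (G2 : AM.SG2)
    (G3 : AM.SG3) (G4 : AM.SG4) (G5 : AM.SG5) (G6 : AM.SG6) (G6c : AM.SG6c) (V1 : AM.SV1) (V1t : AM.SV1t)
    (V2 : AM.SV2) (V3 : AM.SV3) (V4 : AM.SV4) (V5 : AM.SV5)
    (α β γ : ℕ → ℚ) (θ₁ θ₂ : ℝ)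
    (h : ∀ i, Odd i → 3 ≤ i → i ≤ 75 → zr i = (α i : ℝ) + θ₁ * (β i : ℝ) + θ₂ * (γ i : ℝ)) :
    ∀ᶠ n : ℕ in atTop, DD n α β γ ≠ 0 →
    Real.log |((DD n α β γ : ℚ) : ℝ)| ≤ 1728 * (n : ℝ) ^ 2 * Real.log n - 1157 * (n : ℝ) ^ 2 := by
  obtain ⟨K1, hK1, hsup⟩ := supN G3 G4 V1 V1t
  obtain ⟨K2, hK2, hlow⟩ := lowN G3 G4 V2
  obtain ⟨Cb, hCb, hG2b⟩ := G2 β
  obtain ⟨Cg, hCg, hG2g⟩ := G2 γ
  obtain ⟨C3, hC3, hY⟩ := potY G3 V3
  obtain ⟨C5, hC5, hS⟩ := G5
  obtain ⟨C6, hC6, hG6⟩ := G6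
  obtain ⟨K7, hK7, h1000⟩ := const_le (Real.log 1000)
  obtain ⟨K8, hK8, h2000⟩ := const_le (Real.log 2000)
  set C2 : ℝ := max Cb Cg with hC2d
  have hC2 : 0 < C2 := lt_of_lt_of_le hCb (le_max_left _ _)
  set T : ℝ := 252 + 800 + 9 * (K1 + K2 + K8) + 3 * (K7 + K1) + 24 * (C3 + C2) + C5 + 432 * C6 + 6120 with hT
  have key : ∀ᶠ n : ℕ in atTop, DD n α β γ ≠ 0 →
      Real.log |((DD n α β γ : ℚ) : ℝ)| ≤ 1728 * ((n : ℝ) ^ 2 * Real.log n) - 1158 * (n : ℝ) ^ 2 +
        T * (n * Real.log n) := by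
    filter_upwards [hsup, eventually_ge_atTop 30] with n hsup hn hD
    have hn' := cast_le hn
    have hnp : (0 : ℝ) < n := by linarith
    have hl2 : 0 < Real.log 2 := Real.log_pos (by norm_num)
    have hl := log2_le hn
    have hln : 0 < Real.log n := by linarith
    have hlog3n : (3 : ℝ) ≤ Real.log n := log3_le hn
    set MM : ℝ := Real.exp (-201 * n + 96 * n * Real.log n + K1 * Real.log n) with hMM
    have hMM0 : 0 < MM := Real.exp_pos _
    set L : ℕ → ℝ := fun j => Lp n (Finset.range (36 * n - 72)) (100 * (3 * n + 1 + j)) +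
      Lp n (Finset.range (12 * n - 24)) (100 * (3 * n + 1 + j)) with hL
    set b : ℕ → ℝ := fun j => if j < 9 * n - 1 then wv n (3 * n + 1 + j) * Real.exp (L j) + 1000 * MM
      else if j < 12 * n - 24 then 1000 * MM
      else Real.exp (68 * n + 96 * n * Real.log n + C3 * Real.log n + C2 * Real.log n) with hb
    have hbpos : ∀ j, 0 < b j := by
      intro j
      rw [hb]
      dsimp only
      have := wv_pos n (v := 3 * n + 1 + j) (by omega)
      split_ifs <;> positivity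
    -- the matrix
    have e14 : 3 * (12 * n - 24) = 36 * n - 72 := by omega
    have e15 : 2 * (12 * n - 24) = 24 * n - 48 := by omega
    have hinj : Set.InjOn (zq n) (Finset.range (3 * (12 * n - 24))) := by
      rw [e14]
      exact G0z hn
    have h5 := A5 (AL n α) (BL n β) (BL n γ) θ₁ θ₂ (12 * n - 24) (zq n) hinj
    rw [e14, e15] at h5
    change _ = ((DD n α β γ : ℚ) : ℝ) ^ 2 * (VD _ _ * VD _ _ * VD _ _ * VD _ _) at h5
    set M : Matrix (Fin (36 * n - 72)) (Fin (36 * n - 72)) ℝ := (Matrix.of fun i j : Fin (36 * n - 72) =>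
      if j.1 < 12 * n - 24 then
        ((AL n α (lag (Finset.range (36 * n - 72)) (zq n) i.1 * lag (Finset.range (12 * n - 24)) (zq n) j.1) : ℚ) : ℝ) +
          θ₁ * ((BL n β (lag (Finset.range (36 * n - 72)) (zq n) i.1 * lag (Finset.range (12 * n - 24)) (zq n) j.1) : ℚ) : ℝ) +
          θ₂ * ((BL n γ (lag (Finset.range (36 * n - 72)) (zq n) i.1 * lag (Finset.range (12 * n - 24)) (zq n) j.1) : ℚ) : ℝ)
      else if j.1 < 24 * n - 48 then
        ((BL n β (lag (Finset.range (36 * n - 72)) (zq n) i.1 *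
        lag (Finset.Ico (12 * n - 24) (24 * n - 48)) (zq n) j.1) : ℚ) : ℝ)
      else ((BL n γ (lag (Finset.range (36 * n - 72)) (zq n) i.1 *
        lag (Finset.Ico (24 * n - 48) (36 * n - 72)) (zq n) j.1) : ℚ) : ℝ)) with hM
    have hentry : ∀ i j : Fin (36 * n - 72), |M i j| ≤ b j := by
      intro i j
      rw [hM, hb]
      simp only [Matrix.of_apply]
      by_cases hj7 : j.1 < 12 * n - 24
      · rw [if_pos hj7]
        have h1 := G1 hn α β γ θ₁ θ₂ h MM hMM0.le hsup i.1 j.1 i.2 hj7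
        by_cases hj2 : j.1 < 9 * n - 1
        · rw [if_pos hj2]
          rw [if_pos hj2] at h1
          exact h1
        · rw [if_neg hj2, if_pos hj7]
          rw [if_neg hj2, zero_add] at h1
          exact h1
      · by_cases hj8 : j.1 < 24 * n - 48
        · rw [if_neg hj7, if_pos hj8, if_neg (by omega), if_neg hj7]
          refine (hG2b n hn _ _ (Or.inl ⟨rfl, rfl⟩) _ (fun u hu => hY n hn _ _ (Or.inl ⟨rfl, rfl⟩) u hu)
            i.1 i.2 j.1 (by omega) hj8).trans ?_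
          apply Real.exp_le_exp.mpr
          have : Cb * Real.log n ≤ C2 * Real.log n := mul_le_mul_of_nonneg_right (le_max_left _ _) hln.le
          linarith
        · rw [if_neg hj7, if_neg hj8, if_neg (by omega), if_neg hj7]
          refine (hG2g n hn _ _ (Or.inr ⟨rfl, rfl⟩) _ (fun u hu => hY n hn _ _ (Or.inr ⟨rfl, rfl⟩) u hu)
            i.1 i.2 j.1 (by omega) j.2).trans ?_
          apply Real.exp_le_exp.mpr
          have : Cg * Real.log n ≤ C2 * Real.log n := mul_le_mul_of_nonneg_right (le_max_right _ _) hln.le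
          linarith
    have hdet := Pool.Agent.LZ.A6_det_le (36 * n - 72) M b (fun j => (hbpos j).le) hentry
    -- logarithms
    have hDr : ((DD n α β γ : ℚ) : ℝ) ≠ 0 := by exact_mod_cast hD
    have v1 := VD_pos G0z hn (s := Finset.range (36 * n - 72)) (Finset.Subset.refl _)
    have v2 := VD_pos G0z hn (s := Finset.range (12 * n - 24))
      (Finset.range_subset_range.mpr (by omega))
    have v3 := VD_pos G0z hn (s := Finset.Ico (12 * n - 24) (24 * n - 48))
      (fun i hi => Finset.mem_range.mpr (by have := (Finset.mem_Ico.mp hi).2; omega))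
    have v4 := VD_pos G0z hn (s := Finset.Ico (24 * n - 48) (36 * n - 72))
      (fun i hi => Finset.mem_range.mpr (Finset.mem_Ico.mp hi).2)
    have hM0 : M.det ≠ 0 := by
      intro h0
      rw [h0] at h5
      have : (0 : ℝ) < ((DD n α β γ : ℚ) : ℝ) ^ 2 *
        (VD (Finset.range (36 * n - 72)) (zq n) * VD (Finset.range (12 * n - 24)) (zq n) *
          VD (Finset.Ico (12 * n - 24) (24 * n - 48)) (zq n) * VD (Finset.Ico (24 * n - 48) (36 * n - 72)) (zq n)) := by
        positivity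
      rw [← h5] at this
      norm_num at this
    have hlog1 : 2 * Real.log |M.det| = 2 * Real.log |((DD n α β γ : ℚ) : ℝ)| +
        (Real.log (VD (Finset.range (36 * n - 72)) (zq n)) + Real.log (VD (Finset.range (12 * n - 24)) (zq n)) +
          Real.log (VD (Finset.Ico (12 * n - 24) (24 * n - 48)) (zq n)) +
          Real.log (VD (Finset.Ico (24 * n - 48) (36 * n - 72)) (zq n))) := by
      have := congrArg Real.log h5
      rw [Real.log_pow, Real.log_mul (pow_ne_zero 2 hDr) (by positivity), Real.log_pow,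
        Real.log_mul (by positivity) v4.ne', Real.log_mul (by positivity) v3.ne', Real.log_mul v1.ne' v2.ne'] at this
      rw [Real.log_abs, Real.log_abs]
      push_cast at this
      exact this
    have hlog2 : Real.log |M.det| ≤ Real.log ((36 * n - 72).factorial : ℝ) +
        ∑ j ∈ Finset.range (36 * n - 72), Real.log (b j) := by
      rw [← Real.log_prod (fun i _ => (hbpos i).ne'),
        ← Real.log_mul (by positivity) (Finset.prod_pos fun i _ => hbpos i).ne']
      exact Real.log_le_log (abs_pos.mpr hM0) hdet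
    have hcross := G6c hn
    have hfac := logfac hn
    have h1000n := h1000 n hn
    have h2000n := h2000 n hn
    -- the three ranges
    have hb1 : ∀ j ∈ Finset.range (9 * n - 1), Real.log (b j) ≤ Real.log (wv n (3 * n + 1 + j)) + L j +
        (1 * (n : ℝ) + (K1 + K2 + K8) * Real.log n) := by
      intro j hj
      rw [Finset.mem_range] at hj
      have hlo := hlow n hn (3 * n + 1 + j) (by omega) (by omega)
      rw [hb]
      dsimp only
      rw [if_pos hj]
      have hLe : Lp n (Finset.range (36 * n - 72)) (100 * ((3 * n + 1 + j : ℕ) : ℤ)) +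
          Lp n (Finset.range (12 * n - 24)) (100 * ((3 * n + 1 + j : ℕ) : ℤ)) = L j := by
        rw [hL]
        push_cast
        rfl
      rw [hLe] at hlo
      have hW := wv_pos n (v := 3 * n + 1 + j) (by omega)
      have e1 : wv n (3 * n + 1 + j) * Real.exp (L j) = Real.exp (Real.log (wv n (3 * n + 1 + j)) + L j) := by
        rw [Real.exp_add (Real.log (wv n (3 * n + 1 + j))) (L j), Real.exp_log hW]
      set A : ℝ := Real.log (wv n (3 * n + 1 + j)) + L j with hA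
      set R : ℝ := 1 * (n : ℝ) + (K1 + K2) * Real.log n with hR
      have hR0 : 0 ≤ R := by rw [hR]; positivity
      have e2 : MM ≤ Real.exp (A + R) := by
        rw [hMM]
        apply Real.exp_le_exp.mpr
        rw [hR]
        linarith
      have e3 : Real.exp A ≤ Real.exp (A + R) := Real.exp_le_exp.mpr (by linarith)
      have e4 : wv n (3 * n + 1 + j) * Real.exp (L j) + 1000 * MM ≤ 2000 * Real.exp (A + R) := by
        rw [e1]
        have := Real.exp_pos (A + R)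
        linarith
      calc Real.log (wv n (3 * n + 1 + j) * Real.exp (L j) + 1000 * MM) ≤ Real.log (2000 * Real.exp (A + R)) :=
            Real.log_le_log (by positivity) e4
        _ = Real.log 2000 + (A + R) := by
            rw [Real.log_mul (by norm_num) (Real.exp_pos _).ne', Real.log_exp]
        _ ≤ _ := by
            rw [hR]
            linarith
    have hb2 : ∀ j ∈ Finset.Ico (9 * n - 1) (12 * n - 24), Real.log (b j) ≤
        -201 * n + 96 * n * Real.log n + (K7 + K1) * Real.log n := by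
      intro j hj
      rw [Finset.mem_Ico] at hj
      rw [hb]
      dsimp only
      rw [if_neg (by omega), if_pos hj.2, Real.log_mul (by norm_num) hMM0.ne', hMM, Real.log_exp]
      linarith
    have hb3 : ∀ j ∈ Finset.Ico (12 * n - 24) (36 * n - 72), Real.log (b j) ≤
        68 * n + 96 * n * Real.log n + (C3 + C2) * Real.log n := by
      intro j hj
      rw [Finset.mem_Ico] at hj
      rw [hb]
      dsimp only
      rw [if_neg (by omega), if_neg (by omega), Real.log_exp]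
      linarith
    have hs1 := Finset.sum_le_sum hb1
    have hs2 := Finset.sum_le_sum hb2
    have hs3 := Finset.sum_le_sum hb3
    rw [Finset.sum_add_distrib, Finset.sum_const, Finset.card_range, nsmul_eq_mul] at hs1
    rw [Finset.sum_const, Nat.card_Ico, nsmul_eq_mul] at hs2 hs3
    have c1 : ((9 * n - 1 : ℕ) : ℝ) ≤ 9 * n := by
      have : ((9 * n - 1 : ℕ) : ℝ) ≤ ((9 * n : ℕ) : ℝ) := by exact_mod_cast (by omega : 9 * n - 1 ≤ 9 * n)
      push_cast at this
      exact this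
    have c2 : ((12 * n - 24 - (9 * n - 1) : ℕ) : ℝ) ≤ 3 * n := by
      have : ((12 * n - 24 - (9 * n - 1) : ℕ) : ℝ) ≤ ((3 * n : ℕ) : ℝ) := by
        exact_mod_cast (by omega : 12 * n - 24 - (9 * n - 1) ≤ 3 * n)
      push_cast at this
      exact this
    have c3 : ((36 * n - 72 - (12 * n - 24) : ℕ) : ℝ) ≤ 24 * n := by
      have : ((36 * n - 72 - (12 * n - 24) : ℕ) : ℝ) ≤ ((24 * n : ℕ) : ℝ) := by
        exact_mod_cast (by omega : 36 * n - 72 - (12 * n - 24) ≤ 24 * n)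
      push_cast at this
      exact this
    have m1 := mul_le_mul_of_nonneg_right c1
      (show 0 ≤ 1 * (n : ℝ) + (K1 + K2 + K8) * Real.log n by positivity)
    have m2 := mul_le_mul_of_nonneg_right c2
      (show 0 ≤ -201 * (n : ℝ) + 96 * n * Real.log n + (K7 + K1) * Real.log n by
        have t1 : 0 ≤ (K7 + K1) * Real.log n := by positivity
        have t2 : (n : ℝ) * 3 ≤ n * Real.log n := mul_le_mul_of_nonneg_left hlog3n hnp.le
        linarith)
    have m3 := mul_le_mul_of_nonneg_right c3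
      (show 0 ≤ 68 * (n : ℝ) + 96 * n * Real.log n + (C3 + C2) * Real.log n by positivity)
    have hsplit : ∑ j ∈ Finset.range (36 * n - 72), Real.log (b j) =
        ∑ j ∈ Finset.range (9 * n - 1), Real.log (b j) + ∑ j ∈ Finset.Ico (9 * n - 1) (12 * n - 24), Real.log (b j) +
          ∑ j ∈ Finset.Ico (12 * n - 24) (36 * n - 72), Real.log (b j) := by
      rw [Finset.sum_range_add_sum_Ico _ (by omega), Finset.sum_range_add_sum_Ico _ (by omega)]
    -- energies
    have hSn := hS n hn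
    have hG60 := fun g hg h hh => hG6 n hn g hg h hh 0 le_rfl zero_le_one
    have hG61 := fun g hg h hh => hG6 n hn g hg h hh 1 zero_le_one le_rfl
    have hE1 := energy hC6 hn hG60 3 4 3 12 (by norm_num) (by norm_num) (by norm_num) (by norm_num)
    have hE2 := energy hC6 hn hG60 4 8 4 12 (by norm_num) (by norm_num) (by norm_num) (by norm_num)
    have hE3 := energy hC6 hn hG61 8 12 8 12 (by norm_num) (by norm_num) (by norm_num) (by norm_num)
    have hE1' := energy1 G0X G0Y hn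
    rw [energy2 n hn] at hE2
    rw [energy3 n hn] at hE3
    have hcr1 : ∑ i ∈ Finset.range (9 * n - 1), (Lp n (Finset.range (36 * n - 72)) (nd n i) +
        Lp n (Finset.range (12 * n - 24)) (nd n i) - Lp n (Finset.range (9 * n - 1)) (nd n i)) =
        ∑ i ∈ Finset.range (9 * n - 1), (Real.log (wv n (3 * n + 1 + i)) + L i) -
        ∑ i ∈ Finset.range (9 * n - 1), (Real.log (wv n (3 * n + 1 + i)) +
          Lp n (Finset.range (9 * n - 1)) (100 * (3 * n + 1 + i))) := by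
      rw [← Finset.sum_sub_distrib]
      apply Finset.sum_congr rfl
      intro i hi
      rw [nd_sat (Finset.mem_range.mp hi), hL]
      dsimp only
      ring
    rw [hcr1] at hcross
    have hV4 : eS * (n : ℝ) ^ 2 ≤ -2725 * (n : ℝ) ^ 2 :=
      mul_le_mul_of_nonneg_right V4 (by positivity)
    have hV5 : -529 * (n : ℝ) ^ 2 ≤ eN * (n : ℝ) ^ 2 :=
      mul_le_mul_of_nonneg_right V5 (by positivity)
    rw [eN_eq, add_mul, add_mul] at hV5
    rw [hsplit] at hlog2
    norm_num at hE1 hE2 hE3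
    have h40 : 100 * (n : ℝ) * Real.log (100 * n) ≤ 800 * (n * Real.log n) := by
      have := log_pow_mul (x := 100 * (n : ℝ)) (y := n) 7 (by linarith) hnp hl (by linarith)
      push_cast at this
      have h6 : Real.log (100 * (n : ℝ)) ≤ 8 * Real.log n := by linarith
      calc 100 * (n : ℝ) * Real.log (100 * n) ≤ 100 * n * (8 * Real.log n) := by gcongr
        _ = _ := by ring
    have t1 : 9 * (n : ℝ) * (1 * (n : ℝ) + (K1 + K2 + K8) * Real.log n) =
      9 * (n : ℝ) ^ 2 + 9 * (K1 + K2 + K8) * (n * Real.log n) := by ring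
    have t2 : 3 * (n : ℝ) * (-201 * n + 96 * n * Real.log n + (K7 + K1) * Real.log n) =
      -603 * (n : ℝ) ^ 2 + 288 * ((n : ℝ) ^ 2 * Real.log n) + 3 * (K7 + K1) * (n * Real.log n) := by ring
    have t3 : 24 * (n : ℝ) * (68 * n + 96 * n * Real.log n + (C3 + C2) * Real.log n) =
      1632 * (n : ℝ) ^ 2 + 2304 * ((n : ℝ) ^ 2 * Real.log n) + 24 * (C3 + C2) * (n * Real.log n) := by ring
    have t4 : 36 * (n : ℝ) * (7 * Real.log n) = 252 * (n * Real.log n) := by ring
    have t5 : T * (n * Real.log n) = 252 * (n * Real.log n) + 800 * (n * Real.log n) +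
      9 * (K1 + K2 + K8) * (n * Real.log n) +
      3 * (K7 + K1) * (n * Real.log n) + 24 * (C3 + C2) * (n * Real.log n) + C5 * n * Real.log n +
      432 * (C6 * n * Real.log n) + 6120 * (n * Real.log n) := by rw [hT]; ring
    have t6 : 162 * (n : ℝ) ^ 2 * Real.log n = 162 * ((n : ℝ) ^ 2 * Real.log n) := by ring
    rw [t1] at m1
    rw [t2] at m2
    rw [t3] at m3
    rw [t4] at hfac
    rw [t6] at hSn
    rw [t5]
    linarith
  -- conclude
  have hlim : ∀ᶠ n : ℕ in atTop, T * (n * Real.log n) ≤ 1 * (n : ℝ) ^ 2 := by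
    have h1 : Tendsto (fun n : ℕ => Real.log n / (n : ℝ)) atTop (𝓝 0) := by
      have := (Real.isLittleO_log_id_atTop.tendsto_div_nhds_zero).comp tendsto_natCast_atTop_atTop
      simpa [Function.comp_def] using this
    have h2 : Tendsto (fun n : ℕ => T * (Real.log n / (n : ℝ))) atTop (𝓝 (T * 0)) := h1.const_mul _
    rw [mul_zero] at h2
    filter_upwards [h2.eventually (gt_mem_nhds (show (0 : ℝ) < 1 by norm_num)), eventually_ge_atTop 1]
      with n h3 h4
    have hn0 : (0 : ℝ) < n := by exact_mod_cast h4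
    have h5 : T * (n * Real.log n) = (T * (Real.log n / (n : ℝ))) * (n : ℝ) ^ 2 := by
      field_simp
    rw [h5]
    gcongr
  filter_upwards [hlim, key] with n h1 h2 hD
  have := h2 hD
  linarith

end

end Pool.Agent.H574R2.Q4
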