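import Pool.Agent.H574R2.Q4.Defs

/-! Reflection `t ↦ -t - 6n` (helper324, after helper255 and helper666). -/

open Polynomial Pool.Agent.H337R2

namespace Pool.Agent.H574R2.Q4

noncomputable section

lemma B1_ZM_comp (n : ℕ) : (ZM n).comp (-X - C ((6 * n : ℕ) : ℚ)) = ZM n := by
  unfold ZM
  rw [Polynomial.mul_comp, Polynomial.prod_comp, Polynomial.prod_comp]
  have h1 : ∏ m ∈ Finset.range (2 * n), (X + C (m : ℚ) : ℚ[X]).comp (-X - C ((6 * n : ℕ) : ℚ)) =
      (-1) ^ (2 * n) * ∏ m ∈ Finset.Icc (4 * n + 1) (6 * n), (X + C (m : ℚ)) := by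
    have h2 : ∏ m ∈ Finset.range (2 * n), (X + C (m : ℚ) : ℚ[X]).comp (-X - C ((6 * n : ℕ) : ℚ)) =
        ∏ m ∈ Finset.range (2 * n), (-1) * (X + C ((6 * n - m : ℕ) : ℚ)) := by
      apply Finset.prod_congr rfl
      intro m hm
      rw [Finset.mem_range] at hm
      simp only [Polynomial.add_comp, Polynomial.X_comp, Polynomial.C_comp]
      rw [Nat.cast_sub (by omega), map_sub]
      ring
    rw [h2, Finset.prod_mul_distrib, Finset.prod_const, Finset.card_range]
    congr 1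
    apply Finset.prod_bij (fun m _ => 6 * n - m)
    · intro m hm
      rw [Finset.mem_range] at hm
      rw [Finset.mem_Icc]
      omega
    · intro m1 hm1 m2 hm2 h
      rw [Finset.mem_range] at hm1 hm2
      omega
    · intro m hm
      rw [Finset.mem_Icc] at hm
      exact ⟨6 * n - m, by rw [Finset.mem_range]; omega, by omega⟩
    · intro m _
      rfl
  have h3 : ∏ m ∈ Finset.Icc (4 * n + 1) (6 * n), (X + C (m : ℚ) : ℚ[X]).comp (-X - C ((6 * n : ℕ) : ℚ)) =
      (-1) ^ (2 * n) * ∏ m ∈ Finset.range (2 * n), (X + C (m : ℚ)) := by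
    have h2 : ∏ m ∈ Finset.Icc (4 * n + 1) (6 * n), (X + C (m : ℚ) : ℚ[X]).comp (-X - C ((6 * n : ℕ) : ℚ)) =
        ∏ m ∈ Finset.Icc (4 * n + 1) (6 * n), (-1) * (X + C ((6 * n - m : ℕ) : ℚ)) := by
      apply Finset.prod_congr rfl
      intro m hm
      rw [Finset.mem_Icc] at hm
      simp only [Polynomial.add_comp, Polynomial.X_comp, Polynomial.C_comp]
      rw [Nat.cast_sub (by omega), map_sub]
      ring
    have hcard : (Finset.Icc (4 * n + 1) (6 * n)).card = 2 * n := by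
      rw [Nat.card_Icc]; omega
    rw [h2, Finset.prod_mul_distrib, Finset.prod_const, hcard]
    congr 1
    apply Finset.prod_bij (fun m _ => 6 * n - m)
    · intro m hm
      rw [Finset.mem_Icc] at hm
      rw [Finset.mem_range]
      omega
    · intro m1 hm1 m2 hm2 h
      rw [Finset.mem_Icc] at hm1 hm2
      omega
    · intro m hm
      rw [Finset.mem_range] at hm
      exact ⟨6 * n - m, by rw [Finset.mem_Icc]; omega, by omega⟩
    · intro m _
      rfl
  have h5 : ((-1 : ℚ[X])) ^ (2 * n) * (-1) ^ (2 * n) = 1 := by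
    rw [← mul_pow, neg_one_mul, neg_neg, one_pow]
  rw [h1, h3, mul_mul_mul_comm, h5, one_mul, mul_comm]

lemma B1_PM_comp (n : ℕ) : (PM n).comp (-X - C ((6 * n : ℕ) : ℚ)) = - PM n := by
  unfold PM
  rw [Polynomial.mul_comp, Polynomial.mul_comp, B1_ZM_comp, Polynomial.C_comp]
  have h1 : (2 * X + C ((6 * n : ℕ) : ℚ) : ℚ[X]).comp (-X - C ((6 * n : ℕ) : ℚ)) =
      -(2 * X + C ((6 * n : ℕ) : ℚ)) := by
    simp only [Polynomial.add_comp, Polynomial.mul_comp, Polynomial.X_comp, Polynomial.C_comp,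
      Polynomial.ofNat_comp]
    ring
  rw [h1]
  ring

lemma B1_xM_comp (n : ℕ) : (xM n).comp (-X - C ((6 * n : ℕ) : ℚ)) = xM n := by
  unfold xM
  rw [Polynomial.pow_comp]
  simp only [Polynomial.add_comp, Polynomial.X_comp, Polynomial.C_comp]
  have : (C ((6 * n : ℕ) : ℚ) : ℚ[X]) = 2 * C ((3 * n : ℕ) : ℚ) := by
    rw [show ((6 * n : ℕ) : ℚ) = 2 * ((3 * n : ℕ) : ℚ) by push_cast; ring, map_mul, map_ofNat]
  rw [this]
  ring

lemma EM_reflect (n : ℕ) (Q : ℚ[X]) : (EM n Q).comp (-X - C ((6 * n : ℕ) : ℚ)) = EM n Q := by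
  unfold EM
  rw [Polynomial.comp_assoc, B1_xM_comp]

lemma B1_P_comp (n : ℕ) (Q : ℚ[X]) :
    (PM n * EM n Q).comp (-X - C ((6 * n : ℕ) : ℚ)) = -(PM n * EM n Q) := by
  rw [Polynomial.mul_comp, B1_PM_comp, EM_reflect]
  ring

end

end Pool.Agent.H574R2.Q4
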