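import Pool.Agent.H574R2.Q4.Defs
import Pool.Agent.H337R2.Crude2

open Polynomial Pool.Agent.H337R2

namespace Pool.Agent.H574R2.Q4

noncomputable section

set_option linter.unusedSectionVars false

variable {p : ℕ} [hp : Fact p.Prime]

lemma C3_fac_pos (N : ℕ) : 0 < padicNorm p ((N.factorial : ℕ) : ℚ) :=
  lt_of_le_of_ne (padicNorm.nonneg _)
    (Ne.symm (padicNorm.nonzero (by exact_mod_cast Nat.factorial_ne_zero _)))

lemma C3_up (k L : ℕ) : ∏ m ∈ Finset.Ico (k + 1) (k + 1 + L), padicNorm p ((m : ℚ) - k) =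
    padicNorm p ((L.factorial : ℕ) : ℚ) := by
  induction L with
  | zero => simp
  | succ L ih =>
    rw [← add_assoc, Finset.prod_Ico_succ_top (by omega), ih, Nat.factorial_succ, Nat.cast_mul,
      padicNorm.mul, mul_comm]
    congr 2
    push_cast
    ring

lemma C3_dn (A L : ℕ) : ∏ m ∈ Finset.Ico A (A + L), padicNorm p ((m : ℚ) - ((A + L : ℕ) : ℚ)) =
    padicNorm p ((L.factorial : ℕ) : ℚ) := by
  rw [Finset.prod_Ico_eq_prod_range, Nat.add_sub_cancel_left, ← Finset.prod_range_reflect,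
    ← Finset.prod_range_add_one_eq_factorial, Nat.cast_prod, padicNorm_prod']
  apply Finset.prod_congr rfl
  intro j hj
  rw [Finset.mem_range] at hj
  rw [← padicNorm.neg]
  congr 1
  rw [Nat.cast_add A (L - 1 - j), show L - 1 - j = L - (1 + j) by omega,
    Nat.cast_sub (by omega)]
  push_cast
  ring

lemma C3_erase {n k : ℕ} (hk : k ∈ sM n) :
    ∏ m ∈ (sM n).erase k, padicNorm p ((m : ℚ) - k) =
      padicNorm p (((k - 2 * n).factorial : ℕ) : ℚ) * padicNorm p (((4 * n - k).factorial : ℕ) : ℚ) := by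
  rw [sM, Finset.mem_Icc] at hk
  have h1 : (sM n).erase k = Finset.Ico (2 * n) k ∪ Finset.Ico (k + 1) (4 * n + 1) := by
    ext m
    simp only [sM, Finset.mem_erase, Finset.mem_Icc, Finset.mem_union, Finset.mem_Ico]
    omega
  have h2 : Disjoint (Finset.Ico (2 * n) k) (Finset.Ico (k + 1) (4 * n + 1)) := by
    rw [Finset.disjoint_left]
    intro m h3 h4
    rw [Finset.mem_Ico] at h3 h4
    omega
  rw [h1, Finset.prod_union h2]
  congr 1
  · have h3 := C3_dn (p := p) (2 * n) (k - 2 * n)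
    rw [show 2 * n + (k - 2 * n) = k by omega] at h3
    exact h3
  · have h3 := C3_up (p := p) k (4 * n - k)
    rw [show k + 1 + (4 * n - k) = 4 * n + 1 by omega] at h3
    exact h3

lemma C3_binom {n k : ℕ} (hk : k ∈ sM n) :
    padicNorm p (((2 * n).factorial : ℕ) : ℚ) ≤
      padicNorm p (((k - 2 * n).factorial : ℕ) : ℚ) * padicNorm p (((4 * n - k).factorial : ℕ) : ℚ) := by
  rw [sM, Finset.mem_Icc] at hk
  have h1 : (k - 2 * n) + (4 * n - k) = 2 * n := by omega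
  have h2 := Nat.add_choose_mul_factorial_mul_factorial (k - 2 * n) (4 * n - k)
  rw [h1] at h2
  rw [← h2, Nat.cast_mul, Nat.cast_mul, padicNorm.mul, padicNorm.mul, mul_assoc]
  exact mul_le_of_le_one_left (mul_nonneg (padicNorm.nonneg _) (padicNorm.nonneg _))
    (padicNorm.of_nat _)

lemma C3_zero_PB {n k m : ℕ} (hk : k ∈ sM n) (hm : m ≤ 6 * n) (hmk : m ≠ k) (M : ℚ)
    (hM : ((6 * n : ℕ) : ℚ) ≤ M) :
    PB p M (padicNorm p ((m : ℚ) - k)) (TS (-(k : ℚ)) (X + C (m : ℚ))) := by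
  have hM0 : 0 ≤ M := le_trans (by positivity) hM
  rw [sM, Finset.mem_Icc] at hk
  rw [TS_lin]
  apply PB.linX hM0 (padicNorm.nonneg _)
  · apply le_of_eq; congr 1; ring
  · have h3 := norm_inv_le (p := p) (a := (m : ℤ) - k) (by omega) (M := M) (by
      push_cast
      have h5 : (m : ℚ) ≤ ((6 * n : ℕ) : ℚ) := by exact_mod_cast hm
      have h6 : (k : ℚ) ≤ ((6 * n : ℕ) : ℚ) := by exact_mod_cast (by omega : k ≤ 6 * n)
      have h7 : (0 : ℚ) ≤ m := by positivity
      have h8 : (0 : ℚ) ≤ k := by positivity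
      rw [abs_le]
      constructor <;> linarith)
    push_cast at h3
    have h4 : 0 < padicNorm p ((m : ℚ) - k) := by
      refine lt_of_le_of_ne (padicNorm.nonneg _) (Ne.symm (padicNorm.nonzero ?_))
      intro h
      apply hmk
      have : (m : ℚ) = k := by linarith
      exact_mod_cast this
    rw [inv_le_iff_one_le_mul₀ h4] at h3
    linarith

lemma C3_PM_PB {n k : ℕ} (hk : k ∈ sM n) (M : ℚ) (hM1 : 1 ≤ M)
    (hM : ((6 * n : ℕ) : ℚ) ≤ M) :
    PB p M (padicNorm p (((2 * n).factorial : ℕ) : ℚ) ^ 76) (TS (-(k : ℚ)) (PM n)) := by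
  have hM0 : 0 ≤ M := by linarith
  have hk' := hk
  rw [sM, Finset.mem_Icc] at hk'
  have hF : 0 ≤ padicNorm p (((2 * n).factorial : ℕ) : ℚ) := padicNorm.nonneg _
  unfold PM ZM
  rw [map_mul, map_mul, map_mul, map_prod, map_prod, TS_C, TS_lin2]
  have h1 : PB p M (padicNorm p (((2 * n).factorial : ℕ) : ℚ) ^ 74) (PowerSeries.C (cM n)) := by
    apply PB.C hM0 (pow_nonneg hF _)
    rw [cM, padicNorm_pow']
  have h2 : PB p M 1 (PowerSeries.C 2 * PowerSeries.X + PowerSeries.C (2 * -(k : ℚ) + ((6 * n : ℕ) : ℚ))) := by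
    apply PB.lin hM0 zero_le_one
    · have := padicNorm.of_int (p := p) ((6 * n : ℕ) - 2 * k : ℤ)
      push_cast at this ⊢
      rw [show (2 : ℚ) * -(k : ℚ) + 6 * n = 6 * n - 2 * k by ring]
      exact this
    · rw [one_mul]
      have := padicNorm.of_int (p := p) 2
      push_cast at this
      exact this.trans hM1
  have h3 : PB p M (∏ m ∈ Finset.range (2 * n), padicNorm p ((m : ℚ) - k))
      (∏ m ∈ Finset.range (2 * n), TS (-(k : ℚ)) (X + C (m : ℚ))) := by
    apply PB.prod _ _ _ hM0 (fun m _ => padicNorm.nonneg _)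
    intro m hm
    rw [Finset.mem_range] at hm
    exact C3_zero_PB hk (by omega) (by omega) M hM
  have h4 : PB p M (∏ m ∈ Finset.Icc (4 * n + 1) (6 * n), padicNorm p ((m : ℚ) - k))
      (∏ m ∈ Finset.Icc (4 * n + 1) (6 * n), TS (-(k : ℚ)) (X + C (m : ℚ))) := by
    apply PB.prod _ _ _ hM0 (fun m _ => padicNorm.nonneg _)
    intro m hm
    rw [Finset.mem_Icc] at hm
    exact C3_zero_PB hk (by omega) (by omega) M hM
  have h5 : ∏ m ∈ Finset.range (2 * n), padicNorm p ((m : ℚ) - k) ≤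
      padicNorm p (((2 * n).factorial : ℕ) : ℚ) := by
    have := num_bound (p := p) (k + 1) (2 * n) (by omega)
    refine le_trans (le_of_eq ?_) this
    rw [show Finset.Icc 1 (2 * n) = Finset.Ico 1 (2 * n + 1) by ext; simp,
      Finset.prod_Ico_eq_prod_range]
    apply Finset.prod_congr (by simp)
    intro m _
    rw [← padicNorm.neg]
    congr 1
    push_cast
    ring
  have h6 : ∏ m ∈ Finset.Icc (4 * n + 1) (6 * n), padicNorm p ((m : ℚ) - k) ≤
      padicNorm p (((2 * n).factorial : ℕ) : ℚ) := by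
    have := num_bound (p := p) (6 * n + 1 - k) (2 * n) (by omega)
    refine le_trans (le_of_eq ?_) this
    apply Finset.prod_bij' (fun m _ => 6 * n + 1 - m) (fun m _ => 6 * n + 1 - m)
    · intro m hm
      rw [Finset.mem_Icc] at hm ⊢
      omega
    · intro m hm
      rw [Finset.mem_Icc] at hm ⊢
      omega
    · intro m hm
      rw [Finset.mem_Icc] at hm
      omega
    · intro m hm
      rw [Finset.mem_Icc] at hm
      omega
    · intro m hm
      rw [Finset.mem_Icc] at hm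
      congr 1
      rw [Nat.cast_sub (by omega), Nat.cast_sub (by omega)]
      ring
  have hn3 : 0 ≤ ∏ m ∈ Finset.range (2 * n), padicNorm p ((m : ℚ) - k) :=
    Finset.prod_nonneg fun _ _ => padicNorm.nonneg _
  have hn4 : 0 ≤ ∏ m ∈ Finset.Icc (4 * n + 1) (6 * n), padicNorm p ((m : ℚ) - k) :=
    Finset.prod_nonneg fun _ _ => padicNorm.nonneg _
  have h7 := PB.mul hM0 (by positivity) (mul_nonneg hn3 hn4)
    (PB.mul hM0 (pow_nonneg hF _) zero_le_one h1 h2) (PB.mul hM0 hn3 hn4 h3 h4)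
  refine PB.mono hM0 h7 ?_
  calc padicNorm p (((2 * n).factorial : ℕ) : ℚ) ^ 74 * 1 *
        ((∏ m ∈ Finset.range (2 * n), padicNorm p ((m : ℚ) - k)) *
          ∏ m ∈ Finset.Icc (4 * n + 1) (6 * n), padicNorm p ((m : ℚ) - k))
      ≤ padicNorm p (((2 * n).factorial : ℕ) : ℚ) ^ 74 * 1 *
        (padicNorm p (((2 * n).factorial : ℕ) : ℚ) * padicNorm p (((2 * n).factorial : ℕ) : ℚ)) := by
        gcongr
    _ = _ := by ring

lemma C3_pa {n : ℕ} (E : ℚ[X]) (A : ℚ) (hA : 0 ≤ A) {k : ℕ} (hk : k ∈ sM n)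
    (hE : PB p ((72 * n + 1 : ℕ) : ℚ) A (TS (-(k : ℚ)) E)) (i : ℕ) :
    padicNorm p (pa (sM n) mM (PM n * E) k i) ≤ ((72 * n + 1 : ℕ) : ℚ) ^ 76 * A := by
  set M : ℚ := ((72 * n + 1 : ℕ) : ℚ) with hM
  have hM1 : 1 ≤ M := by rw [hM]; exact_mod_cast (by omega : 1 ≤ 72 * n + 1)
  have hM0 : (0 : ℚ) ≤ M := by linarith
  have hM6 : ((6 * n : ℕ) : ℚ) ≤ M := by rw [hM]; exact_mod_cast (by omega : 6 * n ≤ 72 * n + 1)
  have hk' := hk
  rw [sM, Finset.mem_Icc] at hk'
  unfold pa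
  split_ifs with hi
  · have hB0 : 0 ≤ padicNorm p (((2 * n).factorial : ℕ) : ℚ) ^ 76 := pow_nonneg (padicNorm.nonneg _) _
    have hPB : PB p M (padicNorm p (((2 * n).factorial : ℕ) : ℚ) ^ 76 * A) (TS (-(k : ℚ)) (PM n * E)) := by
      rw [map_mul]
      exact PB.mul hM0 hB0 hA (C3_PM_PB hk M hM1 hM6) hE
    have h1 := pfc_bound (p := p) (sM n) mM (PM n * E) k M _
      (fun m => (padicNorm p ((m : ℚ) - k))⁻¹) hM0 (mul_nonneg hB0 hA) hPB
      (by
        intro m hm _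
        have hmk := Finset.ne_of_mem_erase hm
        have hm2 := Finset.mem_of_mem_erase hm
        rw [sM, Finset.mem_Icc] at hm2
        refine ⟨le_rfl, ?_⟩
        have h3 := norm_inv_le (p := p) (a := (m : ℤ) - k) (by omega) (M := M) (by
          push_cast
          have h5 : (m : ℚ) ≤ ((6 * n : ℕ) : ℚ) := by exact_mod_cast (by omega : m ≤ 6 * n)
          have h6 : (k : ℚ) ≤ ((6 * n : ℕ) : ℚ) := by exact_mod_cast (by omega : k ≤ 6 * n)
          have h7 : (0 : ℚ) ≤ m := by positivity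
          have h8 : (0 : ℚ) ≤ k := by positivity
          rw [abs_le]
          constructor <;> linarith)
        push_cast at h3
        exact h3)
      (fun m _ => inv_nonneg.2 (padicNorm.nonneg _)) (mM k - i)
    refine h1.trans ?_
    have h4 : ∏ m ∈ (sM n).erase k, (padicNorm p ((m : ℚ) - k))⁻¹ ^ mM m =
        ((padicNorm p (((k - 2 * n).factorial : ℕ) : ℚ) *
          padicNorm p (((4 * n - k).factorial : ℕ) : ℚ))⁻¹) ^ 76 := by
      rw [← C3_erase (p := p) hk, ← Finset.prod_inv_distrib, Finset.prod_pow]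
    rw [h4]
    have h5 := C3_binom (p := p) hk
    have hpos : 0 < padicNorm p (((k - 2 * n).factorial : ℕ) : ℚ) *
        padicNorm p (((4 * n - k).factorial : ℕ) : ℚ) := mul_pos (C3_fac_pos _) (C3_fac_pos _)
    have h6 : padicNorm p (((2 * n).factorial : ℕ) : ℚ) *
        (padicNorm p (((k - 2 * n).factorial : ℕ) : ℚ) *
          padicNorm p (((4 * n - k).factorial : ℕ) : ℚ))⁻¹ ≤ 1 := by
      rw [← div_eq_mul_inv, div_le_one hpos]
      exact h5
    have h7 : M ^ (mM k - i) ≤ M ^ 76 := pow_le_pow_right₀ hM1 (Nat.sub_le _ _)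
    have h8 : (padicNorm p (((2 * n).factorial : ℕ) : ℚ) *
        (padicNorm p (((k - 2 * n).factorial : ℕ) : ℚ) *
          padicNorm p (((4 * n - k).factorial : ℕ) : ℚ))⁻¹) ^ 76 ≤ 1 :=
      pow_le_one₀ (mul_nonneg (padicNorm.nonneg _) (inv_nonneg.2 hpos.le)) h6
    calc _ = (padicNorm p (((2 * n).factorial : ℕ) : ℚ) *
        (padicNorm p (((k - 2 * n).factorial : ℕ) : ℚ) *
          padicNorm p (((4 * n - k).factorial : ℕ) : ℚ))⁻¹) ^ 76 * (M ^ (mM k - i) * A) := by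
          rw [mul_pow]; ring
      _ ≤ 1 * (M ^ 76 * A) := by
          apply mul_le_mul h8 (mul_le_mul_of_nonneg_right h7 hA) (by positivity) zero_le_one
      _ = M ^ 76 * A := one_mul _
  · rw [padicNorm.zero]; positivity

lemma C3_rho {n : ℕ} (E : ℚ[X]) (A : ℚ) (hA : 0 ≤ A)
    (hE : ∀ k ∈ sM n, PB p ((72 * n + 1 : ℕ) : ℚ) A (TS (-(k : ℚ)) E)) (i : ℕ) :
    padicNorm p (rho n (PM n * E) i) ≤ ((72 * n + 1 : ℕ) : ℚ) ^ 76 * A := by
  unfold rho
  apply padicNorm.sum_le' _ (by positivity)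
  intro k hk
  exact C3_pa E A hA hk (hE k hk) i

lemma C3_aux (x y z M A : ℚ) (hM1 : 1 ≤ M) (hM : 0 ≤ M) (hA : 0 ≤ A) (hx0 : 0 ≤ x) (hx : x ≤ 1) (hy0 : 0 ≤ y)
    (hy : y ≤ M ^ 76 * A) (hz0 : 0 ≤ z) (hz : z ≤ M ^ 76) : x * (y * z) ≤ M ^ 200 * A := by
  have h1 : y * z ≤ (M ^ 76 * A) * M ^ 76 := mul_le_mul hy hz hz0 (by positivity)
  have h2 : 0 ≤ y * z := mul_nonneg hy0 hz0
  calc x * (y * z) ≤ 1 * (y * z) := mul_le_mul_of_nonneg_right hx h2
    _ = y * z := one_mul _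
    _ ≤ (M ^ 76 * A) * M ^ 76 := h1
    _ = M ^ 152 * A := by ring
    _ ≤ M ^ 200 * A :=
      mul_le_mul_of_nonneg_right (pow_le_pow_right₀ hM1 (by norm_num)) hA

theorem C3_crude {n p : ℕ} [Fact p.Prime] (hn : 1 ≤ n) (q : ℕ) (u : ℕ → ℚ) (hu : UInt q u)
    (E : ℚ[X]) (A : ℚ) (hA : 0 ≤ A)
    (hE : ∀ k ∈ sM n, PB p ((72 * n + 1 : ℕ) : ℚ) A (TS (-(k : ℚ)) E)) :
    padicNorm p ((q : ℚ) * xa n u (PM n * E)) ≤ ((72 * n + 1 : ℕ) : ℚ) ^ 200 * A ∧
    padicNorm p ((q : ℚ) * xb n u (PM n * E)) ≤ ((72 * n + 1 : ℕ) : ℚ) ^ 200 * A := by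
  obtain ⟨hq, hu⟩ := hu
  set M : ℚ := ((72 * n + 1 : ℕ) : ℚ) with hM
  have hM1 : 1 ≤ M := by rw [hM]; exact_mod_cast (by omega : 1 ≤ 72 * n + 1)
  have hM0 : (0 : ℚ) ≤ M := by linarith
  have hW : 0 ≤ M ^ 200 * A := by positivity
  have h20 : M ^ 76 * A ≤ M ^ 200 * A :=
    mul_le_mul_of_nonneg_right (pow_le_pow_right₀ hM1 (by norm_num)) hA
  have hui : ∀ i, padicNorm p ((q : ℚ) * u i) ≤ 1 := by
    intro i
    obtain ⟨z, hz⟩ := hu i
    rw [hz]; exact padicNorm.of_int z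
  have hru : ∀ i, padicNorm p (rho n (PM n * E) i * ((q : ℚ) * u i)) ≤ M ^ 200 * A := by
    intro i
    rw [padicNorm.mul]
    calc _ ≤ padicNorm p (rho n (PM n * E) i) * 1 :=
          mul_le_mul_of_nonneg_left (hui i) (padicNorm.nonneg _)
      _ ≤ _ := by rw [mul_one]; exact (C3_rho E A hA hE i).trans h20
  constructor
  · unfold xa
    rw [Finset.mul_sum]
    apply padicNorm.sum_le' _ hW
    intro i hi
    rw [Finset.mem_Icc] at hi
    have e : (q : ℚ) * (rho n (PM n * E) i * u i - ∑ k ∈ sM n, pa (sM n) mM (PM n * E) k i * hs i (k - 2 * n))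
        = rho n (PM n * E) i * ((q : ℚ) * u i) -
          ∑ k ∈ sM n, (q : ℚ) * (pa (sM n) mM (PM n * E) k i * hs i (k - 2 * n)) := by
      rw [← Finset.mul_sum]; ring
    rw [e]
    refine padicNorm.sub.trans (max_le (hru i) ?_)
    apply padicNorm.sum_le' _ hW
    intro k hk
    have hk' := hk
    rw [sM, Finset.mem_Icc] at hk'
    rw [padicNorm.mul, padicNorm.mul]
    have g1 := C3_pa (p := p) E A hA hk (hE k hk) i
    have g2 : padicNorm p (hs i (k - 2 * n)) ≤ M ^ 76 := by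
      have := hs_norm_crude (p := p) i (k - 2 * n) M (by
        rw [hM]; exact_mod_cast (by omega : k - 2 * n ≤ 72 * n + 1)) hM1
      exact this.trans (pow_le_pow_right₀ hM1 hi.2)
    exact C3_aux _ _ _ M A hM1 hM0 hA (padicNorm.nonneg _) (padicNorm.of_nat q) (padicNorm.nonneg _) g1
      (padicNorm.nonneg _) g2
  · unfold xb
    rw [Finset.mul_sum]
    apply padicNorm.sum_le' _ hW
    intro i _
    have e : (q : ℚ) * (rho n (PM n * E) i * u i) = rho n (PM n * E) i * ((q : ℚ) * u i) := by ring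
    rw [e]
    exact hru i

end

end Pool.Agent.H574R2.Q4
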