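import Pool.Agent.H574R2.Q4.Defs

/-! # Splitting of the exponent (task D1) -/

open Polynomial Pool.Agent.H337R2

namespace Pool.Agent.H574R2.Q4

theorem D1_two_T1 (y : ℤ) (hy : 0 ≤ y) : 2 * T1 y = y * (y + 1) := by
  unfold T1 D3.T1
  split_ifs with h
  · exact Int.mul_ediv_cancel' (Int.even_mul_succ_self y).two_dvd
  · obtain rfl : y = 0 := by omega
    norm_num

theorem D1_split (y : ℤ) : ∃ z : ℤ, T1 z + 3 * T1 (y - z) ≤ T4 y := by
  by_cases hy : 0 < y
  · obtain ⟨m, hm0, hm⟩ : ∃ m : ℤ, 0 ≤ m ∧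
        (y = 4 * m ∨ y = 4 * m + 1 ∨ y = 4 * m + 2 ∨ y = 4 * m + 3) :=
      ⟨y / 4, by omega, by omega⟩
    have hT4 : T4 y = 3 * (y + 1) ^ 2 / 8 := by
      unfold T4
      rw [if_pos hy]
    rw [hT4]
    rcases hm with rfl | rfl | rfl | rfl
    · refine ⟨3 * m, ?_⟩
      have h1 := D1_two_T1 (3 * m) (by omega)
      have h2 := D1_two_T1 (4 * m - 3 * m) (by omega)
      have h3 : 3 * (4 * m + 1) ^ 2 / 8 = 6 * m ^ 2 + 3 * m := by
        have : 3 * (4 * m + 1) ^ 2 = 3 + (6 * m ^ 2 + 3 * m) * 8 := by ring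
        rw [this, Int.add_mul_ediv_right _ _ (by norm_num)]
        norm_num
      rw [h3]
      nlinarith
    · refine ⟨3 * m + 1, ?_⟩
      have h1 := D1_two_T1 (3 * m + 1) (by omega)
      have h2 := D1_two_T1 (4 * m + 1 - (3 * m + 1)) (by omega)
      have h3 : 3 * (4 * m + 1 + 1) ^ 2 / 8 = 6 * m ^ 2 + 6 * m + 1 := by
        have : 3 * (4 * m + 1 + 1) ^ 2 = 4 + (6 * m ^ 2 + 6 * m + 1) * 8 := by ring
        rw [this, Int.add_mul_ediv_right _ _ (by norm_num)]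
        norm_num
      rw [h3]
      nlinarith
    · refine ⟨3 * m + 2, ?_⟩
      have h1 := D1_two_T1 (3 * m + 2) (by omega)
      have h2 := D1_two_T1 (4 * m + 2 - (3 * m + 2)) (by omega)
      have h3 : 3 * (4 * m + 2 + 1) ^ 2 / 8 = 6 * m ^ 2 + 9 * m + 3 := by
        have : 3 * (4 * m + 2 + 1) ^ 2 = 3 + (6 * m ^ 2 + 9 * m + 3) * 8 := by ring
        rw [this, Int.add_mul_ediv_right _ _ (by norm_num)]
        norm_num
      rw [h3]
      nlinarith
    · refine ⟨3 * m + 2, ?_⟩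
      have h1 := D1_two_T1 (3 * m + 2) (by omega)
      have h2 := D1_two_T1 (4 * m + 3 - (3 * m + 2)) (by omega)
      have h3 : 3 * (4 * m + 3 + 1) ^ 2 / 8 = 6 * m ^ 2 + 12 * m + 6 := by
        have : 3 * (4 * m + 3 + 1) ^ 2 = (6 * m ^ 2 + 12 * m + 6) * 8 := by ring
        rw [this, Int.mul_ediv_cancel _ (by norm_num)]
      rw [h3]
      nlinarith
  · refine ⟨0, ?_⟩
    have h1 : T1 0 = 0 := by
      unfold T1 D3.T1
      rw [if_neg (lt_irrefl 0)]
    have h2 : T1 (y - 0) = 0 := by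
      unfold T1 D3.T1
      rw [if_neg (by omega)]
    have h3 : T4 y = 0 := by
      unfold T4
      rw [if_neg hy]
    rw [h1, h2, h3]
    norm_num

end Pool.Agent.H574R2.Q4
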