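import Pool.Agent.H574R2.Q4.D3pre
import Pool.Agent.H574R2.Q4.A
import Pool.Agent.H574R2.Q4.C2
import Pool.Agent.H574R2.Q4.D1
import Pool.Agent.H574R2.Q4.D2

/-!
# p-adic size of the determinant
-/

open Polynomial Pool.Agent.H337R2

namespace Pool.Agent.H574R2.Q4

/-- p-adic bound by lists -/
theorem D3_det_padic {n p : ℕ} [Fact p.Prime] (hn : 1 ≤ n) (hp2 : 6 * n < p ^ 2) (q : ℕ) (α β γ : ℕ → ℚ)
    (hα : UInt q α) (hβ : UInt q β) (hγ : UInt q γ) (hβ3 : ∀ i < 3, β i = 0) (hγ5 : ∀ i < 5, γ i = 0) (m : ℕ) (a : ℤ) :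
    padicNorm p ((q : ℚ) ^ (3 * m) * MD3 (AL n α) (BL n β) (BL n γ) m) ≤
      (p : ℚ) ^ ((m : ℤ) * (3 * a - 8) + ∑ κ ∈ Kset n p, T4 (eM n p κ - a)) :=
  D3_det_padic_of A1_monic C2_xa C2_xb D1_split D2_eM_kap
    hn hp2 q α β γ hα hβ hγ hβ3 hγ5 m a (Kset n p)
    (fun k hk => D2_kap_mem (Nat.Prime.pos Fact.out) (by have := (Finset.mem_Icc.1 hk).2; omega))

/-- large primes -/
theorem D3_large {n p : ℕ} [Fact p.Prime] (hn : 1 ≤ n) (hp2 : 6 * n < p ^ 2) (hp : 2 * n < p) (q : ℕ) (α β γ : ℕ → ℚ)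
    (hα : UInt q α) (hβ : UInt q β) (hγ : UInt q γ) (hβ3 : ∀ i < 3, β i = 0) (hγ5 : ∀ i < 5, γ i = 0) (m : ℕ) :
    padicNorm p ((q : ℚ) ^ (3 * m) * MD3 (AL n α) (BL n β) (BL n γ) m) ≤ 1 :=
  D3_large_of A1_monic C2_xa C2_xb hn hp2 hp q α β γ hα hβ hγ hβ3 hγ5 m

end Pool.Agent.H574R2.Q4
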