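import Pool.Agent.H574R2.Q4.TwoF
import Pool.Agent.H574R2.Q4.TwoP
import Pool.Agent.H574R2.Q4.B1r

/-!
# Task D3two (helper299, helper324): primes `n < p < 2n`, two-site classes with one generator, three blocks
-/

open Polynomial Pool.Agent.H337R2

namespace Pool.Agent.H574R2.Q4

noncomputable section

/-- two-site classes: one generator (`n < p < 2n`) -/
theorem D3_two {n p : ℕ} [Fact p.Prime] (hn : 1 ≤ n) (hp100 : 100 ≤ p) (h1 : n < p) (h2 : p < 2 * n) (q : ℕ)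
    (α β γ : ℕ → ℚ) (hα : UInt q α) (hβ : UInt q β) (hγ : UInt q γ) (_hβ3 : ∀ i < 3, β i = 0)
    (_hγ5 : ∀ i < 5, γ i = 0) (m : ℕ) :
    padicNorm p ((q : ℚ) ^ (3 * m) * MD3 (AL n α) (BL n β) (BL n γ) m) ≤
      (p : ℚ) ^ (-(222 * m : ℤ) + ∑ κ ∈ Kfull n p, T2s (eM n p κ + 74)) := by
  have hodd : Odd p := (Fact.out : p.Prime).odd_of_ne_two (by omega)
  exact Two.D3_two_of hn hp100 h1 h2 q α β γ hα hβ hγ m
    (fun a => D2_eM_congr (Nat.add_mod_right a p))
    (fun Q => EM_reflect n Q)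
    (fun u v E hE k hk => Two.fk_pair n u v E hE hk)
    (fun F => Two.split_sum hodd h1 h2 F)
    (fun T => Two.Kfull_sum hn hodd h1 h2 T)

end

end Pool.Agent.H574R2.Q4
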