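import Pool.Agent.H574R2.Q4.D4a
import Pool.Agent.H574R2.Q4.A
import Pool.Agent.H574R2.Q4.C2
import Pool.Agent.H574R2.Q4.C3
import Pool.Agent.H574R2.Q4.C4

/-! Task D4 (helper954). -/

open Polynomial Pool.Agent.H337R2

namespace Pool.Agent.H574R2.Q4

noncomputable section

theorem D4_small_med {n p : ℕ} [Fact p.Prime] (hn : 1 ≤ n) (hp2 : 72 * n < p ^ 2) (q : ℕ) (α β γ : ℕ → ℚ)
    (hα : UInt q α) (hβ : UInt q β) (hγ : UInt q γ) (hβ3 : ∀ i < 3, β i = 0) (hγ5 : ∀ i < 5, γ i = 0) (m : ℕ)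
    (hm : m ≤ 12 * n) :
    padicNorm p ((q : ℚ) ^ (3 * m) * MD3 (AL n α) (BL n β) (BL n γ) m) ≤
      ((p : ℚ) ^ 76) ^ (3 * m) * ((∏ i ∈ Finset.range (3 * m), padicNorm p (((2 * i - 1).factorial : ℕ) : ℚ)) *
        ∏ i ∈ Finset.range m, padicNorm p (((2 * i - 1).factorial : ℕ) : ℚ) ^ 3) :=
  D4_small_med_of A1_monic (fun {_ _} _ => C2_xa) (fun {_ _} _ => C2_xb) (fun {_ _} _ => C4_CP_PB) hn hp2
    q α β γ hα hβ hγ hβ3 hγ5 m hm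

theorem D4_small_crude {n p : ℕ} [Fact p.Prime] (hn : 1 ≤ n) (q : ℕ) (α β γ : ℕ → ℚ)
    (hα : UInt q α) (hβ : UInt q β) (hγ : UInt q γ) (m : ℕ) (hm : m ≤ 12 * n) :
    padicNorm p ((q : ℚ) ^ (3 * m) * MD3 (AL n α) (BL n β) (BL n γ) m) ≤
      (((72 * n + 1 : ℕ) : ℚ) ^ 200) ^ (3 * m) *
        ((∏ i ∈ Finset.range (3 * m), padicNorm p (((2 * i - 1).factorial : ℕ) : ℚ)) *
        ∏ i ∈ Finset.range m, padicNorm p (((2 * i - 1).factorial : ℕ) : ℚ) ^ 3) :=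
  D4_small_crude_of A1_monic (fun {_ _} _ => C3_crude) (fun {_ _} _ => C4_CP_PB) hn q α β γ hα hβ hγ m hm

end

end Pool.Agent.H574R2.Q4
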