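import Pool.Agent.H337R2.Med
import Pool.Agent.H337R2.PsiCert3
import Pool.Agent.H574R2.D3.Defs
import Pool.Agent.H337R2.LZ.Defs

/-!
# Four Q-linearly independent numbers among `1, ζ(3), ζ(5), ..., ζ(75)`: definitions

`R(t) = ((2n)!)^74 (2t+6n) ∏_{m=0}^{2n-1} (t+m) ∏_{m=4n+1}^{6n} (t+m) / ∏_{k=2n}^{4n} (t+k)^76`,
`x(t) = (t+3n)^2`. With `v = t + 3n`: poles `|v| ≤ n`, zeros `n < |v| ≤ 3n`.
The numerator is multiplied by `x^134 Q(x)`.
-/

open Polynomial Pool.Agent.H337R2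

namespace Pool.Agent.H574R2.Q4

noncomputable section

/-- mixed Hankel determinant with three blocks, of size `3m` -/
def MD3 (A B C : ℚ[X] →ₗ[ℚ] ℚ) (m : ℕ) : ℚ :=
  (Matrix.of fun i j : Fin (3 * m) =>
    if j.1 < m then A (X ^ (i.1 + j.1))
    else if j.1 < 2 * m then B (X ^ (i.1 + (j.1 - m)))
    else C (X ^ (i.1 + (j.1 - 2 * m)))).det

/-- common denominators -/
abbrev UInt := Pool.Agent.H574R2.D3.UInt

/-- `y(y+1)/2` for `y > 0` -/
abbrev T1 := Pool.Agent.H574R2.D3.T1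

/-- `⌊3(y+1)²/8⌋` for `y > 0`, and `0` otherwise -/
def T4 (y : ℤ) : ℤ := if 0 < y then 3 * (y + 1) ^ 2 / 8 else 0

/-- tents `(a - j p)^+` -/
abbrev tn := Pool.Agent.H574R2.D3.tn

/-- `∫_{lo}^{hi} (α - j y)_+ dy` -/
abbrev It := Pool.Agent.H574R2.D3.It

/-- limit of the floor sums (`J` terms) -/
abbrev Ifl := Pool.Agent.H574R2.D3.Ifl

/-- polynomials with zeros (in `v`) at `0, ±1, ±2, ...` -/
abbrev CP := Pool.Agent.H574R2.D3.CP

/-- the poles are at `-k`, `2n ≤ k ≤ 4n` -/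
abbrev sM (n : ℕ) : Finset ℕ := Finset.Icc (2 * n) (4 * n)

/-- all poles have order 76 -/
abbrev mM : ℕ → ℕ := fun _ => 76

/-- `(2n)!^74` -/
def cM (n : ℕ) : ℚ := ((2 * n).factorial : ℚ) ^ 74

/-- the zeros -/
def ZM (n : ℕ) : ℚ[X] :=
  (∏ m ∈ Finset.range (2 * n), (X + C (m : ℚ))) * ∏ m ∈ Finset.Icc (4 * n + 1) (6 * n), (X + C (m : ℚ))

/-- numerator -/
def PM (n : ℕ) : ℚ[X] := C (cM n) * (2 * X + C ((6 * n : ℕ) : ℚ)) * ZM n

/-- `x(t) = (t + 3n)^2` -/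
def xM (n : ℕ) : ℚ[X] := (X + C ((3 * n : ℕ) : ℚ)) ^ 2

/-- `x^134 Q(x)` as a polynomial in `t` -/
def EM (n : ℕ) (Q : ℚ[X]) : ℚ[X] := (X ^ 134 * Q).comp (xM n)

/-- coefficient of `ζ(i)` -/
def rho (n : ℕ) (P : ℚ[X]) (i : ℕ) : ℚ := ∑ k ∈ sM n, pa (sM n) mM P k i

/-- the linear form with `ζ(i)` replaced by `α i` -/
def xa (n : ℕ) (α : ℕ → ℚ) (P : ℚ[X]) : ℚ :=
  ∑ i ∈ Finset.Icc 1 76, (rho n P i * α i - ∑ k ∈ sM n, pa (sM n) mM P k i * hs i (k - 2 * n))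

/-- the linear form in the coefficients -/
def xb (n : ℕ) (β : ℕ → ℚ) (P : ℚ[X]) : ℚ := ∑ i ∈ Finset.Icc 1 76, rho n P i * β i

lemma pa_add (s : Finset ℕ) (μ : ℕ → ℕ) (P Q : ℚ[X]) (k i : ℕ) :
    pa s μ (P + Q) k i = pa s μ P k i + pa s μ Q k i :=
  Pool.Agent.H574R2.D3.pa_add s μ P Q k i

lemma pa_C_mul (s : Finset ℕ) (μ : ℕ → ℕ) (c : ℚ) (P : ℚ[X]) (k i : ℕ) :
    pa s μ (C c * P) k i = c * pa s μ P k i :=
  Pool.Agent.H574R2.D3.pa_C_mul s μ c P k i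

lemma rho_add (n : ℕ) (P Q : ℚ[X]) (i : ℕ) : rho n (P + Q) i = rho n P i + rho n Q i := by
  unfold rho
  rw [← Finset.sum_add_distrib]
  exact Finset.sum_congr rfl fun k _ => pa_add _ _ _ _ _ _

lemma rho_C_mul (n : ℕ) (c : ℚ) (P : ℚ[X]) (i : ℕ) : rho n (C c * P) i = c * rho n P i := by
  unfold rho
  rw [Finset.mul_sum]
  exact Finset.sum_congr rfl fun k _ => pa_C_mul _ _ _ _ _ _

lemma xa_add (n : ℕ) (α : ℕ → ℚ) (P Q : ℚ[X]) : xa n α (P + Q) = xa n α P + xa n α Q := by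
  unfold xa
  rw [← Finset.sum_add_distrib]
  apply Finset.sum_congr rfl
  intro i _
  simp only [rho_add, pa_add, add_mul, Finset.sum_add_distrib]
  ring

lemma xa_C_mul (n : ℕ) (α : ℕ → ℚ) (c : ℚ) (P : ℚ[X]) : xa n α (C c * P) = c * xa n α P := by
  unfold xa
  rw [Finset.mul_sum]
  apply Finset.sum_congr rfl
  intro i _
  simp only [rho_C_mul, pa_C_mul, mul_sub, Finset.mul_sum]
  congr 1
  · ring
  · exact Finset.sum_congr rfl fun k _ => by ring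

lemma xb_add (n : ℕ) (β : ℕ → ℚ) (P Q : ℚ[X]) : xb n β (P + Q) = xb n β P + xb n β Q := by
  unfold xb
  rw [← Finset.sum_add_distrib]
  exact Finset.sum_congr rfl fun i _ => by rw [rho_add, add_mul]

lemma xb_C_mul (n : ℕ) (β : ℕ → ℚ) (c : ℚ) (P : ℚ[X]) : xb n β (C c * P) = c * xb n β P := by
  unfold xb
  rw [Finset.mul_sum]
  exact Finset.sum_congr rfl fun i _ => by rw [rho_C_mul, mul_assoc]

lemma EM_add (n : ℕ) (P Q : ℚ[X]) : EM n (P + Q) = EM n P + EM n Q := by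
  unfold EM
  rw [mul_add, Polynomial.add_comp]

lemma EM_C_mul (n : ℕ) (c : ℚ) (P : ℚ[X]) : EM n (C c * P) = C c * EM n P := by
  unfold EM
  rw [mul_left_comm, Polynomial.mul_comp, Polynomial.C_comp]

/-- the functional `A` -/
def AL (n : ℕ) (α : ℕ → ℚ) : ℚ[X] →ₗ[ℚ] ℚ where
  toFun Q := xa n α (PM n * EM n Q)
  map_add' P Q := by rw [EM_add, mul_add, xa_add]
  map_smul' c P := by
    rw [RingHom.id_apply, Polynomial.smul_eq_C_mul, EM_C_mul, mul_left_comm, xa_C_mul, smul_eq_mul]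

/-- the functional `B` -/
def BL (n : ℕ) (β : ℕ → ℚ) : ℚ[X] →ₗ[ℚ] ℚ where
  toFun Q := xb n β (PM n * EM n Q)
  map_add' P Q := by rw [EM_add, mul_add, xb_add]
  map_smul' c P := by
    rw [RingHom.id_apply, Polynomial.smul_eq_C_mul, EM_C_mul, mul_left_comm, xb_C_mul, smul_eq_mul]

lemma AL_apply (n : ℕ) (α : ℕ → ℚ) (Q : ℚ[X]) : AL n α Q = xa n α (PM n * EM n Q) := rfl

lemma BL_apply (n : ℕ) (β : ℕ → ℚ) (Q : ℚ[X]) : BL n β Q = xb n β (PM n * EM n Q) := rfl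

/-- the determinant of size `36n-72` -/
def DD (n : ℕ) (α β γ : ℕ → ℚ) : ℚ := MD3 (AL n α) (BL n β) (BL n γ) (12 * n - 24)

/-- number of poles congruent to `-k` -/
def Np (n p k : ℕ) : ℕ := cnt p (2 * n) (4 * n) k

/-- number of zeros congruent to `k` -/
def Zp (n p k : ℕ) : ℕ := cnt p 0 (2 * n - 1) k + cnt p (4 * n + 1) (6 * n) k

/-- the exponent `e_p(k)` -/
def eM (n p k : ℕ) : ℤ := 76 * (Np n p k : ℤ) - Zp n p k - 74 * ((2 * n / p : ℕ) : ℤ)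

/-- cost of a class with two poles: `E = e + 74` -/
def T2s (E : ℤ) : ℤ := T1 (E / 2) + T1 (E - E / 2)

/-- representative of the class pair of `k` (for `k ≤ 6 n`) -/
def kap (n p k : ℕ) : ℕ := min (k % p) ((6 * n - k) % p)

/-- the set of class pairs -/
def Kset (n p : ℕ) : Finset ℕ := (Finset.range p).filter fun r => r ≤ (6 * n - r) % p

/-- the class pairs with two poles (`n < p < 2n`) -/
def Kfull (n p : ℕ) : Finset ℕ := (Finset.Icc (2 * n + p) (4 * n)).image (kap n p)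

/-- exponent for `n/20 < p ≤ n` -/
def EA (n p : ℕ) : ℝ :=
  8427 / 4 * n - 2664 * (n * ((2 * n / p : ℕ) : ℝ)) - 507 * (n ^ 2 / p) + 3 / 16 * p +
    ∑ j ∈ Finset.Icc 1 120, (18249 / 8 * tn (2 * n) j p - 231 / 4 * tn (4 * n) j p + 3 / 8 * tn (6 * n) j p)

/-- exponent for `n < p < 2n`; every class with two poles has at least `z` zeros if `(z + 2) p ≤ 6 n`, and
`τ = T2s (152 - z)` -/
def EB (τ : ℕ) (n p : ℕ) : ℝ := ((τ : ℝ) - 2664) * n - τ / 2 * p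

/-- the exponent (`T2s 149 = 5625`, `T2s 150 = 5700`, `T2s 151 = 5776`) -/
def EW (n p : ℕ) : ℝ :=
  if p ≤ n then EA n p else if 5 * p ≤ 6 * n then EB 5625 n p else if 2 * p ≤ 3 * n then EB 5700 n p
    else EB 5776 n p

/-- primes between `lo n` and `hi n` -/
def PS (lo hi : ℝ) (n : ℕ) : Finset ℕ := by
  classical exact (Finset.range (73 * n)).filter (fun p : ℕ => p.Prime ∧ lo * n < p ∧ (p : ℝ) < hi * n)

/-- rational part of the limit for `n/20 < p < n` -/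
def LA : ℚ := 8427 / 4 * (1 - 1 / 20) - 2664 * Ifl 2 40 (1 / 20) 1 + 3 / 32 * (1 - (1 / 20) ^ 2) +
  ∑ j ∈ Finset.Icc 1 120, (18249 / 8 * It 2 j (1 / 20) 1 - 231 / 4 * It 4 j (1 / 20) 1 + 3 / 8 * It 6 j (1 / 20) 1)

/-- limit for `lo n < p < hi n`, `1 ≤ lo`, `hi ≤ 2` -/
def LB (τ : ℕ) (lo hi : ℚ) : ℚ := ((τ : ℚ) - 2664) * (hi - lo) - τ / 4 * (hi ^ 2 - lo ^ 2)

def LU : ℚ := ∑ j ∈ Finset.Icc 1 1440, (1 / 2 * It 72 j (1 / 20) 72 + 3 / 2 * It 24 j (1 / 20) 72)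

/-! ### Nodes for the archimedean part (coordinate `u = 100 v`) -/

/-- start of the brick `g` (divided by `n`) -/
def bb : ℕ → ℤ
  | 0 => 300
  | 1 => 600
  | 2 => 900
  | 3 => 1200
  | 4 => 0
  | 5 => 18
  | 6 => 36
  | 7 => 57
  | 8 => 0
  | 9 => 18
  | 10 => 36
  | 11 => 57
  | _ => 0

/-- step of the brick `g` -/
def cc : ℕ → ℕ
  | 0 => 100
  | 1 => 100
  | 2 => 100
  | 3 => 68
  | 4 => 6
  | 5 => 6
  | 6 => 7
  | 7 => 8
  | 8 => 6
  | 9 => 6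
  | 10 => 7
  | 11 => 8
  | _ => 1

/-- the nodes (times 100), `i < 12 (3n-6)`: `i < 9n-1` are the summation points `v = 3n+1+i`; the first `4(3n-6)` nodes
are for the zeta part, the others for the two pole parts (the nodes of the third family are those of the second one,
shifted by one unit); the brick of `i` is `i / (3n-6)` -/
def nd (n i : ℕ) : ℤ :=
  if i < 9 * n - 1 then 100 * (3 * n + 1 + i)
  else bb (i / (3 * n - 6)) * n + cc (i / (3 * n - 6)) * ((i % (3 * n - 6) : ℕ) : ℤ) +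
    (if 24 * n - 48 ≤ i then 1 else 0)

/-- the nodes in the variable `x = v²` -/
def zq (n i : ℕ) : ℚ := ((nd n i : ℚ) / 100) ^ 2

/-- `∏_{j ∈ s, j ≠ i} (X - z_j)` -/
abbrev lag := Pool.Agent.LZ.lag

/-- `∏_{i, j ∈ s, i ≠ j} |z_i - z_j|` -/
abbrev VD := Pool.Agent.LZ.VD

/-- the value `R(v) v^268` at an integer `v > 3n` -/
def wv (n v : ℕ) : ℝ :=
  ((2 * n).factorial : ℝ) ^ 74 * (2 * v) * ((v + 3 * n).factorial / (v + n).factorial) *
    ((v - n - 1).factorial / (v - 3 * n - 1).factorial) *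
    ((v - n - 1).factorial / (v + n).factorial) ^ 76 * (v : ℝ) ^ 268

/-- `∑ log |x - z_i|` at `x = (u/100)²` over the nodes with index in `s` (with `Real.log 0 = 0`) -/
def Lp (n : ℕ) (s : Finset ℕ) (u : ℤ) : ℝ :=
  ∑ i ∈ s, (Real.log (((u - nd n i : ℤ) : ℝ) / 100) + Real.log (((u + nd n i : ℤ) : ℝ) / 100))

/-- potential of the brick `g` (with its mirror image) -/
def Ub (g : ℕ) (w : ℝ) : ℝ :=
  ((Psi (w - bb g) - Psi (w - bb g - 3 * cc g)) + (Psi (w + bb g + 3 * cc g) - Psi (w + bb g))) / cc g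
    - 6 * Real.log 100

/-- `log R(v) = n φ(100 v / n) + O(log n)` -/
def phi (w : ℝ) : ℝ :=
  (Psi (w + 300) - 77 * Psi (w + 100) + 77 * Psi (w - 100) - Psi (w - 300)) / 100 + 444 * Real.log 2
    + 296 * Real.log 5 - 148

/-- total potentials -/
def FN (w : ℝ) : ℝ := phi w + 2 * ∑ g ∈ Finset.range 8, Ub g w

def FY (w : ℝ) : ℝ := phi w + ∑ g ∈ Finset.range 4, Ub g w + 3 * ∑ g ∈ Finset.Ico 4 8, Ub g w

/-- antiderivative of `Ψ` -/
abbrev GG := Pool.Agent.LZ.GG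

/-- mutual energy of two bricks (with mirror images) -/
def en (g h : ℕ) : ℝ :=
  ((GG (bb g + 3 * cc g - bb h) - GG (bb g + 3 * cc g - bb h - 3 * cc h) - GG (bb g - bb h) + GG (bb g - bb h - 3 * cc h)) +
    (GG (bb g + 3 * cc g + bb h + 3 * cc h) - GG (bb g + 3 * cc g + bb h) - GG (bb g + bb h + 3 * cc h)
      + GG (bb g + bb h))) / (cc g * cc h) - 18 * Real.log 100

/-- `∫_300^1200 φ / 100` -/
def iphi : ℝ :=
  (((GG 1500 - GG 600) - 77 * (GG 1300 - GG 400) + 77 * (GG 1100 - GG 200) - GG 900) / 100 +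
    900 * (444 * Real.log 2 + 296 * Real.log 5 - 148)) / 100

/-- saturated part of the energy -/
def eS : ℝ := iphi + ∑ g ∈ Finset.range 3, ∑ h ∈ Finset.range 3, en g h

/-- energy of the other nodes -/
def eN : ℝ := en 3 3 + 2 * ∑ h ∈ Finset.Ico 4 8, en 3 h + 3 * ∑ g ∈ Finset.Ico 4 8, ∑ h ∈ Finset.Ico 4 8, en g h

/-! ### Local objects for the non-vanishing at `n = 2p` -/

/-- node polynomial `x - x(-r)` -/
def XN (n r : ℕ) : ℚ[X] := X - C (((3 * n : ℕ) : ℚ) - r) ^ 2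

/-- local power series at the pole `j` (non-vanishing, `n = 2p`; sites `4 ≤ j ≤ 7`, zeros `0..3` and `8..11`) -/
def ser (j e : ℕ) : PowerSeries ℚ :=
  (∏ i ∈ ({0, 1, 2, 3, 8, 9, 10, 11} : Finset ℕ), (PowerSeries.X + PowerSeries.C ((i : ℚ) - j))) *
  (∏ b ∈ (Finset.Icc 4 7).erase j, iv ((b : ℚ) - j) ^ 76) * (PowerSeries.X + PowerSeries.C (-(j : ℚ))) ^ e

/-- local functional `A` on monomials -/
def Fm (e : ℕ) : ℚ :=
  - ∑ j ∈ Finset.Icc 4 7, ∑ i ∈ Finset.Icc 1 76,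
    PowerSeries.coeff (76 - i) (ser j e) * (hs i (j - 4) + (-1) ^ (i + 1) * hs i (7 - j))

/-- local functional `B` on monomials -/
def Bm (i0 e : ℕ) : ℚ := 2 * ∑ j ∈ Finset.Icc 4 7, PowerSeries.coeff (76 - i0) (ser j e)

/-- the other class pairs, with multiplicity `c` -/
def OT (p r c : ℕ) : ℚ[X] := ∏ r' ∈ (Finset.Icc 1 ((p - 1) / 2)).erase r, XN (2 * p) r' ^ c

end

end Pool.Agent.H574R2.Q4
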