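import Pool.Agent.H574R2.Q4.Defs
import Pool.Agent.H336R2.HD.E3Base

/-! Task E3A. -/

open Polynomial Pool.Agent.H337R2

namespace Pool.Agent.H574R2.Q4

noncomputable section

lemma q4e3a_Np_congr {n p k k' : ℕ} (h : k % p = k' % p) : Np n p k = Np n p k' := by
  unfold Np
  rw [Pool.Agent.H336R2.HD.D2_cnt_congr h]

lemma q4e3a_Zp_congr {n p k k' : ℕ} (h : k % p = k' % p) : Zp n p k = Zp n p k' := by
  unfold Zp
  rw [Pool.Agent.H336R2.HD.D2_cnt_congr h, Pool.Agent.H336R2.HD.D2_cnt_congr (A := 4 * n + 1) h]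

lemma q4e3a_Np_refl {n p k : ℕ} (hk : k ≤ 6 * n) : Np n p (6 * n - k) = Np n p k := by
  unfold Np
  rw [Pool.Agent.H336R2.HD.D2_cnt_refl (by omega) (by omega) hk]
  have h1 : 6 * n - 4 * n = 2 * n := by omega
  have h2 : 6 * n - 2 * n = 4 * n := by omega
  rw [h1, h2]

lemma q4e3a_Zp_refl {n p k : ℕ} (hn : 1 ≤ n) (hk : k ≤ 6 * n) : Zp n p (6 * n - k) = Zp n p k := by
  unfold Zp
  rw [Pool.Agent.H336R2.HD.D2_cnt_refl (by omega) (by omega) hk,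
    Pool.Agent.H336R2.HD.D2_cnt_refl (A := 4 * n + 1) (by omega) (by omega) hk]
  have h1 : 6 * n - (2 * n - 1) = 4 * n + 1 := by omega
  have h2 : 6 * n - 0 = 6 * n := by omega
  have h3 : 6 * n - 6 * n = 0 := by omega
  have h4 : 6 * n - (4 * n + 1) = 2 * n - 1 := by omega
  rw [h1, h2, h3, h4, add_comm]

lemma q4e3a_eM_sym {n p r : ℕ} (hn : 1 ≤ n) (hr : r ≤ 6 * n) : eM n p r = eM n p ((6 * n - r) % p) := by
  unfold eM
  rw [q4e3a_Np_congr (Nat.mod_mod (6 * n - r) p), q4e3a_Zp_congr (Nat.mod_mod (6 * n - r) p),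
    q4e3a_Np_refl hr, q4e3a_Zp_refl hn hr]

lemma q4e3a_Np_le {n p : ℕ} (hp : 0 < p) (hpn : n < 20 * p) (r : ℕ) : Np n p r ≤ 40 := by
  have h1 := Pool.Agent.H336R2.HD.E3_cnt_le p (2 * n) (4 * n) r hp (by omega)
  have h2 : (((4 * n : ℕ) : ℤ) - ((2 * n : ℕ) : ℤ) + 1) / (p : ℤ) ≤ 39 := by
    have h3 : (((4 * n : ℕ) : ℤ) - ((2 * n : ℕ) : ℤ) + 1) / (p : ℤ) < 40 := by
      apply Int.ediv_lt_of_lt_mul (by exact_mod_cast hp)
      push_cast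
      omega
    omega
  have h4 : ((Np n p r : ℕ) : ℤ) ≤ 40 := by
    unfold Np
    linarith
  exact_mod_cast h4

lemma q4e3a_T4_le (y : ℤ) : ((T4 (y - 1) : ℤ) : ℝ) ≤ 3 / 8 * (y : ℝ) ^ 2 := by
  unfold T4
  split_ifs
  · rw [sub_add_cancel]
    have h1 : 3 * y ^ 2 / 8 * 8 ≤ 3 * y ^ 2 := Int.ediv_mul_le _ (by norm_num)
    have h2 : ((3 * y ^ 2 / 8 : ℤ) : ℝ) * 8 ≤ 3 * (y : ℝ) ^ 2 := by exact_mod_cast h1
    linarith
  · simp only [Int.cast_zero]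
    positivity

lemma q4e3a_T4_bd (y B : ℤ) (hB : 0 ≤ B) (hy : y ≤ B) : T4 (y - 1) ≤ B ^ 2 := by
  unfold T4
  split_ifs with h
  · rw [sub_add_cancel]
    have h1 : y ^ 2 ≤ B ^ 2 := by nlinarith
    have h2 : 3 * y ^ 2 / 8 ≤ y ^ 2 := by
      apply Int.ediv_le_of_le_mul (by norm_num)
      nlinarith [sq_nonneg y]
    linarith
  · positivity

lemma q4e3a_sumN (n p : ℕ) (hp : 0 < p) : ∑ r ∈ Finset.range p, (Np n p r : ℝ) = 2 * n + 1 := by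
  have h := Pool.Agent.H336R2.HD.E3_sum_cnt p (2 * n) (4 * n) hp
  have h1 : 4 * n + 1 - 2 * n = 2 * n + 1 := by omega
  rw [h1] at h
  have h2 : ((∑ r ∈ Finset.range p, cnt p (2 * n) (4 * n) r : ℕ) : ℝ) = ((2 * n + 1 : ℕ) : ℝ) := by
    rw [h]
  push_cast at h2
  exact h2

lemma q4e3a_sumZ (n p : ℕ) (hn : 1 ≤ n) (hp : 0 < p) :
    ∑ r ∈ Finset.range p, (Zp n p r : ℝ) = 4 * n := by
  have h := Pool.Agent.H336R2.HD.E3_sum_cnt p 0 (2 * n - 1) hp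
  have h' := Pool.Agent.H336R2.HD.E3_sum_cnt p (4 * n + 1) (6 * n) hp
  have h1 : 2 * n - 1 + 1 - 0 = 2 * n := by omega
  have h1' : 6 * n + 1 - (4 * n + 1) = 2 * n := by omega
  rw [h1] at h
  rw [h1'] at h'
  have h2 : ((∑ r ∈ Finset.range p, Zp n p r : ℕ) : ℝ) = ((4 * n : ℕ) : ℝ) := by
    congr 1
    unfold Zp
    rw [Finset.sum_add_distrib, h, h']
    ring
  push_cast at h2
  exact h2

/-- the algebra at the end -/
lemma q4e3a_final (n p t q2 S2 S4 S6 SN2 SNZ SZ2 T : ℝ) (hp : 0 < p)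
    (ht1 : t * p ≤ 52 * n) (ht2 : 52 * n ≤ (t + 1) * p) (ht0 : 0 ≤ t) (hq2 : q2 ≤ 40)
    (h1 : SN2 ≤ 2 * n + 2 * S2 + 1000)
    (h2 : 2 * (S4 - 2 * S2) - 1000 ≤ SNZ)
    (h3 : SZ2 ≤ 4 * n + 4 * S2 + 2 * (S6 - 2 * S4 + S2) + 2000)
    (hT : 2 * T ≤ 3 / 8 * (5776 * SN2 - 152 * SNZ + SZ2 - 2 * t * (76 * (2 * n + 1) - 4 * n)
      + p * t ^ 2) + 4000 ^ 2) :
    (12 * n - 24) * (3 * (t + 1 - 74 * q2) - 8) + T ≤
      8427 / 4 * n - 2664 * (n * q2) - 507 * (n ^ 2 / p) + 3 / 16 * p +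
        (18249 / 8 * S2 - 231 / 4 * S4 + 3 / 8 * S6) + 10 ^ 7 := by
  have h4 : 507 * (n ^ 2 / p) + 3 / 16 * (p * t ^ 2) - 39 / 2 * (n * t) ≤ 3 / 16 * p := by
    have e1 : 507 * (n ^ 2 / p) + 3 / 16 * (p * t ^ 2) - 39 / 2 * (n * t) =
        3 * (52 * n - t * p) ^ 2 / (16 * p) := by
      field_simp
      ring
    have e2 : 3 / 16 * p = 3 * p ^ 2 / (16 * p) := by
      field_simp
    rw [e1, e2]
    apply div_le_div_of_nonneg_right _ (by positivity)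
    have h5 : 0 ≤ 52 * n - t * p := by linarith
    have h6 : 52 * n - t * p ≤ p := by linarith
    nlinarith
  have e1 : (12 * n - 24) * (3 * (t + 1 - 74 * q2) - 8) =
      36 * (n * t) - 2664 * (n * q2) - 60 * n - 72 * t + 5328 * q2 + 120 := by ring
  have e2 : 2 * t * (76 * (2 * n + 1) - 4 * n) = 296 * (n * t) + 152 * t := by ring
  rw [e1]
  rw [e2] at hT
  linarith

theorem E3_A_of
    (hE1 : ∀ {n p : ℕ} (_ : p.Prime) (_ : p ≠ 2) (_ : p < 6 * n) (f : ℕ → ℤ) (M : ℤ) (_ : 0 ≤ M)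
      (_ : ∀ r < p, f r = f ((6 * n - r) % p)) (_ : ∀ r < p, f r ≤ M),
      2 * ∑ r ∈ Kset n p, f r ≤ ∑ r ∈ Finset.range p, f r + M)
    (hPP : ∀ {n p : ℕ} (_ : 1 ≤ n) (_ : p.Prime) (_ : n < 20 * p),
      ((∑ r ∈ Finset.range p, Np n p r ^ 2 : ℕ) : ℝ) ≤
      2 * n + 2 * ∑ j ∈ Finset.Icc 1 120, tn (2 * n) j p + 1000)
    (hPZ : ∀ {n p : ℕ} (_ : 1 ≤ n) (_ : p.Prime) (_ : n < 20 * p),
      2 * ∑ j ∈ Finset.Icc 1 120, (tn (4 * n) j p - 2 * tn (2 * n) j p) - 1000 ≤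
      ((∑ r ∈ Finset.range p, Np n p r * Zp n p r : ℕ) : ℝ))
    (hZZ : ∀ {n p : ℕ} (_ : 1 ≤ n) (_ : p.Prime) (_ : n < 20 * p),
      ((∑ r ∈ Finset.range p, Zp n p r ^ 2 : ℕ) : ℝ) ≤
      4 * n + 4 * ∑ j ∈ Finset.Icc 1 120, tn (2 * n) j p +
        2 * ∑ j ∈ Finset.Icc 1 120, (tn (6 * n) j p - 2 * tn (4 * n) j p + tn (2 * n) j p) + 2000) :
    ∃ K0 : ℝ, ∀ n p : ℕ, p.Prime → 10 ≤ n → n < 20 * p → p ≤ n → 72 * n < p ^ 2 → ∀ a : ℤ,
    a = ((52 * n / p : ℕ) : ℤ) + 1 - 74 * ((2 * n / p : ℕ) : ℤ) →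
    ((((12 * n - 24 : ℕ) : ℤ) * (3 * a - 8) + ∑ κ ∈ Kset n p, T4 (eM n p κ - a) : ℤ) : ℝ) ≤ EA n p + K0 := by
  refine ⟨10 ^ 7, ?_⟩
  intro n p hp hn hpn hpn' hp2 a ha
  have hp0 : 0 < p := hp.pos
  have hn1 : 1 ≤ n := by omega
  have hne : p ≠ 2 := by
    rintro rfl
    omega
  set Y : ℕ → ℤ := fun r => 76 * (Np n p r : ℤ) - Zp n p r - ((52 * n / p : ℕ) : ℤ) with hY
  have hform : ∀ r, T4 (eM n p r - a) = T4 (Y r - 1) := by
    intro r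
    congr 1
    rw [ha, hY]
    unfold eM
    ring
  have hsumK : ∑ κ ∈ Kset n p, T4 (eM n p κ - a) = ∑ κ ∈ Kset n p, T4 (Y κ - 1) :=
    Finset.sum_congr rfl (fun r _ => hform r)
  have hK := hE1 (n := n) hp hne (by omega) (fun r => T4 (Y r - 1)) (4000 ^ 2) (by norm_num)
    (by
      intro r hr
      show T4 (Y r - 1) = T4 (Y ((6 * n - r) % p) - 1)
      rw [← hform r, ← hform ((6 * n - r) % p), q4e3a_eM_sym hn1 (by omega)])
    (by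
      intro r _
      apply q4e3a_T4_bd _ 4000 (by norm_num)
      have h1 : ((Np n p r : ℕ) : ℤ) ≤ 40 := by exact_mod_cast q4e3a_Np_le hp0 hpn r
      have h2 : (0 : ℤ) ≤ Zp n p r := by positivity
      have h3 : (0 : ℤ) ≤ ((52 * n / p : ℕ) : ℤ) := by positivity
      simp only [hY]
      linarith)
  have hKR : 2 * ((∑ κ ∈ Kset n p, T4 (Y κ - 1) : ℤ) : ℝ) ≤
      ∑ r ∈ Finset.range p, ((T4 (Y r - 1) : ℤ) : ℝ) + 4000 ^ 2 := by
    have : ((2 * ∑ κ ∈ Kset n p, T4 (Y κ - 1) : ℤ) : ℝ) ≤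
        ((∑ r ∈ Finset.range p, T4 (Y r - 1) + 4000 ^ 2 : ℤ) : ℝ) := by exact_mod_cast hK
    push_cast at this
    push_cast
    linarith
  set t : ℝ := ((52 * n / p : ℕ) : ℝ) with ht
  have hsum : ∑ r ∈ Finset.range p, ((T4 (Y r - 1) : ℤ) : ℝ) ≤
      3 / 8 * (5776 * ∑ r ∈ Finset.range p, (Np n p r : ℝ) ^ 2
        - 152 * ∑ r ∈ Finset.range p, (Np n p r : ℝ) * (Zp n p r : ℝ)
        + ∑ r ∈ Finset.range p, (Zp n p r : ℝ) ^ 2
        - 2 * t * (76 * (2 * n + 1) - 4 * n) + p * t ^ 2) := by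
    have h1 : ∀ r ∈ Finset.range p, ((T4 (Y r - 1) : ℤ) : ℝ) ≤
        3 / 8 * (5776 * (Np n p r : ℝ) ^ 2 - 152 * ((Np n p r : ℝ) * (Zp n p r : ℝ)) + (Zp n p r : ℝ) ^ 2
          - 2 * t * (76 * (Np n p r : ℝ) - (Zp n p r : ℝ)) + t ^ 2) := by
      intro r _
      refine (q4e3a_T4_le (Y r)).trans (le_of_eq ?_)
      simp only [hY, ht, Int.cast_sub, Int.cast_mul, Int.cast_natCast, Int.cast_ofNat]
      ring
    refine (Finset.sum_le_sum h1).trans (le_of_eq ?_)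
    rw [← Finset.mul_sum]
    congr 1
    rw [Finset.sum_add_distrib, Finset.sum_sub_distrib, Finset.sum_add_distrib,
      Finset.sum_sub_distrib, ← Finset.mul_sum, ← Finset.mul_sum, ← Finset.mul_sum,
      Finset.sum_sub_distrib, ← Finset.mul_sum, q4e3a_sumN n p hp0, q4e3a_sumZ n p hn1 hp0,
      Finset.sum_const, Finset.card_range, nsmul_eq_mul]
  have h1 := hPP hn1 hp hpn
  have h2 := hPZ hn1 hp hpn
  have h3 := hZZ hn1 hp hpn
  push_cast at h1 h2 h3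
  rw [Finset.sum_sub_distrib, ← Finset.mul_sum] at h2
  rw [Finset.sum_add_distrib, Finset.sum_sub_distrib, ← Finset.mul_sum] at h3
  have hpR : (0 : ℝ) < p := by exact_mod_cast hp0
  have ht1 : t * p ≤ 52 * n := by
    have : 52 * n / p * p ≤ 52 * n := Nat.div_mul_le_self _ _
    have h' : (((52 * n / p) * p : ℕ) : ℝ) ≤ ((52 * n : ℕ) : ℝ) := by exact_mod_cast this
    push_cast at h'
    rw [ht]
    exact h'
  have ht2 : (52 : ℝ) * n ≤ (t + 1) * p := by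
    have : 52 * n < (52 * n / p + 1) * p := by
      have h5 := Nat.div_add_mod (52 * n) p
      have h6 := Nat.mod_lt (52 * n) hp0
      nlinarith
    have h' : ((52 * n : ℕ) : ℝ) ≤ (((52 * n / p + 1) * p : ℕ) : ℝ) := by exact_mod_cast this.le
    push_cast at h'
    rw [ht]
    push_cast
    exact h'
  have ht0 : 0 ≤ t := by rw [ht]; positivity
  have hq2 : ((2 * n / p : ℕ) : ℝ) ≤ 40 := by
    have : 2 * n / p ≤ 40 := by
      apply Nat.div_le_of_le_mul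
      omega
    exact_mod_cast this
  have hfin := q4e3a_final n p t ((2 * n / p : ℕ) : ℝ) _ _ _ _ _ _
    ((∑ κ ∈ Kset n p, T4 (Y κ - 1) : ℤ) : ℝ) hpR ht1 ht2 ht0 hq2 h1 h2 h3 (by linarith)
  rw [hsumK]
  have h8 : ((12 * n - 24 : ℕ) : ℝ) = 12 * n - 24 := by
    rw [Nat.cast_sub (by omega)]
    push_cast
    ring
  have haR : (a : ℝ) = t + 1 - 74 * ((2 * n / p : ℕ) : ℝ) := by
    rw [ha, ht]
    simp only [Int.cast_sub, Int.cast_add, Int.cast_mul, Int.cast_natCast, Int.cast_ofNat,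
      Int.cast_one]
  rw [Int.cast_add, Int.cast_mul, Int.cast_natCast, h8, Int.cast_sub, Int.cast_mul, haR]
  unfold EA
  rw [Finset.sum_add_distrib, Finset.sum_sub_distrib, ← Finset.mul_sum, ← Finset.mul_sum,
    ← Finset.mul_sum]
  push_cast at hfin ⊢
  linarith

end

end Pool.Agent.H574R2.Q4
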