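import Pool.Agent.H574R2.Q4.Defs
import Pool.Agent.H574R2.D3.D2
import Pool.Agent.H336R2.HD.E3Base

/-! Task E3B (adapted from the modules of helper642 and helper831). -/

open Polynomial Pool.Agent.H337R2

namespace Pool.Agent.H574R2.Q4

noncomputable section

private lemma e3b_eM_congr {n p k k' : ℕ} (h : k % p = k' % p) : eM n p k = eM n p k' := by
  unfold eM Np Zp
  simp only [Pool.Agent.H574R2.D3.D2_cnt_congr h]

private lemma e3b_eM_refl {n p k : ℕ} (hn : 1 ≤ n) (hk : k ≤ 6 * n) :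
    eM n p (6 * n - k) = eM n p k := by
  unfold eM Np Zp
  rw [Pool.Agent.H574R2.D3.D2_cnt_refl (A := 2 * n) (B := 4 * n) (by omega) (by omega) hk,
    Pool.Agent.H574R2.D3.D2_cnt_refl (A := 0) (B := 2 * n - 1) (by omega) (by omega) hk,
    Pool.Agent.H574R2.D3.D2_cnt_refl (A := 4 * n + 1) (B := 6 * n) (by omega) (by omega) hk]
  have h1 : 6 * n - 4 * n = 2 * n := by omega
  have h2 : 6 * n - 2 * n = 4 * n := by omega
  have h3 : 6 * n - (2 * n - 1) = 4 * n + 1 := by omega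
  have h4 : 6 * n - 0 = 6 * n := by omega
  have h5 : 6 * n - 6 * n = 0 := by omega
  have h6 : 6 * n - (4 * n + 1) = 2 * n - 1 := by omega
  rw [h1, h2, h3, h4, h5, h6, add_comm (cnt p (4 * n + 1) (6 * n) k)]

private lemma e3b_eM_kap {n p k : ℕ} (hn : 1 ≤ n) (hk : k ≤ 6 * n) :
    eM n p (kap n p k) = eM n p k := by
  unfold kap
  rcases le_total (k % p) ((6 * n - k) % p) with h | h
  · rw [min_eq_left h]
    exact e3b_eM_congr (Nat.mod_mod _ _)
  · rw [min_eq_right h, e3b_eM_congr (Nat.mod_mod _ _), e3b_eM_refl hn hk]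

private lemma e3b_kap_refl {n p k : ℕ} (h1 : p ≤ k) (h2 : k ≤ 6 * n) :
    kap n p (6 * n + p - k) = kap n p k := by
  unfold kap
  have h3 : 6 * n + p - k = (6 * n - k) + p := by omega
  have h4 : 6 * n - (6 * n + p - k) = k - p := by omega
  rw [h4, h3, Nat.add_mod_right]
  have h5 : (k - p) % p = k % p := (Nat.mod_eq_sub_mod h1).symm
  rw [h5, min_comm]

private lemma e3b_T1_mono {a b : ℤ} (h : a ≤ b) : T1 a ≤ T1 b := by
  unfold T1 Pool.Agent.H574R2.D3.T1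
  split_ifs with h1 h2 h2
  · exact Int.ediv_le_ediv (by norm_num) (by nlinarith)
  · omega
  · positivity
  · exact le_refl _

private lemma e3b_T1_nonneg (a : ℤ) : 0 ≤ T1 a := by
  unfold T1 Pool.Agent.H574R2.D3.T1
  split_ifs
  · positivity
  · exact le_refl _

private lemma e3b_T2s_mono {a b : ℤ} (h : a ≤ b) : T2s a ≤ T2s b := by
  unfold T2s
  exact add_le_add (e3b_T1_mono (by omega)) (e3b_T1_mono (by omega))

private lemma e3b_T2s_nonneg (a : ℤ) : 0 ≤ T2s a := by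
  unfold T2s
  exact add_nonneg (e3b_T1_nonneg _) (e3b_T1_nonneg _)

private lemma e3b_Np_le {n p : ℕ} (hp : 0 < p) (h1 : n < p) (k : ℕ) :
    ((Np n p k : ℕ) : ℤ) ≤ 2 := by
  have h := Pool.Agent.H336R2.HD.E3_cnt_le p (2 * n) (4 * n) k hp (by omega)
  have h2 : (((4 * n : ℕ) : ℤ) - ((2 * n : ℕ) : ℤ) + 1) / (p : ℤ) < 2 := by
    apply Int.ediv_lt_of_lt_mul (by exact_mod_cast hp)
    push_cast
    omega
  unfold Np
  omega

/-- lower bound for the number of zeros -/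
private lemma e3b_Zp_ge {n p z : ℕ} (hn : 1 ≤ n) (hp : 0 < p) (h1 : n < p) (hz : (z + 2) * p ≤ 6 * n)
    (k : ℕ) : (z : ℤ) ≤ (Zp n p k : ℤ) := by
  have hp' : (0 : ℤ) < p := by exact_mod_cast hp
  have hN := e3b_Np_le hp h1 k
  unfold Np at hN
  have c1 := cnt_eq p (2 * n) (4 * n) k hp (by omega)
  have c2 := cnt_eq p 0 (2 * n - 1) k hp (by omega)
  have c3 := cnt_eq p (4 * n + 1) (6 * n) k hp (by omega)
  have e1 : (((2 * n - 1 : ℕ) : ℤ) - k) = ((2 * n : ℕ) : ℤ) - 1 - k := by omega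
  have e2 : (((4 * n + 1 : ℕ) : ℤ) - 1 - k) = ((4 * n : ℕ) : ℤ) - k := by push_cast; ring
  rw [e1] at c2
  rw [e2] at c3
  have hz' : ((z : ℤ) + 2) * p ≤ ((6 * n : ℕ) : ℤ) := by exact_mod_cast hz
  have h5 : (((0 : ℕ) : ℤ) - 1 - k) / (p : ℤ) + (z + 2) ≤ (((6 * n : ℕ) : ℤ) - k) / p := by
    rw [← Int.add_mul_ediv_right _ _ hp'.ne']
    exact Int.ediv_le_ediv hp' (by push_cast at hz' ⊢; linarith)
  unfold Zp
  push_cast at c1 c2 c3 hN h5 ⊢
  linarith

/-- sums over the class pairs with two poles -/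
private lemma e3b_sum_le {n p : ℕ} (h2 : p < 2 * n) (f : ℕ → ℤ) (hf : ∀ κ, 0 ≤ f κ) :
    ∑ κ ∈ Kfull n p, f κ ≤ ∑ k ∈ Finset.Icc (2 * n + p) ((6 * n + p) / 2), f (kap n p k) := by
  classical
  have h1 : Kfull n p ⊆ (Finset.Icc (2 * n + p) ((6 * n + p) / 2)).image (kap n p) := by
    intro κ hκ
    unfold Kfull at hκ
    obtain ⟨k, hk, rfl⟩ := Finset.mem_image.1 hκ
    rw [Finset.mem_Icc] at hk
    by_cases h : k ≤ (6 * n + p) / 2
    · exact Finset.mem_image.2 ⟨k, Finset.mem_Icc.2 ⟨hk.1, h⟩, rfl⟩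
    · exact Finset.mem_image.2 ⟨6 * n + p - k, Finset.mem_Icc.2 ⟨by omega, by omega⟩,
        e3b_kap_refl (by omega) (by omega)⟩
  refine (Finset.sum_le_sum_of_subset_of_nonneg h1 (fun _ _ _ => hf _)).trans ?_
  have key : ∀ s : Finset ℕ, ∑ κ ∈ s.image (kap n p), f κ ≤ ∑ k ∈ s, f (kap n p k) := by
    intro s
    induction s using Finset.induction_on with
    | empty => simp
    | insert a s ha ih =>
      rw [Finset.image_insert, Finset.sum_insert ha]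
      by_cases h : kap n p a ∈ s.image (kap n p)
      · rw [Finset.insert_eq_of_mem h]
        have := hf (kap n p a)
        linarith
      · rw [Finset.sum_insert h]
        linarith
  exact key _

private lemma e3b_eM {n p k : ℕ} (h1 : n < p) (h2 : p < 2 * n) (hk2 : k ≤ 4 * n) :
    eM n p (kap n p k) ≤ 78 - Zp n p k := by
  have hp0 : 0 < p := by omega
  rw [e3b_eM_kap (by omega) (by omega)]
  unfold eM
  have h3 := e3b_Np_le hp0 h1 k
  have h4 : 2 * n / p = 1 := by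
    rw [Nat.div_eq_iff hp0]
    omega
  rw [h4]
  push_cast
  linarith

theorem E3_B : ∃ K0 : ℝ, ∀ n p : ℕ, p.Prime → 10 ≤ n → n < p → p < 2 * n → ∀ z : ℕ, (z + 2) * p ≤ 6 * n →
    ((-(222 * (12 * n - 24 : ℕ) : ℤ) + ∑ κ ∈ Kfull n p, T2s (eM n p κ + 74) : ℤ) : ℝ) ≤
      EB (T2s (152 - z)).toNat n p + K0 := by
  refine ⟨20000, ?_⟩
  intro n p hp hn h1 h2 z hz
  have hp0 : 0 < p := hp.pos
  have hsum := e3b_sum_le (n := n) (p := p) h2 (fun κ => T2s (eM n p κ + 74))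
    (fun κ => e3b_T2s_nonneg _)
  obtain ⟨τ, hτ⟩ : ∃ τ : ℕ, (τ : ℤ) = T2s (152 - z) := ⟨(T2s (152 - z)).toNat,
    Int.toNat_of_nonneg (e3b_T2s_nonneg _)⟩
  have hτ' : (T2s (152 - z)).toNat = τ := by rw [← hτ]; exact Int.toNat_natCast τ
  rw [hτ']
  have hτb : (τ : ℤ) ≤ 5852 := by
    rw [hτ]
    have h5 : T2s 152 = 5852 := by decide
    rw [← h5]
    exact e3b_T2s_mono (by omega)
  have hterm : ∀ k ∈ Finset.Icc (2 * n + p) ((6 * n + p) / 2),
      T2s (eM n p (kap n p k) + 74) ≤ (τ : ℤ) := by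
    intro k hk
    rw [Finset.mem_Icc] at hk
    have hz' := e3b_Zp_ge (by omega) hp0 h1 hz k
    have he := e3b_eM h1 h2 (by omega : k ≤ 4 * n)
    rw [hτ]
    exact e3b_T2s_mono (by linarith)
  have hsum2 := Finset.sum_le_sum hterm
  rw [Finset.sum_const, nsmul_eq_mul, Nat.card_Icc] at hsum2
  have hcard : 2 * (((6 * n + p) / 2 + 1 - (2 * n + p) : ℕ) : ℤ) ≤ 2 * n - p + 2 := by omega
  have hτ0 : (0 : ℤ) ≤ (τ : ℤ) := Int.natCast_nonneg τ
  have h6 : 2 * ((((6 * n + p) / 2 + 1 - (2 * n + p) : ℕ) : ℤ) * (τ : ℤ)) ≤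
      (2 * n - p + 2) * τ := by
    rw [← mul_assoc]
    exact mul_le_mul_of_nonneg_right hcard hτ0
  have h8 : (((12 * n - 24 : ℕ) : ℤ)) = 12 * n - 24 := by omega
  have hfinZ : 2 * (-(222 * (12 * n - 24 : ℕ) : ℤ) + ∑ κ ∈ Kfull n p, T2s (eM n p κ + 74)) ≤
      2 * τ * n - τ * p - 5328 * n + 30000 := by
    rw [h8]
    linarith
  have hfinR : 2 * ((-(222 * (12 * n - 24 : ℕ) : ℤ) + ∑ κ ∈ Kfull n p, T2s (eM n p κ + 74) : ℤ) : ℝ) ≤
      2 * τ * n - τ * p - 5328 * n + 30000 := by exact_mod_cast hfinZ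
  unfold EB
  linarith

end

end Pool.Agent.H574R2.Q4
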