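import Pool.Agent.H574R2.Q4.Defs

/-! Task E4 (helper483): p-adic size of the determinant, all primes `p > n/20`;
version with the results D3, D3two, E3 as hypotheses. -/

open Polynomial Pool.Agent.H337R2

namespace Pool.Agent.H574R2.Q4

noncomputable section

/-- the statement of `D3_det_padic` -/
def E4_D3S : Prop := ∀ (n p : ℕ) [Fact p.Prime], 1 ≤ n → 6 * n < p ^ 2 → ∀ (q : ℕ) (α β γ : ℕ → ℚ),
    UInt q α → UInt q β → UInt q γ → (∀ i < 3, β i = 0) → (∀ i < 5, γ i = 0) → ∀ (m : ℕ) (a : ℤ),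
    padicNorm p ((q : ℚ) ^ (3 * m) * MD3 (AL n α) (BL n β) (BL n γ) m) ≤
      (p : ℚ) ^ ((m : ℤ) * (3 * a - 8) + ∑ κ ∈ Kset n p, T4 (eM n p κ - a))

/-- the statement of `D3_large` -/
def E4_D3L : Prop := ∀ (n p : ℕ) [Fact p.Prime], 1 ≤ n → 6 * n < p ^ 2 → 2 * n < p →
    ∀ (q : ℕ) (α β γ : ℕ → ℚ), UInt q α → UInt q β → UInt q γ → (∀ i < 3, β i = 0) →
    (∀ i < 5, γ i = 0) → ∀ (m : ℕ),
    padicNorm p ((q : ℚ) ^ (3 * m) * MD3 (AL n α) (BL n β) (BL n γ) m) ≤ 1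

/-- the statement of `D3_two` -/
def E4_D3T : Prop := ∀ (n p : ℕ) [Fact p.Prime], 1 ≤ n → 100 ≤ p → n < p → p < 2 * n →
    ∀ (q : ℕ) (α β γ : ℕ → ℚ), UInt q α → UInt q β → UInt q γ → (∀ i < 3, β i = 0) →
    (∀ i < 5, γ i = 0) → ∀ (m : ℕ),
    padicNorm p ((q : ℚ) ^ (3 * m) * MD3 (AL n α) (BL n β) (BL n γ) m) ≤
      (p : ℚ) ^ (-(222 * m : ℤ) + ∑ κ ∈ Kfull n p, T2s (eM n p κ + 74))

theorem E4_to_rpow {p : ℕ} (hp : 1 ≤ p) {x : ℚ} {z : ℤ} {E : ℝ} (h : x ≤ (p : ℚ) ^ z)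
    (hz : (z : ℝ) ≤ E) : (x : ℝ) ≤ (p : ℝ) ^ E := by
  have hp1 : (1 : ℝ) ≤ (p : ℝ) := by exact_mod_cast hp
  have h1 : (x : ℝ) ≤ (((p : ℚ) ^ z : ℚ) : ℝ) := by exact_mod_cast h
  refine h1.trans ?_
  rw [Rat.cast_zpow, Rat.cast_natCast, ← Real.rpow_intCast]
  exact Real.rpow_le_rpow_of_exponent_le hp1 hz

theorem E4_T3 : (T2s (152 - ((3 : ℕ) : ℤ))).toNat = 5625 := by decide

theorem E4_T2 : (T2s (152 - ((2 : ℕ) : ℤ))).toNat = 5700 := by decide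

theorem E4_T1 : (T2s (152 - ((1 : ℕ) : ℤ))).toNat = 5776 := by decide

theorem E4_padic_of (hD3 : E4_D3S) (hD3L : E4_D3L) (hD3T : E4_D3T)
    (hA : ∃ K0 : ℝ, ∀ n p : ℕ, p.Prime → 10 ≤ n → n < 20 * p → p ≤ n → 72 * n < p ^ 2 → ∀ a : ℤ,
      a = ((52 * n / p : ℕ) : ℤ) + 1 - 74 * ((2 * n / p : ℕ) : ℤ) →
      ((((12 * n - 24 : ℕ) : ℤ) * (3 * a - 8) + ∑ κ ∈ Kset n p, T4 (eM n p κ - a) : ℤ) : ℝ) ≤
        EA n p + K0)
    (hB : ∃ K0 : ℝ, ∀ n p : ℕ, p.Prime → 10 ≤ n → n < p → p < 2 * n → ∀ z : ℕ,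
      (z + 2) * p ≤ 6 * n →
      ((-(222 * (12 * n - 24 : ℕ) : ℤ) + ∑ κ ∈ Kfull n p, T2s (eM n p κ + 74) : ℤ) : ℝ) ≤
        EB (T2s (152 - z)).toNat n p + K0) :
    ∃ K0 : ℝ, 0 ≤ K0 ∧ ∀ n : ℕ, 100 ≤ n → ∀ p : ℕ, p.Prime → n < 20 * p → 72 * n < p ^ 2 →
    ∀ (q : ℕ) (α β γ : ℕ → ℚ), UInt q α → UInt q β → UInt q γ → (∀ i < 3, β i = 0) →
    (∀ i < 5, γ i = 0) →
    ((padicNorm p ((q : ℚ) ^ (36 * n - 72) * DD n α β γ) : ℚ) : ℝ) ≤
      if p < 2 * n then (p : ℝ) ^ (EW n p + K0) else 1 := by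
  obtain ⟨KA, hKA⟩ := hA
  obtain ⟨KB, hKB⟩ := hB
  refine ⟨max KA (max KB 0), (le_max_right KB 0).trans (le_max_right _ _), ?_⟩
  have hKA' : KA ≤ max KA (max KB 0) := le_max_left _ _
  have hKB' : KB ≤ max KA (max KB 0) := (le_max_left KB 0).trans (le_max_right _ _)
  intro n hn p hp hnp hp2 q α β γ hα hβ hγ hβ3 hγ5
  have : Fact p.Prime := ⟨hp⟩
  have hp1 : 1 ≤ p := hp.one_lt.le
  have hm : 36 * n - 72 = 3 * (12 * n - 24) := by omega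
  rw [hm]
  unfold DD
  by_cases h2 : p < 2 * n
  · rw [if_pos h2]
    by_cases h1 : p ≤ n
    · have h3 := hD3 n p (by omega) (by omega) q α β γ hα hβ hγ hβ3 hγ5 (12 * n - 24)
        (((52 * n / p : ℕ) : ℤ) + 1 - 74 * ((2 * n / p : ℕ) : ℤ))
      refine E4_to_rpow hp1 h3 ?_
      refine (hKA n p hp (by omega) hnp h1 hp2 _ rfl).trans ?_
      rw [EW, if_pos h1]
      linarith
    · push Not at h1
      have h3 := hD3T n p (by omega) (by omega) h1 h2 q α β γ hα hβ hγ hβ3 hγ5 (12 * n - 24)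
      refine E4_to_rpow hp1 h3 ?_
      by_cases h4 : 5 * p ≤ 6 * n
      · have h5 := hKB n p hp (by omega) h1 h2 3 (by omega)
        rw [E4_T3] at h5
        refine h5.trans ?_
        rw [EW, if_neg (by omega), if_pos h4]
        linarith
      · by_cases h6 : 2 * p ≤ 3 * n
        · have h5 := hKB n p hp (by omega) h1 h2 2 (by omega)
          rw [E4_T2] at h5
          refine h5.trans ?_
          rw [EW, if_neg (by omega), if_neg h4, if_pos h6]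
          linarith
        · have h5 := hKB n p hp (by omega) h1 h2 1 (by omega)
          rw [E4_T1] at h5
          refine h5.trans ?_
          rw [EW, if_neg (by omega), if_neg h4, if_neg h6]
          linarith
  · rw [if_neg h2]
    have h6 : 2 * n < p := by
      rcases lt_or_eq_of_le (not_lt.mp h2) with h | h
      · exact h
      · exfalso
        have h7 : 2 ∣ p := ⟨n, by omega⟩
        have h8 := (Nat.prime_dvd_prime_iff_eq Nat.prime_two hp).1 h7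
        omega
    have h3 := hD3L n p (by omega) (by omega) h6 q α β γ hα hβ hγ hβ3 hγ5 (12 * n - 24)
    exact_mod_cast h3

end

end Pool.Agent.H574R2.Q4
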