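import Pool.Agent.H574R2.Q4.Defs
import Pool.Agent.H574R2.D3.F2pre

/-!
# Linear combinations of the prime sums

The statements `F2_A`, `F2_B`, `F2_U` from the elementary limits `F1_tent`, `F1_const`, `F1_id`, `F1_inv`,
`F1_floor` (taken here as hypotheses).
-/

open Filter Topology

namespace Pool.Agent.H574R2.Q4

open Pool.Agent.H574R2.D3 (Lm Lm.add Lm.sub Lm.mul Lm.div Lm.sum Lm.of_eq)

noncomputable section

/-- the statement of `F1_tent` -/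
def F2_F1T : Prop := ∀ (α j : ℕ) (_ : 1 ≤ j) (lo hi : ℚ) (_ : 0 < lo) (_ : lo ≤ hi) (_ : hi ≤ 72),
    Tendsto (fun n : ℕ => (∑ p ∈ PS lo hi n, tn (α * n) j p * Real.log p) / (n : ℝ) ^ 2) atTop
      (𝓝 ((It α j lo hi : ℚ) : ℝ))

/-- the statement of `F1_const` -/
def F2_F1C : Prop := ∀ (lo hi : ℚ) (_ : 0 < lo) (_ : lo ≤ hi) (_ : hi ≤ 72),
    Tendsto (fun n : ℕ => (∑ p ∈ PS lo hi n, (n : ℝ) * Real.log p) / (n : ℝ) ^ 2) atTop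
      (𝓝 (((hi - lo : ℚ)) : ℝ))

/-- the statement of `F1_id` -/
def F2_F1I : Prop := ∀ (lo hi : ℚ) (_ : 0 < lo) (_ : lo ≤ hi) (_ : hi ≤ 72),
    Tendsto (fun n : ℕ => (∑ p ∈ PS lo hi n, (p : ℝ) * Real.log p) / (n : ℝ) ^ 2) atTop
      (𝓝 ((((hi ^ 2 - lo ^ 2) / 2 : ℚ)) : ℝ))

/-- the statement of `F1_inv` -/
def F2_F1V : Prop := ∀ (lo hi : ℚ) (_ : 0 < lo) (_ : lo ≤ hi) (_ : hi ≤ 72),
    Tendsto (fun n : ℕ => (∑ p ∈ PS lo hi n, ((n : ℝ) ^ 2 / p) * Real.log p) / (n : ℝ) ^ 2) atTop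
      (𝓝 (Real.log ((hi : ℚ) : ℝ) - Real.log ((lo : ℚ) : ℝ)))

/-- the statement of `F1_floor` -/
def F2_F1F : Prop := ∀ (α J : ℕ) (lo hi : ℚ) (_ : 0 < lo) (_ : lo ≤ hi) (_ : hi ≤ 72) (_ : α ≤ 72)
    (_ : (α : ℚ) ≤ J * lo),
    Tendsto (fun n : ℕ => (∑ p ∈ PS lo hi n, ((n : ℝ) * ((α * n / p : ℕ) : ℝ)) * Real.log p) / (n : ℝ) ^ 2) atTop
      (𝓝 ((Ifl α J lo hi : ℚ) : ℝ))

theorem F2_A_of (hT : F2_F1T) (hC : F2_F1C) (hI : F2_F1I) (hV : F2_F1V) (hF : F2_F1F) :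
    Tendsto (fun n : ℕ => (∑ p ∈ PS (1 / 20) 1 n, EA n p * Real.log p) / (n : ℝ) ^ 2) atTop
    (𝓝 ((LA : ℝ) - 507 * Real.log 20)) := by
  have T : ∀ α j : ℕ, j ∈ Finset.Icc 1 120 →
      Lm (PS ((1 / 20 : ℚ) : ℝ) ((1 : ℚ) : ℝ)) (fun n p => tn (α * n) j p)
      ((It α j (1 / 20) 1 : ℚ) : ℝ) := fun α j hj =>
    hT α j (Finset.mem_Icc.mp hj).1 (1 / 20) 1 (by norm_num) (by norm_num) (by norm_num)
  have F2 : Lm (PS ((1 / 20 : ℚ) : ℝ) ((1 : ℚ) : ℝ)) (fun n p => (n : ℝ) * ((2 * n / p : ℕ) : ℝ))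
      ((Ifl 2 40 (1 / 20) 1 : ℚ) : ℝ) :=
    hF 2 40 (1 / 20) 1 (by norm_num) (by norm_num) (by norm_num) (by norm_num) (by norm_num)
  have K : Lm (PS ((1 / 20 : ℚ) : ℝ) ((1 : ℚ) : ℝ)) (fun n _ => (n : ℝ)) (((1 - 1 / 20 : ℚ)) : ℝ) :=
    hC (1 / 20) 1 (by norm_num) (by norm_num) (by norm_num)
  have I : Lm (PS ((1 / 20 : ℚ) : ℝ) ((1 : ℚ) : ℝ)) (fun _ p => (p : ℝ))
      ((((1 ^ 2 - (1 / 20) ^ 2) / 2 : ℚ)) : ℝ) :=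
    hI (1 / 20) 1 (by norm_num) (by norm_num) (by norm_num)
  have V : Lm (PS ((1 / 20 : ℚ) : ℝ) ((1 : ℚ) : ℝ)) (fun n p => (n : ℝ) ^ 2 / p)
      (Real.log ((1 : ℚ) : ℝ) - Real.log ((1 / 20 : ℚ) : ℝ)) :=
    hV (1 / 20) 1 (by norm_num) (by norm_num) (by norm_num)
  have SX := Lm.sum (Finset.Icc 1 120) (fun j hj =>
    ((((T 2 j hj).mul (18249 / 8)).sub ((T 4 j hj).mul (231 / 4))).add
      ((T 6 j hj).mul (3 / 8))))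
  have H := ((((K.mul (8427 / 4)).sub (F2.mul 2664)).sub (V.mul 507)).add
    (I.mul (3 / 16))).add SX
  refine Lm.of_eq H ?_ ?_ ?_
  · push_cast; rfl
  · intro n p
    unfold EA
    ring
  · have h20 : Real.log ((1 : ℚ) : ℝ) - Real.log ((1 / 20 : ℚ) : ℝ) = Real.log 20 := by
      push_cast
      rw [one_div, Real.log_inv, sub_neg_eq_add, Real.log_one, zero_add]
    rw [h20]
    unfold LA
    push_cast
    ring

theorem F2_B_of (hC : F2_F1C) (hI : F2_F1I) (τ : ℕ) (lo hi : ℚ) (h1 : 1 ≤ lo) (h2 : lo ≤ hi)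
    (h3 : hi ≤ 2) :
    Tendsto (fun n : ℕ => (∑ p ∈ PS lo hi n, EB τ n p * Real.log p) / (n : ℝ) ^ 2) atTop
    (𝓝 ((LB τ lo hi : ℚ) : ℝ)) := by
  have K : Lm (PS (lo : ℝ) (hi : ℝ)) (fun n _ => (n : ℝ)) (((hi - lo : ℚ)) : ℝ) :=
    hC lo hi (by linarith) h2 (by linarith)
  have I : Lm (PS (lo : ℝ) (hi : ℝ)) (fun _ p => (p : ℝ))
      ((((hi ^ 2 - lo ^ 2) / 2 : ℚ)) : ℝ) :=
    hI lo hi (by linarith) h2 (by linarith)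
  have H := (K.mul ((τ : ℝ) - 2664)).sub (I.mul ((τ : ℝ) / 2))
  refine Lm.of_eq H ?_ ?_ ?_
  · rfl
  · intro n p
    unfold EB
    ring
  · unfold LB
    push_cast
    ring

theorem F2_U_of (hT : F2_F1T) :
    Tendsto (fun n : ℕ => (∑ p ∈ PS (1 / 20) 72 n,
      (∑ j ∈ Finset.Icc 1 1440, (1 / 2 * tn (72 * n) j p + 3 / 2 * tn (24 * n) j p)) * Real.log p) / (n : ℝ) ^ 2)
    atTop (𝓝 (LU : ℝ)) := by
  have T : ∀ α j : ℕ, j ∈ Finset.Icc 1 1440 →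
      Lm (PS ((1 / 20 : ℚ) : ℝ) ((72 : ℚ) : ℝ)) (fun n p => tn (α * n) j p)
      ((It α j (1 / 20) 72 : ℚ) : ℝ) := fun α j hj =>
    hT α j (Finset.mem_Icc.mp hj).1 (1 / 20) 72 (by norm_num) (by norm_num) (by norm_num)
  have H := Lm.sum (Finset.Icc 1 1440)
    (fun j hj => ((T 72 j hj).mul (1 / 2)).add ((T 24 j hj).mul (3 / 2)))
  refine Lm.of_eq H ?_ ?_ ?_
  · push_cast; rfl
  · intro n p
    rfl
  · unfold LU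
    push_cast
    rfl

end

end Pool.Agent.H574R2.Q4
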