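import Pool.Agent.H574R2.Q4.F1
import Pool.Agent.H574R2.Q4.F1f
import Pool.Agent.H574R2.Q4.F2pre

/-! `F2_A`, `F2_B`, `F2_U`. -/

open Filter Topology

namespace Pool.Agent.H574R2.Q4

noncomputable section

theorem F2_A : Tendsto (fun n : ℕ => (∑ p ∈ PS (1 / 20) 1 n, EA n p * Real.log p) / (n : ℝ) ^ 2) atTop
    (𝓝 ((LA : ℝ) - 507 * Real.log 20)) :=
  F2_A_of F1_tent F1_const F1_id F1_inv F1_floor

theorem F2_B (τ : ℕ) (lo hi : ℚ) (h1 : 1 ≤ lo) (h2 : lo ≤ hi) (h3 : hi ≤ 2) :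
    Tendsto (fun n : ℕ => (∑ p ∈ PS lo hi n, EB τ n p * Real.log p) / (n : ℝ) ^ 2) atTop
    (𝓝 ((LB τ lo hi : ℚ) : ℝ)) :=
  F2_B_of F1_const F1_id τ lo hi h1 h2 h3

theorem F2_U : Tendsto (fun n : ℕ => (∑ p ∈ PS (1 / 20) 72 n,
      (∑ j ∈ Finset.Icc 1 1440, (1 / 2 * tn (72 * n) j p + 3 / 2 * tn (24 * n) j p)) * Real.log p) / (n : ℝ) ^ 2)
    atTop (𝓝 (LU : ℝ)) :=
  F2_U_of F1_tent

end

end Pool.Agent.H574R2.Q4
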