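import Pool.Agent.H574R2.Q4.Defs

/-! Task F3: the numerical value of the limits, by kernel evaluation (in pieces). -/

open Polynomial Pool.Agent.H337R2

namespace Pool.Agent.H574R2.Q4

private lemma f3_LA : LA ≤ -1233609 / 500 := by
  decide +kernel

private lemma f3_LB : LB 5625 1 (6 / 5) + LB 5700 (6 / 5) (3 / 2) + LB 5776 (3 / 2) 2 = -1241 := by
  unfold LB
  norm_num

private lemma f3_u1 : ∑ j ∈ Finset.Icc 1 300, (1 / 2 * It 72 j (1 / 20) 72 + 3 / 2 * It 24 j (1 / 20) 72)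
    ≤ 9889319 / 1000 := by
  decide +kernel

private lemma f3_u2 : ∑ j ∈ Finset.Icc 301 600, (1 / 2 * It 72 j (1 / 20) 72 + 3 / 2 * It 24 j (1 / 20) 72)
    ≤ 226137 / 500 := by
  decide +kernel

private lemma f3_u3 : ∑ j ∈ Finset.Icc 601 900, (1 / 2 * It 72 j (1 / 20) 72 + 3 / 2 * It 24 j (1 / 20) 72)
    ≤ 62921 / 500 := by
  decide +kernel

private lemma f3_u4 : ∑ j ∈ Finset.Icc 901 1200, (1 / 2 * It 72 j (1 / 20) 72 + 3 / 2 * It 24 j (1 / 20) 72)
    ≤ 237 / 8 := by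
  decide +kernel

private lemma f3_u5 : ∑ j ∈ Finset.Icc 1201 1440, (1 / 2 * It 72 j (1 / 20) 72 + 3 / 2 * It 24 j (1 / 20) 72)
    ≤ 1137 / 500 := by
  decide +kernel

private lemma f3_split (f : ℕ → ℚ) (a b c : ℕ) (h1 : a ≤ b + 1) (h2 : b ≤ c) :
    ∑ j ∈ Finset.Icc a c, f j = ∑ j ∈ Finset.Icc a b, f j + ∑ j ∈ Finset.Icc (b + 1) c, f j := by
  have e : ∀ u v : ℕ, Finset.Icc u v = Finset.Ico u (v + 1) := fun u v => by
    ext x
    simp only [Finset.mem_Icc, Finset.mem_Ico]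
    omega
  rw [e, e, e, Finset.sum_Ico_consecutive f (by omega) (by omega)]

theorem F3_numeric : LA + LB 5625 1 (6 / 5) + LB 5700 (6 / 5) (3 / 2) + LB 5776 (3 / 2) 2 + LU ≤ 67912 / 10 := by
  have hU : LU ≤ 9889319 / 1000 + 226137 / 500 + 62921 / 500 + 237 / 8 + 1137 / 500 := by
    unfold LU
    rw [f3_split _ 1 300 1440 (by norm_num) (by norm_num), f3_split _ (300 + 1) 600 1440 (by norm_num) (by norm_num),
      f3_split _ (600 + 1) 900 1440 (by norm_num) (by norm_num),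
      f3_split _ (900 + 1) 1200 1440 (by norm_num) (by norm_num)]
    have h1 := f3_u1
    have h2 := f3_u2
    have h3 := f3_u3
    have h4 := f3_u4
    have h5 := f3_u5
    show _ ≤ _
    linarith
  have hA := f3_LA
  have hB := f3_LB
  linarith

end Pool.Agent.H574R2.Q4
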