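import Pool.Agent.H574R2.Q4.Defs
import Pool.Agent.H574R2.D3.F5

/-!
# Task F5: superfactorials and the product formula (helper228, after D9/F5)
-/

open Polynomial Pool.Agent.H337R2 Filter Topology
open Pool.Agent.H574R2.D3 (F5_log_factorial F5_norm)

namespace Pool.Agent.H574R2.Q4

noncomputable section

lemma F5_count (K A p : ℕ) (hp : 0 < p) (hK : 2 * K ≤ A) (h : A < 1440 * p) :
    2 * ∑ i ∈ Finset.range K, (2 * i - 1) / p ≤ ∑ j ∈ Finset.Icc 1 1440, (A - j * p) := by
  have h1 : ∀ i ∈ Finset.range K,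
      (2 * i - 1) / p ≤ ∑ j ∈ Finset.Icc 1 1440, if j * p ≤ 2 * i - 1 then 1 else 0 := by
    intro i hi
    rw [Finset.mem_range] at hi
    rw [← Finset.card_filter]
    have h2 : (2 * i - 1) / p ≤ 1440 := by
      rw [Nat.div_le_iff_le_mul_add_pred hp]
      have h3 : p * 1440 = 1440 * p := by ring
      omega
    calc (2 * i - 1) / p = (Finset.Icc 1 ((2 * i - 1) / p)).card := by simp
      _ ≤ _ := by
        apply Finset.card_le_card
        intro j hj
        rw [Finset.mem_Icc] at hj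
        rw [Finset.mem_filter, Finset.mem_Icc]
        exact ⟨⟨hj.1, hj.2.trans h2⟩, (Nat.le_div_iff_mul_le hp).1 hj.2⟩
  calc 2 * ∑ i ∈ Finset.range K, (2 * i - 1) / p
      ≤ 2 * ∑ i ∈ Finset.range K, ∑ j ∈ Finset.Icc 1 1440, (if j * p ≤ 2 * i - 1 then 1 else 0) :=
        Nat.mul_le_mul_left 2 (Finset.sum_le_sum h1)
    _ = ∑ j ∈ Finset.Icc 1 1440, 2 * ∑ i ∈ Finset.range K, (if j * p ≤ 2 * i - 1 then 1 else 0) := by
        rw [Finset.sum_comm, Finset.mul_sum]
    _ ≤ ∑ j ∈ Finset.Icc 1 1440, (A - j * p) := by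
        apply Finset.sum_le_sum
        intro j hj
        rw [Finset.mem_Icc] at hj
        rw [← Finset.card_filter]
        have hjp : 1 ≤ j * p := Nat.mul_pos hj.1 hp
        have h4 : ((Finset.range K).filter (fun i => j * p ≤ 2 * i - 1)).card ≤
            (Finset.Ico ((j * p + 2) / 2) K).card := by
          apply Finset.card_le_card
          intro i hi
          rw [Finset.mem_filter, Finset.mem_range] at hi
          rw [Finset.mem_Ico]
          generalize j * p = a at *
          omega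
        rw [Nat.card_Ico] at h4
        generalize j * p = a at *
        omega

lemma F5_part (n K A : ℕ) (hn : 28801 ≤ n) (hK : 2 * K ≤ A) (hA : A ≤ 72 * n) :
    ∑ p ∈ (Finset.range (n + 1)).filter (fun p : ℕ => p.Prime ∧ 20 * p ≤ n), ∑ i ∈ Finset.range K,
      Real.log ((padicNorm p (((2 * i - 1).factorial : ℕ) : ℚ) : ℚ) : ℝ) ≤
    - ∑ i ∈ Finset.range K, Real.log ((2 * i - 1).factorial : ℝ) +
      ∑ p ∈ PS (1 / 20) 72 n, (∑ j ∈ Finset.Icc 1 1440, 1 / 2 * tn A j p) * Real.log p := by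
  classical
  set S := (Finset.range (73 * n)).filter (fun p : ℕ => p.Prime) with hS
  -- the left side
  have hL : ∑ p ∈ (Finset.range (n + 1)).filter (fun p : ℕ => p.Prime ∧ 20 * p ≤ n), ∑ i ∈ Finset.range K,
      Real.log ((padicNorm p (((2 * i - 1).factorial : ℕ) : ℚ) : ℚ) : ℝ) =
      -∑ i ∈ Finset.range K, ∑ p ∈ S.filter (fun p => 20 * p ≤ n),
        ((((2 * i - 1).factorial).factorization p : ℝ) * Real.log p) := by
    have : (Finset.range (n + 1)).filter (fun p : ℕ => p.Prime ∧ 20 * p ≤ n) =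
        S.filter (fun p => 20 * p ≤ n) := by
      ext p
      simp only [hS, Finset.mem_filter, Finset.mem_range]
      constructor
      · rintro ⟨h1, h2, h3⟩
        exact ⟨⟨by omega, h2⟩, h3⟩
      · rintro ⟨⟨h1, h2⟩, h3⟩
        exact ⟨by omega, h2, h3⟩
    rw [this, Finset.sum_comm, ← Finset.sum_neg_distrib]
    refine Finset.sum_congr rfl fun i _ => ?_
    rw [← Finset.sum_neg_distrib]
    refine Finset.sum_congr rfl fun p hp => ?_
    have hpp : p.Prime := by
      have := (Finset.mem_filter.1 hp).1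
      exact (Finset.mem_filter.1 this).2
    exact F5_norm p (2 * i - 1) hpp
  have hR : ∑ i ∈ Finset.range K, Real.log ((2 * i - 1).factorial : ℝ) =
      ∑ i ∈ Finset.range K, ∑ p ∈ S.filter (fun p => 20 * p ≤ n),
        ((((2 * i - 1).factorial).factorization p : ℝ) * Real.log p) +
      ∑ i ∈ Finset.range K, ∑ p ∈ S.filter (fun p => ¬ 20 * p ≤ n),
        ((((2 * i - 1).factorial).factorization p : ℝ) * Real.log p) := by
    rw [← Finset.sum_add_distrib]
    refine Finset.sum_congr rfl fun i hi => ?_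
    rw [Finset.sum_filter_add_sum_filter_not]
    exact F5_log_factorial _ _ (by rw [Finset.mem_range] at hi; omega)
  have hmain : ∑ i ∈ Finset.range K, ∑ p ∈ S.filter (fun p => ¬ 20 * p ≤ n),
        ((((2 * i - 1).factorial).factorization p : ℝ) * Real.log p) ≤
      ∑ p ∈ PS (1 / 20) 72 n, (∑ j ∈ Finset.Icc 1 1440, 1 / 2 * tn A j p) * Real.log p := by
    rw [Finset.sum_comm]
    have hPS : PS (1 / 20) 72 n = (S.filter (fun p => ¬ 20 * p ≤ n)).filter (fun p => p < 72 * n) := by
      ext p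
      unfold PS
      simp only [hS, Finset.mem_filter, Finset.mem_range]
      constructor
      · rintro ⟨h1, h2, h3, h4⟩
        refine ⟨⟨⟨h1, h2⟩, ?_⟩, by exact_mod_cast h4⟩
        intro h5
        have h6 : (20 : ℝ) * p ≤ n := by exact_mod_cast h5
        linarith
      · rintro ⟨⟨⟨h1, h2⟩, h3⟩, h4⟩
        refine ⟨h1, h2, ?_, by exact_mod_cast h4⟩
        have h6 : (n : ℝ) < 20 * p := by
          have : n < 20 * p := by omega
          exact_mod_cast this
        linarith
    rw [hPS, ← Finset.sum_filter_add_sum_filter_not (S.filter (fun p => ¬ 20 * p ≤ n))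
      (fun p => p < 72 * n)]
    have hz : ∑ p ∈ (S.filter (fun p => ¬ 20 * p ≤ n)).filter (fun p => ¬ p < 72 * n),
        ∑ i ∈ Finset.range K, ((((2 * i - 1).factorial).factorization p : ℝ) * Real.log p) = 0 := by
      refine Finset.sum_eq_zero fun p hp => Finset.sum_eq_zero fun i hi => ?_
      rw [Finset.mem_range] at hi
      have h1 := (Finset.mem_filter.1 hp).2
      have h2 : ((2 * i - 1).factorial).factorization p = 0 :=
        Nat.factorization_factorial_eq_zero_of_lt (by omega)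
      rw [h2]; simp
    rw [hz, add_zero]
    apply Finset.sum_le_sum
    intro p hp
    have h1 := (Finset.mem_filter.1 hp).2
    have h2 := (Finset.mem_filter.1 (Finset.mem_filter.1 hp).1).2
    have h3 := (Finset.mem_filter.1 (Finset.mem_filter.1 (Finset.mem_filter.1 hp).1).1).2
    have hlog : 0 ≤ Real.log p := Real.log_natCast_nonneg p
    rw [← Finset.sum_mul]
    apply mul_le_mul_of_nonneg_right _ hlog
    have := Fact.mk h3
    have h4 : ∀ i ∈ Finset.range K,
        (((2 * i - 1).factorial).factorization p : ℝ) = (((2 * i - 1) / p : ℕ) : ℝ) := by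
      intro i hi
      rw [Finset.mem_range] at hi
      have h5 : Nat.log p (2 * i - 1) < 2 := by
        apply Nat.log_lt_of_lt_pow' (by norm_num)
        have h9 : n + 1 ≤ 20 * p := by omega
        have h10 : (n + 1) * (n + 1) ≤ (20 * p) * (20 * p) := Nat.mul_le_mul h9 h9
        have h11 : 28801 * n ≤ n * n := Nat.mul_le_mul_right n hn
        have h12 : 400 * (72 * n) < 400 * p ^ 2 := by nlinarith
        omega
      rw [Nat.factorization_def _ h3, padicValNat_factorial h5]
      have : Finset.Ico 1 2 = {1} := by decide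
      rw [this]
      simp
    rw [Finset.sum_congr rfl h4]
    have h6 := F5_count K A p h3.pos hK (by omega)
    have h7 : (∑ j ∈ Finset.Icc 1 1440, 1 / 2 * tn A j p) =
        1 / 2 * ((∑ j ∈ Finset.Icc 1 1440, (A - j * p) : ℕ) : ℝ) := by
      rw [← Finset.mul_sum, Nat.cast_sum]
      rfl
    rw [h7]
    have h8 : ((2 * ∑ i ∈ Finset.range K, (2 * i - 1) / p : ℕ) : ℝ) ≤
        ((∑ j ∈ Finset.Icc 1 1440, (A - j * p) : ℕ) : ℝ) := by exact_mod_cast h6
    rw [Nat.cast_mul] at h8
    rw [← Nat.cast_sum]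
    push_cast at h8 ⊢
    linarith
  rw [hL, hR]
  linarith

theorem F5_fact : ∀ᶠ n : ℕ in atTop,
    ∑ p ∈ (Finset.range (n + 1)).filter (fun p : ℕ => p.Prime ∧ 20 * p ≤ n),
      (∑ i ∈ Finset.range (36 * n - 72), Real.log ((padicNorm p (((2 * i - 1).factorial : ℕ) : ℚ) : ℚ) : ℝ) +
       3 * ∑ i ∈ Finset.range (12 * n - 24), Real.log ((padicNorm p (((2 * i - 1).factorial : ℕ) : ℚ) : ℚ) : ℝ)) ≤
    - (∑ i ∈ Finset.range (36 * n - 72), Real.log ((2 * i - 1).factorial : ℝ) +
       3 * ∑ i ∈ Finset.range (12 * n - 24), Real.log ((2 * i - 1).factorial : ℝ)) +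
      ∑ p ∈ PS (1 / 20) 72 n,
        (∑ j ∈ Finset.Icc 1 1440, (1 / 2 * tn (72 * n) j p + 3 / 2 * tn (24 * n) j p)) * Real.log p := by
  filter_upwards [eventually_ge_atTop 28801] with n hn
  have h1 := F5_part n (36 * n - 72) (72 * n) hn (by omega) le_rfl
  have h2 := F5_part n (12 * n - 24) (24 * n) hn (by omega) (by omega)
  rw [Finset.sum_add_distrib, ← Finset.mul_sum]
  have h3 : ∑ p ∈ PS (1 / 20) 72 n,
        (∑ j ∈ Finset.Icc 1 1440, (1 / 2 * tn (72 * n) j p + 3 / 2 * tn (24 * n) j p)) * Real.log p =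
      ∑ p ∈ PS (1 / 20) 72 n, (∑ j ∈ Finset.Icc 1 1440, 1 / 2 * tn (72 * n) j p) * Real.log p +
      3 * ∑ p ∈ PS (1 / 20) 72 n, (∑ j ∈ Finset.Icc 1 1440, 1 / 2 * tn (24 * n) j p) * Real.log p := by
    rw [Finset.mul_sum, ← Finset.sum_add_distrib]
    refine Finset.sum_congr rfl fun p _ => ?_
    have h4 : ∑ j ∈ Finset.Icc 1 1440, 3 / 2 * tn (24 * n) j p =
        3 * ∑ j ∈ Finset.Icc 1 1440, 1 / 2 * tn (24 * n) j p := by
      rw [Finset.mul_sum]
      exact Finset.sum_congr rfl fun j _ => by ring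
    rw [Finset.sum_add_distrib, h4]
    ring
  rw [h3]
  linarith

end

end Pool.Agent.H574R2.Q4
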