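import Pool.Agent.H574R2.Q4.Defs
import Pool.Agent.H336R2.HD.F6

/-! Task F6: lower bound for the superfactorials. -/

open Filter Topology

namespace Pool.Agent.H574R2.Q4

noncomputable section

open Pool.Agent.H336R2.HD (F6_F F6_mvt F6_sum)

theorem F6_superfac : ∀ ε : ℝ, 0 < ε → ∀ᶠ n : ℕ in atTop,
    1728 * (n : ℝ) ^ 2 * Real.log n + (5184 * Real.log 2 + 3024 * Real.log 3 - 2592 - ε) * (n : ℝ) ^ 2 ≤
      ∑ i ∈ Finset.range (36 * n - 72), Real.log ((2 * i - 1).factorial : ℝ) +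
       3 * ∑ i ∈ Finset.range (12 * n - 24), Real.log ((2 * i - 1).factorial : ℝ) := by
  intro ε hε
  have hlog : Tendsto (fun x : ℝ => Real.log x / x) atTop (𝓝 0) := by
    have := Real.isLittleO_log_id_atTop.tendsto_div_nhds_zero
    simpa using this
  have h12 : Tendsto (fun n : ℕ => (72 * (n : ℝ))) atTop atTop :=
    tendsto_natCast_atTop_atTop.const_mul_atTop (by norm_num)
  have hl2 := (hlog.comp h12).eventually (gt_mem_nhds (show (0 : ℝ) < ε / 2000000 by positivity))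
  have hl3 : ∀ᶠ n : ℕ in atTop, 15 / ε < (n : ℝ) :=
    tendsto_natCast_atTop_atTop.eventually (eventually_gt_atTop _)
  filter_upwards [hl2, hl3, eventually_ge_atTop 3] with n h1 h2 hn
  have hn' : (3 : ℝ) ≤ n := by exact_mod_cast hn
  have hn0 : (0 : ℝ) < n := by linarith
  obtain ⟨M, hM⟩ : ∃ M, 36 * n - 72 = M + 2 := ⟨36 * n - 74, by omega⟩
  obtain ⟨M', hM'⟩ : ∃ M', 12 * n - 24 = M' + 2 := ⟨12 * n - 26, by omega⟩
  have hMr : (M : ℝ) = 36 * n - 74 := by
    have h3 : M + 74 = 36 * n := by omega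
    have h4 : ((M + 74 : ℕ) : ℝ) = ((36 * n : ℕ) : ℝ) := by rw [h3]
    push_cast at h4
    linarith
  have hMr' : (M' : ℝ) = 12 * n - 26 := by
    have h3 : M' + 26 = 12 * n := by omega
    have h4 : ((M' + 26 : ℕ) : ℝ) = ((12 * n : ℕ) : ℝ) := by rw [h3]
    push_cast at h4
    linarith
  have h3 := F6_sum M
  have h3' := F6_sum M'
  rw [← hM] at h3
  rw [← hM'] at h3'
  have h4 : (2 * (M : ℝ) + 1) = 72 * n - 147 := by
    rw [hMr]
    ring
  have h4' : (2 * (M' : ℝ) + 1) = 24 * n - 51 := by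
    rw [hMr']
    ring
  rw [h4] at h3
  rw [h4'] at h3'
  have h5 := F6_mvt (a := 72 * (n : ℝ) - 147) (b := 72 * n) (by linarith) (by linarith)
  have h5' := F6_mvt (a := 24 * (n : ℝ) - 51) (b := 24 * n) (by linarith) (by linarith)
  have h6 : (72 * (n : ℝ) - (72 * n - 147)) = 147 := by ring
  have h6' : (24 * (n : ℝ) - (24 * n - 51)) = 51 := by ring
  rw [h6] at h5
  rw [h6'] at h5'
  have l16 : Real.log 72 = 3 * Real.log 2 + 2 * Real.log 3 := by
    rw [show (72 : ℝ) = 2 ^ 3 * 3 ^ 2 by norm_num, Real.log_mul (by norm_num) (by norm_num),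
      Real.log_pow, Real.log_pow]
    norm_num
  have l8 : Real.log 24 = 3 * Real.log 2 + Real.log 3 := by
    rw [show (24 : ℝ) = 2 ^ 3 * 3 by norm_num, Real.log_mul (by norm_num) (by norm_num),
      Real.log_pow]
    norm_num
  have h7 : F6_F (72 * n) = 2592 * (n : ℝ) ^ 2 * Real.log n
      + (7776 * Real.log 2 + 5184 * Real.log 3 - 3888) * (n : ℝ) ^ 2 := by
    unfold F6_F
    rw [Real.log_mul (by norm_num) hn0.ne', l16]
    ring
  have h7' : F6_F (24 * n) = 288 * (n : ℝ) ^ 2 * Real.log n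
      + (864 * Real.log 2 + 288 * Real.log 3 - 432) * (n : ℝ) ^ 2 := by
    unfold F6_F
    rw [Real.log_mul (by norm_num) hn0.ne', l8]
    ring
  have h8 : Real.log (72 * n) < ε / 2000000 * (72 * n) := by
    have h9 : Real.log (72 * (n : ℝ)) / (72 * n) < ε / 2000000 := h1
    rwa [div_lt_iff₀ (by positivity)] at h9
  have h8' : Real.log (24 * n) ≤ ε / 2000000 * (72 * n) := by
    refine le_trans (Real.log_le_log (by positivity) ?_) h8.le
    linarith
  have h10 : (72 * (n : ℝ)) * Real.log (72 * n) ≤ (72 * (n : ℝ)) * (ε / 2000000 * (72 * n)) :=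
    mul_le_mul_of_nonneg_left h8.le (by positivity)
  have h10' : (24 * (n : ℝ)) * Real.log (24 * n) ≤ (24 * (n : ℝ)) * (ε / 2000000 * (72 * n)) :=
    mul_le_mul_of_nonneg_left h8' (by positivity)
  have h11 : 15 / 2 ≤ ε / 2 * (n : ℝ) ^ 2 := by
    rw [div_lt_iff₀ (by positivity)] at h2
    nlinarith [mul_pos hε hn0]
  have h12 : 0 ≤ ε * (n : ℝ) ^ 2 := by positivity
  nlinarith [h3, h5, h7, h10, h11, h3', h5', h7', h10', h12]

end

end Pool.Agent.H574R2.Q4
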