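import Pool.Agent.H574R2.Q4.Defs

set_option autoImplicit false

open Polynomial Pool.Agent.H337R2

namespace Pool.Agent.H574R2.Q4

theorem G0_cc_pos : ∀ g < 12, 6 ≤ cc g := by decide

theorem G0_disj_aux : ∀ g < 12, ∀ h < 12,
    (g < 3 ∨ h < 3 ∨ bb g + 3 * (cc g : ℤ) ≤ bb h ∨ bb h + 3 * (cc h : ℤ) ≤ bb g ∨ g = h ∨
    ((g < 8 ∧ 8 ≤ h) ∨ (h < 8 ∧ 8 ≤ g)) ∧ (bb g = bb h ∧ cc g = cc h)) := by
  decide

theorem G0_disj (g : ℕ) (hg : g < 12) (h : ℕ) (hh : h < 12) (h1 : 3 ≤ g) (h2 : 3 ≤ h) (h3 : g ≠ h) :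
    bb g + 3 * (cc g : ℤ) ≤ bb h ∨ bb h + 3 * (cc h : ℤ) ≤ bb g ∨
    (g < 8 ∧ 8 ≤ h ∧ bb g = bb h ∧ cc g = cc h) ∨ (h < 8 ∧ 8 ≤ g ∧ bb g = bb h ∧ cc g = cc h) := by
  rcases G0_disj_aux g hg h hh with h4 | h4 | h4 | h4 | h4 | ⟨h4 | h4, h5, h6⟩
  · omega
  · omega
  · exact Or.inl h4
  · exact Or.inr (Or.inl h4)
  · exact absurd h4 h3
  · exact Or.inr (Or.inr (Or.inl ⟨h4.1, h4.2, h5, h6⟩))
  · exact Or.inr (Or.inr (Or.inr ⟨h4.1, h4.2, h5, h6⟩))

theorem G0_brX : bb 3 = 1200 ∧ cc 3 = 68 := by decide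

theorem G0_brY : ∀ g < 12, 4 ≤ g → 0 ≤ bb g ∧ bb g + 3 * (cc g : ℤ) ≤ 81 := by decide

theorem G0_br2 : ∀ g < 12, 3 ≤ g → 0 ≤ bb g ∧ (bb g + 3 * (cc g : ℤ) ≤ 300 ∨ 1200 ≤ bb g) := by decide

theorem G0_div_lt {n i : ℕ} (hn : 30 ≤ n) (hi : i < 36 * n - 72) : i / (3 * n - 6) < 12 := by
  rw [Nat.div_lt_iff_lt_mul (by omega)]
  omega

/-- a node of the saturated part -/
theorem G0_nd_sat {n i : ℕ} (h : i < 9 * n - 1) : nd n i = 100 * (3 * n + 1 + i) := by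
  unfold nd
  rw [if_pos h]

/-- the shift of the third family -/
def G0_e (n i : ℕ) : ℤ := if 24 * n - 48 ≤ i then 1 else 0

theorem G0_e_nonneg (n i : ℕ) : 0 ≤ G0_e n i := by
  unfold G0_e
  split_ifs <;> omega

theorem G0_e_le (n i : ℕ) : G0_e n i ≤ 1 := by
  unfold G0_e
  split_ifs <;> omega

theorem G0_e_of_lt {n i : ℕ} (hn : 30 ≤ n) (h : i / (3 * n - 6) < 8) : G0_e n i = 0 := by
  unfold G0_e
  rw [Nat.div_lt_iff_lt_mul (by omega)] at h
  rw [if_neg (by omega)]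

theorem G0_e_of_ge {n i : ℕ} (hn : 30 ≤ n) (h : 8 ≤ i / (3 * n - 6)) : G0_e n i = 1 := by
  unfold G0_e
  rw [Nat.le_div_iff_mul_le (by omega)] at h
  rw [if_pos (by omega)]

/-- a node of the other part -/
theorem G0_nd_brick {n i : ℕ} (h : 9 * n - 1 ≤ i) :
    nd n i = bb (i / (3 * n - 6)) * n + cc (i / (3 * n - 6)) * ((i % (3 * n - 6) : ℕ) : ℤ) + G0_e n i := by
  unfold nd G0_e
  rw [if_neg (by omega)]

theorem G0_brick {n i : ℕ} (hn : 30 ≤ n) (h : 9 * n - 1 ≤ i) (hi : i < 36 * n - 72) :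
    bb (i / (3 * n - 6)) * n ≤ nd n i ∧
      nd n i < (bb (i / (3 * n - 6)) + 3 * (cc (i / (3 * n - 6)) : ℤ)) * n := by
  have hg := G0_div_lt hn hi
  have hc := G0_cc_pos _ hg
  have hr : i % (3 * n - 6) < 3 * n - 6 := Nat.mod_lt _ (by omega)
  have hr' : ((i % (3 * n - 6) : ℕ) : ℤ) + 7 ≤ 3 * n := by
    have h7 : i % (3 * n - 6) + 7 ≤ 3 * n := by omega
    exact_mod_cast h7
  have hr0 : (0 : ℤ) ≤ ((i % (3 * n - 6) : ℕ) : ℤ) := Int.natCast_nonneg _
  have hc' : (6 : ℤ) ≤ (cc (i / (3 * n - 6)) : ℤ) := by exact_mod_cast hc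
  have he0 := G0_e_nonneg n i
  have he1 := G0_e_le n i
  rw [G0_nd_brick h]
  constructor
  · nlinarith
  · nlinarith

theorem G0_div_ge {n i : ℕ} (hn : 30 ≤ n) (h : 9 * n - 1 ≤ i) : 3 ≤ i / (3 * n - 6) := by
  rw [Nat.le_div_iff_mul_le (by omega)]
  omega

theorem G0_nd_nonneg {n i : ℕ} (hn : 30 ≤ n) (hi : i < 36 * n - 72) : 0 ≤ nd n i := by
  by_cases h : i < 9 * n - 1
  · rw [G0_nd_sat h]
    positivity
  · push Not at h
    have h1 := (G0_br2 _ (G0_div_lt hn hi) (G0_div_ge hn h)).1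
    have h2 := (G0_brick hn h hi).1
    have hn' : (0 : ℤ) ≤ n := Int.natCast_nonneg _
    exact (mul_nonneg h1 hn').trans h2

/-- the saturated nodes are different from the others -/
theorem G0_cross {n i j : ℕ} (hn : 30 ≤ n) (hi : i < 9 * n - 1) (h : 9 * n - 1 ≤ j)
    (hj : j < 36 * n - 72) : nd n i ≠ nd n j := by
  intro he
  have e1 := G0_nd_sat hi
  have hiz : (i : ℤ) + 2 ≤ 9 * n := by exact_mod_cast (by omega : i + 2 ≤ 9 * n)
  have hi0 : (0 : ℤ) ≤ (i : ℤ) := Int.natCast_nonneg _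
  have hn' : (0 : ℤ) ≤ n := Int.natCast_nonneg _
  have h2 := G0_brick hn h hj
  rcases (G0_br2 _ (G0_div_lt hn hj) (G0_div_ge hn h)).2 with h3 | h3
  · have := mul_le_mul_of_nonneg_right h3 hn'
    linarith [h2.2]
  · have := mul_le_mul_of_nonneg_right h3 hn'
    linarith [h2.1]

theorem G0_step {c r s : ℤ} (hc : 6 ≤ c) (h : c * r = c * s + 1) : False := by
  have h1 : c * (r - s) = 1 := by linarith
  have h2 : c ∣ 1 := ⟨r - s, h1.symm⟩
  have h3 := Int.le_of_dvd one_pos h2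
  omega

theorem G0_nd_inj {n : ℕ} (hn : 30 ≤ n) : Set.InjOn (nd n) (Finset.range (36 * n - 72)) := by
  intro i hi j hj hij
  rw [Finset.coe_range, Set.mem_Iio] at hi hj
  have hn' : (1 : ℤ) ≤ n := by exact_mod_cast (by omega : 1 ≤ n)
  by_cases hi2 : i < 9 * n - 1
  · by_cases hj2 : j < 9 * n - 1
    · rw [G0_nd_sat hi2, G0_nd_sat hj2] at hij
      have : (i : ℤ) = j := by linarith
      exact_mod_cast this
    · push Not at hj2
      exact absurd hij (G0_cross hn hi2 hj2 hj)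
  · push Not at hi2
    by_cases hj2 : j < 9 * n - 1
    · exact absurd hij.symm (G0_cross hn hj2 hi2 hi)
    · push Not at hj2
      have bi := G0_brick hn hi2 hi
      have bj := G0_brick hn hj2 hj
      have hgi := G0_div_lt hn hi
      have hgj := G0_div_lt hn hj
      have hij' : nd n i = nd n j := hij
      by_cases hg : i / (3 * n - 6) = j / (3 * n - 6)
      · have h1 : nd n i = nd n j := hij
        have hee : G0_e n i = G0_e n j := by
          by_cases h8 : j / (3 * n - 6) < 8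
          · rw [G0_e_of_lt hn h8, G0_e_of_lt hn (hg ▸ h8)]
          · push Not at h8
            rw [G0_e_of_ge hn h8, G0_e_of_ge hn (hg ▸ h8)]
        rw [G0_nd_brick hi2, G0_nd_brick hj2, hg, hee] at h1
        have hc : (cc (j / (3 * n - 6)) : ℤ) ≠ 0 := by
          have := G0_cc_pos _ hgj
          have h2 : (6 : ℤ) ≤ (cc (j / (3 * n - 6)) : ℤ) := by exact_mod_cast this
          omega
        have h3 : (cc (j / (3 * n - 6)) : ℤ) * ((i % (3 * n - 6) : ℕ) : ℤ) =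
            (cc (j / (3 * n - 6)) : ℤ) * ((j % (3 * n - 6) : ℕ) : ℤ) := by
          linarith
        have h4 := mul_left_cancel₀ hc h3
        have h5 : i % (3 * n - 6) = j % (3 * n - 6) := by exact_mod_cast h4
        rw [← Nat.div_add_mod i (3 * n - 6), ← Nat.div_add_mod j (3 * n - 6), hg, h5]
      · exfalso
        rcases G0_disj _ hgi _ hgj (G0_div_ge hn hi2) (G0_div_ge hn hj2) hg with h | h | h | h
        · have h1 : (bb (i / (3 * n - 6)) + 3 * (cc (i / (3 * n - 6)) : ℤ)) * n ≤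
              bb (j / (3 * n - 6)) * n := mul_le_mul_of_nonneg_right h (by omega)
          linarith [bi.2, bj.1]
        · have h1 : (bb (j / (3 * n - 6)) + 3 * (cc (j / (3 * n - 6)) : ℤ)) * n ≤
              bb (i / (3 * n - 6)) * n := mul_le_mul_of_nonneg_right h (by omega)
          linarith [bj.2, bi.1]
        · obtain ⟨h8, h9, hb, hc⟩ := h
          have h6 : (6 : ℤ) ≤ (cc (j / (3 * n - 6)) : ℤ) := by exact_mod_cast G0_cc_pos _ hgj
          rw [G0_nd_brick hi2, G0_nd_brick hj2, G0_e_of_lt hn h8, G0_e_of_ge hn h9, hb, hc] at hij'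
          exact G0_step h6 (r := ((i % (3 * n - 6) : ℕ) : ℤ)) (s := ((j % (3 * n - 6) : ℕ) : ℤ))
            (by linarith)
        · obtain ⟨h8, h9, hb, hc⟩ := h
          have h6 : (6 : ℤ) ≤ (cc (j / (3 * n - 6)) : ℤ) := by exact_mod_cast G0_cc_pos _ hgj
          rw [G0_nd_brick hi2, G0_nd_brick hj2, G0_e_of_lt hn h8, G0_e_of_ge hn h9, hb, hc] at hij'
          exact G0_step h6 (r := ((j % (3 * n - 6) : ℕ) : ℤ)) (s := ((i % (3 * n - 6) : ℕ) : ℤ))
            (by linarith)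

theorem G0_zq_inj {n : ℕ} (hn : 30 ≤ n) : Set.InjOn (zq n) (Finset.range (36 * n - 72)) := by
  intro i hi j hj hij
  have hi' : i < 36 * n - 72 := by simpa using hi
  have hj' : j < 36 * n - 72 := by simpa using hj
  have h1 : (0 : ℚ) ≤ (nd n i : ℚ) := by exact_mod_cast G0_nd_nonneg hn hi'
  have h2 : (0 : ℚ) ≤ (nd n j : ℚ) := by exact_mod_cast G0_nd_nonneg hn hj'
  have h3 : ((nd n i : ℚ) / 100) ^ 2 = ((nd n j : ℚ) / 100) ^ 2 := hij
  have h4 : (nd n i : ℚ) / 100 = (nd n j : ℚ) / 100 :=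
    (pow_left_inj₀ (by positivity) (by positivity) (by norm_num)).mp h3
  have h5 : (nd n i : ℚ) = (nd n j : ℚ) := by linarith
  have h6 : nd n i = nd n j := by exact_mod_cast h5
  exact G0_nd_inj hn hi hj h6

theorem G0_nd_X {n i : ℕ} (hn : 30 ≤ n) (h1 : 9 * n - 1 ≤ i) (h2 : i < 12 * n - 24) :
    1200 * n ≤ nd n i ∧ nd n i < 1404 * n := by
  have hb := G0_brick hn h1 (show i < 36 * n - 72 by omega)
  have hg1 : i / (3 * n - 6) < 4 := by
    rw [Nat.div_lt_iff_lt_mul (by omega)]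
    omega
  have hg3 : i / (3 * n - 6) = 3 := by
    have := G0_div_ge hn h1
    omega
  rw [hg3] at hb
  obtain ⟨e1, e2⟩ := G0_brX
  rw [e1, e2] at hb
  constructor
  · exact hb.1
  · have := hb.2
    push_cast at this
    linarith

theorem G0_nd_Y {n i : ℕ} (hn : 30 ≤ n) (h1 : 12 * n - 24 ≤ i) (h2 : i < 36 * n - 72) :
    0 ≤ nd n i ∧ nd n i < 81 * n := by
  have hb := G0_brick hn (show 9 * n - 1 ≤ i by omega) h2
  have hg2 : 4 ≤ i / (3 * n - 6) := by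
    rw [Nat.le_div_iff_mul_le (by omega)]
    omega
  obtain ⟨e1, e2⟩ := G0_brY _ (G0_div_lt hn h2) hg2
  have hn' : (0 : ℤ) ≤ n := Int.natCast_nonneg _
  have f1 := mul_le_mul_of_nonneg_right e1 hn'
  have f2 := mul_le_mul_of_nonneg_right e2 hn'
  constructor
  · linarith [hb.1]
  · linarith [hb.2]

end Pool.Agent.H574R2.Q4
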