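import Pool.Agent.H574R2.Q4.Defs

open Polynomial Pool.Agent.H337R2

namespace Pool.Agent.H574R2.Q4

noncomputable section

/-- the statement of `B1_hasSum` -/
def G1_B1St : Prop := ∀ {n : ℕ}, 10 ≤ n → ∀ (α β γ : ℕ → ℚ) (θ₁ θ₂ : ℝ),
    (∀ i, Odd i → 3 ≤ i → i ≤ 75 → zr i = (α i : ℝ) + θ₁ * (β i : ℝ) + θ₂ * (γ i : ℝ)) →
    ∀ (Q : ℚ[X]), Q.natDegree ≤ 48 * n →
    HasSum (fun t : ℕ => wv n (3 * n + 1 + t) * ((Q.eval (((3 * n + 1 + t : ℕ) : ℚ) ^ 2) : ℚ) : ℝ))
      (((AL n α Q : ℚ) : ℝ) + θ₁ * ((BL n β Q : ℚ) : ℝ) + θ₂ * ((BL n γ Q : ℚ) : ℝ))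

private theorem g1_wv_nonneg (n v : ℕ) : 0 ≤ wv n v := by
  unfold wv
  positivity

private theorem g1_nd {n k : ℕ} (hk : k < 9 * n - 1) : nd n k = 100 * (3 * n + 1 + k) := by
  unfold nd
  rw [if_pos hk]

private theorem g1_bb (g : ℕ) : 0 ≤ bb g := by
  unfold bb
  split <;> norm_num

private theorem g1_nd_nonneg (n k : ℕ) : 0 ≤ nd n k := by
  unfold nd
  split_ifs
  · positivity
  · have := g1_bb (k / (3 * n - 6))
    positivity
  · have := g1_bb (k / (3 * n - 6))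
    rw [add_zero]
    positivity

private theorem g1_eval_lag (n : ℕ) (s : Finset ℕ) (i v : ℕ) :
    (((lag s (zq n) i).eval ((v : ℚ) ^ 2) : ℚ) : ℝ) =
      ∏ k ∈ s.erase i, ((((100 * v - nd n k : ℤ) : ℝ) / 100) * (((100 * v + nd n k : ℤ) : ℝ) / 100)) := by
  unfold lag Pool.Agent.LZ.lag
  rw [Polynomial.eval_prod]
  push_cast
  apply Finset.prod_congr rfl
  intro k _
  simp only [eval_sub, eval_X, eval_C, zq]
  push_cast
  ring

private theorem g1_deg_lag (n : ℕ) (s : Finset ℕ) (i : ℕ) :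
    (lag s (zq n) i).natDegree ≤ (s.erase i).card := by
  unfold lag Pool.Agent.LZ.lag
  refine (Polynomial.natDegree_prod_le _ _).trans ?_
  refine (Finset.sum_le_sum (g := fun _ => 1) fun k _ => ?_).trans ?_
  · simp
  · simp

private theorem g1_zero (n : ℕ) (s : Finset ℕ) (i : ℕ) (u : ℤ) (k : ℕ) (hk : k ∈ s) (hki : k ≠ i)
    (h : u - nd n k = 0) :
    ∏ k ∈ s.erase i, ((((u - nd n k : ℤ) : ℝ) / 100) * (((u + nd n k : ℤ) : ℝ) / 100)) = 0 := by
  apply Finset.prod_eq_zero (Finset.mem_erase.mpr ⟨hki, hk⟩)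
  rw [h]; simp

private theorem g1_pos (n : ℕ) (u : ℤ) (hu : 100 ≤ u) (k : ℕ) :
    1 ≤ (((u + nd n k : ℤ) : ℝ) / 100) := by
  have h1 := g1_nd_nonneg n k
  have h2 : (100 : ℤ) ≤ u + nd n k := by omega
  have h3 : (100 : ℝ) ≤ ((u + nd n k : ℤ) : ℝ) := by exact_mod_cast h2
  rw [le_div_iff₀ (by norm_num)]
  linarith

private theorem g1_prod (n : ℕ) (s : Finset ℕ) (i : ℕ) (hi : i ∈ s) (u : ℤ) (hu : 100 ≤ u)
    (h : ∀ k ∈ s.erase i, u - nd n k ≠ 0) :
    |∏ k ∈ s.erase i, ((((u - nd n k : ℤ) : ℝ) / 100) * (((u + nd n k : ℤ) : ℝ) / 100))| =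
      Real.exp (Lp n s u) * (Real.exp (-Real.log (((u - nd n i : ℤ) : ℝ) / 100)) *
        Real.exp (-Real.log (((u + nd n i : ℤ) : ℝ) / 100))) := by
  rw [← Real.exp_add, ← Real.exp_add, Finset.abs_prod]
  unfold Lp
  rw [← Finset.sum_erase_add _ _ hi]
  have e1 : ∑ x ∈ s.erase i, (Real.log (((u - nd n x : ℤ) : ℝ) / 100) +
      Real.log (((u + nd n x : ℤ) : ℝ) / 100)) +
      (Real.log (((u - nd n i : ℤ) : ℝ) / 100) + Real.log (((u + nd n i : ℤ) : ℝ) / 100)) +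
      (-Real.log (((u - nd n i : ℤ) : ℝ) / 100) + -Real.log (((u + nd n i : ℤ) : ℝ) / 100)) =
      ∑ x ∈ s.erase i, (Real.log (((u - nd n x : ℤ) : ℝ) / 100) +
      Real.log (((u + nd n x : ℤ) : ℝ) / 100)) := by ring
  rw [e1, Real.exp_sum]
  apply Finset.prod_congr rfl
  intro k hk
  have h1 : (((u - nd n k : ℤ) : ℝ) / 100) ≠ 0 := by
    have := h k hk
    have h2 : ((u - nd n k : ℤ) : ℝ) ≠ 0 := by exact_mod_cast this
    exact div_ne_zero h2 (by norm_num)
  have h2 : (((u + nd n k : ℤ) : ℝ) / 100) ≠ 0 := by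
    have := g1_pos n u hu k
    linarith
  rw [abs_mul, Real.exp_add, Real.exp_log_eq_abs h1, Real.exp_log_eq_abs h2]

private theorem g1_exp_le_one (n : ℕ) (u : ℤ) (hu : 100 ≤ u) (k : ℕ) :
    Real.exp (-Real.log (((u + nd n k : ℤ) : ℝ) / 100)) ≤ 1 := by
  rw [Real.exp_le_one_iff]
  have := Real.log_nonneg (g1_pos n u hu k)
  linarith

private theorem g1_exp_le_100 (n : ℕ) (u : ℤ) (k : ℕ) :
    Real.exp (-Real.log (((u - nd n k : ℤ) : ℝ) / 100)) ≤ 100 := by
  by_cases h0 : u - nd n k = 0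
  · rw [h0]; simp
  · have h2 : ((u - nd n k : ℤ) : ℝ) ≠ 0 := by exact_mod_cast h0
    have h1 : (((u - nd n k : ℤ) : ℝ) / 100) ≠ 0 := div_ne_zero h2 (by norm_num)
    rw [Real.exp_neg, Real.exp_log_eq_abs h1, inv_le_comm₀ (abs_pos.mpr h1) (by norm_num),
      abs_div]
    have h3 : (1 : ℤ) ≤ |u - nd n k| := Int.one_le_abs h0
    have h4 : (1 : ℝ) ≤ |((u - nd n k : ℤ) : ℝ)| := by
      rw [← Int.cast_abs]
      exact_mod_cast h3
    have h5 : |(100 : ℝ)| = 100 := by norm_num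
    rw [h5, inv_eq_one_div]
    exact div_le_div_of_nonneg_right h4 (by norm_num)

private theorem g1_le (n : ℕ) (s : Finset ℕ) (i : ℕ) (hi : i ∈ s) (u : ℤ) (hu : 100 ≤ u) :
    |∏ k ∈ s.erase i, ((((u - nd n k : ℤ) : ℝ) / 100) * (((u + nd n k : ℤ) : ℝ) / 100))| ≤
      100 * Real.exp (Lp n s u) := by
  by_cases h : ∀ k ∈ s.erase i, u - nd n k ≠ 0
  · rw [g1_prod n s i hi u hu h, mul_comm]
    apply mul_le_mul_of_nonneg_right _ (Real.exp_pos _).le
    have a1 := g1_exp_le_100 n u i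
    have a2 := g1_exp_le_one n u hu i
    calc _ ≤ (100 : ℝ) * 1 := mul_le_mul a1 a2 (Real.exp_pos _).le (by norm_num)
      _ = 100 := by norm_num
  · push Not at h
    obtain ⟨k, hk, hk0⟩ := h
    rw [Finset.mem_erase] at hk
    rw [g1_zero n s i u k hk.2 hk.1 hk0, abs_zero]
    positivity

private theorem g1_le_one (n : ℕ) (s : Finset ℕ) (i : ℕ) (hi : i ∈ s) (u : ℤ) (hu : 100 ≤ u)
    (h0 : u - nd n i = 0) :
    |∏ k ∈ s.erase i, ((((u - nd n k : ℤ) : ℝ) / 100) * (((u + nd n k : ℤ) : ℝ) / 100))| ≤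
      Real.exp (Lp n s u) := by
  by_cases h : ∀ k ∈ s.erase i, u - nd n k ≠ 0
  · rw [g1_prod n s i hi u hu h, h0]
    have a2 := g1_exp_le_one n u hu i
    simp only [Int.cast_zero, zero_div, Real.log_zero, neg_zero, Real.exp_zero, one_mul]
    exact mul_le_of_le_one_right (Real.exp_pos _).le a2
  · push Not at h
    obtain ⟨k, hk, hk0⟩ := h
    rw [Finset.mem_erase] at hk
    rw [g1_zero n s i u k hk.2 hk.1 hk0, abs_zero]
    positivity

private theorem g1_hasSum :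
    HasSum (fun t : ℕ => 1 / ((t : ℝ) + 90) - 1 / ((t : ℝ) + 91)) (1 / 90) := by
  rw [hasSum_iff_tendsto_nat_of_nonneg]
  · have e : ∀ N : ℕ, ∑ t ∈ Finset.range N, (1 / ((t : ℝ) + 90) - 1 / ((t : ℝ) + 91)) =
        1 / 90 - 1 / ((N : ℝ) + 90) := by
      intro N
      induction N with
      | zero => norm_num
      | succ N ih =>
        rw [Finset.sum_range_succ, ih]
        push_cast
        ring
    simp only [e]
    have h1 : Filter.Tendsto (fun N : ℕ => 1 / ((N : ℝ) + 90)) Filter.atTop (nhds 0) := by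
      have h2 : Filter.Tendsto (fun N : ℕ => ((N : ℝ) + 90)) Filter.atTop Filter.atTop :=
        Filter.tendsto_atTop_add_const_right _ _ tendsto_natCast_atTop_atTop
      simp only [one_div]
      exact h2.inv_tendsto_atTop
    simpa using (tendsto_const_nhds (x := (1 / 90 : ℝ))).sub h1
  · intro t
    have h1 : (0 : ℝ) ≤ (t : ℝ) := by positivity
    have h2 : 1 / ((t : ℝ) + 91) ≤ 1 / ((t : ℝ) + 90) := by
      apply one_div_le_one_div_of_le <;> linarith
    linarith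

private theorem g1_cmp (t : ℕ) (v : ℝ) (hv : (t : ℝ) + 91 ≤ v) :
    1 / v ^ 2 ≤ 1 / ((t : ℝ) + 90) - 1 / ((t : ℝ) + 91) := by
  have h1 : (0 : ℝ) ≤ (t : ℝ) := by positivity
  have h2 : 1 / ((t : ℝ) + 90) - 1 / ((t : ℝ) + 91) = 1 / (((t : ℝ) + 90) * ((t : ℝ) + 91)) := by
    have h3 : (t : ℝ) + 90 ≠ 0 := by linarith
    have h4 : (t : ℝ) + 91 ≠ 0 := by linarith
    field_simp
    ring
  rw [h2]
  apply one_div_le_one_div_of_le
  · positivity
  · nlinarith

/-- entries of the zeta part, with `B1_hasSum` as a hypothesis -/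
theorem G1_entryN_of (B1 : G1_B1St) {n : ℕ} (hn : 30 ≤ n) (α β γ : ℕ → ℚ) (θ₁ θ₂ : ℝ)
    (h : ∀ i, Odd i → 3 ≤ i → i ≤ 75 → zr i = (α i : ℝ) + θ₁ * (β i : ℝ) + θ₂ * (γ i : ℝ)) (MM : ℝ) (hM : 0 ≤ MM)
    (hsup : ∀ v : ℕ, 12 * n ≤ v →
      wv n v * Real.exp (Lp n (Finset.range (36 * n - 72)) (100 * v) + Lp n (Finset.range (12 * n - 24)) (100 * v)) ≤
        MM / (v : ℝ) ^ 2)
    (i j : ℕ) (hi : i < 36 * n - 72) (hj : j < 12 * n - 24) :
    |((AL n α (lag (Finset.range (36 * n - 72)) (zq n) i * lag (Finset.range (12 * n - 24)) (zq n) j) : ℚ) : ℝ) + θ₁ *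
      ((BL n β (lag (Finset.range (36 * n - 72)) (zq n) i * lag (Finset.range (12 * n - 24)) (zq n) j) : ℚ) : ℝ) + θ₂ *
      ((BL n γ (lag (Finset.range (36 * n - 72)) (zq n) i * lag (Finset.range (12 * n - 24)) (zq n) j) : ℚ) : ℝ)| ≤
    (if j < 9 * n - 1 then wv n (3 * n + 1 + j) *
      Real.exp (Lp n (Finset.range (36 * n - 72)) (100 * (3 * n + 1 + j)) +
        Lp n (Finset.range (12 * n - 24)) (100 * (3 * n + 1 + j))) else 0) + 1000 * MM := by
  classical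
  set Q : ℚ[X] := lag (Finset.range (36 * n - 72)) (zq n) i * lag (Finset.range (12 * n - 24)) (zq n) j
    with hQ
  have hi' : i ∈ Finset.range (36 * n - 72) := Finset.mem_range.mpr hi
  have hj' : j ∈ Finset.range (12 * n - 24) := Finset.mem_range.mpr hj
  have hdeg : Q.natDegree ≤ 48 * n := by
    refine (Polynomial.natDegree_mul_le).trans ?_
    have h1 := g1_deg_lag n (Finset.range (36 * n - 72)) i
    have h2 := g1_deg_lag n (Finset.range (12 * n - 24)) j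
    rw [Finset.card_erase_of_mem hi', Finset.card_range] at h1
    rw [Finset.card_erase_of_mem hj', Finset.card_range] at h2
    omega
  have hS := B1 (by omega) α β γ θ₁ θ₂ h Q hdeg
  set T : ℝ := (if j < 9 * n - 1 then wv n (3 * n + 1 + j) *
      Real.exp (Lp n (Finset.range (36 * n - 72)) (100 * (3 * n + 1 + j)) +
        Lp n (Finset.range (12 * n - 24)) (100 * (3 * n + 1 + j))) else 0)
    with hT
  have hT0 : 0 ≤ T := by
    rw [hT]
    split_ifs
    · exact mul_nonneg (g1_wv_nonneg _ _) (Real.exp_pos _).le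
    · exact le_rfl
  have hG : HasSum (fun t : ℕ => (if t = j then T else 0) +
      10000 * MM * (1 / ((t : ℝ) + 90) - 1 / ((t : ℝ) + 91)))
      (T + 10000 * MM * (1 / 90)) :=
    (hasSum_ite_eq j T).add (g1_hasSum.mul_left (10000 * MM))
  have hb : ∀ t : ℕ, ‖wv n (3 * n + 1 + t) *
      ((Q.eval (((3 * n + 1 + t : ℕ) : ℚ) ^ 2) : ℚ) : ℝ)‖ ≤
      (if t = j then T else 0) + 10000 * MM * (1 / ((t : ℝ) + 90) - 1 / ((t : ℝ) + 91)) := by
    intro t
    have hev : ((Q.eval (((3 * n + 1 + t : ℕ) : ℚ) ^ 2) : ℚ) : ℝ) =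
        (∏ k ∈ (Finset.range (36 * n - 72)).erase i,
          ((((100 * (3 * n + 1 + t : ℕ) - nd n k : ℤ) : ℝ) / 100) *
            (((100 * (3 * n + 1 + t : ℕ) + nd n k : ℤ) : ℝ) / 100))) *
        (∏ k ∈ (Finset.range (12 * n - 24)).erase j,
          ((((100 * (3 * n + 1 + t : ℕ) - nd n k : ℤ) : ℝ) / 100) *
            (((100 * (3 * n + 1 + t : ℕ) + nd n k : ℤ) : ℝ) / 100))) := by
      rw [hQ, Polynomial.eval_mul, Rat.cast_mul, g1_eval_lag, g1_eval_lag]
    have hW := g1_wv_nonneg n (3 * n + 1 + t)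
    have hcmp : 1 / (((3 * n + 1 + t : ℕ) : ℝ)) ^ 2 ≤
        1 / ((t : ℝ) + 90) - 1 / ((t : ℝ) + 91) := by
      apply g1_cmp
      push_cast
      have : (30 : ℝ) ≤ (n : ℝ) := by exact_mod_cast hn
      linarith
    have hpos1 : 0 ≤ 1 / ((t : ℝ) + 90) - 1 / ((t : ℝ) + 91) := le_trans (by positivity) hcmp
    have hpos2 : 0 ≤ 10000 * MM * (1 / ((t : ℝ) + 90) - 1 / ((t : ℝ) + 91)) := by positivity
    have hu : (100 : ℤ) ≤ 100 * ((3 * n + 1 + t : ℕ) : ℤ) := by
      push_cast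
      omega
    rw [Real.norm_eq_abs, hev, abs_mul, abs_of_nonneg hW, abs_mul]
    rcases Nat.lt_or_ge t (9 * n - 1) with ht | ht
    · have h0 : (100 * ((3 * n + 1 + t : ℕ) : ℤ)) - nd n t = 0 := by
        rw [g1_nd ht]
        push_cast
        ring
      have ht14 : t ∈ Finset.range (36 * n - 72) := Finset.mem_range.mpr (by omega)
      have ht7 : t ∈ Finset.range (12 * n - 24) := Finset.mem_range.mpr (by omega)
      by_cases hti : t = i
      · by_cases htj : t = j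
        · subst hti
          subst htj
          rw [if_pos rfl, hT, if_pos ht]
          have a1 := g1_le_one n _ t hi' (100 * ((3 * n + 1 + t : ℕ) : ℤ)) hu h0
          have a2 := g1_le_one n _ t hj' (100 * ((3 * n + 1 + t : ℕ) : ℤ)) hu h0
          have a3 := mul_le_mul a1 a2 (abs_nonneg _) (Real.exp_pos _).le
          rw [← Real.exp_add] at a3
          have a4 := mul_le_mul_of_nonneg_left a3 hW
          have e3 : (100 * ((3 * n + 1 + t : ℕ) : ℤ)) = 100 * (3 * (n : ℤ) + 1 + (t : ℤ)) := by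
            push_cast
            ring
          rw [e3] at a4 ⊢
          linarith
        · rw [g1_zero n _ j (100 * ((3 * n + 1 + t : ℕ) : ℤ)) t ht7 htj h0, abs_zero, mul_zero,
            mul_zero]
          rw [if_neg htj]
          linarith
      · rw [g1_zero n _ i (100 * ((3 * n + 1 + t : ℕ) : ℤ)) t ht14 hti h0, abs_zero, zero_mul,
          mul_zero]
        split_ifs <;> linarith
    · have a1 := g1_le n _ i hi' (100 * ((3 * n + 1 + t : ℕ) : ℤ)) hu
      have a2 := g1_le n _ j hj' (100 * ((3 * n + 1 + t : ℕ) : ℤ)) hu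
      have a3 := mul_le_mul a1 a2 (abs_nonneg _) (by positivity)
      have a4 := mul_le_mul_of_nonneg_left a3 hW
      have a5 := hsup (3 * n + 1 + t) (by omega)
      rw [Real.exp_add] at a5
      have a8 : MM / (((3 * n + 1 + t : ℕ) : ℝ)) ^ 2 ≤
          MM * (1 / ((t : ℝ) + 90) - 1 / ((t : ℝ) + 91)) := by
        have := mul_le_mul_of_nonneg_left hcmp hM
        rw [mul_one_div] at this
        exact this
      have a6 : wv n (3 * n + 1 + t) *
          (100 * Real.exp (Lp n (Finset.range (36 * n - 72)) (100 * ((3 * n + 1 + t : ℕ) : ℤ))) *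
          (100 * Real.exp (Lp n (Finset.range (12 * n - 24)) (100 * ((3 * n + 1 + t : ℕ) : ℤ))))) =
          10000 * (wv n (3 * n + 1 + t) *
          (Real.exp (Lp n (Finset.range (36 * n - 72)) (100 * ((3 * n + 1 + t : ℕ) : ℤ))) *
            Real.exp (Lp n (Finset.range (12 * n - 24)) (100 * ((3 * n + 1 + t : ℕ) : ℤ))))) := by ring
      rw [a6] at a4
      have a7 : 10000 * MM * (1 / ((t : ℝ) + 90) - 1 / ((t : ℝ) + 91)) =
          10000 * (MM * (1 / ((t : ℝ) + 90) - 1 / ((t : ℝ) + 91))) := by ring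
      rw [a7]
      have a9 := a5.trans a8
      split_ifs <;> linarith
  have hfin := hS.norm_le_of_bounded hG hb
  rw [Real.norm_eq_abs] at hfin
  refine hfin.trans ?_
  linarith

end

end Pool.Agent.H574R2.Q4
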