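import Pool.Agent.H574R2.Q4.Defs
import Pool.Agent.H574R2.D3.G3p

/-!
# G2a: the size of the partial fraction coefficients (order 76)
-/

open Polynomial Pool.Agent.H337R2

namespace Pool.Agent.H574R2.Q4

set_option maxRecDepth 20000

noncomputable section

/-- truncated norm -/
def nr4 (f : PowerSeries ℚ) : ℚ := ∑ j ∈ Finset.range 77, |PowerSeries.coeff j f| / 2 ^ j

lemma nr4_nonneg (f : PowerSeries ℚ) : 0 ≤ nr4 f := Finset.sum_nonneg fun j _ => by positivity

lemma nr4_neg (f : PowerSeries ℚ) : nr4 (-f) = nr4 f := by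
  unfold nr4
  exact Finset.sum_congr rfl fun j _ => by rw [map_neg, abs_neg]

lemma nr4_add (f g : PowerSeries ℚ) : nr4 (f + g) ≤ nr4 f + nr4 g := by
  unfold nr4
  rw [← Finset.sum_add_distrib]
  apply Finset.sum_le_sum
  intro j _
  rw [map_add, ← add_div]
  gcongr
  exact abs_add_le _ _

lemma nr4_sub (f g : PowerSeries ℚ) : nr4 (f - g) ≤ nr4 f + nr4 g := by
  rw [sub_eq_add_neg, ← nr4_neg g]
  exact nr4_add _ _

lemma nr4_sum {ι : Type*} (s : Finset ι) (f : ι → PowerSeries ℚ) :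
    nr4 (∑ i ∈ s, f i) ≤ ∑ i ∈ s, nr4 (f i) := by
  classical
  induction s using Finset.induction_on with
  | empty => simp [nr4]
  | insert a s ha ih =>
    rw [Finset.sum_insert ha, Finset.sum_insert ha]
    exact (nr4_add _ _).trans (by linarith)

lemma nr4_mul (f g : PowerSeries ℚ) : nr4 (f * g) ≤ nr4 f * nr4 g := by
  unfold nr4
  have h1 : ∀ j ∈ Finset.range 77, |PowerSeries.coeff j (f * g)| / 2 ^ j ≤
      ∑ p ∈ Finset.HasAntidiagonal.antidiagonal j, (|PowerSeries.coeff p.1 f| / 2 ^ p.1) * (|PowerSeries.coeff p.2 g| / 2 ^ p.2) := by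
    intro j _
    rw [PowerSeries.coeff_mul, div_le_iff₀ (by positivity), Finset.sum_mul]
    refine (Finset.abs_sum_le_sum_abs _ _).trans (Finset.sum_le_sum fun p hp => ?_)
    rw [Finset.HasAntidiagonal.mem_antidiagonal] at hp
    rw [← hp, abs_mul, pow_add]
    apply le_of_eq
    field_simp
  refine (Finset.sum_le_sum h1).trans ?_
  rw [Finset.sum_mul_sum, ← Finset.sum_product']
  have h2 : ∀ j ∈ Finset.range 77, Finset.HasAntidiagonal.antidiagonal j =
      (((Finset.range 77 ×ˢ Finset.range 77).filter fun p => p.1 + p.2 ∈ Finset.range 77).filter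
        fun p => p.1 + p.2 = j) := by
    intro j hj
    ext ⟨a, b⟩
    rw [Finset.mem_range] at hj
    simp only [Finset.HasAntidiagonal.mem_antidiagonal, Finset.mem_filter, Finset.mem_product, Finset.mem_range]
    omega
  rw [Finset.sum_congr rfl fun j hj => by rw [h2 j hj]]
  rw [Finset.sum_fiberwise_of_maps_to (t := Finset.range 77) (g := fun p : ℕ × ℕ => p.1 + p.2)
    (fun p hp => (Finset.mem_filter.1 hp).2)]
  refine Finset.sum_le_sum_of_subset_of_nonneg (Finset.filter_subset _ _) ?_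
  intro p _ _
  positivity

lemma nr4_C (a : ℚ) : nr4 (PowerSeries.C a) = |a| := by
  unfold nr4
  rw [Finset.sum_eq_single 0]
  · simp
  · intro j _ hj
    rw [PowerSeries.coeff_C, if_neg hj]
    simp
  · intro h
    exact absurd (Finset.mem_range.2 (by norm_num)) h

lemma nr4_one : nr4 1 = 1 := by
  have h := nr4_C 1
  rw [map_one, abs_one] at h
  exact h

lemma nr4_C_mul (a : ℚ) (f : PowerSeries ℚ) : nr4 (PowerSeries.C a * f) = |a| * nr4 f := by
  unfold nr4
  rw [Finset.mul_sum]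
  refine Finset.sum_congr rfl fun j _ => ?_
  rw [PowerSeries.coeff_C_mul, abs_mul, mul_div_assoc]

lemma nr4_pow (f : PowerSeries ℚ) (m : ℕ) : nr4 (f ^ m) ≤ nr4 f ^ m := by
  induction m with
  | zero => rw [pow_zero, pow_zero, nr4_one]
  | succ m ih =>
    rw [pow_succ, pow_succ]
    exact (nr4_mul _ _).trans (mul_le_mul_of_nonneg_right ih (nr4_nonneg _))

lemma nr4_prod {ι : Type*} (s : Finset ι) (f : ι → PowerSeries ℚ) :
    nr4 (∏ i ∈ s, f i) ≤ ∏ i ∈ s, nr4 (f i) := by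
  classical
  induction s using Finset.induction_on with
  | empty => rw [Finset.prod_empty, Finset.prod_empty, nr4_one]
  | insert a s ha ih =>
    rw [Finset.prod_insert ha, Finset.prod_insert ha]
    exact (nr4_mul _ _).trans (mul_le_mul_of_nonneg_left ih (nr4_nonneg _))

lemma nr4_X : nr4 PowerSeries.X = 1 / 2 := by
  unfold nr4
  rw [Finset.sum_eq_single 1]
  · simp
  · intro j _ hj
    rw [PowerSeries.coeff_X, if_neg hj]
    simp
  · intro h
    exact absurd (Finset.mem_range.2 (by norm_num)) h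

lemma nr4_X_add_C (a : ℚ) : nr4 (PowerSeries.X + PowerSeries.C a) ≤ |a| + 1 / 2 := by
  refine (nr4_add _ _).trans ?_
  rw [nr4_X, nr4_C]
  linarith

lemma nr4_TS_lin (c a : ℚ) : nr4 (TS c (X + C a)) ≤ |c + a| + 1 / 2 := by
  rw [TS_lin]
  exact nr4_X_add_C _

lemma nr4_iv {a : ℚ} (ha : 1 / 2 < |a|) : nr4 (iv a) ≤ 1 / (|a| - 1 / 2) := by
  have h0 : 0 < |a| := by linarith
  unfold nr4
  have h1 : ∀ j ∈ Finset.range 77, |PowerSeries.coeff j (iv a)| / 2 ^ j = 1 / |a| * (1 / (2 * |a|)) ^ j := by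
    intro j _
    unfold iv
    rw [PowerSeries.coeff_mk, abs_div, abs_pow, abs_pow, abs_neg, abs_one, one_pow, div_pow, one_pow, mul_pow,
      pow_succ]
    field_simp
  rw [Finset.sum_congr rfl h1, ← Finset.mul_sum]
  have h2 : 1 / (2 * |a|) < 1 := by
    rw [div_lt_one (by positivity)]
    linarith
  have h3 := geom_sum_eq (ne_of_lt h2) 77
  rw [h3]
  have h4 : (1 / |a| : ℚ) * (((1 / (2 * |a|)) ^ 77 - 1) / (1 / (2 * |a|) - 1)) =
      (1 - (1 / (2 * |a|)) ^ 77) * (1 / (|a| - 1 / 2)) := by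
    have h5 : 1 / (2 * |a|) - 1 ≠ 0 := by linarith
    have h6 : |a| - 1 / 2 ≠ 0 := by linarith
    have h7 : (1 / |a| : ℚ) / (1 / (2 * |a|) - 1) = -(1 / (|a| - 1 / 2)) := by
      have h8 : 2 * |a| - 1 ≠ 0 := by
        intro h
        apply h6
        linarith
      have h9 : (1 : ℚ) / (2 * |a|) - 1 = -((2 * |a| - 1) / (2 * |a|)) := by
        field_simp
        ring
      rw [h9, show |a| - 1 / 2 = (2 * |a| - 1) / 2 by ring, div_neg, neg_inj]
      generalize 2 * |a| - 1 = u at *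
      field_simp
    calc (1 / |a| : ℚ) * (((1 / (2 * |a|)) ^ 77 - 1) / (1 / (2 * |a|) - 1))
        = ((1 / (2 * |a|)) ^ 77 - 1) * ((1 / |a| : ℚ) / (1 / (2 * |a|) - 1)) := by ring
      _ = (1 - (1 / (2 * |a|)) ^ 77) * (1 / (|a| - 1 / 2)) := by rw [h7]; ring
  rw [h4]
  have h8 : (0 : ℚ) ≤ 1 / (|a| - 1 / 2) := by
    apply one_div_nonneg.2
    linarith
  have h9 : (0 : ℚ) ≤ (1 / (2 * |a|)) ^ 77 := by positivity
  nlinarith

lemma coeff_le_nr4 (f : PowerSeries ℚ) {j : ℕ} (hj : j ≤ 76) :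
    |PowerSeries.coeff j f| ≤ 2 ^ 76 * nr4 f := by
  have h1 : |PowerSeries.coeff j f| / 2 ^ j ≤ nr4 f :=
    Finset.single_le_sum (f := fun j => |PowerSeries.coeff j f| / 2 ^ j) (fun i _ => by positivity)
      (Finset.mem_range.2 (by omega))
  rw [div_le_iff₀ (by positivity)] at h1
  refine h1.trans ?_
  rw [mul_comm]
  exact mul_le_mul_of_nonneg_right (pow_le_pow_right₀ (by norm_num) hj) (nr4_nonneg _)

lemma G2_Z {n k : ℕ} (hk : k ∈ sM n) : nr4 (TS (-(k : ℚ)) (ZM n)) ≤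
    (4 * n + 1) ^ 2 * (((k.factorial : ℚ) * (6 * n - k).factorial) /
      (((k - 2 * n).factorial : ℚ) * (4 * n - k).factorial)) := by
  obtain ⟨hk1, hk2⟩ := Finset.mem_Icc.1 hk
  unfold ZM
  rw [map_mul, map_prod, map_prod]
  refine (nr4_mul _ _).trans ?_
  have h1 : nr4 (∏ m ∈ Finset.range (2 * n), TS (-(k : ℚ)) (X + C (m : ℚ))) ≤
      (4 * n + 1) * ((k.factorial : ℚ) / (k - 2 * n).factorial) := by
    refine (nr4_prod _ _).trans ?_
    rw [← Finset.prod_range_reflect]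
    have h2 := Pool.Agent.H574R2.D3.g3p_P (k - 2 * n) (2 * n)
    have h3 : k - 2 * n + 2 * n = k := by omega
    rw [h3] at h2
    refine le_trans (Finset.prod_le_prod (fun _ _ => nr4_nonneg _) ?_) (h2.trans ?_)
    · intro l hl
      rw [Finset.mem_range] at hl
      refine (nr4_TS_lin _ _).trans (le_of_eq ?_)
      have h4 : ((2 * n - 1 - l : ℕ) : ℚ) = 2 * n - 1 - l := by
        rw [Nat.cast_sub (by omega), Nat.cast_sub (by omega)]
        push_cast
        ring
      have h5 : ((k - 2 * n : ℕ) : ℚ) = k - 2 * n := by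
        rw [Nat.cast_sub (by omega)]
        push_cast
        ring
      rw [h4, h5]
      have h6 : (l : ℚ) + 1 ≤ 2 * n := by exact_mod_cast (by omega : l + 1 ≤ 2 * n)
      have h7 : (2 : ℚ) * n ≤ k := by exact_mod_cast hk1
      rw [abs_of_nonpos (by linarith [Nat.cast_nonneg (α := ℚ) l])]
      ring
    · apply mul_le_mul_of_nonneg_right _ (by positivity)
      have h5 : ((k - 2 * n : ℕ) : ℚ) = k - 2 * n := by
        rw [Nat.cast_sub (by omega)]
        push_cast
        ring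
      rw [h5]
      have h7 : (k : ℚ) ≤ 4 * n := by exact_mod_cast hk2
      push_cast
      linarith
  have h2 : nr4 (∏ m ∈ Finset.Icc (4 * n + 1) (6 * n), TS (-(k : ℚ)) (X + C (m : ℚ))) ≤
      (4 * n + 1) * (((6 * n - k).factorial : ℚ) / (4 * n - k).factorial) := by
    refine (nr4_prod _ _).trans ?_
    have e0 : Finset.Icc (4 * n + 1) (6 * n) = Finset.Ico (4 * n + 1) (6 * n + 1) := by
      ext x
      simp only [Finset.mem_Icc, Finset.mem_Ico]
      omega
    rw [e0, Finset.prod_Ico_eq_prod_range]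
    have e1 : 6 * n + 1 - (4 * n + 1) = 2 * n := by omega
    rw [e1]
    have h2 := Pool.Agent.H574R2.D3.g3p_P (4 * n - k) (2 * n)
    have h3 : 4 * n - k + 2 * n = 6 * n - k := by omega
    rw [h3] at h2
    have h5 : ((4 * n - k : ℕ) : ℚ) = 4 * n - k := by
      rw [Nat.cast_sub (by omega)]
      push_cast
      ring
    have h7 : (k : ℚ) ≤ 4 * n := by exact_mod_cast hk2
    have h8 : (2 : ℚ) * n ≤ k := by exact_mod_cast hk1
    refine le_trans (Finset.prod_le_prod (fun _ _ => nr4_nonneg _) ?_) (h2.trans ?_)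
    · intro l hl
      refine (nr4_TS_lin _ _).trans (le_of_eq ?_)
      rw [h5]
      push_cast
      rw [abs_of_nonneg (by linarith [Nat.cast_nonneg (α := ℚ) l])]
      ring
    · apply mul_le_mul_of_nonneg_right _ (by positivity)
      rw [h5]
      push_cast
      linarith
  calc _ ≤ ((4 * n + 1) * ((k.factorial : ℚ) / (k - 2 * n).factorial)) *
      ((4 * n + 1) * (((6 * n - k).factorial : ℚ) / (4 * n - k).factorial)) :=
        mul_le_mul h1 h2 (nr4_nonneg _) (by positivity)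
    _ = _ := by ring

lemma G2_V {n k : ℕ} (hk : k ∈ sM n) : nr4 (VV ((sM n).erase k) mM (-(k : ℚ))) ≤
    ((2 * (2 * n + 1)) ^ 2 * (1 / (((k - 2 * n).factorial : ℚ) * (4 * n - k).factorial))) ^ 76 := by
  obtain ⟨hk1, hk2⟩ := Finset.mem_Icc.1 hk
  unfold VV
  refine (nr4_prod _ _).trans ?_
  have h0 : ∀ m ∈ (sM n).erase k, nr4 (iv (-(k : ℚ) + m) ^ mM m) ≤ (1 / (|-(k : ℚ) + m| - 1 / 2)) ^ 76 := by
    intro m hm
    refine (nr4_pow _ _).trans (pow_le_pow_left₀ (nr4_nonneg _) (nr4_iv ?_) 76)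
    have hne : m ≠ k := Finset.ne_of_mem_erase hm
    have h1 : (1 : ℚ) ≤ |-(k : ℚ) + m| := by
      have h2 : (1 : ℤ) ≤ |-(k : ℤ) + m| := by
        apply Int.one_le_abs
        omega
      exact_mod_cast h2
    linarith
  refine (Finset.prod_le_prod (fun _ _ => nr4_nonneg _) h0).trans ?_
  rw [Finset.prod_pow]
  have hpos : ∀ m ∈ (sM n).erase k, (0 : ℚ) ≤ 1 / (|-(k : ℚ) + m| - 1 / 2) := by
    intro m hm
    have hne : m ≠ k := Finset.ne_of_mem_erase hm
    have h1 : (1 : ℚ) ≤ |-(k : ℚ) + m| := by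
      have h2 : (1 : ℤ) ≤ |-(k : ℤ) + m| := by
        apply Int.one_le_abs
        omega
      exact_mod_cast h2
    apply one_div_nonneg.2
    linarith
  apply pow_le_pow_left₀ (Finset.prod_nonneg hpos)
  have hset : (sM n).erase k = Finset.Ico (2 * n) k ∪ Finset.Ico (k + 1) (4 * n + 1) := by
    ext x
    simp only [Finset.mem_erase, Finset.mem_Icc, Finset.mem_union, Finset.mem_Ico]
    omega
  have hdisj : Disjoint (Finset.Ico (2 * n) k) (Finset.Ico (k + 1) (4 * n + 1)) := by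
    rw [Finset.disjoint_left]
    intro x
    simp only [Finset.mem_Ico]
    omega
  rw [hset, Finset.prod_union hdisj]
  have h1 : ∏ m ∈ Finset.Ico (2 * n) k, (1 / (|-(k : ℚ) + m| - 1 / 2)) ≤
      2 * (2 * n + 1) / ((k - 2 * n).factorial : ℚ) := by
    rw [Finset.prod_Ico_eq_prod_range, ← Finset.prod_range_reflect]
    refine le_trans (le_of_eq ?_) ((Pool.Agent.H574R2.D3.g3p_Q (k - 2 * n)).trans ?_)
    · refine Finset.prod_congr rfl fun l hl => ?_
      rw [Finset.mem_range] at hl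
      have h3 : 2 * n + (k - 2 * n - 1 - l) = k - 1 - l := by omega
      rw [h3]
      have h4 : ((k - 1 - l : ℕ) : ℚ) = k - 1 - l := by
        rw [Nat.cast_sub (by omega), Nat.cast_sub (by omega)]
        push_cast
        ring
      rw [h4, abs_of_nonpos (by linarith [Nat.cast_nonneg (α := ℚ) l])]
      congr 1
      ring
    · apply div_le_div_of_nonneg_right _ (by positivity)
      have h5 : ((k - 2 * n : ℕ) : ℚ) ≤ 2 * n := by exact_mod_cast (by omega : k - 2 * n ≤ 2 * n)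
      linarith
  have h2 : ∏ m ∈ Finset.Ico (k + 1) (4 * n + 1), (1 / (|-(k : ℚ) + m| - 1 / 2)) ≤
      2 * (2 * n + 1) / ((4 * n - k).factorial : ℚ) := by
    rw [Finset.prod_Ico_eq_prod_range]
    have h3 : 4 * n + 1 - (k + 1) = 4 * n - k := by omega
    rw [h3]
    refine le_trans (le_of_eq ?_) ((Pool.Agent.H574R2.D3.g3p_Q (4 * n - k)).trans ?_)
    · refine Finset.prod_congr rfl fun l _ => ?_
      push_cast
      rw [abs_of_nonneg (by linarith [Nat.cast_nonneg (α := ℚ) l])]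
      congr 1
      ring
    · apply div_le_div_of_nonneg_right _ (by positivity)
      have h5 : ((4 * n - k : ℕ) : ℚ) ≤ 2 * n := by exact_mod_cast (by omega : 4 * n - k ≤ 2 * n)
      linarith
  have hpos2 : (0 : ℚ) ≤ ∏ m ∈ Finset.Ico (k + 1) (4 * n + 1), (1 / (|-(k : ℚ) + m| - 1 / 2)) := by
    apply Finset.prod_nonneg
    intro m hm
    apply hpos
    rw [hset]
    exact Finset.mem_union_right _ hm
  calc _ ≤ (2 * (2 * n + 1) / ((k - 2 * n).factorial : ℚ)) * (2 * (2 * n + 1) / ((4 * n - k).factorial : ℚ)) :=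
        mul_le_mul h1 h2 hpos2 (by positivity)
    _ = _ := by ring

lemma G2_linf {n k : ℕ} (hn : 30 ≤ n) (hk : k ∈ sM n) :
    nr4 (TS (-(k : ℚ)) (2 * X + C ((6 * n : ℕ) : ℚ))) ≤ 3 * n := by
  obtain ⟨hk1, hk2⟩ := Finset.mem_Icc.1 hk
  have e : (2 * X + C ((6 * n : ℕ) : ℚ) : ℚ[X]) = C 2 * (X + C (3 * n : ℚ)) := by
    rw [mul_add, ← C_mul, show (C 2 : ℚ[X]) = 2 from rfl]
    congr 2
    push_cast
    ring
  rw [e, map_mul, TS_C, nr4_C_mul]
  have h1 := nr4_TS_lin (-(k : ℚ)) (3 * n)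
  have h7 : (k : ℚ) ≤ 4 * n := by exact_mod_cast hk2
  have h8 : (2 : ℚ) * n ≤ k := by exact_mod_cast hk1
  have h9 : |-(k : ℚ) + 3 * n| ≤ n := by
    rw [abs_le]
    constructor <;> linarith
  have h10 : (30 : ℚ) ≤ n := by exact_mod_cast hn
  rw [abs_of_pos (by norm_num : (0 : ℚ) < 2)]
  linarith


lemma G2_kap {n k : ℕ} (hk : k ∈ sM n) : |(((3 * n : ℕ) : ℚ) - k)| ≤ n := by
  obtain ⟨hk1, hk2⟩ := Finset.mem_Icc.1 hk
  have h7 : (k : ℚ) ≤ 4 * n := by exact_mod_cast hk2
  have h8 : (2 : ℚ) * n ≤ k := by exact_mod_cast hk1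
  push_cast
  rw [abs_le]
  constructor <;> linarith

lemma G2_x134 {n k : ℕ} (hn : 30 ≤ n) (hk : k ∈ sM n) :
    nr4 (TS (-(k : ℚ)) (xM n ^ 134)) ≤ (2 * n) ^ 268 := by
  unfold xM
  rw [← pow_mul, map_pow, TS_lin]
  refine (nr4_pow _ _).trans ?_
  apply pow_le_pow_left₀ (nr4_nonneg _)
  have h1 := nr4_X_add_C (-(k : ℚ) + ((3 * n : ℕ) : ℚ))
  have h2 := G2_kap hk
  have h3 : (-(k : ℚ) + ((3 * n : ℕ) : ℚ)) = ((3 * n : ℕ) : ℚ) - k := by ring
  rw [h3] at h1 ⊢
  have h10 : (30 : ℚ) ≤ n := by exact_mod_cast hn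
  linarith

/-- everything except the nodes -/
lemma G2_rat {n k i : ℕ} (hn : 30 ≤ n) (hk : k ∈ sM n) (hi : i ∈ Finset.Icc 1 76) (Q : ℚ[X]) :
    |pa (sM n) mM (PM n * EM n Q) k i| ≤ 2 ^ 76 * ((((2 * n).factorial : ℚ) ^ 74 * (3 * n) *
      ((5 * n) ^ 2 * (((k.factorial : ℚ) * (6 * n - k).factorial) /
      (((k - 2 * n).factorial : ℚ) * (4 * n - k).factorial)))) *
      ((2 * n) ^ 268 * nr4 (TS (-(k : ℚ)) (Q.comp (xM n)))) *
      ((5 * n) ^ 2 * (1 / (((k - 2 * n).factorial : ℚ) * (4 * n - k).factorial))) ^ 76) := by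
  have hi' := Finset.mem_Icc.1 hi
  have h10 : (30 : ℚ) ≤ n := by exact_mod_cast hn
  have hd : pa (sM n) mM (PM n * EM n Q) k i = pfc (sM n) mM (PM n * EM n Q) k (76 - i) := by
    unfold pa
    rw [if_pos hi'.2]
  rw [hd]
  unfold pfc
  refine (coeff_le_nr4 _ (by omega)).trans ?_
  apply mul_le_mul_of_nonneg_left _ (by positivity)
  refine (nr4_mul _ _).trans ?_
  apply mul_le_mul
  · rw [map_mul]
    refine (nr4_mul _ _).trans ?_
    apply mul_le_mul
    · unfold PM
      rw [map_mul, map_mul, TS_C]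
      refine (nr4_mul _ _).trans ?_
      apply mul_le_mul
      · rw [nr4_C_mul]
        unfold cM
        rw [abs_of_nonneg (by positivity)]
        exact mul_le_mul_of_nonneg_left (G2_linf hn hk) (by positivity)
      · refine (G2_Z hk).trans ?_
        apply mul_le_mul_of_nonneg_right _ (by positivity)
        exact pow_le_pow_left₀ (by positivity) (by linarith) 2
      · exact nr4_nonneg _
      · positivity
    · unfold EM
      rw [Polynomial.mul_comp, Polynomial.X_pow_comp, map_mul]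
      refine (nr4_mul _ _).trans ?_
      exact mul_le_mul_of_nonneg_right (G2_x134 hn hk) (nr4_nonneg _)
    · exact nr4_nonneg _
    · positivity
  · refine (G2_V hk).trans ?_
    apply pow_le_pow_left₀ (by positivity)
    apply mul_le_mul_of_nonneg_right _ (by positivity)
    exact pow_le_pow_left₀ (by positivity) (by linarith) 2
  · exact nr4_nonneg _
  · have := nr4_nonneg (TS (-(k : ℚ)) (Q.comp (xM n)))
    positivity

end

end Pool.Agent.H574R2.Q4
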