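import Pool.Agent.H574R2.Q4.Defs
import Pool.Agent.H102R2.Z5.Brick

/-! G3: potential of one brick (with its mirror image) and of several bricks (helper121; after
D9/G3 by helper348). -/

open Polynomial Pool.Agent.H337R2

namespace Pool.Agent.H574R2.Q4

private theorem G3_Psi_div (x : ℝ) (n : ℝ) (hn : 0 < n) :
    n * Psi (x / n) = Pool.Agent.H102R2.Z5.Psi x - x * Real.log n := by
  unfold Psi Pool.Agent.H102R2.Z5.Psi
  rcases eq_or_ne x 0 with h | h
  · subst h; simp
  · rw [Real.log_div h hn.ne']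
    field_simp
    ring

private theorem G3_Psi_neg (x : ℝ) : Psi (-x) = -Psi x := by
  unfold Psi
  rw [Real.log_neg_eq_log]
  ring

private theorem G3_bb (g : ℕ) (hg : g < 12) :
    |((bb g : ℤ) : ℝ)| ≤ 1200 ∧ 1 ≤ cc g ∧ (cc g : ℝ) ≤ 100 := by
  have h : |bb g| ≤ 1200 ∧ 1 ≤ cc g ∧ cc g ≤ 100 := by
    interval_cases g <;> decide
  refine ⟨?_, h.2.1, by exact_mod_cast h.2.2⟩
  have := h.1
  rw [← Int.cast_abs]
  exact_mod_cast this

/-- sums of logarithms divided by `100` -/
private theorem G3_ten (v : ℤ) (c : ℕ) (hc : 1 ≤ c) (n : ℕ) :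
    |∑ j ∈ Finset.range n, Real.log (((v : ℝ) - c * j) / 100) -
      (∑ j ∈ Finset.range n, Real.log ((v : ℝ) - c * j) - n * Real.log 100)| ≤ Real.log 100 := by
  classical
  have hl : 0 < Real.log 100 := Real.log_pos (by norm_num)
  have h1 : ∀ j : ℕ, Real.log (((v : ℝ) - c * j) / 100) =
      (Real.log ((v : ℝ) - c * j) - Real.log 100) + (if v = c * (j : ℤ) then Real.log 100 else 0) := by
    intro j
    by_cases h : v = c * (j : ℤ)
    · rw [if_pos h]
      have : (v : ℝ) - c * j = 0 := by rw [h]; push_cast; ring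
      rw [this]; simp
    · rw [if_neg h, add_zero]
      have : (v : ℝ) - c * j ≠ 0 := by
        intro h0
        apply h
        have : (v : ℝ) = ((c * (j : ℤ) : ℤ) : ℝ) := by push_cast; linarith
        exact_mod_cast this
      rw [Real.log_div this (by norm_num)]
  rw [Finset.sum_congr rfl (fun j _ => h1 j), Finset.sum_add_distrib, Finset.sum_sub_distrib,
    Finset.sum_const, Finset.card_range, nsmul_eq_mul]
  have h2 : ∑ j ∈ Finset.range n, (if v = c * (j : ℤ) then Real.log 100 else 0) =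
      ((Finset.range n).filter (fun j : ℕ => v = c * (j : ℤ))).card * Real.log 100 := by
    rw [← Finset.sum_filter, Finset.sum_const, nsmul_eq_mul]
  have h3 : ((Finset.range n).filter (fun j : ℕ => v = c * (j : ℤ))).card ≤ 1 := by
    rw [Finset.card_le_one]
    intro a ha b hb
    rw [Finset.mem_filter] at ha hb
    have h4 : (c : ℤ) * a = c * b := by rw [← ha.2, ← hb.2]
    have h5 : (c : ℤ) ≠ 0 := by
      have : (0:ℤ) < c := by exact_mod_cast hc
      exact this.ne'
    exact_mod_cast mul_left_cancel₀ h5 h4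
  have h4 : ((((Finset.range n).filter (fun j : ℕ => v = c * (j : ℤ))).card : ℕ) : ℝ) ≤ 1 := by
    exact_mod_cast h3
  rw [h2]
  have h5 : (0:ℝ) ≤ (((Finset.range n).filter (fun j : ℕ => v = c * (j : ℤ))).card : ℝ) :=
    Nat.cast_nonneg _
  rw [abs_le]
  constructor <;> nlinarith

/-- one logarithm of an integer -/
private theorem G3_one0 (k : ℤ) (W : ℝ) (hW1 : 1 ≤ W) (hk : |(k : ℝ)| ≤ W) :
    |Real.log (k : ℝ)| ≤ Real.log W := by
  have hlW : 0 ≤ Real.log W := Real.log_nonneg hW1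
  rcases eq_or_ne k 0 with h | h
  · subst h
    simpa using hlW
  · have h1 : (1 : ℝ) ≤ |(k : ℝ)| := by
      rw [← Int.cast_abs]
      exact_mod_cast Int.one_le_abs h
    have h2 : 0 ≤ Real.log (k : ℝ) := by
      rw [← Real.log_abs]
      exact Real.log_nonneg h1
    have h3 : Real.log (k : ℝ) ≤ Real.log W := by
      rw [← Real.log_abs]
      exact Real.log_le_log (by linarith) hk
    rw [abs_of_nonneg h2]
    exact h3

/-- one logarithm of an integer divided by `100` -/
private theorem G3_one (k : ℤ) (W : ℝ) (hW1 : 1 ≤ W) (hk : |(k : ℝ)| ≤ W) :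
    |Real.log ((k : ℝ) / 100)| ≤ Real.log W + Real.log 100 := by
  have hl : 0 < Real.log 100 := Real.log_pos (by norm_num)
  have hlW : 0 ≤ Real.log W := Real.log_nonneg hW1
  rcases eq_or_ne k 0 with h | h
  · subst h
    simp
    linarith
  · have hkr : (k : ℝ) ≠ 0 := by exact_mod_cast h
    rw [Real.log_div hkr (by norm_num)]
    have := G3_one0 k W hW1 hk
    refine (abs_sub _ _).trans ?_
    rw [abs_of_pos hl]
    linarith

/-- the sum over `j < 3n - 6` of one half of a brick -/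
private theorem G3_half (v : ℤ) (c n : ℕ) (hc : 1 ≤ c) (hn : 30 ≤ n) (W : ℝ)
    (hW : |(v : ℝ)| + c * (3 * n) + c + 1 ≤ W) :
    |∑ j ∈ Finset.range (3 * n - 6), Real.log (((v : ℝ) - c * j) / 100) -
      ((Pool.Agent.H102R2.Z5.Psi v - Pool.Agent.H102R2.Z5.Psi ((v : ℝ) - c * (3 * n))) / c -
        3 * n * Real.log 100)| ≤ 10 * Real.log W + 3 + 7 * Real.log 100 := by
  have h1 := Pool.Agent.H102R2.Z5.brick v c hc (3 * n) W (by push_cast; exact hW)
  have h2 := G3_ten v c hc (3 * n)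
  push_cast at h1 h2
  have hcn : (0 : ℝ) ≤ (c : ℝ) * n := by positivity
  have hcr : (0 : ℝ) ≤ (c : ℝ) := by positivity
  have hva := abs_nonneg (v : ℝ)
  have hW1 : 1 ≤ W := by linarith
  have e0 : ∑ j ∈ Finset.range (3 * n), Real.log (((v : ℝ) - c * j) / 100) =
      ∑ j ∈ Finset.range (3 * n - 6), Real.log (((v : ℝ) - c * j) / 100) +
        ∑ k ∈ Finset.range 6, Real.log (((v - c * ((3 * n - 6 + k : ℕ) : ℤ) : ℤ) : ℝ) / 100) := by
    have e : 3 * n = (3 * n - 6) + 6 := by omega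
    conv_lhs => rw [e]
    rw [Finset.sum_range_add]
    congr 1
    refine Finset.sum_congr rfl fun k _ => ?_
    congr 2
    push_cast
    ring
  have h3 : |∑ k ∈ Finset.range 6, Real.log (((v - c * ((3 * n - 6 + k : ℕ) : ℤ) : ℤ) : ℝ) / 100)| ≤
      6 * (Real.log W + Real.log 100) := by
    refine (Finset.abs_sum_le_sum_abs _ _).trans ?_
    calc _ ≤ ∑ k ∈ Finset.range 6, (Real.log W + Real.log 100) := by
          refine Finset.sum_le_sum fun k hk => G3_one _ W hW1 ?_
          rw [Finset.mem_range] at hk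
          have h5 : ((3 * n - 6 + k : ℕ) : ℝ) ≤ 3 * n := by
            have : 3 * n - 6 + k ≤ 3 * n := by omega
            exact_mod_cast this
          have h6 : (0:ℝ) ≤ ((3 * n - 6 + k : ℕ) : ℝ) := Nat.cast_nonneg _
          have e : ((v - c * ((3 * n - 6 + k : ℕ) : ℤ) : ℤ) : ℝ) =
              (v : ℝ) - c * ((3 * n - 6 + k : ℕ) : ℝ) := by
            push_cast
            ring
          rw [e]
          refine (abs_sub _ _).trans ?_
          have h4 : |(c : ℝ) * ((3 * n - 6 + k : ℕ) : ℝ)| ≤ c * (3 * n) := by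
            rw [abs_of_nonneg (mul_nonneg hcr h6)]
            exact mul_le_mul_of_nonneg_left h5 hcr
          linarith
      _ = 6 * (Real.log W + Real.log 100) := by
          rw [Finset.sum_const, Finset.card_range, nsmul_eq_mul]
          push_cast
          ring
  have e1 : ∑ j ∈ Finset.range (3 * n - 6), Real.log (((v : ℝ) - c * j) / 100) -
      ((Pool.Agent.H102R2.Z5.Psi v - Pool.Agent.H102R2.Z5.Psi ((v : ℝ) - c * (3 * n))) / c -
        3 * n * Real.log 100) =
      (∑ j ∈ Finset.range (3 * n), Real.log ((v : ℝ) - c * j) -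
        (Pool.Agent.H102R2.Z5.Psi v - Pool.Agent.H102R2.Z5.Psi ((v : ℝ) - c * (3 * n))) / c) +
      (∑ j ∈ Finset.range (3 * n), Real.log (((v : ℝ) - c * j) / 100) -
        (∑ j ∈ Finset.range (3 * n), Real.log ((v : ℝ) - c * j) - 3 * n * Real.log 100)) -
      ∑ k ∈ Finset.range 6, Real.log (((v - c * ((3 * n - 6 + k : ℕ) : ℤ) : ℤ) : ℝ) / 100) := by
    rw [e0]
    ring
  rw [e1]
  refine (abs_sub _ _).trans ?_
  have h5 := abs_add_le (∑ j ∈ Finset.range (3 * n), Real.log ((v : ℝ) - c * j) -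
        (Pool.Agent.H102R2.Z5.Psi v - Pool.Agent.H102R2.Z5.Psi ((v : ℝ) - c * (3 * n))) / c)
      (∑ j ∈ Finset.range (3 * n), Real.log (((v : ℝ) - c * j) / 100) -
        (∑ j ∈ Finset.range (3 * n), Real.log ((v : ℝ) - c * j) - 3 * n * Real.log 100))
  linarith

/-- a shift by `0` or `1` changes `Psi` little -/
private theorem G3_shift (x o : ℤ) (ho : 0 ≤ o) (ho1 : o ≤ 1) (W : ℝ) (hW : |(x : ℝ)| + 3 ≤ W) :
    |Pool.Agent.H102R2.Z5.Psi ((x : ℝ) - o) - Pool.Agent.H102R2.Z5.Psi x| ≤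
      5 * Real.log W + 3 := by
  have hx := abs_nonneg (x : ℝ)
  have hW1 : 1 ≤ W := by linarith
  have hlW : 0 ≤ Real.log W := Real.log_nonneg hW1
  have h01 : o = 0 ∨ o = 1 := by omega
  rcases h01 with h | h
  · subst h
    simp
    linarith
  · subst h
    have h1 := Pool.Agent.H102R2.Z5.brick x 1 le_rfl 1 W (by push_cast; linarith)
    have h2 := G3_one0 x W hW1 (by linarith)
    simp only [Finset.sum_range_one, Nat.cast_one, Nat.cast_zero, mul_zero, sub_zero, mul_one,
      div_one] at h1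
    rw [Int.cast_one]
    rw [abs_le] at h1 h2 ⊢
    constructor <;> linarith [h1.1, h1.2, h2.1, h2.2]

private theorem G3_logs (n : ℕ) (hn : 30 ≤ n) (u : ℝ) :
    Real.log (2048 * (n + |u|)) ≤ 12 * Real.log (n + |u|) ∧
    Real.log 100 ≤ 7 * Real.log (n + |u|) ∧ 3 ≤ 5 * Real.log (n + |u|) ∧
    0 ≤ Real.log (n + |u|) := by
  have hn2 : (30:ℝ) ≤ n := by exact_mod_cast hn
  have hu0 := abs_nonneg u
  have hL2 : Real.log 2 ≤ Real.log (n + |u|) := Real.log_le_log (by norm_num) (by linarith)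
  have hlog2 := Real.log_two_gt_d9
  refine ⟨?_, ?_, by linarith, by linarith⟩
  · rw [Real.log_mul (by norm_num) (by positivity)]
    have : (2048:ℝ) = 2^11 := by norm_num
    rw [this, Real.log_pow]
    push_cast
    linarith
  · have h10 : Real.log 100 ≤ 7 * Real.log 2 := by
      have : (7:ℝ) * Real.log 2 = Real.log (2^7) := by rw [Real.log_pow]; norm_num
      rw [this]
      exact Real.log_le_log (by norm_num) (by norm_num)
    linarith

/-- half a brick with shift -/
private theorem G3_half2 (v₀ : ℤ) (c n : ℕ) (hc : 1 ≤ c) (hn : 30 ≤ n) (o : ℤ) (ho : 0 ≤ o)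
    (ho1 : o ≤ 1) (W : ℝ) (hW : |(v₀ : ℝ)| + c * (3 * n) + c + 4 ≤ W) :
    |∑ j ∈ Finset.range (3 * n - 6), Real.log ((((v₀ - o : ℤ) : ℝ) - c * j) / 100) -
      ((Pool.Agent.H102R2.Z5.Psi v₀ - Pool.Agent.H102R2.Z5.Psi ((v₀ : ℝ) - c * (3 * n))) / c -
        3 * n * Real.log 100)| ≤ 20 * Real.log W + 9 + 7 * Real.log 100 := by
  have hcn : (0 : ℝ) ≤ (c : ℝ) * (3 * n) := by positivity
  have hcr : (1 : ℝ) ≤ (c : ℝ) := by exact_mod_cast hc
  have ho' : |(o : ℝ)| ≤ 1 := by
    rw [abs_of_nonneg (by exact_mod_cast ho)]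
    exact_mod_cast ho1
  have hv1 : |((v₀ - o : ℤ) : ℝ)| ≤ |(v₀ : ℝ)| + 1 := by
    push_cast
    exact (abs_sub _ _).trans (by linarith)
  have h1 := G3_half (v₀ - o) c n hc hn W (by linarith)
  have h2 := G3_shift v₀ o ho ho1 W (by linarith)
  have h3 := G3_shift (v₀ - c * (3 * n)) o ho ho1 W (by
    push_cast
    have := abs_sub (v₀ : ℝ) (c * (3 * n))
    rw [abs_of_nonneg hcn] at this
    linarith)
  have e1 : (((v₀ - c * (3 * n) : ℤ) : ℝ)) = (v₀ : ℝ) - c * (3 * n) := by push_cast; ring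
  have e2 : (((v₀ - o : ℤ) : ℝ)) = (v₀ : ℝ) - o := by push_cast; ring
  rw [e1] at h3
  rw [e2] at h1 ⊢
  have e3 : (v₀ : ℝ) - o - c * (3 * n) = (v₀ : ℝ) - c * (3 * n) - o := by ring
  rw [e3] at h1
  set P1 := Pool.Agent.H102R2.Z5.Psi ((v₀ : ℝ) - o) with hP1
  set P2 := Pool.Agent.H102R2.Z5.Psi ((v₀ : ℝ) - c * (3 * n) - o) with hP2
  set Q1 := Pool.Agent.H102R2.Z5.Psi (v₀ : ℝ) with hQ1
  set Q2 := Pool.Agent.H102R2.Z5.Psi ((v₀ : ℝ) - c * (3 * n)) with hQ2
  have h4 : |(P1 - P2) / c - (Q1 - Q2) / c| ≤ 2 * (5 * Real.log W + 3) := by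
    have e4 : (P1 - P2) / c - (Q1 - Q2) / c = ((P1 - Q1) - (P2 - Q2)) / c := by ring
    rw [e4, abs_div, abs_of_pos (by linarith : (0:ℝ) < c)]
    have h5 : |(P1 - Q1) - (P2 - Q2)| ≤ 2 * (5 * Real.log W + 3) :=
      (abs_sub _ _).trans (by linarith)
    exact (div_le_self (abs_nonneg _) hcr).trans h5
  rw [abs_le] at h1 h4 ⊢
  constructor <;> linarith [h1.1, h1.2, h4.1, h4.2]

private theorem G3_brick_aux (n : ℕ) (hn : 30 ≤ n) (g : ℕ) (hg : g < 12) (o : ℤ) (ho : 0 ≤ o)
    (ho1 : o ≤ 1) (u : ℤ) :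
    |∑ j ∈ Finset.range (3 * n - 6), (Real.log (((u - (bb g * n + cc g * (j : ℤ) + o) : ℤ) : ℝ) / 100) +
        Real.log (((u + (bb g * n + cc g * (j : ℤ) + o) : ℤ) : ℝ) / 100)) -
      (n * Ub g ((u : ℝ) / n) + 6 * n * Real.log n)| ≤ 700 * Real.log (n + |(u : ℝ)|) := by
  obtain ⟨hb, hc1, hc2⟩ := G3_bb g hg
  have hn2 : (30:ℝ) ≤ n := by exact_mod_cast hn
  have hn0 : (0:ℝ) < n := by linarith
  have hu0 := abs_nonneg (u : ℝ)
  have hcc : (0:ℝ) < (cc g : ℝ) := by
    have : 0 < cc g := hc1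
    exact_mod_cast this
  set v : ℤ := u - bb g * n with hv
  set v' : ℤ := -u - bb g * n with hv'
  set W : ℝ := 2048 * (n + |(u : ℝ)|) with hW
  have hvr : (v : ℝ) = u - bb g * n := by rw [hv]; push_cast; ring
  have hvr' : (v' : ℝ) = -u - bb g * n := by rw [hv']; push_cast; ring
  have hbn : |((bb g : ℤ) : ℝ) * n| ≤ 1200 * n := by
    rw [abs_mul, abs_of_pos hn0]
    exact mul_le_mul_of_nonneg_right hb hn0.le
  have h3 : (cc g : ℝ) * (3 * n) ≤ 100 * (3 * n) :=
    mul_le_mul_of_nonneg_right hc2 (by linarith)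
  have hWv : |(v : ℝ)| + cc g * (3 * n) + cc g + 4 ≤ W := by
    have : |(v : ℝ)| ≤ |(u : ℝ)| + 1200 * n := by
      rw [hvr]
      exact (abs_sub _ _).trans (by linarith)
    rw [hW]
    nlinarith
  have hWv' : |(v' : ℝ)| + cc g * (3 * n) + cc g + 4 ≤ W := by
    have : |(v' : ℝ)| ≤ |(u : ℝ)| + 1200 * n := by
      rw [hvr']
      refine (abs_sub _ _).trans ?_
      rw [abs_neg]
      linarith
    rw [hW]
    nlinarith
  have h1 := G3_half2 v (cc g) n hc1 hn o ho ho1 W hWv
  have h2 := G3_half2 v' (cc g) n hc1 hn o ho ho1 W hWv'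
  have e1 : ∑ j ∈ Finset.range (3 * n - 6), (Real.log (((u - (bb g * n + cc g * (j : ℤ) + o) : ℤ) : ℝ) / 100) +
        Real.log (((u + (bb g * n + cc g * (j : ℤ) + o) : ℤ) : ℝ) / 100)) =
      ∑ j ∈ Finset.range (3 * n - 6), Real.log ((((v - o : ℤ) : ℝ) - cc g * j) / 100) +
      ∑ j ∈ Finset.range (3 * n - 6), Real.log ((((v' - o : ℤ) : ℝ) - cc g * j) / 100) := by
    rw [← Finset.sum_add_distrib]
    refine Finset.sum_congr rfl fun j _ => ?_
    congr 1
    · congr 2
      rw [hv]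
      push_cast
      ring
    · rw [← Real.log_neg_eq_log]
      congr 1
      rw [hv']
      push_cast
      ring
  have e2 : n * Ub g ((u : ℝ) / n) + 6 * n * Real.log n =
      ((Pool.Agent.H102R2.Z5.Psi v - Pool.Agent.H102R2.Z5.Psi ((v : ℝ) - cc g * (3 * n))) / cc g -
        3 * n * Real.log 100) +
      ((Pool.Agent.H102R2.Z5.Psi v' - Pool.Agent.H102R2.Z5.Psi ((v' : ℝ) - cc g * (3 * n))) / cc g -
        3 * n * Real.log 100) := by
    unfold Ub
    have a1 : (u : ℝ) / n - bb g = (v : ℝ) / n := by rw [hvr]; field_simp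
    have a2 : (v : ℝ) / n - 3 * cc g = ((v : ℝ) - cc g * (3 * n)) / n := by field_simp
    have a3 : (u : ℝ) / n + bb g = -((v' : ℝ) / n) := by rw [hvr']; field_simp; ring
    have a4 : -((v' : ℝ) / n) + 3 * cc g = -(((v' : ℝ) - cc g * (3 * n)) / n) := by field_simp; ring
    rw [a1, a2, a3, a4, G3_Psi_neg, G3_Psi_neg]
    have b1 := G3_Psi_div (v : ℝ) n hn0
    have b2 := G3_Psi_div ((v : ℝ) - cc g * (3 * n)) n hn0
    have b3 := G3_Psi_div (v' : ℝ) n hn0
    have b4 := G3_Psi_div ((v' : ℝ) - cc g * (3 * n)) n hn0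
    have b5 : (n : ℝ) * ((Psi ((v : ℝ) / n) - Psi (((v : ℝ) - cc g * (3 * n)) / n) +
        (-Psi (((v' : ℝ) - cc g * (3 * n)) / n) - -Psi ((v' : ℝ) / n))) / cc g - 6 * Real.log 100) =
        ((n * Psi ((v : ℝ) / n) - n * Psi (((v : ℝ) - cc g * (3 * n)) / n)) +
        (n * Psi ((v' : ℝ) / n) - n * Psi (((v' : ℝ) - cc g * (3 * n)) / n))) / cc g -
          6 * n * Real.log 100 := by
      ring
    rw [b5, b1, b2, b3, b4]
    field_simp
    ring
  rw [e1, e2]
  obtain ⟨hW12, h100, h35, hL0⟩ := G3_logs n hn (u : ℝ)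
  rw [← hW] at hW12
  set S1 : ℝ := ∑ j ∈ Finset.range (3 * n - 6), Real.log ((((v - o : ℤ) : ℝ) - cc g * j) / 100) with hS1
  set S2 : ℝ := ∑ j ∈ Finset.range (3 * n - 6), Real.log ((((v' - o : ℤ) : ℝ) - cc g * j) / 100) with hS2
  set T1 : ℝ := (Pool.Agent.H102R2.Z5.Psi v - Pool.Agent.H102R2.Z5.Psi ((v : ℝ) - cc g * (3 * n))) / cc g -
        3 * n * Real.log 100 with hT1
  set T2 : ℝ := (Pool.Agent.H102R2.Z5.Psi v' - Pool.Agent.H102R2.Z5.Psi ((v' : ℝ) - cc g * (3 * n))) / cc g -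
        3 * n * Real.log 100 with hT2
  have e3 : S1 + S2 - (T1 + T2) = (S1 - T1) + (S2 - T2) := by ring
  rw [e3]
  refine (abs_add_le _ _).trans ((add_le_add h1 h2).trans ?_)
  linarith

/-- potential of one brick with `3n - 6` nodes (with the mirror image); `o` is the shift of the third family -/
theorem G3_brick : ∃ C : ℝ, 0 < C ∧ ∀ n : ℕ, 30 ≤ n → ∀ g < 12, ∀ o : ℤ, 0 ≤ o → o ≤ 1 → ∀ u : ℤ,
    |∑ j ∈ Finset.range (3 * n - 6), (Real.log (((u - (bb g * n + cc g * (j : ℤ) + o) : ℤ) : ℝ) / 100) +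
        Real.log (((u + (bb g * n + cc g * (j : ℤ) + o) : ℤ) : ℝ) / 100)) -
      (n * Ub g ((u : ℝ) / n) + 6 * n * Real.log n)| ≤ C * Real.log (n + |(u : ℝ)|) :=
  ⟨700, by norm_num, fun n hn g hg o ho ho1 u => G3_brick_aux n hn g hg o ho ho1 u⟩

private theorem G3_blocks (n : ℕ) (f : ℕ → ℝ) (a b : ℕ) (hab : a ≤ b) :
    ∑ i ∈ Finset.Ico (a * n) (b * n), f i =
      ∑ g ∈ Finset.Ico a b, ∑ j ∈ Finset.range n, f (g * n + j) := by
  induction b, hab using Nat.le_induction with
  | base => simp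
  | succ b hab ih =>
    rw [Finset.sum_Ico_succ_top hab, ← ih]
    rw [← Finset.sum_Ico_consecutive f (Nat.mul_le_mul_right n hab)
      (Nat.mul_le_mul_right n (Nat.le_succ b))]
    congr 1
    rw [Finset.sum_Ico_eq_sum_range]
    have : (b + 1) * n - b * n = n := by
      rw [Nat.succ_mul]; omega
    rw [this]

/-- the two logarithms at a node -/
private noncomputable def G3_f (u x : ℤ) : ℝ :=
  Real.log (((u - x : ℤ) : ℝ) / 100) + Real.log (((u + x : ℤ) : ℝ) / 100)

private theorem G3_f_bound (n : ℕ) (hn : 30 ≤ n) (u x : ℤ) (hx : |(x : ℝ)| ≤ 1500 * n) :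
    |G3_f u x| ≤ 40 * Real.log (n + |(u : ℝ)|) := by
  have hn2 : (30:ℝ) ≤ n := by exact_mod_cast hn
  have hu0 := abs_nonneg (u : ℝ)
  obtain ⟨hW12, h100, h35, hL0⟩ := G3_logs n hn (u : ℝ)
  set W : ℝ := 2048 * (n + |(u : ℝ)|) with hW
  have hW1 : 1 ≤ W := by
    rw [hW]
    nlinarith
  have h1 : |Real.log (((u - x : ℤ) : ℝ) / 100)| ≤ Real.log W + Real.log 100 := by
    refine G3_one _ W hW1 ?_
    push_cast
    refine (abs_sub _ _).trans ?_
    rw [hW]
    nlinarith
  have h2 : |Real.log (((u + x : ℤ) : ℝ) / 100)| ≤ Real.log W + Real.log 100 := by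
    refine G3_one _ W hW1 ?_
    push_cast
    refine (abs_add_le _ _).trans ?_
    rw [hW]
    nlinarith
  unfold G3_f
  refine (abs_add_le _ _).trans ((add_le_add h1 h2).trans ?_)
  linarith

/-- shifting the index of a sum by `s` -/
private theorem G3_sh (F : ℤ → ℝ) (B : ℝ) (N : ℕ) (s : ℕ)
    (hF : ∀ x : ℤ, -(s : ℤ) ≤ x → x ≤ N → |F x| ≤ B) :
    |∑ j ∈ Finset.range N, F ((j : ℤ) - s) - ∑ j ∈ Finset.range N, F (j : ℤ)| ≤ 2 * s * B := by
  induction s with
  | zero => simp
  | succ s ih =>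
    have h1 := ih (fun x hx hx2 => hF x (by push_cast; linarith) hx2)
    rcases Nat.eq_zero_or_pos N with h0 | h0
    · subst h0
      have h2 := (abs_nonneg _).trans (hF 0 (by omega) (by simp))
      simp
      positivity
    have e1 : ∑ j ∈ Finset.range N, F ((j : ℤ) - ((s + 1 : ℕ) : ℤ)) =
        ∑ j ∈ Finset.range N, F ((j : ℤ) - s) + F (-((s + 1 : ℕ) : ℤ)) -
          F ((N : ℤ) - ((s + 1 : ℕ) : ℤ)) := by
      have e2 := Finset.sum_range_succ (fun j : ℕ => F ((j : ℤ) - ((s + 1 : ℕ) : ℤ))) N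
      have e3 := Finset.sum_range_succ' (fun j : ℕ => F ((j : ℤ) - ((s + 1 : ℕ) : ℤ))) N
      rw [e2] at e3
      have e4 : ∑ k ∈ Finset.range N, F (((k + 1 : ℕ) : ℤ) - ((s + 1 : ℕ) : ℤ)) =
          ∑ j ∈ Finset.range N, F ((j : ℤ) - s) := by
        refine Finset.sum_congr rfl fun j _ => ?_
        congr 1
        push_cast
        ring
      rw [e4] at e3
      have e5 : ((0 : ℕ) : ℤ) - ((s + 1 : ℕ) : ℤ) = -((s + 1 : ℕ) : ℤ) := by simp
      rw [e5] at e3
      linarith
    rw [e1]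
    have h2 := hF (-((s + 1 : ℕ) : ℤ)) le_rfl (by push_cast; linarith [Int.natCast_nonneg s, Int.natCast_nonneg N])
    have h3 := hF ((N : ℤ) - ((s + 1 : ℕ) : ℤ)) (by push_cast; linarith [Int.natCast_nonneg N])
      (by push_cast; linarith [Int.natCast_nonneg s])
    rw [abs_le] at h1 h2 h3 ⊢
    have e6 : (2:ℝ) * ((s + 1 : ℕ) : ℝ) * B = 2 * s * B + 2 * B := by push_cast; ring
    rw [e6]
    constructor <;> linarith [h1.1, h1.2, h2.1, h2.2, h3.1, h3.2]

/-- the nodes of one brick against the ideal nodes -/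
private theorem G3_nodes (n : ℕ) (hn : 30 ≤ n) (g : ℕ) (u : ℤ) :
    |∑ j ∈ Finset.range (3 * n - 6), G3_f u (nd n (g * (3 * n - 6) + j)) -
      ∑ j ∈ Finset.range (3 * n - 6), G3_f u (bb g * n + cc g * (j : ℤ) + (if 8 ≤ g then 1 else 0))| ≤
      1400 * Real.log (n + |(u : ℝ)|) := by
  have hn2 : (30:ℝ) ≤ n := by exact_mod_cast hn
  have hn1 : 0 < 3 * n - 6 := by omega
  have hL : 0 ≤ Real.log (n + |(u : ℝ)|) := by
    apply Real.log_nonneg
    have := abs_nonneg (u : ℝ)
    linarith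
  have hdiv : ∀ g j : ℕ, j < 3 * n - 6 → (g * (3 * n - 6) + j) / (3 * n - 6) = g := by
    intro g j hj
    rw [Nat.mul_comm, Nat.mul_add_div hn1, Nat.div_eq_of_lt hj, add_zero]
  have hmod : ∀ g j : ℕ, j < 3 * n - 6 → (g * (3 * n - 6) + j) % (3 * n - 6) = j := by
    intro g j hj
    rw [Nat.mul_comm, Nat.mul_add_mod, Nat.mod_eq_of_lt hj]
  have hgen : ∀ j : ℕ, j < 3 * n - 6 → ¬ (g * (3 * n - 6) + j < 9 * n - 1) →
      nd n (g * (3 * n - 6) + j) = bb g * n + cc g * (j : ℤ) + (if 8 ≤ g then 1 else 0) := by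
    intro j hj h
    unfold nd
    rw [if_neg h, hdiv g j hj, hmod g j hj]
    congr 1
    by_cases h8 : 8 ≤ g
    · rw [if_pos h8, if_pos]
      have : 8 * (3 * n - 6) ≤ g * (3 * n - 6) := Nat.mul_le_mul_right _ h8
      omega
    · rw [if_neg h8, if_neg]
      have h7 : g ≤ 7 := by omega
      have : g * (3 * n - 6) ≤ 7 * (3 * n - 6) := Nat.mul_le_mul_right _ h7
      omega
  rcases Nat.lt_or_ge g 4 with hg | hg
  · interval_cases g
    · -- brick 0
      have e1 : ∀ j ∈ Finset.range (3 * n - 6), G3_f u (nd n (0 * (3 * n - 6) + j)) =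
          G3_f u (300 * n + 100 * ((j + 1 : ℕ) : ℤ)) := by
        intro j hj
        rw [Finset.mem_range] at hj
        congr 1
        unfold nd
        rw [if_pos (by omega)]
        push_cast
        ring
      have e2 : ∀ j ∈ Finset.range (3 * n - 6),
          G3_f u (bb 0 * n + cc 0 * (j : ℤ) + (if 8 ≤ 0 then 1 else 0)) =
          G3_f u (300 * n + 100 * ((j : ℕ) : ℤ)) := by
        intro j _
        congr 1
      rw [Finset.sum_congr rfl e1, Finset.sum_congr rfl e2, ← Finset.sum_sub_distrib,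
        Finset.sum_range_sub (fun j : ℕ => G3_f u (300 * n + 100 * (j : ℤ)))]
      refine (abs_sub _ _).trans ?_
      have h1 := G3_f_bound n hn u (300 * n + 100 * ((3 * n - 6 : ℕ) : ℤ)) (by
        push_cast
        have h2 : ((3 * n - 6 : ℕ) : ℝ) ≤ 3 * n := by exact_mod_cast Nat.sub_le (3 * n) 6
        have h3 : (0 : ℝ) ≤ ((3 * n - 6 : ℕ) : ℝ) := by positivity
        rw [abs_of_nonneg (by positivity)]
        linarith)
      have h2 := G3_f_bound n hn u (300 * n + 100 * ((0 : ℕ) : ℤ)) (by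
        push_cast
        rw [abs_of_nonneg (by positivity)]
        linarith)
      linarith
    · -- brick 1
      have e1 : ∀ j ∈ Finset.range (3 * n - 6), G3_f u (nd n (1 * (3 * n - 6) + j)) =
          (fun x : ℤ => G3_f u (600 * n + 100 * x)) ((j : ℤ) - ((5 : ℕ) : ℤ)) := by
        intro j hj
        rw [Finset.mem_range] at hj
        show G3_f u _ = G3_f u _
        congr 1
        unfold nd
        rw [if_pos (by omega)]
        have h1 : ((1 * (3 * n - 6) + j : ℕ) : ℤ) = 3 * (n : ℤ) - 6 + j := by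
          push_cast [Nat.cast_sub (by omega : 6 ≤ 3 * n)]
          ring
        rw [h1]
        push_cast
        ring
      have e2 : ∀ j ∈ Finset.range (3 * n - 6),
          G3_f u (bb 1 * n + cc 1 * (j : ℤ) + (if 8 ≤ 1 then 1 else 0)) =
          (fun x : ℤ => G3_f u (600 * n + 100 * x)) (j : ℤ) := by
        intro j _
        show G3_f u _ = G3_f u _
        congr 1
      rw [Finset.sum_congr rfl e1, Finset.sum_congr rfl e2]
      refine (G3_sh (fun x : ℤ => G3_f u (600 * n + 100 * x)) (40 * Real.log (n + |(u : ℝ)|))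
        (3 * n - 6) 5 ?_).trans ?_
      · intro x hx hx2
        apply G3_f_bound n hn
        have hxr : (-5:ℝ) ≤ x := by exact_mod_cast hx
        have hx2r : (x:ℝ) ≤ 3 * n := by
          have : x ≤ 3 * (n : ℤ) := by
            push_cast [Nat.cast_sub (by omega : 6 ≤ 3 * n)] at hx2
            linarith
          exact_mod_cast this
        push_cast
        rw [abs_of_nonneg (by nlinarith)]
        linarith
      · push_cast
        linarith
    · -- brick 2
      have e1 : ∀ j ∈ Finset.range (3 * n - 6), G3_f u (nd n (2 * (3 * n - 6) + j)) =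
          (fun x : ℤ => G3_f u (900 * n + 100 * x)) ((j : ℤ) - ((11 : ℕ) : ℤ)) := by
        intro j hj
        rw [Finset.mem_range] at hj
        show G3_f u _ = G3_f u _
        congr 1
        unfold nd
        rw [if_pos (by omega)]
        have h1 : ((2 * (3 * n - 6) + j : ℕ) : ℤ) = 6 * (n : ℤ) - 12 + j := by
          push_cast [Nat.cast_sub (by omega : 6 ≤ 3 * n)]
          ring
        rw [h1]
        push_cast
        ring
      have e2 : ∀ j ∈ Finset.range (3 * n - 6),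
          G3_f u (bb 2 * n + cc 2 * (j : ℤ) + (if 8 ≤ 2 then 1 else 0)) =
          (fun x : ℤ => G3_f u (900 * n + 100 * x)) (j : ℤ) := by
        intro j _
        show G3_f u _ = G3_f u _
        congr 1
      rw [Finset.sum_congr rfl e1, Finset.sum_congr rfl e2]
      refine (G3_sh (fun x : ℤ => G3_f u (900 * n + 100 * x)) (40 * Real.log (n + |(u : ℝ)|))
        (3 * n - 6) 11 ?_).trans ?_
      · intro x hx hx2
        apply G3_f_bound n hn
        have hxr : (-11:ℝ) ≤ x := by exact_mod_cast hx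
        have hx2r : (x:ℝ) ≤ 3 * n := by
          have : x ≤ 3 * (n : ℤ) := by
            push_cast [Nat.cast_sub (by omega : 6 ≤ 3 * n)] at hx2
            linarith
          exact_mod_cast this
        push_cast
        rw [abs_of_nonneg (by nlinarith)]
        linarith
      · push_cast
        linarith
    · -- brick 3
      rw [← Finset.sum_sub_distrib]
      have e17 : 3 * n - 6 = 17 + (3 * n - 23) := by omega
      have e1 : ∑ j ∈ Finset.range (3 * n - 6), (G3_f u (nd n (3 * (3 * n - 6) + j)) -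
          G3_f u (bb 3 * n + cc 3 * (j : ℤ) + (if 8 ≤ 3 then 1 else 0))) =
          ∑ j ∈ Finset.range 17, (G3_f u (nd n (3 * (3 * n - 6) + j)) -
          G3_f u (bb 3 * n + cc 3 * (j : ℤ) + (if 8 ≤ 3 then 1 else 0))) := by
        symm
        apply Finset.sum_subset
        · intro j hj
          rw [Finset.mem_range] at hj ⊢
          omega
        · intro j hj hj2
          rw [Finset.mem_range] at hj hj2
          rw [hgen j hj (by omega), sub_self]
      rw [e1]
      refine (Finset.abs_sum_le_sum_abs _ _).trans ?_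
      calc _ ≤ ∑ j ∈ Finset.range 17, 80 * Real.log (n + |(u : ℝ)|) := by
            refine Finset.sum_le_sum fun j hj => ?_
            rw [Finset.mem_range] at hj
            refine (abs_sub _ _).trans ?_
            have hjr : (j : ℝ) ≤ 17 := by exact_mod_cast hj.le
            have hj0 : (0 : ℝ) ≤ (j : ℝ) := Nat.cast_nonneg _
            have h1 := G3_f_bound n hn u (nd n (3 * (3 * n - 6) + j)) (by
              unfold nd
              rw [if_pos (by omega)]
              have h1 : ((3 * (3 * n - 6) + j : ℕ) : ℤ) = 9 * (n : ℤ) - 18 + j := by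
                push_cast [Nat.cast_sub (by omega : 6 ≤ 3 * n)]
                ring
              rw [h1]
              push_cast
              rw [abs_of_nonneg (by linarith)]
              linarith)
            have h2 := G3_f_bound n hn u (bb 3 * n + cc 3 * (j : ℤ) + (if 8 ≤ 3 then 1 else 0)) (by
              simp only [bb, cc]
              push_cast
              norm_num
              rw [abs_of_nonneg (by positivity)]
              linarith)
            linarith
        _ = 1360 * Real.log (n + |(u : ℝ)|) := by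
            rw [Finset.sum_const, Finset.card_range, nsmul_eq_mul]
            push_cast
            ring
        _ ≤ _ := by linarith
  · have e1 : ∀ j ∈ Finset.range (3 * n - 6), G3_f u (nd n (g * (3 * n - 6) + j)) =
        G3_f u (bb g * n + cc g * (j : ℤ) + (if 8 ≤ g then 1 else 0)) := by
      intro j hj
      rw [Finset.mem_range] at hj
      rw [hgen j hj ?_]
      have : 4 * (3 * n - 6) ≤ g * (3 * n - 6) := Nat.mul_le_mul_right _ hg
      omega
    rw [Finset.sum_congr rfl e1, sub_self, abs_zero]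
    positivity

theorem G3_Lp : ∃ C : ℝ, 0 < C ∧ ∀ n : ℕ, 30 ≤ n → ∀ a b : ℕ, a ≤ b → b ≤ 12 → ∀ u : ℤ,
    |Lp n (Finset.Ico (a * (3 * n - 6)) (b * (3 * n - 6))) u -
      (n * ∑ g ∈ Finset.Ico a b, Ub g ((u : ℝ) / n) + 6 * (b - a) * n * Real.log n)| ≤ C * Real.log (n + |(u : ℝ)|) := by
  refine ⟨25200, by norm_num, fun n hn a b hab hb u => ?_⟩
  have hn0 : 0 < n := by omega
  have hL : 0 ≤ Real.log (n + |(u : ℝ)|) := (G3_logs n hn (u : ℝ)).2.2.2
  unfold Lp
  rw [G3_blocks (3 * n - 6) _ a b hab]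
  have e2 : (n : ℝ) * ∑ g ∈ Finset.Ico a b, Ub g ((u : ℝ) / n) + 6 * (b - a) * n * Real.log n =
      ∑ g ∈ Finset.Ico a b, (n * Ub g ((u : ℝ) / n) + 6 * n * Real.log n) := by
    rw [Finset.sum_add_distrib, ← Finset.mul_sum, Finset.sum_const, Nat.card_Ico, nsmul_eq_mul,
      Nat.cast_sub hab]
    ring
  rw [e2, ← Finset.sum_sub_distrib]
  refine (Finset.abs_sum_le_sum_abs _ _).trans ?_
  calc _ ≤ ∑ g ∈ Finset.Ico a b, 2100 * Real.log (n + |(u : ℝ)|) := by
        refine Finset.sum_le_sum fun g hg => ?_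
        rw [Finset.mem_Ico] at hg
        have h1 := G3_brick_aux n hn g (by omega) (if 8 ≤ g then 1 else 0) (by split_ifs <;> norm_num)
          (by split_ifs <;> norm_num) u
        have h2 := G3_nodes n hn g u
        have e3 : ∑ j ∈ Finset.range (3 * n - 6), (Real.log (((u - nd n (g * (3 * n - 6) + j) : ℤ) : ℝ) / 100) +
            Real.log (((u + nd n (g * (3 * n - 6) + j) : ℤ) : ℝ) / 100)) -
            (n * Ub g ((u : ℝ) / n) + 6 * n * Real.log n) =
            (∑ j ∈ Finset.range (3 * n - 6), G3_f u (nd n (g * (3 * n - 6) + j)) -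
              ∑ j ∈ Finset.range (3 * n - 6), G3_f u (bb g * n + cc g * (j : ℤ) + (if 8 ≤ g then 1 else 0))) +
            (∑ j ∈ Finset.range (3 * n - 6),
              (Real.log (((u - (bb g * n + cc g * (j : ℤ) + (if 8 ≤ g then 1 else 0)) : ℤ) : ℝ) / 100) +
              Real.log (((u + (bb g * n + cc g * (j : ℤ) + (if 8 ≤ g then 1 else 0)) : ℤ) : ℝ) / 100)) -
            (n * Ub g ((u : ℝ) / n) + 6 * n * Real.log n)) := by
          unfold G3_f
          ring
        rw [e3]
        refine (abs_add_le _ _).trans ((add_le_add h2 h1).trans ?_)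
        linarith
    _ = ((b - a : ℕ) : ℝ) * (2100 * Real.log (n + |(u : ℝ)|)) := by
        rw [Finset.sum_const, Nat.card_Ico, nsmul_eq_mul]
    _ ≤ 12 * (2100 * Real.log (n + |(u : ℝ)|)) := by
        refine mul_le_mul_of_nonneg_right ?_ (by positivity)
        have : b - a ≤ 12 := by omega
        exact_mod_cast this
    _ = 25200 * Real.log (n + |(u : ℝ)|) := by ring

end Pool.Agent.H574R2.Q4
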