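import Pool.Agent.H574R2.Q4.Defs
import Pool.Agent.H337R2.LZ.G5

/-!
# G5: the saturated part of the energy
-/

open Polynomial Pool.Agent.H337R2

namespace Pool.Agent.H574R2.Q4

noncomputable section

namespace G5

open Finset Pool.Agent.LZ.G5

lemma lf_nonneg (m : ℕ) : 0 ≤ lf m := by
  unfold lf
  exact Real.log_nonneg (by exact_mod_cast Nat.succ_le_of_lt m.factorial_pos)

lemma SF_succ (m : ℕ) : SF (m + 1) = SF m + lf m := by
  unfold SF
  rw [Finset.sum_range_succ]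

lemma sum_sh (a m : ℕ) : ∑ t ∈ range m, lf (a + t) = SF (a + m) - SF a := by
  have h := Finset.sum_range_add lf a m
  unfold SF
  rw [h, add_sub_cancel_left]

lemma lf_up (a m : ℕ) : ∑ t ∈ range m, Real.log ((a : ℝ) + 1 + (t : ℝ)) = lf (a + m) - lf a := by
  induction m with
  | zero => simp
  | succ m ih =>
    rw [Finset.sum_range_succ, ih, ← Nat.add_assoc, lf_succ]
    push_cast
    rw [show (a : ℝ) + 1 + m = a + m + 1 by ring]
    ring

lemma log_bd' {n : ℕ} (hn : 2 ≤ n) {a : ℕ} (ha : a ≤ 30) :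
    Real.log (2 * ((a * n : ℕ) : ℝ) + 2) ≤ 8 * Real.log n := by
  have hn' : (2 : ℝ) ≤ n := by exact_mod_cast hn
  have ha' : (a : ℝ) ≤ 30 := by exact_mod_cast ha
  have h1 : 2 * ((a * n : ℕ) : ℝ) + 2 ≤ (n : ℝ) ^ 8 := by
    push_cast
    have h2 : (a : ℝ) * n ≤ 30 * n := mul_le_mul_of_nonneg_right ha' (by positivity)
    have h3 : (2 : ℝ) ^ 7 ≤ (n : ℝ) ^ 7 := by gcongr
    have h4 : (n : ℝ) ^ 8 = n ^ 7 * n := by ring
    rw [h4]
    nlinarith
  rw [show (8 : ℝ) * Real.log n = Real.log ((n : ℝ) ^ 8) by rw [Real.log_pow]; norm_num]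
  exact Real.log_le_log (by positivity) h1

lemma lf_an' {n : ℕ} (hn : 2 ≤ n) {a : ℕ} (ha : a ≤ 30) :
    |lf (a * n) - (n * Psi a + a * n * Real.log n)| ≤ 38 * Real.log n := by
  have h := lf_stir (a * n)
  have hn0 : (0 : ℝ) < n := by positivity
  have e : Psi ((a * n : ℕ) : ℝ) = n * Psi a + a * n * Real.log n := by
    rw [Nat.cast_mul, Psi_sc hn0]
  rw [e] at h
  have h1 := log_bd' hn ha
  have h2 := one_bd hn
  linarith

lemma SF_an' {n : ℕ} (hn : 2 ≤ n) {a : ℕ} (ha : a ≤ 30) :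
    |SF (a * n) - (n ^ 2 * Pool.Agent.LZ.GG a + (a : ℝ) ^ 2 / 2 * n ^ 2 * Real.log n)| ≤
      1500 * (n * Real.log n) := by
  have h := SF_bound (a * n)
  have hn0 : (0 : ℝ) < n := by positivity
  have e : Pool.Agent.LZ.GG ((a * n : ℕ) : ℝ) =
      n ^ 2 * Pool.Agent.LZ.GG a + (a : ℝ) ^ 2 / 2 * n ^ 2 * Real.log n := by
    rw [Nat.cast_mul, GG_sc hn0]
  rw [e] at h
  refine h.trans ?_
  have h1 := log_bd' hn ha
  have h2 := one_bd hn
  have ha' : (a : ℝ) ≤ 30 := by exact_mod_cast ha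
  have h3 : ((a * n : ℕ) : ℝ) ≤ 30 * n := by
    push_cast
    exact mul_le_mul_of_nonneg_right ha' hn0.le
  have h4 : 5 * Real.log (2 * ((a * n : ℕ) : ℝ) + 2) + 5 ≤ 50 * Real.log n := by linarith
  have h5 : 0 ≤ 50 * Real.log n := by linarith
  calc ((a * n : ℕ) : ℝ) * (5 * Real.log (2 * ((a * n : ℕ) : ℝ) + 2) + 5)
      ≤ ((a * n : ℕ) : ℝ) * (50 * Real.log n) := mul_le_mul_of_nonneg_left h4 (by positivity)
    _ ≤ 30 * n * (50 * Real.log n) := mul_le_mul_of_nonneg_right h3 h5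
    _ = 1500 * (n * Real.log n) := by ring

lemma nd_sat {n i : ℕ} (hi : i < 9 * n - 1) : nd n i = 100 * (3 * n + 1 + i) := by
  unfold nd
  rw [if_pos hi]

lemma Lp_sat {n i : ℕ} (hi : i < 9 * n - 1) :
    Lp n (range (9 * n - 1)) (100 * (3 * n + 1 + i)) =
      lf i + lf (9 * n - 1 - 1 - i) + (lf (15 * n + i) - lf (6 * n + 1 + i)) := by
  unfold Lp
  have h := lf_row i (9 * n - 1 - 1 - i)
  rw [show i + 1 + (9 * n - 1 - 1 - i) = 9 * n - 1 by omega] at h
  have h2 := lf_up (6 * n + 1 + i) (9 * n - 1)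
  rw [show 6 * n + 1 + i + (9 * n - 1) = 15 * n + i by omega] at h2
  rw [← h, ← h2, ← Finset.sum_add_distrib]
  apply Finset.sum_congr rfl
  intro j hj
  rw [nd_sat (Finset.mem_range.1 hj)]
  congr 1
  · congr 1
    push_cast
    ring
  · congr 1
    push_cast
    ring

lemma log_wv (n i : ℕ) : Real.log (wv n (3 * n + 1 + i)) =
    74 * lf (2 * n) + (Real.log (2 * ((3 * n + 1 + i : ℕ) : ℝ)) +
      268 * Real.log ((3 * n + 1 + i : ℕ) : ℝ)) + (lf (6 * n + 1 + i) - 77 * lf (4 * n + 1 + i) +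
      77 * lf (2 * n + i) - lf i) := by
  unfold wv
  rw [show 3 * n + 1 + i + 3 * n = 6 * n + 1 + i by omega,
    show 3 * n + 1 + i + n = 4 * n + 1 + i by omega,
    show 3 * n + 1 + i - n - 1 = 2 * n + i by omega,
    show 3 * n + 1 + i - 3 * n - 1 = i by omega]
  unfold lf
  have p : ∀ m : ℕ, ((m.factorial : ℕ) : ℝ) ≠ 0 := fun m => by positivity
  have pv : ((3 * n + 1 + i : ℕ) : ℝ) ≠ 0 := by positivity
  have p2v : 2 * ((3 * n + 1 + i : ℕ) : ℝ) ≠ 0 := by positivity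
  have q1 : ((2 * n).factorial : ℝ) ^ 74 ≠ 0 := pow_ne_zero _ (p _)
  have q3 : ((6 * n + 1 + i).factorial : ℝ) / ((4 * n + 1 + i).factorial : ℝ) ≠ 0 :=
    div_ne_zero (p _) (p _)
  have q4 : ((2 * n + i).factorial : ℝ) / (i.factorial : ℝ) ≠ 0 := div_ne_zero (p _) (p _)
  have q5 : (((2 * n + i).factorial : ℝ) / ((4 * n + 1 + i).factorial : ℝ)) ^ 76 ≠ 0 :=
    pow_ne_zero _ (div_ne_zero (p _) (p _))
  have q6 : (((3 * n + 1 + i : ℕ) : ℝ)) ^ 268 ≠ 0 := pow_ne_zero _ pv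
  rw [Real.log_mul (mul_ne_zero (mul_ne_zero (mul_ne_zero (mul_ne_zero q1 p2v) q3) q4) q5) q6,
    Real.log_mul (mul_ne_zero (mul_ne_zero (mul_ne_zero q1 p2v) q3) q4) q5,
    Real.log_mul (mul_ne_zero (mul_ne_zero q1 p2v) q3) q4,
    Real.log_mul (mul_ne_zero q1 p2v) q3, Real.log_mul q1 p2v,
    Real.log_div (p _) (p _), Real.log_div (p _) (p _), Real.log_pow, Real.log_pow, Real.log_pow,
    Real.log_div (p _) (p _)]
  push_cast
  ring

lemma heS : eS = 77 * (Pool.Agent.LZ.GG 11 - Pool.Agent.LZ.GG 2) -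
    77 * (Pool.Agent.LZ.GG 13 - Pool.Agent.LZ.GG 4) + Pool.Agent.LZ.GG 9 +
    (Pool.Agent.LZ.GG 24 - Pool.Agent.LZ.GG 15) + 666 * Psi 2 := by
  have h100 : Real.log 100 = 2 * Real.log 2 + 2 * Real.log 5 := by
    rw [show (100 : ℝ) = 2 ^ 2 * 5 ^ 2 by norm_num, Real.log_mul (by norm_num) (by norm_num),
      Real.log_pow, Real.log_pow]
    norm_num
  have g : ∀ x : ℝ, Pool.Agent.LZ.GG (x * 100) =
      10000 * Pool.Agent.LZ.GG x + 5000 * x ^ 2 * Real.log 100 := by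
    intro x
    rw [GG_sc (n := 100) (by norm_num)]
    ring
  have gneg : ∀ x : ℝ, Pool.Agent.LZ.GG (-x) = Pool.Agent.LZ.GG x := by
    intro x
    unfold Pool.Agent.LZ.GG
    rw [Real.log_neg_eq_log]
    ring
  have g0 : Pool.Agent.LZ.GG 0 = 0 := by unfold Pool.Agent.LZ.GG; simp
  have i200 := g 2
  have i400 := g 4
  have i600 := g 6
  have i900 := g 9
  have i1100 := g 11
  have i1300 := g 13
  have i1500 := g 15
  have i2400 := g 24
  have n300 := gneg 300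
  have n600 := gneg 600
  have n900 := gneg 900
  norm_num at i200 i400 i600 i900 i1100 i1300 i1500 i2400
  have hen : ∑ a ∈ Finset.range 3, ∑ b ∈ Finset.range 3, en a b =
      (2 * Pool.Agent.LZ.GG 900 + Pool.Agent.LZ.GG 2400 - 2 * Pool.Agent.LZ.GG 1500 +
        Pool.Agent.LZ.GG 600) / 10000 - 162 * Real.log 100 := by
    simp only [Finset.sum_range_succ, Finset.sum_range_zero, zero_add]
    unfold en GG
    simp only [bb, cc]
    norm_num
    rw [n300, n600, n900, g0]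
    ring
  unfold eS iphi GG
  rw [hen, i200, i400, i600, i900, i1100, i1300, i1500, i2400, h100]
  unfold Psi
  ring

end G5

open G5 Pool.Agent.LZ.G5 in
/-- saturated part -/
theorem G5_sat_two : ∃ C : ℝ, 0 < C ∧ ∀ n : ℕ, 2 ≤ n →
    ∑ i ∈ Finset.range (9 * n - 1), (Real.log (wv n (3 * n + 1 + i)) +
      Lp n (Finset.range (9 * n - 1)) (100 * (3 * n + 1 + i))) ≤
      eS * (n : ℝ) ^ 2 + 162 * (n : ℝ) ^ 2 * Real.log n + C * n * Real.log n := by
  refine ⟨1000000, by norm_num, fun n hn2 => ?_⟩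
  have hn0 : (0 : ℝ) < n := by positivity
  have hn3 : (2 : ℝ) ≤ n := by exact_mod_cast hn2
  -- the sum in terms of superfactorials
  have hsum : ∑ i ∈ Finset.range (9 * n - 1), (Real.log (wv n (3 * n + 1 + i)) +
        Lp n (Finset.range (9 * n - 1)) (100 * (3 * n + 1 + i))) =
      ((9 * n - 1 : ℕ) : ℝ) * (74 * lf (2 * n)) +
      ∑ i ∈ Finset.range (9 * n - 1), (Real.log (2 * ((3 * n + 1 + i : ℕ) : ℝ)) +
        268 * Real.log ((3 * n + 1 + i : ℕ) : ℝ)) +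
      (77 * (SF (11 * n - 1) - SF (2 * n)) - 77 * (SF (13 * n) - SF (4 * n + 1)) +
        SF (9 * n - 1) + (SF (24 * n - 1) - SF (15 * n))) := by
    have h1 : ∀ i ∈ Finset.range (9 * n - 1), (Real.log (wv n (3 * n + 1 + i)) +
        Lp n (Finset.range (9 * n - 1)) (100 * (3 * n + 1 + i))) =
        74 * lf (2 * n) + (Real.log (2 * ((3 * n + 1 + i : ℕ) : ℝ)) +
        268 * Real.log ((3 * n + 1 + i : ℕ) : ℝ)) + (77 * lf (2 * n + i) - 77 * lf (4 * n + 1 + i) +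
        lf (9 * n - 1 - 1 - i) + lf (15 * n + i)) := by
      intro i hi
      rw [log_wv, Lp_sat (Finset.mem_range.1 hi)]
      ring
    have h3 : ∑ i ∈ Finset.range (9 * n - 1), (77 * lf (2 * n + i) - 77 * lf (4 * n + 1 + i) +
        lf (9 * n - 1 - 1 - i) + lf (15 * n + i)) =
        (77 * (SF (11 * n - 1) - SF (2 * n)) - 77 * (SF (13 * n) - SF (4 * n + 1)) +
        SF (9 * n - 1) + (SF (24 * n - 1) - SF (15 * n))) := by
      have e1 : 2 * n + (9 * n - 1) = 11 * n - 1 := by omega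
      have e2 : 4 * n + 1 + (9 * n - 1) = 13 * n := by omega
      have e3 : 15 * n + (9 * n - 1) = 24 * n - 1 := by omega
      rw [Finset.sum_add_distrib, Finset.sum_add_distrib, Finset.sum_sub_distrib, ← Finset.mul_sum,
        ← Finset.mul_sum, sum_sh, sum_sh, sum_sh, Finset.sum_range_reflect lf, e1, e2, e3]
      rfl
    rw [Finset.sum_congr rfl h1, Finset.sum_add_distrib, h3, Finset.sum_add_distrib,
      Finset.sum_const, Finset.card_range, nsmul_eq_mul]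
  rw [hsum]
  have hmono : ∀ a : ℕ, 1 ≤ a * n → SF (a * n - 1) ≤ SF (a * n) := by
    intro a ha
    have h := SF_succ (a * n - 1)
    rw [show a * n - 1 + 1 = a * n by omega] at h
    linarith [lf_nonneg (a * n - 1)]
  have m11 := hmono 11 (by omega)
  have m9 := hmono 9 (by omega)
  have m24 := hmono 24 (by omega)
  have m4 : SF (4 * n + 1) = SF (4 * n) + lf (4 * n) := SF_succ _
  have l4 := abs_le.1 (lf_an' hn2 (a := 4) (by norm_num))
  have l2 := abs_le.1 (lf_an' hn2 (a := 2) (by norm_num))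
  have s2 := abs_le.1 (SF_an' hn2 (a := 2) (by norm_num))
  have s4 := abs_le.1 (SF_an' hn2 (a := 4) (by norm_num))
  have s9 := abs_le.1 (SF_an' hn2 (a := 9) (by norm_num))
  have s11 := abs_le.1 (SF_an' hn2 (a := 11) (by norm_num))
  have s13 := abs_le.1 (SF_an' hn2 (a := 13) (by norm_num))
  have s15 := abs_le.1 (SF_an' hn2 (a := 15) (by norm_num))
  have s24 := abs_le.1 (SF_an' hn2 (a := 24) (by norm_num))
  push_cast at l4 l2 s2 s4 s9 s11 s13 s15 s24
  rw [heS]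
  set P2 := Psi 2
  set L := Real.log n with hL
  have hL1 := one_bd hn2
  have hL0 : 0 ≤ L := by linarith
  have hnL : 0 ≤ (n : ℝ) * L := by positivity
  have hL_nL : L ≤ n * L := by nlinarith
  have hn_nL : (n : ℝ) ≤ 2 * (n * L) := by nlinarith
  -- the logarithms
  have hcard : ((9 * n - 1 : ℕ) : ℝ) ≤ 9 * n := by
    exact_mod_cast (by omega : 9 * n - 1 ≤ 9 * n)
  have hcard0 : (0 : ℝ) ≤ ((9 * n - 1 : ℕ) : ℝ) := Nat.cast_nonneg _
  have hlog : ∑ i ∈ Finset.range (9 * n - 1), (Real.log (2 * ((3 * n + 1 + i : ℕ) : ℝ)) +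
        268 * Real.log ((3 * n + 1 + i : ℕ) : ℝ)) ≤ 19368 * (n * L) := by
    have h1 : ∀ i ∈ Finset.range (9 * n - 1), (Real.log (2 * ((3 * n + 1 + i : ℕ) : ℝ)) +
        268 * Real.log ((3 * n + 1 + i : ℕ) : ℝ)) ≤ 2152 * L := by
      intro i hi
      have hi' := Finset.mem_range.1 hi
      have b1 := log_bd' hn2 (a := 12) (by norm_num)
      have hle : ((3 * n + 1 + i : ℕ) : ℝ) ≤ ((12 * n : ℕ) : ℝ) := by
        exact_mod_cast (by omega : 3 * n + 1 + i ≤ 12 * n)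
      have hpos : (0 : ℝ) < ((3 * n + 1 + i : ℕ) : ℝ) := by positivity
      have c1 : Real.log (2 * ((3 * n + 1 + i : ℕ) : ℝ)) ≤ 8 * L :=
        (Real.log_le_log (by positivity) (by linarith)).trans b1
      have c2 : Real.log ((3 * n + 1 + i : ℕ) : ℝ) ≤ 8 * L :=
        (Real.log_le_log (by positivity) (by linarith)).trans b1
      linarith
    refine (Finset.sum_le_sum h1).trans ?_
    rw [Finset.sum_const, Finset.card_range, nsmul_eq_mul]
    have := mul_le_mul_of_nonneg_right hcard (show 0 ≤ 2152 * L by linarith)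
    linarith
  have hlin : ((9 * n - 1 : ℕ) : ℝ) * (74 * lf (2 * n)) ≤
      666 * P2 * n ^ 2 + 1332 * n ^ 2 * L + 25308 * (n * L) := by
    have h1 : lf (2 * n) ≤ n * P2 + 2 * n * L + 38 * L := by linarith [l2.2]
    have h2 := lf_nonneg (2 * n)
    calc ((9 * n - 1 : ℕ) : ℝ) * (74 * lf (2 * n)) ≤ 9 * n * (74 * lf (2 * n)) :=
          mul_le_mul_of_nonneg_right hcard (by linarith)
      _ ≤ 9 * n * (74 * (n * P2 + 2 * n * L + 38 * L)) := by gcongr
      _ = _ := by ring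
  have hP4 : Psi 4 ≤ 2 := by
    unfold Psi
    have h4 : Real.log 4 = 2 * Real.log 2 := by
      rw [show (4 : ℝ) = 2 ^ 2 by norm_num, Real.log_pow]; norm_num
    have := Real.log_two_lt_d9
    rw [h4]
    linarith
  have hl4 : lf (4 * n) ≤ 46 * (n * L) := by
    have h1 : (n : ℝ) * Psi 4 ≤ n * 2 := mul_le_mul_of_nonneg_left hP4 hn0.le
    linarith [l4.2]
  have t2 := s2.1
  have t4 := s4.2
  have t9 := s9.2
  have t11 := s11.2
  have t13 := s13.1
  have t15 := s15.1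
  have t24 := s24.2
  rw [m4]
  norm_num at t2 t4 t9 t11 t13 t15 t24
  linarith

/-- saturated part -/
theorem G5_sat : ∃ C : ℝ, 0 < C ∧ ∀ n : ℕ, 30 ≤ n →
    ∑ i ∈ Finset.range (9 * n - 1), (Real.log (wv n (3 * n + 1 + i)) +
      Lp n (Finset.range (9 * n - 1)) (100 * (3 * n + 1 + i))) ≤
      eS * (n : ℝ) ^ 2 + 162 * (n : ℝ) ^ 2 * Real.log n + C * n * Real.log n := by
  obtain ⟨C, hC, h⟩ := G5_sat_two
  exact ⟨C, hC, fun n hn => h n (by omega)⟩

end

end Pool.Agent.H574R2.Q4
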