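import Pool.Agent.H574R2.Q4.Defs
import Pool.Agent.H102R2.Z5.Brick

/-! Task G6: mutual energy of two bricks (`G6_pair`), from the statement of `G3_Lp` (helper284, after
`Pool.Agent.H574R2.D9.G6` of helper913). -/

open Polynomial Pool.Agent.H337R2 Filter Topology

namespace Pool.Agent.H574R2.Q4

noncomputable section

/-- statement of `G3_Lp` -/
def G6_G3LpSt : Prop := ∃ C : ℝ, 0 < C ∧ ∀ n : ℕ, 30 ≤ n → ∀ a b : ℕ, a ≤ b → b ≤ 12 → ∀ u : ℤ,
    |Lp n (Finset.Ico (a * (3 * n - 6)) (b * (3 * n - 6))) u -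
      (n * ∑ g ∈ Finset.Ico a b, Ub g ((u : ℝ) / n) + 6 * (b - a) * n * Real.log n)| ≤ C * Real.log (n + |(u : ℝ)|)

lemma G6_bd : ∀ g < 12, 0 ≤ bb g ∧ bb g ≤ 1200 ∧ 1 ≤ cc g ∧ cc g ≤ 100 := by decide

lemma G6_Psi_scale {r : ℝ} (hr : 0 < r) (x : ℝ) :
    r * Psi x = Pool.Agent.H102R2.Z5.Psi (r * x) - r * x * Real.log r := by
  unfold Psi Pool.Agent.H102R2.Z5.Psi
  rcases eq_or_ne x 0 with h | h
  · subst h; simp
  · rw [Real.log_mul hr.ne' h]; ring

lemma G6_G_scale {r : ℝ} (hr : 0 < r) (z : ℝ) :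
    Pool.Agent.H102R2.Z5.G2 (r * z) = r ^ 2 * GG z + r ^ 2 * z ^ 2 / 2 * Real.log r := by
  unfold GG Pool.Agent.LZ.GG Pool.Agent.H102R2.Z5.G2
  rcases eq_or_ne z 0 with h | h
  · subst h; simp
  · rw [Real.log_mul hr.ne' h]; ring

/-- energy of two bricks -/
theorem G6_pair_of (hG3 : G6_G3LpSt) : ∃ C : ℝ, 0 < C ∧ ∀ n : ℕ, 30 ≤ n → ∀ g < 12, ∀ h < 12, ∀ o : ℤ, 0 ≤ o → o ≤ 1 →
    |∑ j ∈ Finset.range (3 * n - 6), Lp n (Finset.Ico (h * (3 * n - 6)) ((h + 1) * (3 * n - 6)))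
        (bb g * n + cc g * (j : ℤ) + o) -
      (en g h * (n : ℝ) ^ 2 + 18 * (n : ℝ) ^ 2 * Real.log n)| ≤ C * n * Real.log n := by
  obtain ⟨C3, hC3, h3⟩ := hG3
  refine ⟨36 * C3 + 1400000, by positivity, ?_⟩
  intro n hn g hg h hh o ho0 ho1
  have hn3 : (30 : ℝ) ≤ n := by exact_mod_cast hn
  have hn0 : (0 : ℝ) < n := by linarith
  have hl2 : (0.69 : ℝ) < Real.log 2 := by
    have := Real.log_two_gt_d9
    linarith
  have hL2 : Real.log 2 ≤ Real.log n := Real.log_le_log (by norm_num) (by linarith)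
  set L := Real.log n with hL
  have hL0 : 0 < L := by linarith
  obtain ⟨g1, g2, g3, g4⟩ := G6_bd g hg
  obtain ⟨k1, k2, k3, k4⟩ := G6_bd h hh
  have G1 : (0 : ℝ) ≤ (bb g : ℝ) := by exact_mod_cast g1
  have G2' : (bb g : ℝ) ≤ 1200 := by exact_mod_cast g2
  have G3 : (1 : ℝ) ≤ (cc g : ℝ) := by exact_mod_cast g3
  have G4 : (cc g : ℝ) ≤ 100 := by exact_mod_cast g4
  have K1 : (0 : ℝ) ≤ (bb h : ℝ) := by exact_mod_cast k1
  have K2 : (bb h : ℝ) ≤ 1200 := by exact_mod_cast k2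
  have K3 : (1 : ℝ) ≤ (cc h : ℝ) := by exact_mod_cast k3
  have K4 : (cc h : ℝ) ≤ 100 := by exact_mod_cast k4
  have O1 : (0 : ℝ) ≤ (o : ℝ) := by exact_mod_cast ho0
  have O2 : (o : ℝ) ≤ 1 := by exact_mod_cast ho1
  set b : ℝ := (bb g : ℝ) with hb
  set c : ℝ := (cc g : ℝ) with hc
  set b' : ℝ := (bb h : ℝ) with hb'
  set c' : ℝ := (cc h : ℝ) with hc'
  set oo : ℝ := (o : ℝ) with hoo
  have hc0 : 0 < c := by linarith
  have hc'0 : 0 < c' := by linarith
  have hN1 : ((3 * n - 6 : ℕ) : ℝ) = 3 * (n : ℝ) - 6 := by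
    rw [Nat.cast_sub (by omega)]
    push_cast
    ring
  have hlogW : Real.log (4096 * n) ≤ 13 * L := by
    rw [show (4096 : ℝ) = 2 ^ 12 by norm_num, Real.log_mul (by norm_num) hn0.ne', Real.log_pow, ← hL]
    push_cast
    linarith
  have hlogW0 : 0 ≤ Real.log (4096 * n) := Real.log_nonneg (by linarith)
  have hnL : 20 ≤ (n : ℝ) * L := by nlinarith
  -- shifts by `o`
  have shift : ∀ a : ℝ, |a| ≤ 2700 → ∀ j : ℝ, 0 ≤ j → j ≤ 3 * n →
      |Pool.Agent.H102R2.Z5.Psi (n * a + c * j + oo) - Pool.Agent.H102R2.Z5.Psi (n * a + c * j)| ≤ 13 * L + 2 := by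
    intro a ha j hj0 hj1
    have h1 : |n * a + c * j| ≤ 3000 * n := by
      refine (abs_add_le _ _).trans ?_
      rw [abs_mul, abs_of_pos hn0, abs_mul, abs_of_pos hc0, abs_of_nonneg hj0]
      have h2 : (n : ℝ) * |a| ≤ n * 2700 := mul_le_mul_of_nonneg_left ha hn0.le
      have h3 : c * j ≤ 100 * (3 * n) := mul_le_mul G4 hj1 hj0 (by norm_num)
      linarith
    have h2 : |n * a + c * j + oo| ≤ 4096 * n := by
      refine (abs_add_le _ _).trans ?_
      rw [abs_of_nonneg O1]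
      linarith
    have h7 := Pool.Agent.H102R2.Z5.abs_Psi_sub_le (x := n * a + c * j) (y := n * a + c * j + oo)
      (W := 4096 * n) (by linarith) (by linarith) h2
    rw [add_sub_cancel_left, abs_of_nonneg O1] at h7
    have h8 : oo * Real.log (4096 * n) ≤ 1 * (13 * L) := mul_le_mul O2 hlogW hlogW0 (by norm_num)
    linarith
  -- inner sums
  have step1 : ∀ j ∈ Finset.range (3 * n - 6),
      |Lp n (Finset.Ico (h * (3 * n - 6)) ((h + 1) * (3 * n - 6))) (bb g * n + cc g * (j : ℤ) + o) -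
        ((Pool.Agent.H102R2.Z5.Psi (n * (b - b') + c * j) -
          Pool.Agent.H102R2.Z5.Psi (n * (b - b' - 3 * c') + c * j) +
          (Pool.Agent.H102R2.Z5.Psi (n * (b + b' + 3 * c') + c * j) -
          Pool.Agent.H102R2.Z5.Psi (n * (b + b') + c * j))) / c' - 6 * n * Real.log 100)| ≤
      C3 * (12 * L) + 4 * (13 * L + 2) := by
    intro j hj
    rw [Finset.mem_range] at hj
    have hjn : (j : ℝ) ≤ 3 * n := by exact_mod_cast (show j ≤ 3 * n by omega)
    have hj0 : (0 : ℝ) ≤ j := Nat.cast_nonneg j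
    have h4 := h3 n hn h (h + 1) (by omega) (by omega) (bb g * n + cc g * (j : ℤ) + o)
    have hu : ((bb g * n + cc g * (j : ℤ) + o : ℤ) : ℝ) = b * n + c * j + oo := by
      push_cast
      rw [hb, hc, hoo]
    rw [hu, Nat.Ico_succ_singleton, Finset.sum_singleton] at h4
    have e1 : (n : ℝ) * Ub h ((b * n + c * j + oo) / n) + 6 * (((h + 1 : ℕ) : ℝ) - h) * n * L =
        (Pool.Agent.H102R2.Z5.Psi (n * (b - b') + c * j + oo) -
          Pool.Agent.H102R2.Z5.Psi (n * (b - b' - 3 * c') + c * j + oo) +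
          (Pool.Agent.H102R2.Z5.Psi (n * (b + b' + 3 * c') + c * j + oo) -
          Pool.Agent.H102R2.Z5.Psi (n * (b + b') + c * j + oo))) / c' - 6 * n * Real.log 100 := by
      unfold Ub
      rw [← hb', ← hc']
      have e2 := G6_Psi_scale hn0 ((b * n + c * j + oo) / n - b')
      have e3 := G6_Psi_scale hn0 ((b * n + c * j + oo) / n - b' - 3 * c')
      have e2' := G6_Psi_scale hn0 ((b * n + c * j + oo) / n + b' + 3 * c')
      have e3' := G6_Psi_scale hn0 ((b * n + c * j + oo) / n + b')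
      have e4 : (n : ℝ) * ((b * n + c * j + oo) / n - b') = n * (b - b') + c * j + oo := by
        field_simp
        ring
      have e5 : (n : ℝ) * ((b * n + c * j + oo) / n - b' - 3 * c') = n * (b - b' - 3 * c') + c * j + oo := by
        field_simp
        ring
      have e4' : (n : ℝ) * ((b * n + c * j + oo) / n + b' + 3 * c') = n * (b + b' + 3 * c') + c * j + oo := by
        field_simp
        ring
      have e5' : (n : ℝ) * ((b * n + c * j + oo) / n + b') = n * (b + b') + c * j + oo := by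
        field_simp
        ring
      rw [e4] at e2
      rw [e5] at e3
      rw [e4'] at e2'
      rw [e5'] at e3'
      have e6 : (n : ℝ) * (((Psi ((b * n + c * j + oo) / n - b') - Psi ((b * n + c * j + oo) / n - b' - 3 * c')) +
          (Psi ((b * n + c * j + oo) / n + b' + 3 * c') - Psi ((b * n + c * j + oo) / n + b'))) / c' -
          6 * Real.log 100) = ((n * Psi ((b * n + c * j + oo) / n - b') -
            n * Psi ((b * n + c * j + oo) / n - b' - 3 * c')) +
          (n * Psi ((b * n + c * j + oo) / n + b' + 3 * c') - n * Psi ((b * n + c * j + oo) / n + b'))) / c' -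
          6 * n * Real.log 100 := by
        field_simp
      rw [e6, e2, e3, e2', e3', ← hL]
      push_cast
      field_simp
      ring
    rw [e1] at h4
    have h4' := h4.trans (b := _) (c := C3 * (12 * L)) (by
      refine mul_le_mul_of_nonneg_left ?_ hC3.le
      have h5 : |b * n + c * j + oo| ≤ 1501 * n := by
        rw [abs_le]
        constructor <;> nlinarith
      have h6 : Real.log (n + |b * n + c * j + oo|) ≤ Real.log (2 ^ 11 * n) :=
        Real.log_le_log (by positivity) (by linarith)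
      rw [Real.log_mul (by norm_num) hn0.ne', Real.log_pow, ← hL] at h6
      push_cast at h6
      linarith)
    have t1 := shift (b - b') (by rw [abs_le]; constructor <;> linarith) j hj0 hjn
    have t2 := shift (b - b' - 3 * c') (by rw [abs_le]; constructor <;> linarith) j hj0 hjn
    have t3 := shift (b + b' + 3 * c') (by rw [abs_le]; constructor <;> linarith) j hj0 hjn
    have t4 := shift (b + b') (by rw [abs_le]; constructor <;> linarith) j hj0 hjn
    generalize Lp n (Finset.Ico (h * (3 * n - 6)) ((h + 1) * (3 * n - 6))) (bb g * n + cc g * (j : ℤ) + o) = X at h4' ⊢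
    generalize Pool.Agent.H102R2.Z5.Psi (n * (b - b') + c * j + oo) = P1 at h4' t1 ⊢
    generalize Pool.Agent.H102R2.Z5.Psi (n * (b - b' - 3 * c') + c * j + oo) = P2 at h4' t2 ⊢
    generalize Pool.Agent.H102R2.Z5.Psi (n * (b + b' + 3 * c') + c * j + oo) = P3 at h4' t3 ⊢
    generalize Pool.Agent.H102R2.Z5.Psi (n * (b + b') + c * j + oo) = P4 at h4' t4 ⊢
    generalize Pool.Agent.H102R2.Z5.Psi (n * (b - b') + c * j) = Q1 at t1 ⊢
    generalize Pool.Agent.H102R2.Z5.Psi (n * (b - b' - 3 * c') + c * j) = Q2 at t2 ⊢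
    generalize Pool.Agent.H102R2.Z5.Psi (n * (b + b' + 3 * c') + c * j) = Q3 at t3 ⊢
    generalize Pool.Agent.H102R2.Z5.Psi (n * (b + b') + c * j) = Q4 at t4 ⊢
    have hsum : |((P1 - Q1) - (P2 - Q2) + ((P3 - Q3) - (P4 - Q4))) / c'| ≤ 4 * (13 * L + 2) := by
      rw [abs_div, abs_of_pos hc'0]
      refine (div_le_self (abs_nonneg _) K3).trans ?_
      refine (abs_add_le _ _).trans ?_
      have b1 := abs_sub (P1 - Q1) (P2 - Q2)
      have b2 := abs_sub (P3 - Q3) (P4 - Q4)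
      linarith
    have e9 : X - ((Q1 - Q2 + (Q3 - Q4)) / c' - 6 * n * Real.log 100) =
        (X - ((P1 - P2 + (P3 - P4)) / c' - 6 * n * Real.log 100)) +
          ((P1 - Q1) - (P2 - Q2) + ((P3 - Q3) - (P4 - Q4))) / c' := by
      field_simp
      ring
    rw [e9]
    exact (abs_add_le _ _).trans (add_le_add h4' hsum)
  -- outer sums
  have outer : ∀ a : ℝ, |a| ≤ 2700 →
      |∑ j ∈ Finset.range (3 * n - 6), Pool.Agent.H102R2.Z5.Psi (n * a + c * j) -
        (n : ℝ) ^ 2 * (GG (a + 3 * c) - GG a) / c - (n : ℝ) ^ 2 * ((a + 3 * c) ^ 2 - a ^ 2) / (2 * c) * L| ≤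
      330000 * (n * L) := by
    intro a ha
    have hcc : (n : ℝ) * |a| ≤ n * 2700 := mul_le_mul_of_nonneg_left ha hn0.le
    have hcn : c * (3 * n) ≤ 100 * (3 * n) := mul_le_mul_of_nonneg_right G4 (by linarith)
    have h4 := Pool.Agent.H102R2.Z5.outer (n * a) c hc0 (3 * n) (4096 * n) (by
      rw [abs_mul, abs_of_pos hn0]
      push_cast
      linarith) (by linarith)
    rw [show (n : ℝ) * a + c * ((3 * n : ℕ) : ℝ) = n * (a + 3 * c) by push_cast; ring, G6_G_scale hn0,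
      G6_G_scale hn0, ← hL] at h4
    have hsplit : ∑ j ∈ Finset.range (3 * n), Pool.Agent.H102R2.Z5.Psi (n * a + c * j) =
        ∑ j ∈ Finset.range (3 * n - 6), Pool.Agent.H102R2.Z5.Psi (n * a + c * j) +
          ∑ i ∈ Finset.range 6, Pool.Agent.H102R2.Z5.Psi (n * a + c * ((3 * n - 6 + i : ℕ) : ℝ)) := by
      conv_lhs => rw [show 3 * n = (3 * n - 6) + 6 by omega]
      rw [Finset.sum_range_add]
    have hlast : ∀ i ∈ Finset.range 6,
        |Pool.Agent.H102R2.Z5.Psi (n * a + c * ((3 * n - 6 + i : ℕ) : ℝ))| ≤ 4096 * n * (13 * L) + 2 := by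
      intro i hi
      rw [Finset.mem_range] at hi
      have hi1 : ((3 * n - 6 + i : ℕ) : ℝ) ≤ 3 * n := by exact_mod_cast (show 3 * n - 6 + i ≤ 3 * n by omega)
      have hi0 : (0 : ℝ) ≤ ((3 * n - 6 + i : ℕ) : ℝ) := Nat.cast_nonneg _
      have hW : |(n : ℝ) * a + c * ((3 * n - 6 + i : ℕ) : ℝ)| ≤ 4096 * n := by
        refine (abs_add_le _ _).trans ?_
        rw [abs_mul, abs_of_pos hn0, abs_mul, abs_of_pos hc0, abs_of_nonneg hi0]
        have : c * ((3 * n - 6 + i : ℕ) : ℝ) ≤ 100 * (3 * n) := mul_le_mul G4 hi1 hi0 (by norm_num)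
        linarith
      have h7 := Pool.Agent.H102R2.Z5.abs_Psi_sub_le (x := 0) (y := (n : ℝ) * a + c * ((3 * n - 6 + i : ℕ) : ℝ))
        (W := 4096 * n) (by linarith) (by simp) hW
      rw [Pool.Agent.H102R2.Z5.Psi_zero, sub_zero, sub_zero] at h7
      have h8 : |(n : ℝ) * a + c * ((3 * n - 6 + i : ℕ) : ℝ)| * Real.log (4096 * n) ≤ 4096 * n * (13 * L) :=
        mul_le_mul hW hlogW (Real.log_nonneg (by linarith)) (by positivity)
      linarith
    have hlast' : |∑ i ∈ Finset.range 6, Pool.Agent.H102R2.Z5.Psi (n * a + c * ((3 * n - 6 + i : ℕ) : ℝ))| ≤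
        6 * (4096 * n * (13 * L) + 2) := by
      refine (Finset.abs_sum_le_sum_abs _ _).trans ?_
      refine (Finset.sum_le_card_nsmul _ _ _ hlast).trans ?_
      rw [Finset.card_range, nsmul_eq_mul]
      push_cast
      exact le_refl _
    have e1 : ∑ j ∈ Finset.range (3 * n - 6), Pool.Agent.H102R2.Z5.Psi (n * a + c * j) -
        (n : ℝ) ^ 2 * (GG (a + 3 * c) - GG a) / c - (n : ℝ) ^ 2 * ((a + 3 * c) ^ 2 - a ^ 2) / (2 * c) * L =
        (∑ j ∈ Finset.range (3 * n), Pool.Agent.H102R2.Z5.Psi (n * a + c * j) -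
        ((n : ℝ) ^ 2 * GG (a + 3 * c) + n ^ 2 * (a + 3 * c) ^ 2 / 2 * L - (n ^ 2 * GG a + n ^ 2 * a ^ 2 / 2 * L)) / c) -
        ∑ i ∈ Finset.range 6, Pool.Agent.H102R2.Z5.Psi (n * a + c * ((3 * n - 6 + i : ℕ) : ℝ)) := by
      rw [hsplit]
      generalize ∑ i ∈ Finset.range 6, Pool.Agent.H102R2.Z5.Psi (n * a + c * ((3 * n - 6 + i : ℕ) : ℝ)) = Y
      field_simp
      ring
    rw [e1]
    refine (abs_sub _ _).trans ?_
    have h5 : c * Real.log (4096 * n) ≤ 100 * (13 * L) := mul_le_mul G4 hlogW hlogW0 (by norm_num)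
    have h9 : ((3 * n : ℕ) : ℝ) * (c * Real.log (4096 * n) + 2) ≤ ((3 * n : ℕ) : ℝ) * (100 * (13 * L) + 3 * L) :=
      mul_le_mul_of_nonneg_left (by linarith) (Nat.cast_nonneg _)
    have h10 := h4.trans h9
    have h11 : ((3 * n : ℕ) : ℝ) * (100 * (13 * L) + 3 * L) = 3909 * (n * L) := by push_cast; ring
    have h12 : 6 * ((4096 : ℝ) * n * (13 * L) + 2) = 319488 * (n * L) + 12 := by ring
    rw [h11] at h10
    rw [h12] at hlast'
    linarith
  have o1 := outer (b - b') (by rw [abs_le]; constructor <;> linarith)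
  have o2 := outer (b - b' - 3 * c') (by rw [abs_le]; constructor <;> linarith)
  have o3 := outer (b + b' + 3 * c') (by rw [abs_le]; constructor <;> linarith)
  have o4 := outer (b + b') (by rw [abs_le]; constructor <;> linarith)
  -- combination
  have s1 : |∑ j ∈ Finset.range (3 * n - 6), (Lp n (Finset.Ico (h * (3 * n - 6)) ((h + 1) * (3 * n - 6)))
        (bb g * n + cc g * (j : ℤ) + o) -
        ((Pool.Agent.H102R2.Z5.Psi (n * (b - b') + c * j) -
          Pool.Agent.H102R2.Z5.Psi (n * (b - b' - 3 * c') + c * j) +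
          (Pool.Agent.H102R2.Z5.Psi (n * (b + b' + 3 * c') + c * j) -
          Pool.Agent.H102R2.Z5.Psi (n * (b + b') + c * j))) / c' - 6 * n * Real.log 100))| ≤
      3 * n * (C3 * (12 * L) + 4 * (13 * L + 2)) := by
    refine (Finset.abs_sum_le_sum_abs _ _).trans ?_
    refine (Finset.sum_le_card_nsmul _ _ _ step1).trans ?_
    rw [Finset.card_range, nsmul_eq_mul, hN1]
    have : 0 ≤ C3 * (12 * L) + 4 * (13 * L + 2) := by positivity
    nlinarith
  have s2 : ∀ A1 A2 A3 A4 : ℝ, |A1| ≤ 330000 * (n * L) → |A2| ≤ 330000 * (n * L) → |A3| ≤ 330000 * (n * L) →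
      |A4| ≤ 330000 * (n * L) → |(A1 - A2 + (A3 - A4)) / c'| ≤ 1320000 * (n * L) := by
    intro A1 A2 A3 A4 a1 a2 a3 a4
    rw [abs_div, abs_of_pos hc'0]
    refine (div_le_self (abs_nonneg _) K3).trans ?_
    refine (abs_add_le _ _).trans ?_
    have b1 := abs_sub A1 A2
    have b2 := abs_sub A3 A4
    linarith
  have s3 : |36 * (n : ℝ) * Real.log 100| ≤ 252 * (n * L) := by
    have hl20 : Real.log 100 ≤ 7 * L := by
      have h1 : Real.log 100 ≤ Real.log (2 ^ 7) := Real.log_le_log (by norm_num) (by norm_num)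
      rw [Real.log_pow] at h1
      push_cast at h1
      linarith
    have hl0 : 0 ≤ Real.log 100 := Real.log_nonneg (by norm_num)
    rw [abs_of_nonneg (by positivity)]
    nlinarith
  have s4 := s2 _ _ _ _ o1 o2 o3 o4
  rw [Finset.sum_sub_distrib (f := fun j : ℕ =>
      Lp n (Finset.Ico (h * (3 * n - 6)) ((h + 1) * (3 * n - 6))) (bb g * n + cc g * (j : ℤ) + o))] at s1
  rw [Finset.sum_sub_distrib (f := fun j : ℕ => (Pool.Agent.H102R2.Z5.Psi (n * (b - b') + c * j) -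
          Pool.Agent.H102R2.Z5.Psi (n * (b - b' - 3 * c') + c * j) +
          (Pool.Agent.H102R2.Z5.Psi (n * (b + b' + 3 * c') + c * j) -
          Pool.Agent.H102R2.Z5.Psi (n * (b + b') + c * j))) / c')] at s1
  rw [← Finset.sum_div, Finset.sum_add_distrib, Finset.sum_sub_distrib, Finset.sum_sub_distrib,
      Finset.sum_const, Finset.card_range, nsmul_eq_mul, hN1] at s1
  have e8 : en g h = ((GG (b - b' + 3 * c) - GG (b - b' - 3 * c' + 3 * c) - GG (b - b') + GG (b - b' - 3 * c')) +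
        (GG (b + b' + 3 * c' + 3 * c) - GG (b + b' + 3 * c) - GG (b + b' + 3 * c') + GG (b + b'))) / (c * c')
        - 18 * Real.log 100 := by
    unfold en
    rw [← hb, ← hb', ← hc, ← hc', show b + 3 * c - b' = b - b' + 3 * c by ring,
      show b - b' + 3 * c - 3 * c' = b - b' - 3 * c' + 3 * c by ring,
      show b + 3 * c + b' + 3 * c' = b + b' + 3 * c' + 3 * c by ring,
      show b + 3 * c + b' = b + b' + 3 * c by ring]
  rw [e8]
  generalize ∑ j ∈ Finset.range (3 * n - 6), Lp n (Finset.Ico (h * (3 * n - 6)) ((h + 1) * (3 * n - 6)))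
        (bb g * n + cc g * (j : ℤ) + o) = X at s1 ⊢
  generalize ∑ j ∈ Finset.range (3 * n - 6), Pool.Agent.H102R2.Z5.Psi (n * (b - b') + c * j) = S1 at s1 s4 ⊢
  generalize ∑ j ∈ Finset.range (3 * n - 6), Pool.Agent.H102R2.Z5.Psi (n * (b - b' - 3 * c') + c * j) = S2 at s1 s4 ⊢
  generalize ∑ j ∈ Finset.range (3 * n - 6), Pool.Agent.H102R2.Z5.Psi (n * (b + b' + 3 * c') + c * j) = S3 at s1 s4 ⊢
  generalize ∑ j ∈ Finset.range (3 * n - 6), Pool.Agent.H102R2.Z5.Psi (n * (b + b') + c * j) = S4 at s1 s4 ⊢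
  have e7 : X - ((((GG (b - b' + 3 * c) - GG (b - b' - 3 * c' + 3 * c) - GG (b - b') + GG (b - b' - 3 * c')) +
        (GG (b + b' + 3 * c' + 3 * c) - GG (b + b' + 3 * c) - GG (b + b' + 3 * c') + GG (b + b'))) / (c * c')
        - 18 * Real.log 100) * (n : ℝ) ^ 2 + 18 * (n : ℝ) ^ 2 * L) =
      (X - ((S1 - S2 + (S3 - S4)) / c' - (3 * (n : ℝ) - 6) * (6 * n * Real.log 100))) +
      ((S1 - (n : ℝ) ^ 2 * (GG (b - b' + 3 * c) - GG (b - b')) / c -
          (n : ℝ) ^ 2 * ((b - b' + 3 * c) ^ 2 - (b - b') ^ 2) / (2 * c) * L) -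
      (S2 - (n : ℝ) ^ 2 * (GG (b - b' - 3 * c' + 3 * c) - GG (b - b' - 3 * c')) / c -
          (n : ℝ) ^ 2 * ((b - b' - 3 * c' + 3 * c) ^ 2 - (b - b' - 3 * c') ^ 2) / (2 * c) * L) +
      ((S3 - (n : ℝ) ^ 2 * (GG (b + b' + 3 * c' + 3 * c) - GG (b + b' + 3 * c')) / c -
          (n : ℝ) ^ 2 * ((b + b' + 3 * c' + 3 * c) ^ 2 - (b + b' + 3 * c') ^ 2) / (2 * c) * L) -
      (S4 - (n : ℝ) ^ 2 * (GG (b + b' + 3 * c) - GG (b + b')) / c -
          (n : ℝ) ^ 2 * ((b + b' + 3 * c) ^ 2 - (b + b') ^ 2) / (2 * c) * L))) / c' +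
      36 * n * Real.log 100 := by
    field_simp
    ring
  rw [e7]
  refine (abs_add_le _ _).trans ?_
  refine (add_le_add (abs_add_le _ _) s3).trans ?_
  refine (add_le_add_left (add_le_add s1 s4) _).trans ?_
  have hnL' : 0 ≤ (n : ℝ) * L := by positivity
  have s6 : (36 * C3 + 1400000) * (n : ℝ) * L = 3 * n * (C3 * (12 * L) + 4 * (13 * L + 2)) +
      1320000 * (n * L) + 252 * (n * L) + (79592 * (n * L) - 24 * n) := by ring
  rw [s6]
  have s7 : 24 * (n : ℝ) ≤ 79592 * (n * L) := by nlinarith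
  linarith

end

end Pool.Agent.H574R2.Q4
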