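import Pool.Agent.H574R2.Q4.H3pre
import Pool.Agent.H574R2.Q4.C1
import Pool.Agent.H574R2.Q4.H2
import Pool.Agent.H336R2.HD.H1

/-!
# H3: the diagonal entries modulo p
-/

set_option autoImplicit false

open Polynomial Pool.Agent.H337R2

namespace Pool.Agent.H574R2.Q4

open H3

theorem H3_diag {p : ℕ} [Fact p.Prime] (hp : 100 ≤ p) (α β : ℕ → ℚ) (hα : ∀ i, padicNorm p (α i) ≤ 1)
    (hβ : ∀ i, padicNorm p (β i) ≤ 1) (i0 : ℕ) (hi0 : i0 = 3 ∨ i0 = 5 ∨ i0 = 7 ∨ i0 = 9) (hβ0 : ∀ i < i0, β i = 0)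
    (r : ℕ) (hr1 : 1 ≤ r) (hr2 : 2 * r < p) :
    ∃ w : ℚ, padicNorm p w = 1 ∧ ∀ e : ℕ, e ≤ 190 →
      padicNorm p ((p : ℚ) ^ (-(e : ℤ)) * AL (2 * p) α (XN (2 * p) r ^ e * OT p r 192) -
        w * (-2 * r) ^ e * Fm e) ≤ (p : ℚ)⁻¹ ∧
      padicNorm p ((p : ℚ) ^ (-(e : ℤ) - i0) * BL (2 * p) β (XN (2 * p) r ^ e * OT p r 192) -
        w * (-2 * r) ^ e * (β i0 * Bm i0 e)) ≤ (p : ℚ)⁻¹ :=
  H3_of (fun r a e hr ha he => Pool.Agent.H336R2.HD.H1_hs r a e hr ha he)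
    (fun E _ hk A hA hE i => C1_pa (by omega) (by nlinarith) E hk A hA hE i) (by omega) α β hα hβ
    i0 hi0 hβ0 r hr1 hr2 (H2_pa hp r hr1 hr2)

end Pool.Agent.H574R2.Q4
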