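import Pool.Agent.H574R2.Q4.H4of
import Pool.Agent.H574R2.Q4.C1

/-!
# H4: the off-diagonal entries
-/

set_option autoImplicit false

open Polynomial Pool.Agent.H337R2

namespace Pool.Agent.H574R2.Q4

theorem H4_offdiag {p : ℕ} [Fact p.Prime] (hp : 100 ≤ p) (α β : ℕ → ℚ) (hα : ∀ i, padicNorm p (α i) ≤ 1)
    (hβ : ∀ i, padicNorm p (β i) ≤ 1) (i0 : ℕ) (hi0 : i0 = 3 ∨ i0 = 5 ∨ i0 = 7 ∨ i0 = 9) (hβ0 : ∀ i < i0, β i = 0)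
    (r s l l' : ℕ) (hr1 : 1 ≤ r) (hr2 : 2 * r < p) (hs1 : 1 ≤ s) (hs2 : 2 * s < p) (hrs : r ≠ s)
    (hl : l < 144) (hl' : l' < 48) :
    padicNorm p ((p : ℚ) ^ (-(l : ℤ) - (l' : ℤ)) * AL (2 * p) α
      ((XN (2 * p) r ^ l * OT p r 144) * (XN (2 * p) s ^ l' * OT p s 48))) ≤ (p : ℚ)⁻¹ ∧
    padicNorm p ((p : ℚ) ^ (-(l : ℤ) - (l' : ℤ) - i0) * BL (2 * p) β
      ((XN (2 * p) r ^ l * OT p r 144) * (XN (2 * p) s ^ l' * OT p s 48))) ≤ (p : ℚ)⁻¹ := by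
  have h1 : 6 * (2 * p) < p ^ 2 := by nlinarith
  exact H4_offdiag_of (fun E k hk A hA hE i => C1_pa (by omega) h1 E hk A hA hE i)
    hp α β hα hβ i0 hβ0 r s l l' hr1 hr2 hs1 hs2 hrs hl hl'

end Pool.Agent.H574R2.Q4
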