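import Pool.Agent.H574R2.Q4.H5c

/-! # Certificate for the pair `(3, 7)` -/

set_option autoImplicit false

namespace Pool.Agent.H574R2.Q4

namespace H5

/-- certificate -/
def X37_0 : ℕ := 0x89c6b2403385ba95014a273284722c2a346a2482c465b28089010399bb04920c7ab8a44058680729a7bb95b9183042c00046abab6601b871a30aa1b75430b5041a9c5b343866380

/-- certificate -/
def X37_1 : ℕ := 0x92062c44008bc36856184021b16b10c21364b0527a0806106a78985c553c2ca1736083728111890a822ba5635ab26699b2a69a09992428024777287711b596524312261cc46b43c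

/-- certificate -/
def X37_2 : ℕ := 0x73c1b014cca6b04520865261517bab27ca51888ab53c6009b278c674cc05bb9a990742c7a4a90b04068b7a217a479ab073935a2033b1664242c497981a5a28b691b9a4c849a9ca9

/-- certificate -/
def X37_3 : ℕ := 0x94c5969482290aca22c1139aa0ba7b803bc21aa14404a047073b6b6bacc15109709ab2230c01a50c8552171a0999907c0b12672bc554238a274a33370c0944981153c15280803299

theorem c37_0 : cv FF BB3 BB7 X37_0 (16 ^ 143) 144 = true := by
  decide +kernel

theorem c37_1 : cv FF BB3 BB7 X37_1 (FF / 16 ^ 48) 144 = true := by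
  decide +kernel

theorem c37_2 : cv FF BB3 BB7 X37_2 (BB3 / 16 ^ 48) 144 = true := by
  decide +kernel

theorem c37_3 : cv FF BB3 BB7 X37_3 (BB7 / 16 ^ 48) 144 = true := by
  decide +kernel

theorem main37 : (Matrix.of fun l l' : Fin 144 => if l'.1 < 48 then Fm (l.1 + l'.1)
      else if l'.1 < 96 then Bm 3 (l.1 + (l'.1 - 48)) else Bm 7 (l.1 + (l'.1 - 96))).det ≠ 0 :=
  final Fm (Bm 3) (Bm 7) FF BB3 BB7 X37_0 X37_1 X37_2 X37_3 rl_F rl_B3 rl_B7 c37_0 c37_1 c37_2 c37_3

end H5

end Pool.Agent.H574R2.Q4
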