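import Pool.Agent.H574R2.Q4.H5c

/-! # Certificate for the pair `(3, 9)` -/

set_option autoImplicit false

namespace Pool.Agent.H574R2.Q4

namespace H5

/-- certificate -/
def X39_0 : ℕ := 0x5450612355a7bb41213c831241978243229b0451bb5aaa705445b56c1176191922016b8663c247739cb16c42b2980650a872ba220000436096a870b9080114c202ac20aba66010a

/-- certificate -/
def X39_1 : ℕ := 0x2c5b005466cb40920882b11288acc54364cc0b41948935608980b0a65503049c137743b3a08b626519388b166848cc9901c6449822a3872171819984cc6267ac65bc5c00c419c22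

/-- certificate -/
def X39_2 : ℕ := 0x548b4250cc02c3c5a20762c76116147c0925c4a81a0b20694cc0b44abbab89310c1c4434b7722c5278bc6063893b0040a89539c9668ca8242a1911c60182b7c9529b4a84143730b

/-- certificate -/
def X39_3 : ℕ := 0x9a917a700119272bb27467b11180ca59cb0c9aaac5c7655104b7b2cb7229a3b35658c8962519a562a2c143378a7b8a27054a1b885bb4384673a58c4211206629ca8c1745b25b9aa7

theorem c39_0 : cv FF BB3 BB9 X39_0 (16 ^ 143) 144 = true := by
  decide +kernel

theorem c39_1 : cv FF BB3 BB9 X39_1 (FF / 16 ^ 48) 144 = true := by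
  decide +kernel

theorem c39_2 : cv FF BB3 BB9 X39_2 (BB3 / 16 ^ 48) 144 = true := by
  decide +kernel

theorem c39_3 : cv FF BB3 BB9 X39_3 (BB9 / 16 ^ 48) 144 = true := by
  decide +kernel

theorem main39 : (Matrix.of fun l l' : Fin 144 => if l'.1 < 48 then Fm (l.1 + l'.1)
      else if l'.1 < 96 then Bm 3 (l.1 + (l'.1 - 48)) else Bm 9 (l.1 + (l'.1 - 96))).det ≠ 0 :=
  final Fm (Bm 3) (Bm 9) FF BB3 BB9 X39_0 X39_1 X39_2 X39_3 rl_F rl_B3 rl_B9 c39_0 c39_1 c39_2 c39_3

end H5

end Pool.Agent.H574R2.Q4
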