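import Pool.Agent.H574R2.Q4.H5c

/-! # Certificate for the pair `(5, 7)` -/

set_option autoImplicit false

namespace Pool.Agent.H574R2.Q4

namespace H5

/-- certificate -/
def X57_0 : ℕ := 0xa83902348810ab614053bab070b2a7b60a76b558ba316790b19a1403aa19849c123c86475132a0238546c6c7271304806a8392955542a670707113b8405366484aa220024378777

/-- certificate -/
def X57_1 : ℕ := 0x231b2722a03363bcc1896077b3760060c23c2bc7620840b177202900262258b06a80c75724631cc412cb7c696712b9b2838c1cbb464a8062704457c2105083022160304459476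

/-- certificate -/
def X57_2 : ℕ := 0x89808919aa2c86a6221876211c644197947b41c4267bb29974892999880008c4c2264a89a492b65a993567aaaa274b202c43c9bcaa58ca992924b63a3bca1544c3038085cb6c3c0

/-- certificate -/
def X57_3 : ℕ := 0x955c52717aa5b77037016862888c20b2147b297594432055000182195669290aaa3b2b19b71a4b663762746b681219b606a049bc099343366770508abc6559a08676471c0124241c

theorem c57_0 : cv FF BB5 BB7 X57_0 (16 ^ 143) 144 = true := by
  decide +kernel

theorem c57_1 : cv FF BB5 BB7 X57_1 (FF / 16 ^ 48) 144 = true := by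
  decide +kernel

theorem c57_2 : cv FF BB5 BB7 X57_2 (BB5 / 16 ^ 48) 144 = true := by
  decide +kernel

theorem c57_3 : cv FF BB5 BB7 X57_3 (BB7 / 16 ^ 48) 144 = true := by
  decide +kernel

theorem main57 : (Matrix.of fun l l' : Fin 144 => if l'.1 < 48 then Fm (l.1 + l'.1)
      else if l'.1 < 96 then Bm 5 (l.1 + (l'.1 - 48)) else Bm 7 (l.1 + (l'.1 - 96))).det ≠ 0 :=
  final Fm (Bm 5) (Bm 7) FF BB5 BB7 X57_0 X57_1 X57_2 X57_3 rl_F rl_B5 rl_B7 c57_0 c57_1 c57_2 c57_3

end H5

end Pool.Agent.H574R2.Q4
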