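import Pool.Agent.H574R2.Q4.H5c

/-! # Certificate for the pair `(5, 9)` -/

set_option autoImplicit false

namespace Pool.Agent.H574R2.Q4

namespace H5

/-- certificate -/
def X59_0 : ℕ := 0x16799b72558189b17ab96351cb4266b4a3b915528266b8204b0770642248a3abc480593687b22c6cb039b63328349710008cc75833338215505837533a414059b9579962050c624

/-- certificate -/
def X59_1 : ℕ := 0x2c89081c7712918a6c976ca7b6bba2a2b046a8537856752000a2870c5542647c6b4b132327512076686728923443906917b332c500168919466aa00b49725c785b998764561a700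

/-- certificate -/
def X59_2 : ℕ := 0x4b355146aa6bca67a43a361400128465c7c428402193377917a8931533b446964b0c97504479b917a924029a54287300c76490c2119c255722b80b82993722a672032723c654553

/-- certificate -/
def X59_3 : ℕ := 0x901983c3899a21679a8849827545a659cb56c38160aab96c05473a39bcc3bb39c7183625017865310c12cc1197a802b40358131b74418c4772015a596665a6a29319523ccc24758b

theorem c59_0 : cv FF BB5 BB9 X59_0 (16 ^ 143) 144 = true := by
  decide +kernel

theorem c59_1 : cv FF BB5 BB9 X59_1 (FF / 16 ^ 48) 144 = true := by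
  decide +kernel

theorem c59_2 : cv FF BB5 BB9 X59_2 (BB5 / 16 ^ 48) 144 = true := by
  decide +kernel

theorem c59_3 : cv FF BB5 BB9 X59_3 (BB9 / 16 ^ 48) 144 = true := by
  decide +kernel

theorem main59 : (Matrix.of fun l l' : Fin 144 => if l'.1 < 48 then Fm (l.1 + l'.1)
      else if l'.1 < 96 then Bm 5 (l.1 + (l'.1 - 48)) else Bm 9 (l.1 + (l'.1 - 96))).det ≠ 0 :=
  final Fm (Bm 5) (Bm 9) FF BB5 BB9 X59_0 X59_1 X59_2 X59_3 rl_F rl_B5 rl_B9 c59_0 c59_1 c59_2 c59_3

end H5

end Pool.Agent.H574R2.Q4
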