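import Pool.Agent.H574R2.Q4.H5c

/-! # Certificate for the pair `(7, 9)` -/

set_option autoImplicit false

namespace Pool.Agent.H574R2.Q4

namespace H5

/-- certificate -/
def X79_0 : ℕ := 0x6aa66cc377a313cc41284c67c15760b04270236a525b1530a88a8080995a829a9492a8b901c8caa85030bc8b466782c07309351b443143021ba4a5338995a30445b047c514b10a9

/-- certificate -/
def X79_1 : ℕ := 0xc75955729921b6253ca33853b220a5345ba079204c3235c04b913ac2cc67c3b05449a23398854c1762435349287bb0195569a612aa2223bc786356570762101aa48904c2a77cacc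

/-- certificate -/
def X79_2 : ℕ := 0x8947943855163cb85276a39a79600b3815a40a77708986196b79c94c88b7b294599a2a927544ba5097123a1b03b281406a3289c277a313a68c105c67193aa720ab3903624a70a9c

/-- certificate -/
def X79_3 : ℕ := 0x917065a201153099187c1ab07819a2a576b42b160670153b02c0a7939223569814038094aa4116079249123c19567b9302c0a38c5551698c8383c639a95cac8b3903a1c445744422

theorem c79_0 : cv FF BB7 BB9 X79_0 (16 ^ 143) 144 = true := by
  decide +kernel

theorem c79_1 : cv FF BB7 BB9 X79_1 (FF / 16 ^ 48) 144 = true := by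
  decide +kernel

theorem c79_2 : cv FF BB7 BB9 X79_2 (BB7 / 16 ^ 48) 144 = true := by
  decide +kernel

theorem c79_3 : cv FF BB7 BB9 X79_3 (BB9 / 16 ^ 48) 144 = true := by
  decide +kernel

theorem main79 : (Matrix.of fun l l' : Fin 144 => if l'.1 < 48 then Fm (l.1 + l'.1)
      else if l'.1 < 96 then Bm 7 (l.1 + (l'.1 - 48)) else Bm 9 (l.1 + (l'.1 - 96))).det ≠ 0 :=
  final Fm (Bm 7) (Bm 9) FF BB7 BB9 X79_0 X79_1 X79_2 X79_3 rl_F rl_B7 rl_B9 c79_0 c79_1 c79_2 c79_3

end H5

end Pool.Agent.H574R2.Q4
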