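import Pool.Agent.H574R2.Q4.H5c35
import Pool.Agent.H574R2.Q4.H5c37
import Pool.Agent.H574R2.Q4.H5c39
import Pool.Agent.H574R2.Q4.H5c57
import Pool.Agent.H574R2.Q4.H5c59
import Pool.Agent.H574R2.Q4.H5c79

/-! # The local determinants are nonzero (task H5) -/

set_option autoImplicit false

open Polynomial Pool.Agent.H337R2

namespace Pool.Agent.H574R2.Q4

open H5 in
theorem H5_local (i1 i2 : ℕ) (h1 : i1 = 3 ∨ i1 = 5 ∨ i1 = 7) (h2 : i2 = 5 ∨ i2 = 7 ∨ i2 = 9) (h12 : i1 < i2) :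
    (Matrix.of fun l l' : Fin 144 => if l'.1 < 48 then Fm (l.1 + l'.1)
      else if l'.1 < 96 then Bm i1 (l.1 + (l'.1 - 48)) else Bm i2 (l.1 + (l'.1 - 96))).det ≠ 0 := by
  rcases h1 with rfl | rfl | rfl <;> rcases h2 with rfl | rfl | rfl
  · exact main35
  · exact main37
  · exact main39
  · omega
  · exact main57
  · exact main59
  · omega
  · omega
  · exact main79

end Pool.Agent.H574R2.Q4
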