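import Pool.Agent.H574R2.Q4.H5s4
import Pool.Agent.H574R2.Q4.H5s5
import Pool.Agent.H574R2.Q4.H5s6
import Pool.Agent.H574R2.Q4.H5s7

/-! # The local sequences modulo `13` (task H5) -/

set_option autoImplicit false

open Polynomial Pool.Agent.H337R2

namespace Pool.Agent.H574R2.Q4

namespace H5

attribute [local instance] fact13

/-- the table -/
def TT : ℕ → ℕ → ℕ
  | 4, e => T4.getD e 0
  | 5, e => T5.getD e 0
  | 6, e => T6.getD e 0
  | 7, e => T7.getD e 0
  | _, _ => 0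

theorem rep_ser (j : ℕ) (hj : j ∈ Finset.Icc 4 7) (e : ℕ) (he : e < 191) :
    Rep (ser j e) (TT j e) := by
  rw [Finset.mem_Icc] at hj
  obtain ⟨h1, h2⟩ := hj
  interval_cases j
  · exact rep_ser_4 e he
  · exact rep_ser_5 e he
  · exact rep_ser_6 e he
  · exact rep_ser_7 e he

/-- inverses modulo `13` -/
def inv13 : ℕ → ℕ
  | 0 => 1
  | 1 => 7
  | _ => 9

/-- harmonic sums modulo `13` -/
def hN (i : ℕ) : ℕ → ℕ
  | 0 => 0
  | m + 1 => hN i m + inv13 m ^ i

theorem hN_eq (i m : ℕ) : hN i m = ∑ l ∈ Finset.range m, inv13 l ^ i := by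
  induction m with
  | zero => rfl
  | succ m ih => rw [Finset.sum_range_succ, ← ih]; rfl

theorem rl_hs (i m : ℕ) (hm : m ≤ 3) : Rl (hs i m) (hN i m) := by
  rw [hN_eq]
  unfold hs
  refine Rl.sum _ _ _ fun l hl => ?_
  rw [Finset.mem_range] at hl
  rw [← one_div_pow]
  refine Rl.pow ?_ i
  have hl3 : l < 3 := by omega
  interval_cases l
  · exact (Rl.cancel (a := 1) (m := 1) (mi := 1) (n := 1) Rl.one (by decide) (by norm_num; exact Rl.one))
  · exact (Rl.cancel (a := 2) (m := 2) (mi := 7) (n := 1) (Rl.nat 2) (by decide) (by norm_num; exact Rl.one))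
  · exact (Rl.cancel (a := 3) (m := 3) (mi := 9) (n := 1) (Rl.nat 3) (by decide) (by norm_num; exact Rl.one))

/-- inner sums: `∑_{i=1}^{I} dg T (76 - i) * (hN i a + 12^(i+1) hN i b)` -/
def FI (T a b : ℕ) : ℕ → ℕ
  | 0 => 0
  | i + 1 => FI T a b i + dg T (76 - (i + 1)) * (hN (i + 1) a + 12 ^ (i + 1 + 1) * hN (i + 1) b)

theorem FI_eq (T a b I : ℕ) : FI T a b I = ∑ i ∈ Finset.Icc 1 I,
    dg T (76 - i) * (hN i a + 12 ^ (i + 1) * hN i b) := by
  induction I with
  | zero => rfl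
  | succ I ih => rw [Finset.sum_Icc_succ_top (by omega), ← ih]; rfl

/-- `Fm e` modulo `13` -/
def FN (e : ℕ) : ℕ := 12 * (FI (TT 4 e) 0 3 76 + FI (TT 5 e) 1 2 76 + FI (TT 6 e) 2 1 76 + FI (TT 7 e) 3 0 76)

theorem FN_eq (e : ℕ) : FN e = 12 * ∑ j ∈ Finset.Icc 4 7, ∑ i ∈ Finset.Icc 1 76,
    dg (TT j e) (76 - i) * (hN i (j - 4) + 12 ^ (i + 1) * hN i (7 - j)) := by
  have h : (Finset.Icc 4 7 : Finset ℕ) = {4, 5, 6, 7} := by decide
  rw [h, Finset.sum_insert (by decide), Finset.sum_insert (by decide), Finset.sum_insert (by decide),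
    Finset.sum_singleton, ← FI_eq, ← FI_eq, ← FI_eq, ← FI_eq]
  unfold FN
  rw [add_assoc, add_assoc]

theorem rl_Fm (e : ℕ) (he : e < 191) : Rl (Fm e) (FN e) := by
  rw [FN_eq]
  unfold Fm
  refine Rl.neg (Rl.sum _ _ _ fun j hj => Rl.sum _ _ _ fun i hi => ?_)
  have hj' := Finset.mem_Icc.1 hj
  have hi' := Finset.mem_Icc.1 hi
  refine Rl.mul (rep_ser j hj e he (76 - i) (by omega)) (Rl.add (rl_hs _ _ (by omega)) ?_)
  exact Rl.mul (Rl.neg_one.pow _) (rl_hs _ _ (by omega))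

/-- `Bm i0 e` modulo `13` -/
def BN (i0 e : ℕ) : ℕ := 2 * (dg (TT 4 e) (76 - i0) + dg (TT 5 e) (76 - i0) + dg (TT 6 e) (76 - i0) +
  dg (TT 7 e) (76 - i0))

theorem BN_eq (i0 e : ℕ) : BN i0 e = 2 * ∑ j ∈ Finset.Icc 4 7, dg (TT j e) (76 - i0) := by
  have h : (Finset.Icc 4 7 : Finset ℕ) = {4, 5, 6, 7} := by decide
  rw [h, Finset.sum_insert (by decide), Finset.sum_insert (by decide), Finset.sum_insert (by decide),
    Finset.sum_singleton]
  unfold BN
  rw [add_assoc, add_assoc]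

theorem rl_Bm (i0 : ℕ) (h0 : 1 ≤ i0) (e : ℕ) (he : e < 191) : Rl (Bm i0 e) (BN i0 e) := by
  rw [BN_eq]
  unfold Bm
  refine Rl.mul (Rl.nat 2) (Rl.sum _ _ _ fun j hj => ?_)
  exact rep_ser j hj e he (76 - i0) (by omega)

/-- comparison -/
def cmp (F : ℕ → ℕ) (N : ℕ) : ℕ → Bool
  | 0 => true
  | e + 1 => Nat.beq (F e % 13) (dg N e % 13) && cmp F N e

theorem cmp_spec {F : ℕ → ℕ} {N E : ℕ} (h : cmp F N E = true) : ∀ e < E, F e % 13 = dg N e % 13 := by
  induction E with
  | zero => intro e he; omega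
  | succ E ih =>
    intro e he
    have h2 := (Bool.and_eq_true _ _).mp h
    rcases Nat.lt_or_ge e E with hlt | hge
    · exact ih h2.2 e hlt
    · obtain rfl : e = E := by omega
      exact Nat.eq_of_beq_eq_true h2.1

/-- values -/
def FF : ℕ := 0x555555555510777777777762160000000006313777777777321866666666644a7777777777cbb1111111111b32ccccccccccc1544444444440c9222222222224a8888888888a34bbbbbbbbbb6c89999999999454bbbbbbbbbb7600000000000

/-- values -/
def BB3 : ℕ := 0x4c1111111a2599444444442a804c00000008412194444444143ab09999999562134444444429701888888884674c5555555596054666666663938233333333807c8cccccccc675bbaaaaaaaa53b0977777777a4a5baaaaaaaa563c000000000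

/-- values -/
def BB5 : ℕ := 0x35059999989b5936aaaaaab31b07cb000006956c697aaaaac313535b333335c69467aaaaaa26587547777774542739666666788786322222245c6cc8111111c43048644444466ca365cccccc2781c2abbbbbb3b990a5cccccc767cc80000000

/-- values -/
def BB7 : ℕ := 0x7636370004a4741cbc000076639cc5ba0001c41ccb662000a30942740c000142a4c047000036107086c0000625c2bc010000997341c990000a8049476b00008598406750000960410b720000417b2308400009aa7c72020000c5627c5300000

/-- values -/
def BB9 : ℕ := 0x29b68c4c243a5a8c4ba996c82711c141908185048b7a139395050970b074b4b4a0878bc9976cb34331945517cc2389899885b259017c23771c666a31718aa3980c5999561182b794629653371c47b090ca66479b3c5a885335b27c5029c000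

theorem FN_val : cmp FN FF 191 = true := by
  decide +kernel

theorem BN_val_3 : cmp (BN 3) BB3 191 = true := by
  decide +kernel

theorem BN_val_5 : cmp (BN 5) BB5 191 = true := by
  decide +kernel

theorem BN_val_7 : cmp (BN 7) BB7 191 = true := by
  decide +kernel

theorem BN_val_9 : cmp (BN 9) BB9 191 = true := by
  decide +kernel

theorem rl_F (e : ℕ) (he : e < 191) : Rl (Fm e) (dg FF e) :=
  (rl_Fm e he).congr (cmp_spec FN_val e he)

theorem rl_B3 (e : ℕ) (he : e < 191) : Rl (Bm 3 e) (dg BB3 e) :=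
  (rl_Bm 3 (by norm_num) e he).congr (cmp_spec BN_val_3 e he)

theorem rl_B5 (e : ℕ) (he : e < 191) : Rl (Bm 5 e) (dg BB5 e) :=
  (rl_Bm 5 (by norm_num) e he).congr (cmp_spec BN_val_5 e he)

theorem rl_B7 (e : ℕ) (he : e < 191) : Rl (Bm 7 e) (dg BB7 e) :=
  (rl_Bm 7 (by norm_num) e he).congr (cmp_spec BN_val_7 e he)

theorem rl_B9 (e : ℕ) (he : e < 191) : Rl (Bm 9 e) (dg BB9 e) :=
  (rl_Bm 9 (by norm_num) e he).congr (cmp_spec BN_val_9 e he)

end H5

end Pool.Agent.H574R2.Q4
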