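import Pool.Agent.H574R2.Q4.Defs

/-!
# The local determinants are nonzero (task H5)

The values `Fm e`, `Bm i0 e` are computed modulo `13` (truncated power series modulo `13`, stored as
hexadecimal digits); the determinants are nonzero modulo `13`.
-/

set_option autoImplicit false

open Polynomial Pool.Agent.H337R2

namespace Pool.Agent.H574R2.Q4

namespace H5

theorem fact13 : Fact (Nat.Prime 13) := ⟨by norm_num⟩

attribute [local instance] fact13

/-- `x` reduces to `n` modulo `13` -/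
def Rl (x : ℚ) (n : ℕ) : Prop :=
  ∃ z : ℤ_[13], (z : ℚ_[13]) = (x : ℚ_[13]) ∧ PadicInt.toZMod z = (n : ZMod 13)

theorem Rl.add {x y : ℚ} {m n : ℕ} (hx : Rl x m) (hy : Rl y n) : Rl (x + y) (m + n) := by
  obtain ⟨z, hz, hz'⟩ := hx
  obtain ⟨w, hw, hw'⟩ := hy
  exact ⟨z + w, by rw [PadicInt.coe_add, hz, hw, Rat.cast_add], by
    rw [map_add, hz', hw', Nat.cast_add]⟩

theorem Rl.mul {x y : ℚ} {m n : ℕ} (hx : Rl x m) (hy : Rl y n) : Rl (x * y) (m * n) := by
  obtain ⟨z, hz, hz'⟩ := hx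
  obtain ⟨w, hw, hw'⟩ := hy
  exact ⟨z * w, by rw [PadicInt.coe_mul, hz, hw, Rat.cast_mul], by
    rw [map_mul, hz', hw', Nat.cast_mul]⟩

theorem Rl.congr {x : ℚ} {m n : ℕ} (h : Rl x m) (hmn : m % 13 = n % 13) : Rl x n := by
  obtain ⟨z, hz, hz'⟩ := h
  refine ⟨z, hz, hz'.trans ?_⟩
  rw [← ZMod.natCast_mod m 13, hmn, ZMod.natCast_mod]

theorem Rl.nat (n : ℕ) : Rl (n : ℚ) n :=
  ⟨(n : ℤ_[13]), by rw [PadicInt.coe_natCast, Rat.cast_natCast], map_natCast _ _⟩

theorem Rl.neg_one : Rl (-1) 12 :=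
  ⟨-1, by rw [PadicInt.coe_neg, PadicInt.coe_one, Rat.cast_neg, Rat.cast_one], by
    rw [map_neg, map_one]; decide⟩

theorem Rl.neg {x : ℚ} {n : ℕ} (h : Rl x n) : Rl (-x) (12 * n) := by
  have := Rl.neg_one.mul h
  rwa [neg_one_mul] at this

theorem Rl.pow {x : ℚ} {n : ℕ} (h : Rl x n) (k : ℕ) : Rl (x ^ k) (n ^ k) := by
  induction k with
  | zero =>
    rw [pow_zero, pow_zero]
    exact_mod_cast Rl.nat 1
  | succ k ih => rw [pow_succ, pow_succ]; exact ih.mul h

theorem Rl.zero : Rl 0 0 := by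
  exact_mod_cast Rl.nat 0

theorem Rl.one : Rl 1 1 := by
  exact_mod_cast Rl.nat 1

theorem Rl.sub_nat (i j : ℕ) : Rl ((i : ℚ) - j) (i + 12 * j) := by
  rw [sub_eq_add_neg]
  exact (Rl.nat i).add (Rl.nat j).neg

theorem Rl.cancel {a x : ℚ} {m mi n : ℕ} (ha : Rl a m) (hm : m * mi % 13 = 1)
    (h : Rl (a * x) n) : Rl x (n * mi) := by
  obtain ⟨z, hz, hz'⟩ := ha
  obtain ⟨w, hw, hw'⟩ := h
  have h1 : (m : ZMod 13) * (mi : ZMod 13) = 1 := by
    rw [← Nat.cast_mul, ← ZMod.natCast_mod, hm, Nat.cast_one]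
  have hne : PadicInt.toZMod z ≠ 0 := by
    rw [hz']
    intro h0
    rw [h0, zero_mul] at h1
    exact absurd h1 (by decide)
  have hu : IsUnit z := by
    by_contra hcon
    have h2 : z ∈ IsLocalRing.maximalIdeal ℤ_[13] := (IsLocalRing.mem_maximalIdeal z).2 hcon
    rw [← PadicInt.ker_toZMod] at h2
    exact hne h2
  obtain ⟨u, rfl⟩ := hu
  have h3 : (((u : ℤ_[13]) : ℚ_[13])) * (((u⁻¹ : ℤ_[13]ˣ) : ℤ_[13]) : ℚ_[13]) = 1 := by
    rw [← PadicInt.coe_mul, Units.mul_inv, PadicInt.coe_one]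
  have h4 : PadicInt.toZMod (u : ℤ_[13]) * PadicInt.toZMod ((u⁻¹ : ℤ_[13]ˣ) : ℤ_[13]) = 1 := by
    rw [← map_mul, Units.mul_inv, map_one]
  refine ⟨w * ((u⁻¹ : ℤ_[13]ˣ) : ℤ_[13]), ?_, ?_⟩
  · rw [PadicInt.coe_mul, hw, Rat.cast_mul, ← hz]
    calc (((u : ℤ_[13]) : ℚ_[13])) * (x : ℚ_[13]) * (((u⁻¹ : ℤ_[13]ˣ) : ℤ_[13]) : ℚ_[13])
        = ((((u : ℤ_[13]) : ℚ_[13])) * (((u⁻¹ : ℤ_[13]ˣ) : ℤ_[13]) : ℚ_[13])) * (x : ℚ_[13]) := by ring
      _ = (x : ℚ_[13]) := by rw [h3, one_mul]
  · rw [map_mul, hw', Nat.cast_mul]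
    congr 1
    rw [hz'] at h4
    calc PadicInt.toZMod ((u⁻¹ : ℤ_[13]ˣ) : ℤ_[13])
        = ((m : ZMod 13) * (mi : ZMod 13)) * PadicInt.toZMod ((u⁻¹ : ℤ_[13]ˣ) : ℤ_[13]) := by
          rw [h1, one_mul]
      _ = (mi : ZMod 13) * ((m : ZMod 13) * PadicInt.toZMod ((u⁻¹ : ℤ_[13]ˣ) : ℤ_[13])) := by ring
      _ = (mi : ZMod 13) := by rw [h4, mul_one]

theorem Rl.sum {ι : Type} (s : Finset ι) (f : ι → ℚ) (g : ι → ℕ) (h : ∀ i ∈ s, Rl (f i) (g i)) :
    Rl (∑ i ∈ s, f i) (∑ i ∈ s, g i) := by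
  classical
  induction s using Finset.induction_on with
  | empty => simpa using Rl.zero
  | insert a s ha ih =>
    rw [Finset.sum_insert ha, Finset.sum_insert ha]
    exact (h a (Finset.mem_insert_self a s)).add
      (ih fun i hi => h i (Finset.mem_insert_of_mem hi))

/-- the digit `d` of `N` -/
def dg (N d : ℕ) : ℕ := N / 16 ^ d % 16

/-- `N` encodes the first 76 coefficients of `f` modulo `13` -/
def Rep (f : PowerSeries ℚ) (N : ℕ) : Prop := ∀ d, d < 76 → Rl (PowerSeries.coeff d f) (dg N d)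

/-- the digit before `d` -/
def pd (N : ℕ) : ℕ → ℕ
  | 0 => 0
  | d + 1 => dg N d

/-- `N'` is `(X + c) N` modulo `13` -/
def Chk (c N N' : ℕ) : Prop := ∀ d, d < 76 → dg N' d % 13 = (pd N d + c * dg N d) % 13

/-- Boolean check -/
def chk (c N N' : ℕ) : ℕ → Bool
  | 0 => Nat.beq (dg N' 0 % 13) ((c * dg N 0) % 13)
  | d + 1 => Nat.beq (dg N' (d + 1) % 13) ((dg N d + c * dg N (d + 1)) % 13) && chk c N N' d

theorem chk_spec {c N N' : ℕ} (D : ℕ) (h : chk c N N' D = true) :
    ∀ d ≤ D, dg N' d % 13 = (pd N d + c * dg N d) % 13 := by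
  induction D with
  | zero =>
    intro d hd
    obtain rfl : d = 0 := by omega
    have h1 := Nat.eq_of_beq_eq_true h
    rw [h1]
    show _ = (0 + c * dg N 0) % 13
    rw [zero_add]
  | succ D ih =>
    intro d hd
    have h2 := (Bool.and_eq_true _ _).mp h
    rcases Nat.lt_or_ge d (D + 1) with hlt | hge
    · exact ih h2.2 d (by omega)
    · obtain rfl : d = D + 1 := by omega
      exact Nat.eq_of_beq_eq_true h2.1

theorem Chk_of {c N N' : ℕ} (h : chk c N N' 75 = true) : Chk c N N' :=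
  fun d hd => chk_spec 75 h d (by omega)

/-- consecutive elements of a list, decreasing -/
def chkD (c : ℕ) : List ℕ → Bool
  | [] => true
  | a :: t => (match t with
    | [] => true
    | b :: _ => chk c b a 75) && chkD c t

/-- consecutive elements of a list, increasing -/
def chkU (c : ℕ) : List ℕ → Bool
  | [] => true
  | a :: t => (match t with
    | [] => true
    | b :: _ => chk c a b 75) && chkU c t

theorem chkD_spec {c : ℕ} (L : List ℕ) (h : chkD c L = true) :
    ∀ k, k + 1 < L.length → Chk c (L.getD (k + 1) 0) (L.getD k 0) := by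
  induction L with
  | nil => intro k hk; simp at hk
  | cons a t ih =>
    intro k hk
    have h2 := (Bool.and_eq_true _ _).mp h
    cases k with
    | zero =>
      cases t with
      | nil => simp at hk
      | cons b s => exact Chk_of h2.1
    | succ k => exact ih h2.2 k (by simpa using hk)

theorem chkU_spec {c : ℕ} (L : List ℕ) (h : chkU c L = true) :
    ∀ k, k + 1 < L.length → Chk c (L.getD k 0) (L.getD (k + 1) 0) := by
  induction L with
  | nil => intro k hk; simp at hk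
  | cons a t ih =>
    intro k hk
    have h2 := (Bool.and_eq_true _ _).mp h
    cases k with
    | zero =>
      cases t with
      | nil => simp at hk
      | cons b s => exact Chk_of h2.1
    | succ k => exact ih h2.2 k (by simpa using hk)

theorem coeff_lin_zero (c : ℚ) (f : PowerSeries ℚ) :
    PowerSeries.coeff 0 ((PowerSeries.X + PowerSeries.C c) * f) = c * PowerSeries.coeff 0 f := by
  rw [add_mul, map_add, PowerSeries.coeff_C_mul, PowerSeries.coeff_zero_X_mul, zero_add]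

theorem coeff_lin_succ (c : ℚ) (f : PowerSeries ℚ) (d : ℕ) :
    PowerSeries.coeff (d + 1) ((PowerSeries.X + PowerSeries.C c) * f) =
      PowerSeries.coeff d f + c * PowerSeries.coeff (d + 1) f := by
  rw [add_mul, map_add, PowerSeries.coeff_C_mul, PowerSeries.coeff_succ_X_mul]

theorem rep_mul {f : PowerSeries ℚ} {N N' c : ℕ} {c' : ℚ} (h : Rep f N) (hc : Rl c' c)
    (hk : Chk c N N') : Rep ((PowerSeries.X + PowerSeries.C c') * f) N' := by
  intro d hd
  have h1 := hk d hd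
  cases d with
  | zero =>
    rw [coeff_lin_zero]
    refine (hc.mul (h 0 hd)).congr ?_
    rw [h1]
    show _ = (0 + c * dg N 0) % 13
    rw [zero_add]
  | succ d =>
    rw [coeff_lin_succ]
    refine ((h d (by omega)).add (hc.mul (h (d + 1) hd))).congr ?_
    rw [h1]
    rfl

theorem rep_div {g : PowerSeries ℚ} {N N' c ci : ℕ} {c' : ℚ}
    (h : Rep ((PowerSeries.X + PowerSeries.C c') * g) N') (hc : Rl c' c) (hci : c * ci % 13 = 1)
    (hk : Chk c N N') : Rep g N := by
  have key : ∀ a b x : ℕ, b % 13 = (a + c * x) % 13 → ((b + 12 * a) * ci) % 13 = x % 13 := by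
    intro a b x hb
    have e1 : (b + 12 * a) % 13 = (c * x) % 13 := by omega
    calc ((b + 12 * a) * ci) % 13 = ((b + 12 * a) % 13 * (ci % 13)) % 13 := Nat.mul_mod _ _ _
      _ = ((c * x) % 13 * (ci % 13)) % 13 := by rw [e1]
      _ = (c * x * ci) % 13 := (Nat.mul_mod _ _ _).symm
      _ = (c * ci * x) % 13 := by rw [mul_right_comm]
      _ = ((c * ci) % 13 * (x % 13)) % 13 := Nat.mul_mod _ _ _
      _ = x % 13 := by rw [hci, one_mul, Nat.mod_mod]
  intro d
  induction d with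
  | zero =>
    intro hd
    have h1 := h 0 hd
    rw [coeff_lin_zero] at h1
    refine (hc.cancel hci h1).congr ?_
    have h2 := key 0 (dg N' 0) (dg N 0) (hk 0 hd)
    rwa [mul_zero, add_zero] at h2
  | succ d ih =>
    intro hd
    have h1 := h (d + 1) hd
    rw [coeff_lin_succ] at h1
    have h2 := ih (by omega)
    have h3 : Rl (c' * PowerSeries.coeff (d + 1) g) (dg N' (d + 1) + 12 * dg N d) := by
      have h4 := h1.add h2.neg
      have h5 : PowerSeries.coeff d g + c' * PowerSeries.coeff (d + 1) g + -PowerSeries.coeff d g =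
        c' * PowerSeries.coeff (d + 1) g := by ring
      rwa [h5] at h4
    exact (hc.cancel hci h3).congr (key (dg N d) (dg N' (d + 1)) (dg N (d + 1)) (hk (d + 1) hd))

theorem rep_iv_pow {a : ℚ} (ha : a ≠ 0) {c ci : ℕ} (hc : Rl a c) (hci : c * ci % 13 = 1)
    (L : List ℕ) (f : PowerSeries ℚ) (h0 : Rep f (L.getD 0 0)) (n : ℕ)
    (hk : ∀ k < n, Chk c (L.getD (k + 1) 0) (L.getD k 0)) :
    Rep (iv a ^ n * f) (L.getD n 0) := by
  induction n with
  | zero => rwa [pow_zero, one_mul]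
  | succ n ih =>
    have h1 := ih fun k hk' => hk k (by omega)
    refine rep_div (c' := a) (N' := L.getD n 0) ?_ hc hci (hk n (by omega))
    have h2 : (PowerSeries.X + PowerSeries.C a) * (iv a ^ (n + 1) * f) = iv a ^ n * f := by
      rw [pow_succ, ← mul_assoc, mul_comm (iv a ^ n) (iv a), ← mul_assoc, lin_mul_iv ha, one_mul]
    rw [h2]
    exact h1

theorem rep_lin_pow {a : ℚ} {c : ℕ} (hc : Rl a c) (L : List ℕ) (f : PowerSeries ℚ)
    (h0 : Rep f (L.getD 0 0)) (e : ℕ)
    (hk : ∀ k < e, Chk c (L.getD k 0) (L.getD (k + 1) 0)) :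
    Rep (f * (PowerSeries.X + PowerSeries.C a) ^ e) (L.getD e 0) := by
  induction e with
  | zero => rwa [pow_zero, mul_one]
  | succ e ih =>
    have h1 := ih fun k hk' => hk k (by omega)
    have h2 := rep_mul h1 hc (hk e (by omega))
    rwa [pow_succ, ← mul_assoc, mul_comm]

theorem rep_one : Rep 1 1 := by
  intro d hd
  rw [PowerSeries.coeff_one]
  split_ifs with h
  · subst h
    exact Rl.one
  · have : dg 1 d = 0 := by
      unfold dg
      rw [Nat.div_eq_of_lt (Nat.one_lt_pow h (by norm_num))]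
    rw [this]
    exact Rl.zero

/-- the numerator -/
theorem prod_zeros (g : ℕ → PowerSeries ℚ) : ∏ i ∈ ({0, 1, 2, 3, 8, 9, 10, 11} : Finset ℕ), g i =
    g 0 * (g 1 * (g 2 * (g 3 * (g 8 * (g 9 * (g 10 * (g 11 * 1))))))) := by
  rw [Finset.prod_insert (by decide), Finset.prod_insert (by decide), Finset.prod_insert (by decide),
    Finset.prod_insert (by decide), Finset.prod_insert (by decide), Finset.prod_insert (by decide),
    Finset.prod_insert (by decide), Finset.prod_singleton, mul_one]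

end H5

end Pool.Agent.H574R2.Q4
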