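import Pool.Agent.H574R2.Q4.H5a

/-! # A criterion for the non-vanishing of block Hankel determinants (task H5) -/

set_option autoImplicit false

open Polynomial Pool.Agent.H337R2

namespace Pool.Agent.H574R2.Q4

namespace H5

open Matrix

/-- the block Hankel matrix -/
def MH {K : Type} [Field K] (f g h : ℕ → K) : Matrix (Fin 144) (Fin 144) K :=
  Matrix.of fun l l' => if l'.1 < 48 then f (l.1 + l'.1) else if l'.1 < 96 then g (l.1 + (l'.1 - 48))
    else h (l.1 + (l'.1 - 96))

/-- a column -/
def cl {K : Type} (f : ℕ → K) (k : ℕ) : Fin 144 → K := fun l => f (l.1 + k)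

/-- the shift -/
def US {K : Type} [Field K] : (Fin 144 → K) →ₗ[K] (Fin 144 → K) where
  toFun v := fun l => if h : l.1 + 1 < 144 then v ⟨l.1 + 1, h⟩ else 0
  map_add' v w := by
    ext l
    by_cases h : l.1 + 1 < 144 <;> simp [h]
  map_smul' c v := by
    ext l
    by_cases h : l.1 + 1 < 144 <;> simp [h]

/-- unit vectors -/
def ee {K : Type} [Field K] (i : ℕ) : Fin 144 → K := fun l => if l.1 = i then 1 else 0

theorem US_cl {K : Type} [Field K] (f : ℕ → K) (k : ℕ) :
    US (cl f k) = cl f (k + 1) - f (144 + k) • ee 143 := by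
  ext l
  show (if h : l.1 + 1 < 144 then cl f k ⟨l.1 + 1, h⟩ else 0) = cl f (k + 1) l - f (144 + k) * (if l.1 = 143 then 1 else 0)
  by_cases h : l.1 + 1 < 144
  · rw [dif_pos h, if_neg (by omega), mul_zero, sub_zero]
    show f (l.1 + 1 + k) = f (l.1 + (k + 1))
    congr 1
    omega
  · have h1 : l.1 = 143 := by have := l.2; omega
    rw [dif_neg h, if_pos h1, mul_one]
    show 0 = f (l.1 + (k + 1)) - f (144 + k)
    rw [h1, show 143 + (k + 1) = 144 + k by omega, sub_self]

theorem US_ee {K : Type} [Field K] (i : ℕ) : US (ee (i + 1) : Fin 144 → K) = ee i ∨ 143 < i + 1 := by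
  by_cases hi : 143 < i + 1
  · exact Or.inr hi
  · left
    ext l
    show (if h : l.1 + 1 < 144 then (ee (i + 1) : Fin 144 → K) ⟨l.1 + 1, h⟩ else 0) = if l.1 = i then 1 else 0
    by_cases h : l.1 + 1 < 144
    · rw [dif_pos h]
      show (if l.1 + 1 = i + 1 then (1 : K) else 0) = _
      simp only [Nat.add_right_cancel_iff]
    · rw [dif_neg h, if_neg (by omega)]

theorem MH_det_ne {K : Type} [Field K] (f g h : ℕ → K) (W : Submodule K (Fin 144 → K))
    (hW : W = LinearMap.range (MH f g h).mulVecLin) (he : ee 143 ∈ W) (hf : cl f 48 ∈ W) (hg : cl g 48 ∈ W)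
    (hh : cl h 48 ∈ W) : (MH f g h).det ≠ 0 := by
  have hcol : ∀ j : Fin 144, (MH f g h).col j ∈ W := by
    intro j
    rw [hW, Matrix.range_mulVecLin]
    exact Submodule.subset_span ⟨j, rfl⟩
  have hfk : ∀ k < 49, cl f k ∈ W := by
    intro k hk
    rcases Nat.lt_or_ge k 48 with h1 | h1
    · have h2 := hcol ⟨k, by omega⟩
      have h3 : (MH f g h).col ⟨k, by omega⟩ = cl f k := by
        ext l
        show (if k < 48 then f (l.1 + k) else _) = _
        rw [if_pos h1]
        rfl
      rwa [h3] at h2
    · obtain rfl : k = 48 := by omega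
      exact hf
  have hgk : ∀ k < 49, cl g k ∈ W := by
    intro k hk
    rcases Nat.lt_or_ge k 48 with h1 | h1
    · have h2 := hcol ⟨48 + k, by omega⟩
      have h3 : (MH f g h).col ⟨48 + k, by omega⟩ = cl g k := by
        ext l
        show (if 48 + k < 48 then f (l.1 + (48 + k)) else if 48 + k < 96 then g (l.1 + (48 + k - 48)) else _) = _
        rw [if_neg (by omega), if_pos (by omega), show 48 + k - 48 = k by omega]
        rfl
      rwa [h3] at h2
    · obtain rfl : k = 48 := by omega
      exact hg
  have hhk : ∀ k < 49, cl h k ∈ W := by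
    intro k hk
    rcases Nat.lt_or_ge k 48 with h1 | h1
    · have h2 := hcol ⟨96 + k, by omega⟩
      have h3 : (MH f g h).col ⟨96 + k, by omega⟩ = cl h k := by
        ext l
        show (if 96 + k < 48 then f (l.1 + (96 + k)) else if 96 + k < 96 then g (l.1 + (96 + k - 48))
          else h (l.1 + (96 + k - 96))) = _
        rw [if_neg (by omega), if_neg (by omega), show 96 + k - 96 = k by omega]
        rfl
      rwa [h3] at h2
    · obtain rfl : k = 48 := by omega
      exact hh
  have hUc : ∀ (s : ℕ → K), (∀ k < 49, cl s k ∈ W) → ∀ k < 48, US (cl s k) ∈ W := by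
    intro s hs k hk
    rw [US_cl]
    exact W.sub_mem (hs _ (by omega)) (W.smul_mem _ he)
  have hU : ∀ w ∈ W, US w ∈ W := by
    intro w hw
    have hspan : W = Submodule.span K (Set.range (MH f g h).col) := by
      rw [hW, Matrix.range_mulVecLin]
    rw [hspan] at hw
    induction hw using Submodule.span_induction with
    | mem x hx =>
      obtain ⟨j, rfl⟩ := hx
      have hj := j.2
      by_cases h1 : j.1 < 48
      · have h3 : (MH f g h).col j = cl f j.1 := by
          ext l
          show (if j.1 < 48 then f (l.1 + j.1) else _) = _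
          rw [if_pos h1]
          rfl
        rw [h3]
        exact hUc f hfk _ h1
      · by_cases h2 : j.1 < 96
        · have h3 : (MH f g h).col j = cl g (j.1 - 48) := by
            ext l
            show (if j.1 < 48 then f (l.1 + j.1) else if j.1 < 96 then g (l.1 + (j.1 - 48)) else _) = _
            rw [if_neg h1, if_pos h2]
            rfl
          rw [h3]
          exact hUc g hgk _ (by omega)
        · have h3 : (MH f g h).col j = cl h (j.1 - 96) := by
            ext l
            show (if j.1 < 48 then f (l.1 + j.1) else if j.1 < 96 then g (l.1 + (j.1 - 48)) else h (l.1 + (j.1 - 96))) = _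
            rw [if_neg h1, if_neg h2]
            rfl
          rw [h3]
          exact hUc h hhk _ (by omega)
    | zero => rw [map_zero]; exact W.zero_mem
    | add x y _ _ hx hy => rw [map_add]; exact W.add_mem hx hy
    | smul a x _ hx => rw [map_smul]; exact W.smul_mem _ hx
  have heI : ∀ k ≤ 143, (ee (143 - k) : Fin 144 → K) ∈ W := by
    intro k
    induction k with
    | zero => intro _; exact he
    | succ k ih =>
      intro hk
      have h1 := hU _ (ih (by omega))
      rcases US_ee (K := K) (143 - (k + 1)) with h2 | h2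
      · rwa [show 143 - k = 143 - (k + 1) + 1 by omega, h2] at h1
      · omega
  have hall : ∀ v : Fin 144 → K, v ∈ W := by
    intro v
    have h1 : v = ∑ i : Fin 144, v i • ee i.1 := by
      ext l
      rw [Finset.sum_apply, Finset.sum_eq_single l]
      · show v l = v l * (if l.1 = l.1 then 1 else 0)
        rw [if_pos rfl, mul_one]
      · intro i _ hi
        show v i * (if l.1 = i.1 then 1 else 0) = 0
        rw [if_neg (fun h => hi (Fin.ext h.symm)), mul_zero]
      · intro h; exact absurd (Finset.mem_univ _) h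
    rw [h1]
    refine W.sum_mem fun i _ => W.smul_mem _ ?_
    have h2 := heI (143 - i.1) (by omega)
    rwa [show 143 - (143 - i.1) = i.1 by have := i.2; omega] at h2
  have hsurj : Function.Surjective (MH f g h).mulVec := by
    intro v
    have h1 := hall v
    rw [hW] at h1
    exact h1
  have hu := Matrix.mulVec_surjective_iff_isUnit.mp hsurj
  exact ((Matrix.isUnit_iff_isUnit_det _).mp hu).ne_zero

/-- reduction of determinants -/
theorem det_red (M : Matrix (Fin 144) (Fin 144) ℚ) (N : Matrix (Fin 144) (Fin 144) (ZMod 13))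
    (n : Fin 144 → Fin 144 → ℕ) (h : ∀ i j, Rl (M i j) (n i j)) (hN : ∀ i j, N i j = (n i j : ZMod 13))
    (hdet : N.det ≠ 0) : M.det ≠ 0 := by
  intro h0
  haveI := fact13
  choose Z hZ hZ' using h
  have e1 : (Matrix.of Z).det = 0 := by
    have h1 : (Matrix.of Z).map (PadicInt.Coe.ringHom (p := 13)) = M.map (Rat.castHom ℚ_[13]) := by
      ext i j
      exact hZ i j
    have h2 := RingHom.map_det (PadicInt.Coe.ringHom (p := 13)) (Matrix.of Z)
    have h3 := RingHom.map_det (Rat.castHom ℚ_[13]) M
    rw [h0, map_zero] at h3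
    have h4 : (PadicInt.Coe.ringHom (p := 13)) (Matrix.of Z).det = 0 := by
      rw [h2, RingHom.mapMatrix_apply, h1, h3, RingHom.mapMatrix_apply]
    generalize (Matrix.of Z).det = d at h4 ⊢
    exact Subtype.ext h4
  have e2 : ((Matrix.of Z).map (PadicInt.toZMod (p := 13))).det = 0 := by
    have h2 := RingHom.map_det (PadicInt.toZMod (p := 13)) (Matrix.of Z)
    rw [e1, map_zero] at h2
    exact h2.symm
  have e3 : (Matrix.of Z).map (PadicInt.toZMod (p := 13)) = N := by
    ext i j
    rw [hN i j]
    exact hZ' i j
  rw [e3] at e2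
  exact hdet e2

end H5

end Pool.Agent.H574R2.Q4
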