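import Pool.Agent.H574R2.Q4.H5F
import Pool.Agent.H574R2.Q4.H5m

/-! # Certificates for the block Hankel determinants modulo `13` (task H5) -/

set_option autoImplicit false

open Polynomial Pool.Agent.H337R2

namespace Pool.Agent.H574R2.Q4

namespace H5

attribute [local instance] fact13

/-- dot products of digits -/
def dt (f x o l : ℕ) : ℕ → ℕ
  | 0 => 0
  | k + 1 => dt f x o l k + dg f (l + k) * dg x (o + k)

theorem dt_eq (f x o l K : ℕ) : dt f x o l K = ∑ k ∈ Finset.range K, dg f (l + k) * dg x (o + k) := by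
  induction K with
  | zero => rfl
  | succ K ih => rw [Finset.sum_range_succ, ← ih]; rfl

/-- the check `M x = t` -/
def cv (f g h x t : ℕ) : ℕ → Bool
  | 0 => true
  | l + 1 => Nat.beq ((dt f x 0 l 48 + dt g x 48 l 48 + dt h x 96 l 48) % 13) (dg t l % 13) && cv f g h x t l

theorem cv_spec {f g h x t L : ℕ} (hc : cv f g h x t L = true) :
    ∀ l < L, (dt f x 0 l 48 + dt g x 48 l 48 + dt h x 96 l 48) % 13 = dg t l % 13 := by
  induction L with
  | zero => intro e he; omega
  | succ L ih =>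
    intro l hl
    have h2 := (Bool.and_eq_true _ _).mp hc
    rcases Nat.lt_or_ge l L with hlt | hge
    · exact ih h2.2 l hlt
    · obtain rfl : l = L := by omega
      exact Nat.eq_of_beq_eq_true h2.1

/-- sequence modulo `13` -/
def sq (f : ℕ) : ℕ → ZMod 13 := fun e => (dg f e : ZMod 13)

theorem cv_mulVec {f g h x t : ℕ} (hc : cv f g h x t 144 = true) :
    (MH (sq f) (sq g) (sq h)).mulVec (fun k : Fin 144 => (dg x k.1 : ZMod 13)) = fun l => (dg t l.1 : ZMod 13) := by
  ext l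
  have h1 := cv_spec hc l.1 l.2
  rw [dt_eq, dt_eq, dt_eq] at h1
  show ∑ k : Fin 144, (if k.1 < 48 then sq f (l.1 + k.1) else if k.1 < 96 then sq g (l.1 + (k.1 - 48))
    else sq h (l.1 + (k.1 - 96))) * (dg x k.1 : ZMod 13) = _
  have key : ∀ φ : ℕ → ZMod 13, ∑ k ∈ Finset.range 144, φ k = ∑ k ∈ Finset.range 48, φ k +
      ∑ k ∈ Finset.range 48, φ (48 + k) + ∑ k ∈ Finset.range 48, φ (48 + 48 + k) := by
    intro φ
    rw [show (144 : ℕ) = 48 + 48 + 48 from rfl, Finset.sum_range_add, Finset.sum_range_add]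
  rw [Fin.sum_univ_eq_sum_range (fun k => (if k < 48 then sq f (l.1 + k) else if k < 96 then sq g (l.1 + (k - 48))
    else sq h (l.1 + (k - 96))) * (dg x k : ZMod 13)) 144, key]
  have e1 : ∑ k ∈ Finset.range 48, (if k < 48 then sq f (l.1 + k) else if k < 96 then sq g (l.1 + (k - 48))
      else sq h (l.1 + (k - 96))) * (dg x k : ZMod 13) =
      ((∑ k ∈ Finset.range 48, dg f (l.1 + k) * dg x (0 + k) : ℕ) : ZMod 13) := by
    rw [Nat.cast_sum]
    refine Finset.sum_congr rfl fun k hk => ?_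
    have hk' := Finset.mem_range.1 hk
    rw [if_pos hk', Nat.cast_mul, Nat.zero_add]
    rfl
  have e2 : ∑ k ∈ Finset.range 48, (if 48 + k < 48 then sq f (l.1 + (48 + k)) else if 48 + k < 96 then
      sq g (l.1 + (48 + k - 48)) else sq h (l.1 + (48 + k - 96))) * (dg x (48 + k) : ZMod 13) =
      ((∑ k ∈ Finset.range 48, dg g (l.1 + k) * dg x (48 + k) : ℕ) : ZMod 13) := by
    rw [Nat.cast_sum]
    refine Finset.sum_congr rfl fun k hk => ?_
    have hk' := Finset.mem_range.1 hk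
    rw [if_neg (by omega), if_pos (by omega), Nat.cast_mul, show 48 + k - 48 = k by omega]
    rfl
  have e3 : ∑ k ∈ Finset.range 48, (if 48 + 48 + k < 48 then sq f (l.1 + (48 + 48 + k)) else if 48 + 48 + k < 96 then
      sq g (l.1 + (48 + 48 + k - 48)) else sq h (l.1 + (48 + 48 + k - 96))) * (dg x (48 + 48 + k) : ZMod 13) =
      ((∑ k ∈ Finset.range 48, dg h (l.1 + k) * dg x (96 + k) : ℕ) : ZMod 13) := by
    rw [Nat.cast_sum]
    refine Finset.sum_congr rfl fun k hk => ?_
    have hk' := Finset.mem_range.1 hk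
    rw [if_neg (by omega), if_neg (by omega), Nat.cast_mul, show 48 + 48 + k - 96 = k by omega]
    rfl
  rw [e1, e2, e3, ← Nat.cast_add, ← Nat.cast_add, ← ZMod.natCast_mod, h1, ZMod.natCast_mod]

theorem dg_shift (f a l : ℕ) : dg (f / 16 ^ a) l = dg f (l + a) := by
  unfold dg
  rw [Nat.div_div_eq_div_mul, ← pow_add, add_comm]

theorem dg_unit (l : ℕ) : dg (16 ^ 143) l = if l = 143 then 1 else 0 := by
  unfold dg
  rcases lt_trichotomy l 143 with h | h | h
  · rw [if_neg (by omega)]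
    obtain ⟨c, hc⟩ : ∃ c, 143 = l + 1 + c := ⟨143 - l - 1, by omega⟩
    rw [hc, pow_add, pow_succ, mul_assoc, Nat.mul_div_cancel_left _ (by positivity), Nat.mul_mod_right]
  · subst h
    norm_num
  · rw [if_neg (by omega), Nat.div_eq_of_lt (Nat.pow_lt_pow_right (by norm_num) h)]

theorem final (F G H : ℕ → ℚ) (f g h x0 x1 x2 x3 : ℕ) (hF : ∀ e < 191, Rl (F e) (dg f e))
    (hG : ∀ e < 191, Rl (G e) (dg g e)) (hH : ∀ e < 191, Rl (H e) (dg h e))
    (c0 : cv f g h x0 (16 ^ 143) 144 = true) (c1 : cv f g h x1 (f / 16 ^ 48) 144 = true)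
    (c2 : cv f g h x2 (g / 16 ^ 48) 144 = true) (c3 : cv f g h x3 (h / 16 ^ 48) 144 = true) :
    (Matrix.of fun l l' : Fin 144 => if l'.1 < 48 then F (l.1 + l'.1)
      else if l'.1 < 96 then G (l.1 + (l'.1 - 48)) else H (l.1 + (l'.1 - 96))).det ≠ 0 := by
  have hdet : (MH (sq f) (sq g) (sq h)).det ≠ 0 := by
    refine MH_det_ne _ _ _ _ rfl ⟨fun k : Fin 144 => (dg x0 k.1 : ZMod 13), ?_⟩
      ⟨fun k : Fin 144 => (dg x1 k.1 : ZMod 13), ?_⟩ ⟨fun k : Fin 144 => (dg x2 k.1 : ZMod 13), ?_⟩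
      ⟨fun k : Fin 144 => (dg x3 k.1 : ZMod 13), ?_⟩
    · rw [Matrix.mulVecLin_apply, cv_mulVec c0]
      ext l
      rw [dg_unit]
      show (((if l.1 = 143 then 1 else 0 : ℕ)) : ZMod 13) = if l.1 = 143 then 1 else 0
      split_ifs
      · exact Nat.cast_one
      · exact Nat.cast_zero
    · rw [Matrix.mulVecLin_apply, cv_mulVec c1]
      ext l
      rw [dg_shift]
      rfl
    · rw [Matrix.mulVecLin_apply, cv_mulVec c2]
      ext l
      rw [dg_shift]
      rfl
    · rw [Matrix.mulVecLin_apply, cv_mulVec c3]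
      ext l
      rw [dg_shift]
      rfl
  refine det_red _ _ (fun i j => if j.1 < 48 then dg f (i.1 + j.1) else if j.1 < 96 then dg g (i.1 + (j.1 - 48))
    else dg h (i.1 + (j.1 - 96))) ?_ ?_ hdet
  · intro i j
    have hi := i.2
    have hj := j.2
    show Rl (if j.1 < 48 then F (i.1 + j.1) else if j.1 < 96 then G (i.1 + (j.1 - 48)) else H (i.1 + (j.1 - 96))) _
    split_ifs
    · exact hF _ (by omega)
    · exact hG _ (by omega)
    · exact hH _ (by omega)
  · intro i j
    show (if j.1 < 48 then sq f (i.1 + j.1) else if j.1 < 96 then sq g (i.1 + (j.1 - 48))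
      else sq h (i.1 + (j.1 - 96))) = _
    split_ifs <;> rfl

end H5

end Pool.Agent.H574R2.Q4
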