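import Pool.Agent.H574R2.Q4.H5c

/-! # Certificate for the pair `(3, 5)` -/

set_option autoImplicit false

namespace Pool.Agent.H574R2.Q4

namespace H5

/-- certificate -/
def X35_0 : ℕ := 0x3b63a611760688b72c7b866548471a0c69951bc885c1307337cc17aaaa68228c7316c58022b653276022952c4222104b12505bbb30009a3960c48207aa6ba819a6172caaa15a9

/-- certificate -/
def X35_1 : ℕ := 0xb103b2a1aa9795077017961b9a72774107492a19a51044702c156661111103a6c1c7cbbb379045c0a4444c92a0ba9139b2b17a4baa35903a17b136900b8883213363655b0049634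

/-- certificate -/
def X35_2 : ℕ := 0xc77c705233b13201931577981362091a3c1c596981a8b1598a2542497780a9a253980c70c3a7cb80ac38470076b9b980732c84a611c834ab37c9abb2a7378365a8aa3226330a002

/-- certificate -/
def X35_3 : ℕ := 0x96b79134355b09900a6b443a547a4c80779b472bc095040206ab118b400529593c96690aa09c499bc2914b922639174700074314700ca6b666cc62026a1478462b88670781427746

theorem c35_0 : cv FF BB3 BB5 X35_0 (16 ^ 143) 144 = true := by
  decide +kernel

theorem c35_1 : cv FF BB3 BB5 X35_1 (FF / 16 ^ 48) 144 = true := by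
  decide +kernel

theorem c35_2 : cv FF BB3 BB5 X35_2 (BB3 / 16 ^ 48) 144 = true := by
  decide +kernel

theorem c35_3 : cv FF BB3 BB5 X35_3 (BB5 / 16 ^ 48) 144 = true := by
  decide +kernel

theorem main35 : (Matrix.of fun l l' : Fin 144 => if l'.1 < 48 then Fm (l.1 + l'.1)
      else if l'.1 < 96 then Bm 3 (l.1 + (l'.1 - 48)) else Bm 5 (l.1 + (l'.1 - 96))).det ≠ 0 :=
  final Fm (Bm 3) (Bm 5) FF BB3 BB5 X35_0 X35_1 X35_2 X35_3 rl_F rl_B3 rl_B5 c35_0 c35_1 c35_2 c35_3

end H5

end Pool.Agent.H574R2.Q4
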