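import Pool.Agent.H574R2.Q4.H6pre
import Pool.Agent.H574R2.Q4.A
import Pool.Agent.H574R2.Q4.H3
import Pool.Agent.H574R2.Q4.H4
import Pool.Agent.H574R2.Q4.H5

/-! Task H6 (helper153): non-vanishing of the determinant. -/

open Polynomial Pool.Agent.H337R2

namespace Pool.Agent.H574R2.Q4

noncomputable section

theorem H6_nonvanish (α β γ : ℕ → ℚ) (q : ℕ) (hα : UInt q α) (hβ : UInt q β) (hγ : UInt q γ) (i1 i2 : ℕ)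
    (h1 : i1 = 3 ∨ i1 = 5 ∨ i1 = 7) (h2 : i2 = 5 ∨ i2 = 7 ∨ i2 = 9) (h12 : i1 < i2)
    (hβ0 : ∀ i < i1, β i = 0) (hβ1 : β i1 ≠ 0) (hγ0 : ∀ i < i2, γ i = 0) (hγ1 : γ i2 ≠ 0) :
    ∃ p0 : ℕ, ∀ p : ℕ, p0 ≤ p → p.Prime → DD (2 * p) α β γ ≠ 0 :=
  H6_of (fun A B C m R S _ _ _ e hS Q P hQ hP h => A2_MD_ne A B C m R S e hS Q P hQ hP h)
    (fun hp α β hα hβ i0 hi0 hβ0 r hr1 hr2 => H3_diag hp α β hα hβ i0 hi0 hβ0 r hr1 hr2)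
    (fun hp α β hα hβ i0 hi0 hβ0 r s l l' hr1 hr2 hs1 hs2 hrs hl hl' =>
      H4_offdiag hp α β hα hβ i0 hi0 hβ0 r s l l' hr1 hr2 hs1 hs2 hrs hl hl')
    (fun i1 i2 h1 h2 h12 => H5_local i1 i2 h1 h2 h12) α β γ q hα hβ hγ i1 i2 h1 h2 h12 hβ0 hβ1 hγ0 hγ1

end

end Pool.Agent.H574R2.Q4
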