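import Pool.Agent.H574R2.Q4.Defs
import Pool.Agent.H574R2.D3.H6pre
import Pool.Agent.H336R2.HD.H6pre

/-! Task H6 (helper153): non-vanishing of the determinant, from A2, H3, H4, H5 (as hypotheses). -/

open Polynomial Pool.Agent.H337R2

namespace Pool.Agent.H574R2.Q4

noncomputable section

/-! ### auxiliary lemmas -/

lemma H6_XN_natDegree (n r : ℕ) : (XN n r).natDegree ≤ 1 := by
  unfold XN
  rw [← C_pow]
  exact (natDegree_X_sub_C _).le

/-- the test polynomials -/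
def H6_P (p r c l : ℕ) : ℚ[X] := XN (2 * p) r ^ l * OT p r c

lemma H6_P_natDegree (p r c l : ℕ) (hr1 : 1 ≤ r) (hr2 : 2 * r < p) (hl : l < c)
    (hodd : p % 2 = 1) : (H6_P p r c l).natDegree < c * ((p - 1) / 2) := by
  have h1 : (XN (2 * p) r ^ l).natDegree ≤ l := by
    refine natDegree_pow_le.trans ?_
    have := H6_XN_natDegree (2 * p) r
    nlinarith
  have h2 : (OT p r c).natDegree ≤ c * ((p - 1) / 2 - 1) := by
    unfold OT
    refine (natDegree_prod_le _ _).trans ?_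
    have h3 : ∀ r' ∈ (Finset.Icc 1 ((p - 1) / 2)).erase r, (XN (2 * p) r' ^ c).natDegree ≤ c := by
      intro r' _
      refine natDegree_pow_le.trans ?_
      have := H6_XN_natDegree (2 * p) r'
      nlinarith
    refine (Finset.sum_le_sum h3).trans ?_
    rw [Finset.sum_const, Finset.card_erase_of_mem, Nat.card_Icc, smul_eq_mul]
    · rw [mul_comm]
      exact Nat.mul_le_mul_left _ (by omega)
    · rw [Finset.mem_Icc]
      omega
  unfold H6_P
  refine (natDegree_mul_le).trans_lt ?_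
  obtain ⟨h, hh⟩ : ∃ h, (p - 1) / 2 = h + 1 := ⟨(p - 1) / 2 - 1, by omega⟩
  rw [hh] at h2 ⊢
  rw [Nat.add_sub_cancel] at h2
  rw [mul_add, mul_one]
  omega

lemma H6_P_mul (p r l l' : ℕ) : H6_P p r 144 l * H6_P p r 48 l' =
    XN (2 * p) r ^ (l + l') * OT p r 192 := by
  unfold H6_P
  rw [pow_add]
  have h : OT p r 192 = OT p r 144 * OT p r 48 := by
    unfold OT
    rw [← Finset.prod_mul_distrib]
    refine Finset.prod_congr rfl fun r' _ => ?_
    rw [← pow_add]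
  rw [h]
  ring

/-- the bijection between rows and columns -/
def H6_e (h : ℕ) : Fin 144 × Fin h ≃ ((Fin 48 × Fin h) ⊕ (Fin 48 × Fin h)) ⊕ (Fin 48 × Fin h) where
  toFun a := if hl : a.1.1 < 48 then Sum.inl (Sum.inl (⟨a.1.1, hl⟩, a.2))
    else if hl2 : a.1.1 < 96 then Sum.inl (Sum.inr (⟨a.1.1 - 48, by omega⟩, a.2))
    else Sum.inr (⟨a.1.1 - 96, by have := a.1.2; omega⟩, a.2)
  invFun := Sum.elim (Sum.elim (fun c => (⟨c.1.1, by have := c.1.2; omega⟩, c.2))
    (fun c => (⟨c.1.1 + 48, by have := c.1.2; omega⟩, c.2)))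
    (fun c => (⟨c.1.1 + 96, by have := c.1.2; omega⟩, c.2))
  left_inv a := by
    obtain ⟨⟨l, hl⟩, r⟩ := a
    by_cases h1 : l < 48
    · simp [h1]
    · by_cases h2 : l < 96
      · simp only [h1, h2, dite_false, dite_true, Sum.elim_inl, Sum.elim_inr, Prod.mk.injEq, Fin.mk.injEq,
          and_true]
        omega
      · simp only [h1, h2, dite_false, Sum.elim_inr, Prod.mk.injEq, Fin.mk.injEq, and_true]
        omega
  right_inv c := by
    rcases c with (⟨⟨l, hl⟩, r⟩ | ⟨⟨l, hl⟩, r⟩) | ⟨⟨l, hl⟩, r⟩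
    · simp [hl]
    · have h1 : ¬ l + 48 < 48 := by omega
      have h2 : l + 48 < 96 := by omega
      simp [h2]
    · have h1 : ¬ l + 96 < 48 := by omega
      have h2 : ¬ l + 96 < 96 := by omega
      simp [h1]

lemma H6_e_a (h : ℕ) (a : Fin 144 × Fin h) (ha : a.1.1 < 48) :
    H6_e h a = Sum.inl (Sum.inl (⟨a.1.1, ha⟩, a.2)) := by
  unfold H6_e
  simp [ha]

lemma H6_e_b (h : ℕ) (a : Fin 144 × Fin h) (ha : ¬ a.1.1 < 48) (hb : a.1.1 < 96) :
    H6_e h a = Sum.inl (Sum.inr (⟨a.1.1 - 48, by omega⟩, a.2)) := by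
  unfold H6_e
  simp [ha, hb]

lemma H6_e_c (h : ℕ) (a : Fin 144 × Fin h) (ha : ¬ a.1.1 < 48) (hb : ¬ a.1.1 < 96) :
    H6_e h a = Sum.inr (⟨a.1.1 - 96, by have := a.1.2; omega⟩, a.2) := by
  unfold H6_e
  simp [ha, hb]

/-- statement of A2 -/
def H6_A2 : Prop := ∀ (A B C : ℚ[X] →ₗ[ℚ] ℚ) (m : ℕ) (R S : Type) [Fintype R] [DecidableEq R] [Fintype S]
    (e : R ≃ (S ⊕ S) ⊕ S) (_hS : Fintype.card S = m) (Q : R → ℚ[X]) (P : S → ℚ[X])
    (_hQ : ∀ r, (Q r).natDegree < 3 * m) (_hP : ∀ s, (P s).natDegree < m)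
    (_h : (Matrix.of fun r s : R => Sum.elim (Sum.elim (fun c => A (Q r * P c)) (fun c => B (Q r * P c)))
      (fun c => C (Q r * P c)) (e s)).det ≠ 0), MD3 A B C m ≠ 0

/-- statement of H3 -/
def H6_H3 : Prop := ∀ {p : ℕ} [Fact p.Prime] (_hp : 100 ≤ p) (α β : ℕ → ℚ) (_hα : ∀ i, padicNorm p (α i) ≤ 1)
    (_hβ : ∀ i, padicNorm p (β i) ≤ 1) (i0 : ℕ) (_hi0 : i0 = 3 ∨ i0 = 5 ∨ i0 = 7 ∨ i0 = 9)
    (_hβ0 : ∀ i < i0, β i = 0)
    (r : ℕ) (_hr1 : 1 ≤ r) (_hr2 : 2 * r < p),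
    ∃ w : ℚ, padicNorm p w = 1 ∧ ∀ e : ℕ, e ≤ 190 →
      padicNorm p ((p : ℚ) ^ (-(e : ℤ)) * AL (2 * p) α (XN (2 * p) r ^ e * OT p r 192) -
        w * (-2 * r) ^ e * Fm e) ≤ (p : ℚ)⁻¹ ∧
      padicNorm p ((p : ℚ) ^ (-(e : ℤ) - i0) * BL (2 * p) β (XN (2 * p) r ^ e * OT p r 192) -
        w * (-2 * r) ^ e * (β i0 * Bm i0 e)) ≤ (p : ℚ)⁻¹

/-- statement of H4 -/
def H6_H4 : Prop := ∀ {p : ℕ} [Fact p.Prime] (_hp : 100 ≤ p) (α β : ℕ → ℚ) (_hα : ∀ i, padicNorm p (α i) ≤ 1)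
    (_hβ : ∀ i, padicNorm p (β i) ≤ 1) (i0 : ℕ) (_hi0 : i0 = 3 ∨ i0 = 5 ∨ i0 = 7 ∨ i0 = 9)
    (_hβ0 : ∀ i < i0, β i = 0)
    (r s l l' : ℕ) (_hr1 : 1 ≤ r) (_hr2 : 2 * r < p) (_hs1 : 1 ≤ s) (_hs2 : 2 * s < p) (_hrs : r ≠ s)
    (_hl : l < 144) (_hl' : l' < 48),
    padicNorm p ((p : ℚ) ^ (-(l : ℤ) - (l' : ℤ)) * AL (2 * p) α
      ((XN (2 * p) r ^ l * OT p r 144) * (XN (2 * p) s ^ l' * OT p s 48))) ≤ (p : ℚ)⁻¹ ∧
    padicNorm p ((p : ℚ) ^ (-(l : ℤ) - (l' : ℤ) - i0) * BL (2 * p) β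
      ((XN (2 * p) r ^ l * OT p r 144) * (XN (2 * p) s ^ l' * OT p s 48))) ≤ (p : ℚ)⁻¹

/-- statement of H5 -/
def H6_H5 : Prop := ∀ (i1 i2 : ℕ) (_h1 : i1 = 3 ∨ i1 = 5 ∨ i1 = 7) (_h2 : i2 = 5 ∨ i2 = 7 ∨ i2 = 9) (_h12 : i1 < i2),
    (Matrix.of fun l l' : Fin 144 => if l'.1 < 48 then Fm (l.1 + l'.1)
      else if l'.1 < 96 then Bm i1 (l.1 + (l'.1 - 48)) else Bm i2 (l.1 + (l'.1 - 96))).det ≠ 0

theorem H6_of (A2_MD_ne : H6_A2) (H3_diag : H6_H3) (H4_offdiag : H6_H4) (H5_local : H6_H5)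
    (α β γ : ℕ → ℚ) (q : ℕ) (hα : UInt q α) (hβ : UInt q β) (hγ : UInt q γ) (i1 i2 : ℕ)
    (h1 : i1 = 3 ∨ i1 = 5 ∨ i1 = 7) (h2 : i2 = 5 ∨ i2 = 7 ∨ i2 = 9) (h12 : i1 < i2)
    (hβ0 : ∀ i < i1, β i = 0) (hβ1 : β i1 ≠ 0) (hγ0 : ∀ i < i2, γ i = 0) (hγ1 : γ i2 ≠ 0) :
    ∃ p0 : ℕ, ∀ p : ℕ, p0 ≤ p → p.Prime → DD (2 * p) α β γ ≠ 0 := by
  have h1' : i1 = 3 ∨ i1 = 5 ∨ i1 = 7 ∨ i1 = 9 := by omega
  have h2' : i2 = 3 ∨ i2 = 5 ∨ i2 = 7 ∨ i2 = 9 := by omega
  -- bounds on the constants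
  obtain ⟨p1, hp1⟩ := Pool.Agent.H336R2.HD.H6_unit _ (H5_local i1 i2 h1 h2 h12)
  obtain ⟨p2, hp2⟩ := Pool.Agent.H574R2.D3.H6_fin_int Fm 191
  obtain ⟨p3, hp3⟩ := Pool.Agent.H574R2.D3.H6_fin_int (Bm i1) 191
  obtain ⟨p4, hp4⟩ := Pool.Agent.H336R2.HD.H6_unit _ hβ1
  obtain ⟨p5, hp5⟩ := Pool.Agent.H574R2.D3.H6_fin_int (Bm i2) 191
  obtain ⟨p6, hp6⟩ := Pool.Agent.H336R2.HD.H6_unit _ hγ1
  refine ⟨p1 + p2 + p3 + p4 + p5 + p6 + q + 100, fun p hp hpp => ?_⟩
  have : Fact p.Prime := ⟨hpp⟩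
  have hp100 : 100 ≤ p := by omega
  have hodd : p % 2 = 1 := by
    rcases hpp.eq_two_or_odd with h | h
    · omega
    · exact h
  have hαp : ∀ i, padicNorm p (α i) ≤ 1 := Pool.Agent.H574R2.D3.H6_UInt p q hpp (by omega) α hα
  have hβp : ∀ i, padicNorm p (β i) ≤ 1 := Pool.Agent.H574R2.D3.H6_UInt p q hpp (by omega) β hβ
  have hγp : ∀ i, padicNorm p (γ i) ≤ 1 := Pool.Agent.H574R2.D3.H6_UInt p q hpp (by omega) γ hγ
  set h := (p - 1) / 2 with hh
  have hph : p = 2 * h + 1 := by omega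
  have hp0 : (p : ℚ) ≠ 0 := by exact_mod_cast hpp.ne_zero
  -- choose the units
  have hw : ∀ r : Fin h, ∃ w : ℚ, padicNorm p w = 1 ∧ ∀ e : ℕ, e ≤ 190 →
      padicNorm p ((p : ℚ) ^ (-(e : ℤ)) * AL (2 * p) α (XN (2 * p) (r.1 + 1) ^ e * OT p (r.1 + 1) 192) -
        w * (-2 * ((r.1 + 1 : ℕ) : ℚ)) ^ e * Fm e) ≤ (p : ℚ)⁻¹ ∧
      padicNorm p ((p : ℚ) ^ (-(e : ℤ) - i1) * BL (2 * p) β (XN (2 * p) (r.1 + 1) ^ e * OT p (r.1 + 1) 192) -
        w * (-2 * ((r.1 + 1 : ℕ) : ℚ)) ^ e * (β i1 * Bm i1 e)) ≤ (p : ℚ)⁻¹ := by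
    intro r
    have hr := r.2
    exact H3_diag hp100 α β hαp hβp i1 h1' hβ0 (r.1 + 1) (by omega) (by omega)
  have hv : ∀ r : Fin h, ∃ w : ℚ, padicNorm p w = 1 ∧ ∀ e : ℕ, e ≤ 190 →
      padicNorm p ((p : ℚ) ^ (-(e : ℤ)) * AL (2 * p) α (XN (2 * p) (r.1 + 1) ^ e * OT p (r.1 + 1) 192) -
        w * (-2 * ((r.1 + 1 : ℕ) : ℚ)) ^ e * Fm e) ≤ (p : ℚ)⁻¹ ∧
      padicNorm p ((p : ℚ) ^ (-(e : ℤ) - i2) * BL (2 * p) γ (XN (2 * p) (r.1 + 1) ^ e * OT p (r.1 + 1) 192) -
        w * (-2 * ((r.1 + 1 : ℕ) : ℚ)) ^ e * (γ i2 * Bm i2 e)) ≤ (p : ℚ)⁻¹ := by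
    intro r
    have hr := r.2
    exact H3_diag hp100 α γ hαp hγp i2 h2' hγ0 (r.1 + 1) (by omega) (by omega)
  choose w hw1 hw2 using hw
  choose v hv1 hv2 using hv
  have hunit : ∀ r : Fin h, padicNorm p (-2 * ((r.1 + 1 : ℕ) : ℚ)) = 1 := by
    intro r
    have hr := r.2
    have h3 : (-2 * ((r.1 + 1 : ℕ) : ℚ)) = ((-(2 * (r.1 + 1) : ℕ) : ℤ) : ℚ) := by
      push_cast
      ring
    rw [h3, padicNorm.int_eq_one_iff]
    intro h4
    rw [Int.dvd_neg, Int.natCast_dvd_natCast] at h4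
    have := Nat.le_of_dvd (by omega) h4
    omega
  -- the Gram matrix
  set Q : Fin 144 × Fin h → ℚ[X] := fun a => H6_P p (a.2.1 + 1) 144 a.1.1 with hQ
  set P : Fin 48 × Fin h → ℚ[X] := fun c => H6_P p (c.2.1 + 1) 48 c.1.1 with hP
  set G : Matrix (Fin 144 × Fin h) (Fin 144 × Fin h) ℚ :=
    Matrix.of fun r s => Sum.elim (Sum.elim (fun c => AL (2 * p) α (Q r * P c))
      (fun c => BL (2 * p) β (Q r * P c))) (fun c => BL (2 * p) γ (Q r * P c)) (H6_e h s) with hG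
  have key : G.det ≠ 0 := by
    set c : Fin 144 × Fin h → ℚ := fun a => (p : ℚ) ^ (-(a.1.1 : ℤ)) with hc
    set d : Fin 144 × Fin h → ℚ := fun a =>
      if a.1.1 < 48 then (p : ℚ) ^ (-(a.1.1 : ℤ))
      else if a.1.1 < 96 then (p : ℚ) ^ (-((a.1.1 - 48 : ℕ) : ℤ) - i1)
      else (p : ℚ) ^ (-((a.1.1 - 96 : ℕ) : ℤ) - i2) with hd
    set M : Matrix (Fin 144 × Fin h) (Fin 144 × Fin h) ℚ :=
      Matrix.of fun a b => c a * d b * G a b with hM
    set Bl : Fin h → Matrix (Fin 144) (Fin 144) ℚ := fun r =>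
      Matrix.of fun l l' => if l'.1 < 48 then
          w r * (-2 * ((r.1 + 1 : ℕ) : ℚ)) ^ (l.1 + l'.1) * Fm (l.1 + l'.1)
        else if l'.1 < 96 then
          w r * (-2 * ((r.1 + 1 : ℕ) : ℚ)) ^ (l.1 + (l'.1 - 48)) * (β i1 * Bm i1 (l.1 + (l'.1 - 48)))
        else v r * (-2 * ((r.1 + 1 : ℕ) : ℚ)) ^ (l.1 + (l'.1 - 96)) * (γ i2 * Bm i2 (l.1 + (l'.1 - 96)))
      with hBl
    have hM0 : M.det ≠ 0 := by
      apply Pool.Agent.H336R2.HD.A6_det_congr p M (Matrix.blockDiagonal Bl)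
      · intro a b
        rw [Matrix.blockDiagonal_apply]
        split_ifs with hab
        · simp only [hBl, Matrix.of_apply]
          have ha := a.1.2
          have hb := b.1.2
          split_ifs with hl hl2
          · have h1 : padicNorm p (Fm (a.1.1 + b.1.1)) ≤ 1 :=
              hp2 _ (Finset.mem_range.2 (by omega)) p (by omega) hpp
            rw [padicNorm.mul, padicNorm.mul, hw1, one_mul,
              Pool.Agent.H574R2.D3.H6_norm_pow p _ (hunit a.2), one_mul]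
            exact h1
          · have h1 : padicNorm p (Bm i1 (a.1.1 + (b.1.1 - 48))) ≤ 1 :=
              hp3 _ (Finset.mem_range.2 (by omega)) p (by omega) hpp
            rw [padicNorm.mul, padicNorm.mul, hw1, one_mul,
              Pool.Agent.H574R2.D3.H6_norm_pow p _ (hunit a.2), one_mul, padicNorm.mul]
            exact mul_le_one₀ (hβp i1) (padicNorm.nonneg _) h1
          · have h1 : padicNorm p (Bm i2 (a.1.1 + (b.1.1 - 96))) ≤ 1 :=
              hp5 _ (Finset.mem_range.2 (by omega)) p (by omega) hpp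
            rw [padicNorm.mul, padicNorm.mul, hv1, one_mul,
              Pool.Agent.H574R2.D3.H6_norm_pow p _ (hunit a.2), one_mul, padicNorm.mul]
            exact mul_le_one₀ (hγp i2) (padicNorm.nonneg _) h1
        · simp
      · intro a b
        rw [Matrix.blockDiagonal_apply]
        have ha := a.1.2
        have hb := b.1.2
        have ha2 := a.2.2
        have hb2 := b.2.2
        by_cases hl : b.1.1 < 48
        · have hMab : M a b = (p : ℚ) ^ (-(a.1.1 : ℤ) - (b.1.1 : ℤ)) *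
              AL (2 * p) α (H6_P p (a.2.1 + 1) 144 a.1.1 * H6_P p (b.2.1 + 1) 48 b.1.1) := by
            simp only [hM, hG, Matrix.of_apply, hc, hd, if_pos hl, H6_e_a h b hl, Sum.elim_inl, hQ, hP]
            rw [← zpow_add₀ hp0]
            rfl
          split_ifs with hab
          · rw [hMab, ← hab, H6_P_mul]
            have h1 := (hw2 a.2 (a.1.1 + b.1.1) (by omega)).1
            have h2 : (-((a.1.1 + b.1.1 : ℕ) : ℤ)) = -(a.1.1 : ℤ) - (b.1.1 : ℤ) := by
              push_cast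
              ring
            rw [h2] at h1
            simp only [hBl, Matrix.of_apply, if_pos hl]
            exact h1
          · rw [hMab, sub_zero]
            have h3 : a.2.1 + 1 ≠ b.2.1 + 1 := by
              intro h1
              apply hab
              ext
              omega
            have h4 := (H4_offdiag hp100 α β hαp hβp i1 h1' hβ0 (a.2.1 + 1) (b.2.1 + 1) a.1.1 b.1.1 (by omega)
              (by omega) (by omega) (by omega) h3 ha hl).1
            simp only [H6_P]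
            exact h4
        · by_cases hl2 : b.1.1 < 96
          · have hMab : M a b = (p : ℚ) ^ (-(a.1.1 : ℤ) - ((b.1.1 - 48 : ℕ) : ℤ) - i1) *
                BL (2 * p) β (H6_P p (a.2.1 + 1) 144 a.1.1 * H6_P p (b.2.1 + 1) 48 (b.1.1 - 48)) := by
              simp only [hM, hG, Matrix.of_apply, hc, hd, if_neg hl, if_pos hl2, H6_e_b h b hl hl2,
                Sum.elim_inr, Sum.elim_inl, hQ, hP]
              rw [← zpow_add₀ hp0]
              congr 2
              ring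
            split_ifs with hab
            · rw [hMab, ← hab, H6_P_mul]
              have h1 := (hw2 a.2 (a.1.1 + (b.1.1 - 48)) (by omega)).2
              have h2 : (-((a.1.1 + (b.1.1 - 48) : ℕ) : ℤ)) - i1 =
                  -(a.1.1 : ℤ) - ((b.1.1 - 48 : ℕ) : ℤ) - i1 := by
                push_cast
                ring
              rw [h2] at h1
              simp only [hBl, Matrix.of_apply, if_neg hl, if_pos hl2]
              exact h1
            · rw [hMab, sub_zero]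
              have h3 : a.2.1 + 1 ≠ b.2.1 + 1 := by
                intro h1
                apply hab
                ext
                omega
              have h4 := (H4_offdiag hp100 α β hαp hβp i1 h1' hβ0 (a.2.1 + 1) (b.2.1 + 1) a.1.1 (b.1.1 - 48)
                (by omega) (by omega) (by omega) (by omega) h3 ha (by omega)).2
              simp only [H6_P]
              exact h4
          · have hMab : M a b = (p : ℚ) ^ (-(a.1.1 : ℤ) - ((b.1.1 - 96 : ℕ) : ℤ) - i2) *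
                BL (2 * p) γ (H6_P p (a.2.1 + 1) 144 a.1.1 * H6_P p (b.2.1 + 1) 48 (b.1.1 - 96)) := by
              simp only [hM, hG, Matrix.of_apply, hc, hd, if_neg hl, if_neg hl2, H6_e_c h b hl hl2,
                Sum.elim_inr, hQ, hP]
              rw [← zpow_add₀ hp0]
              congr 2
              ring
            split_ifs with hab
            · rw [hMab, ← hab, H6_P_mul]
              have h1 := (hv2 a.2 (a.1.1 + (b.1.1 - 96)) (by omega)).2
              have h2 : (-((a.1.1 + (b.1.1 - 96) : ℕ) : ℤ)) - i2 =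
                  -(a.1.1 : ℤ) - ((b.1.1 - 96 : ℕ) : ℤ) - i2 := by
                push_cast
                ring
              rw [h2] at h1
              simp only [hBl, Matrix.of_apply, if_neg hl, if_neg hl2]
              exact h1
            · rw [hMab, sub_zero]
              have h3 : a.2.1 + 1 ≠ b.2.1 + 1 := by
                intro h1
                apply hab
                ext
                omega
              have h4 := (H4_offdiag hp100 α γ hαp hγp i2 h2' hγ0 (a.2.1 + 1) (b.2.1 + 1) a.1.1 (b.1.1 - 96)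
                (by omega) (by omega) (by omega) (by omega) h3 ha (by omega)).2
              simp only [H6_P]
              exact h4
      · rw [Matrix.det_blockDiagonal]
        apply Pool.Agent.H574R2.D3.H6_norm_prod p
        intro r
        have h1 : Bl r =
            (Matrix.of fun l l' : Fin 144 => ((-2 * ((r.1 + 1 : ℕ) : ℚ)) ^ l.1) *
              (if l'.1 < 48 then w r * (-2 * ((r.1 + 1 : ℕ) : ℚ)) ^ l'.1
                else if l'.1 < 96 then w r * (-2 * ((r.1 + 1 : ℕ) : ℚ)) ^ (l'.1 - 48) * β i1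
                else v r * (-2 * ((r.1 + 1 : ℕ) : ℚ)) ^ (l'.1 - 96) * γ i2) *
              (Matrix.of fun l l' : Fin 144 => if l'.1 < 48 then Fm (l.1 + l'.1)
                else if l'.1 < 96 then Bm i1 (l.1 + (l'.1 - 48)) else Bm i2 (l.1 + (l'.1 - 96))) l l') := by
          ext l l'
          simp only [hBl, Matrix.of_apply]
          split_ifs <;> ring
        rw [h1, Pool.Agent.H574R2.D3.H6_det_scale (fun l : Fin 144 =>
          ((-2 * ((r.1 + 1 : ℕ) : ℚ)) ^ l.1)) (fun l' : Fin 144 =>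
          (if l'.1 < 48 then w r * (-2 * ((r.1 + 1 : ℕ) : ℚ)) ^ l'.1
                else if l'.1 < 96 then w r * (-2 * ((r.1 + 1 : ℕ) : ℚ)) ^ (l'.1 - 48) * β i1
                else v r * (-2 * ((r.1 + 1 : ℕ) : ℚ)) ^ (l'.1 - 96) * γ i2))]
        have h5 : ∀ i : Fin 144, padicNorm p ((-2 * ((r.1 + 1 : ℕ) : ℚ)) ^ i.1) = 1 := fun i =>
          Pool.Agent.H574R2.D3.H6_norm_pow p _ (hunit r) _
        have h6 : ∀ i : Fin 144, padicNorm p (if i.1 < 48 then w r * (-2 * ((r.1 + 1 : ℕ) : ℚ)) ^ i.1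
                else if i.1 < 96 then w r * (-2 * ((r.1 + 1 : ℕ) : ℚ)) ^ (i.1 - 48) * β i1
                else v r * (-2 * ((r.1 + 1 : ℕ) : ℚ)) ^ (i.1 - 96) * γ i2) = 1 := by
          intro i
          split_ifs
          · rw [padicNorm.mul, hw1, one_mul]
            exact h5 i
          · rw [padicNorm.mul, padicNorm.mul, hw1, one_mul,
              Pool.Agent.H574R2.D3.H6_norm_pow p _ (hunit r), hp4 p (by omega) hpp, one_mul]
          · rw [padicNorm.mul, padicNorm.mul, hv1, one_mul,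
              Pool.Agent.H574R2.D3.H6_norm_pow p _ (hunit r), hp6 p (by omega) hpp, one_mul]
        rw [padicNorm.mul, padicNorm.mul,
          Pool.Agent.H574R2.D3.H6_norm_prod p _ h5, Pool.Agent.H574R2.D3.H6_norm_prod p _ h6,
          hp1 p (by omega) hpp]
        norm_num
    intro h0
    apply hM0
    rw [hM, Pool.Agent.H574R2.D3.H6_det_scale, h0, mul_zero, mul_zero]
  -- conclusion
  have hm : 12 * (2 * p) - 24 = 48 * h := by omega
  unfold DD
  rw [hm]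
  refine A2_MD_ne (AL (2 * p) α) (BL (2 * p) β) (BL (2 * p) γ) (48 * h) _ _ (H6_e h) ?_ Q P ?_ ?_ key
  · simp only [Fintype.card_prod, Fintype.card_fin]
  · intro a
    have ha := a.1.2
    have ha2 := a.2.2
    have := H6_P_natDegree p (a.2.1 + 1) 144 a.1.1 (by omega) (by omega) ha hodd
    rw [← hh] at this
    rw [hQ]
    refine this.trans_le ?_
    omega
  · intro a
    have ha := a.1.2
    have ha2 := a.2.2
    have := H6_P_natDegree p (a.2.1 + 1) 48 a.1.1 (by omega) (by omega) ha hodd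
    rw [← hh] at this
    rw [hP]
    exact this

end

end Pool.Agent.H574R2.Q4
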