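import Pool.Agent.H574R2.Q4.Defs
import Pool.Agent.H337R2.Asym

/-!
# P_main and P_large from the results of parts D, E, F (hypotheses)
-/

open Polynomial Pool.Agent.H337R2 Filter Topology

namespace Pool.Agent.H574R2.Q4

noncomputable section

/-- statement of `D4_small_med` -/
def PMmed : Prop := ∀ {n p : ℕ} [Fact p.Prime], 1 ≤ n → 72 * n < p ^ 2 → ∀ (q : ℕ) (α β γ : ℕ → ℚ),
    UInt q α → UInt q β → UInt q γ → (∀ i < 3, β i = 0) → (∀ i < 5, γ i = 0) → ∀ (m : ℕ), m ≤ 12 * n →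
    padicNorm p ((q : ℚ) ^ (3 * m) * MD3 (AL n α) (BL n β) (BL n γ) m) ≤
      ((p : ℚ) ^ 76) ^ (3 * m) * ((∏ i ∈ Finset.range (3 * m), padicNorm p (((2 * i - 1).factorial : ℕ) : ℚ)) *
        ∏ i ∈ Finset.range m, padicNorm p (((2 * i - 1).factorial : ℕ) : ℚ) ^ 3)

/-- statement of `D4_small_crude` -/
def PMcrude : Prop := ∀ {n p : ℕ} [Fact p.Prime], 1 ≤ n → ∀ (q : ℕ) (α β γ : ℕ → ℚ),
    UInt q α → UInt q β → UInt q γ → ∀ (m : ℕ), m ≤ 12 * n →
    padicNorm p ((q : ℚ) ^ (3 * m) * MD3 (AL n α) (BL n β) (BL n γ) m) ≤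
      (((72 * n + 1 : ℕ) : ℚ) ^ 200) ^ (3 * m) *
        ((∏ i ∈ Finset.range (3 * m), padicNorm p (((2 * i - 1).factorial : ℕ) : ℚ)) *
        ∏ i ∈ Finset.range m, padicNorm p (((2 * i - 1).factorial : ℕ) : ℚ) ^ 3)

lemma PM_fac_pos (p N : ℕ) (hp : p.Prime) : 0 < ((padicNorm p ((N.factorial : ℕ) : ℚ) : ℚ) : ℝ) := by
  have : Fact p.Prime := ⟨hp⟩
  have : 0 < padicNorm p ((N.factorial : ℕ) : ℚ) :=
    lt_of_le_of_ne (padicNorm.nonneg _) (Ne.symm (padicNorm.nonzero (by exact_mod_cast Nat.factorial_ne_zero N)))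
  exact_mod_cast this

lemma PM_z_pos (p : ℕ) (hp : p.Prime) (z : ℚ) (hz : z ≠ 0) : 0 < ((padicNorm p z : ℚ) : ℝ) := by
  have : Fact p.Prime := ⟨hp⟩
  have : 0 < padicNorm p z := lt_of_le_of_ne (padicNorm.nonneg _) (Ne.symm (padicNorm.nonzero hz))
  exact_mod_cast this

lemma PM_small (hmed : PMmed) (hcrude : PMcrude) (n p : ℕ) (hn : 1 ≤ n) (hp : p.Prime) (q : ℕ) (α β γ : ℕ → ℚ)
    (hα : UInt q α) (hβ : UInt q β) (hγ : UInt q γ) (hβ3 : ∀ i < 3, β i = 0) (hγ5 : ∀ i < 5, γ i = 0) (hz : (q : ℚ) ^ (36 * n - 72) * DD n α β γ ≠ 0) :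
    Real.log ((padicNorm p ((q : ℚ) ^ (36 * n - 72) * DD n α β γ) : ℚ) : ℝ) ≤
      36 * (n : ℝ) * ((if p ^ 2 ≤ 72 * n then 200 * Real.log (72 * n + 1) else 0) + 76 * Real.log p) +
      (∑ i ∈ Finset.range (36 * n - 72), Real.log ((padicNorm p (((2 * i - 1).factorial : ℕ) : ℚ) : ℚ) : ℝ) +
       3 * ∑ i ∈ Finset.range (12 * n - 24), Real.log ((padicNorm p (((2 * i - 1).factorial : ℕ) : ℚ) : ℚ) : ℝ)) := by
  have hF : Fact p.Prime := ⟨hp⟩
  have hp0 : (0 : ℝ) < p := by exact_mod_cast hp.pos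
  have hlp : 0 ≤ Real.log p := Real.log_nonneg (by exact_mod_cast hp.one_lt.le)
  have hn0 : (0 : ℝ) ≤ n := by positivity
  have hl : 0 ≤ Real.log (72 * (n : ℝ) + 1) := Real.log_nonneg (by linarith)
  have hzp := PM_z_pos p hp _ hz
  have e8 : 36 * n - 72 = 3 * (12 * n - 24) := by omega
  rw [e8] at hzp ⊢
  have hm : ((3 * (12 * n - 24) : ℕ) : ℝ) ≤ 36 * n := by
    have : 3 * (12 * n - 24) ≤ 36 * n := by omega
    exact_mod_cast this
  have hpp : 0 < (∏ i ∈ Finset.range (3 * (12 * n - 24)), ((padicNorm p (((2 * i - 1).factorial : ℕ) : ℚ) : ℚ) : ℝ)) *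
        ∏ i ∈ Finset.range (12 * n - 24), ((padicNorm p (((2 * i - 1).factorial : ℕ) : ℚ) : ℚ) : ℝ) ^ 3 :=
    mul_pos (Finset.prod_pos fun i _ => PM_fac_pos p _ hp)
      (Finset.prod_pos fun i _ => pow_pos (PM_fac_pos p _ hp) 3)
  have hprod : Real.log ((∏ i ∈ Finset.range (3 * (12 * n - 24)), ((padicNorm p (((2 * i - 1).factorial : ℕ) : ℚ) : ℚ) : ℝ)) *
        ∏ i ∈ Finset.range (12 * n - 24), ((padicNorm p (((2 * i - 1).factorial : ℕ) : ℚ) : ℚ) : ℝ) ^ 3)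
      = ∑ i ∈ Finset.range (3 * (12 * n - 24)), Real.log ((padicNorm p (((2 * i - 1).factorial : ℕ) : ℚ) : ℚ) : ℝ) +
       3 * ∑ i ∈ Finset.range (12 * n - 24), Real.log ((padicNorm p (((2 * i - 1).factorial : ℕ) : ℚ) : ℚ) : ℝ) := by
    rw [Real.log_mul (Finset.prod_pos fun i _ => PM_fac_pos p _ hp).ne'
      (Finset.prod_pos fun i _ => pow_pos (PM_fac_pos p _ hp) 3).ne',
      Real.log_prod (fun i _ => (PM_fac_pos p _ hp).ne'),
      Real.log_prod (fun i _ => (pow_pos (PM_fac_pos p _ hp) 3).ne'), Finset.mul_sum]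
    congr 1
    apply Finset.sum_congr rfl
    intro i _
    rw [Real.log_pow]
    norm_num
  by_cases h2 : p ^ 2 ≤ 72 * n
  · rw [if_pos h2]
    have h3 : ((padicNorm p ((q : ℚ) ^ (3 * (12 * n - 24)) * DD n α β γ) : ℚ) : ℝ) ≤
        ((72 * (n : ℝ) + 1) ^ 200) ^ (3 * (12 * n - 24)) *
        ((∏ i ∈ Finset.range (3 * (12 * n - 24)), ((padicNorm p (((2 * i - 1).factorial : ℕ) : ℚ) : ℚ) : ℝ)) *
        ∏ i ∈ Finset.range (12 * n - 24), ((padicNorm p (((2 * i - 1).factorial : ℕ) : ℚ) : ℚ) : ℝ) ^ 3) := by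
      have h4 := (Rat.cast_le (K := ℝ)).2 (hcrude (p := p) hn q α β γ hα hβ hγ (12 * n - 24) (by omega))
      refine h4.trans (le_of_eq ?_)
      push_cast
      rfl
    have h5 := Real.log_le_log hzp h3
    rw [Real.log_mul (by positivity) hpp.ne', hprod, Real.log_pow, Real.log_pow] at h5
    have e2 : ((200 : ℕ) : ℝ) = 200 := by norm_num
    rw [e2] at h5
    have h4 : ((3 * (12 * n - 24) : ℕ) : ℝ) * (200 * Real.log (72 * (n : ℝ) + 1)) ≤
        36 * n * (200 * Real.log (72 * (n : ℝ) + 1)) :=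
      mul_le_mul_of_nonneg_right hm (by positivity)
    have h6 : 0 ≤ 36 * (n : ℝ) * (76 * Real.log p) := by positivity
    have e3 : 36 * (n : ℝ) * (200 * Real.log (72 * (n : ℝ) + 1) + 76 * Real.log p) =
      36 * n * (200 * Real.log (72 * (n : ℝ) + 1)) + 36 * (n : ℝ) * (76 * Real.log p) := by ring
    rw [e3]
    linarith
  · rw [if_neg h2]
    have h3 : ((padicNorm p ((q : ℚ) ^ (3 * (12 * n - 24)) * DD n α β γ) : ℚ) : ℝ) ≤
        ((p : ℝ) ^ 76) ^ (3 * (12 * n - 24)) *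
        ((∏ i ∈ Finset.range (3 * (12 * n - 24)), ((padicNorm p (((2 * i - 1).factorial : ℕ) : ℚ) : ℚ) : ℝ)) *
        ∏ i ∈ Finset.range (12 * n - 24), ((padicNorm p (((2 * i - 1).factorial : ℕ) : ℚ) : ℚ) : ℝ) ^ 3) := by
      have h4 := (Rat.cast_le (K := ℝ)).2 (hmed (p := p) hn (by omega) q α β γ hα hβ hγ hβ3 hγ5 (12 * n - 24) (by omega))
      refine h4.trans (le_of_eq ?_)
      push_cast
      rfl
    have h5 := Real.log_le_log hzp h3
    rw [Real.log_mul (by positivity) hpp.ne', hprod, Real.log_pow, Real.log_pow] at h5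
    have e2 : ((76 : ℕ) : ℝ) = 76 := by norm_num
    rw [e2] at h5
    have h4 : ((3 * (12 * n - 24) : ℕ) : ℝ) * (76 * Real.log p) ≤ 36 * n * (76 * Real.log p) :=
      mul_le_mul_of_nonneg_right hm (by positivity)
    rw [zero_add]
    linarith

/-- statement of `E4_padic` with a constant -/
def PME4 (K0 : ℝ) : Prop := ∀ n : ℕ, 100 ≤ n → ∀ p : ℕ, p.Prime → n < 20 * p → 72 * n < p ^ 2 →
    ∀ (q : ℕ) (α β γ : ℕ → ℚ), UInt q α → UInt q β → UInt q γ → (∀ i < 3, β i = 0) → (∀ i < 5, γ i = 0) →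
    ((padicNorm p ((q : ℚ) ^ (36 * n - 72) * DD n α β γ) : ℚ) : ℝ) ≤
      if p < 2 * n then (p : ℝ) ^ (EW n p + K0) else 1

lemma PM_log_large (K0 : ℝ) (hE4 : PME4 K0) (n : ℕ) (hn : 60000 ≤ n) (p : ℕ) (hp : p.Prime)
    (h50 : ¬ 20 * p ≤ n) (q : ℕ) (α β γ : ℕ → ℚ) (hα : UInt q α) (hβ : UInt q β) (hγ : UInt q γ)
    (hβ3 : ∀ i < 3, β i = 0) (hγ5 : ∀ i < 5, γ i = 0)
    (hz : (q : ℚ) ^ (36 * n - 72) * DD n α β γ ≠ 0) :
    Real.log ((padicNorm p ((q : ℚ) ^ (36 * n - 72) * DD n α β γ) : ℚ) : ℝ) ≤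
      if p < 2 * n then (EW n p + K0) * Real.log p else 0 := by
  have hp0 : (0 : ℝ) < p := by exact_mod_cast hp.pos
  have h1 := hE4 n (by omega) p hp (by omega) (by nlinarith) q α β γ hα hβ hγ hβ3 hγ5
  have h2 := Real.log_le_log (PM_z_pos p hp _ hz) h1
  refine h2.trans (le_of_eq ?_)
  split_ifs
  · rw [Real.log_rpow hp0]
  · rw [Real.log_one]

/-- crude bound for the exponent at `p = n` -/
lemma PM_EA_self (n : ℕ) (hn : 1 ≤ n) : EA n n ≤ 1000000 * n := by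
  have hn0 : (0 : ℝ) < n := by exact_mod_cast hn
  have ht : ∀ a j : ℕ, 0 ≤ tn a j n ∧ tn a j n ≤ a := by
    intro a j
    unfold tn Pool.Agent.H574R2.D3.tn
    exact ⟨Nat.cast_nonneg _, Nat.cast_le.2 (Nat.sub_le _ _)⟩
  have hs : ∑ j ∈ Finset.Icc 1 120, (18249 / 8 * tn (2 * n) j n - 231 / 4 * tn (4 * n) j n
      + 3 / 8 * tn (6 * n) j n) ≤ ∑ j ∈ Finset.Icc 1 120, (5000 * (n : ℝ)) := by
    apply Finset.sum_le_sum
    intro j _
    have h1 := ht (2 * n) j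
    have h2 := ht (4 * n) j
    have h3 := ht (6 * n) j
    obtain ⟨a1, b1⟩ := h1
    obtain ⟨a2, b2⟩ := h2
    obtain ⟨a3, b3⟩ := h3
    push_cast at b1 b2 b3
    linarith
  rw [Finset.sum_const, Nat.card_Icc, nsmul_eq_mul] at hs
  have e2 : 0 ≤ (n : ℝ) * ((2 * n / n : ℕ) : ℝ) := by positivity
  have e3 : 0 ≤ (n : ℝ) ^ 2 / (n : ℝ) := by positivity
  unfold EA
  push_cast at hs ⊢
  push_cast at e2
  linarith

lemma PM_EW_split (n : ℕ) (hn : 7 ≤ n) (K0 : ℝ) (hK0 : 0 ≤ K0) :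
    ∑ p ∈ ((Finset.range (2 * n)).filter Nat.Prime).filter (fun p => ¬ 20 * p ≤ n), (EW n p + K0) * Real.log p ≤
      ∑ p ∈ PS (1 / 20) 1 n, EA n p * Real.log p + 1000000 * n * Real.log n +
      (∑ p ∈ PS 1 (6 / 5) n, EB 5625 n p * Real.log p +
      (∑ p ∈ PS (6 / 5) (3 / 2) n, EB 5700 n p * Real.log p +
      ∑ p ∈ PS (3 / 2) 2 n, EB 5776 n p * Real.log p)) + K0 * (Real.log 4 * (2 * n)) := by
  classical
  have hn0 : (0 : ℝ) < n := by exact_mod_cast (by omega : 0 < n)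
  have hln : 0 ≤ Real.log n := Real.log_nonneg (by exact_mod_cast (by omega : 1 ≤ n))
  simp only [add_mul, Finset.sum_add_distrib]
  apply add_le_add
  · set T := ((Finset.range (2 * n)).filter Nat.Prime).filter (fun p => ¬ 20 * p ≤ n) with hT
    have hnp2 : ∀ p : ℕ, p.Prime → 5 * p ≠ 6 * n := by
      intro p hp h
      have h7 : 2 ∣ p := by omega
      have h8 : 3 ∣ p := by omega
      rcases (Nat.dvd_prime hp).1 h7 with h9 | h9
      · omega
      · omega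
    have hnp3 : ∀ p : ℕ, p.Prime → 2 * p ≠ 3 * n := by
      intro p hp h
      have h8 : 3 ∣ p := by omega
      rcases (Nat.dvd_prime hp).1 h8 with h9 | h9
      · omega
      · omega
    have e1 : PS (1 / 20) 1 n = (T.filter (fun p => p ≤ n)).filter (fun p => p ≠ n) := by
      ext p
      unfold PS
      rw [hT]
      simp only [Finset.mem_filter, Finset.mem_range]
      constructor
      · rintro ⟨h1, h2, h3, h4⟩
        have h5 : n < 20 * p := by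
          have : (n : ℝ) < 20 * p := by linarith
          exact_mod_cast this
        have h6 : p < n := by
          rw [one_mul] at h4
          exact_mod_cast h4
        exact ⟨⟨⟨⟨by omega, h2⟩, by omega⟩, h6.le⟩, h6.ne⟩
      · rintro ⟨⟨⟨⟨h1, h2⟩, h3⟩, h4⟩, h5⟩
        have h6 : p < n := lt_of_le_of_ne h4 h5
        refine ⟨by omega, h2, ?_, ?_⟩
        · have : (n : ℝ) < 20 * p := by exact_mod_cast (by omega : n < 20 * p)
          linarith
        · rw [one_mul]; exact_mod_cast h6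
    have e2 : PS 1 (6 / 5) n = (T.filter (fun p => ¬ p ≤ n)).filter (fun p => 5 * p ≤ 6 * n) := by
      ext p
      unfold PS
      rw [hT]
      simp only [Finset.mem_filter, Finset.mem_range]
      constructor
      · rintro ⟨h1, h2, h3, h4⟩
        have h5 : n < p := by
          rw [one_mul] at h3
          exact_mod_cast h3
        have h6 : 5 * p < 6 * n := by
          have : 5 * (p : ℝ) < 6 * n := by linarith
          exact_mod_cast this
        exact ⟨⟨⟨⟨by omega, h2⟩, by omega⟩, by omega⟩, h6.le⟩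
      · rintro ⟨⟨⟨⟨h1, h2⟩, h3⟩, h4⟩, h5⟩
        have h6 : 5 * p < 6 * n := lt_of_le_of_ne h5 (hnp2 p h2)
        refine ⟨by omega, h2, ?_, ?_⟩
        · rw [one_mul]; exact_mod_cast (by omega : n < p)
        · have : 5 * (p : ℝ) < 6 * n := by exact_mod_cast h6
          linarith
    have e3 : PS (6 / 5) (3 / 2) n = ((T.filter (fun p => ¬ p ≤ n)).filter
        (fun p => ¬ 5 * p ≤ 6 * n)).filter (fun p => 2 * p ≤ 3 * n) := by
      ext p
      unfold PS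
      rw [hT]
      simp only [Finset.mem_filter, Finset.mem_range]
      constructor
      · rintro ⟨h1, h2, h3, h4⟩
        have h5 : 6 * n < 5 * p := by
          have : 6 * (n : ℝ) < 5 * p := by linarith
          exact_mod_cast this
        have h6 : 2 * p < 3 * n := by
          have : 2 * (p : ℝ) < 3 * n := by linarith
          exact_mod_cast this
        exact ⟨⟨⟨⟨⟨by omega, h2⟩, by omega⟩, by omega⟩, by omega⟩, h6.le⟩
      · rintro ⟨⟨⟨⟨⟨h1, h2⟩, h3⟩, h4⟩, h5⟩, h6⟩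
        have h7 : 2 * p < 3 * n := lt_of_le_of_ne h6 (hnp3 p h2)
        refine ⟨by omega, h2, ?_, ?_⟩
        · have : 6 * (n : ℝ) < 5 * p := by exact_mod_cast (by omega : 6 * n < 5 * p)
          linarith
        · have : 2 * (p : ℝ) < 3 * n := by exact_mod_cast h7
          linarith
    have e4 : PS (3 / 2) 2 n = ((T.filter (fun p => ¬ p ≤ n)).filter
        (fun p => ¬ 5 * p ≤ 6 * n)).filter (fun p => ¬ 2 * p ≤ 3 * n) := by
      ext p
      unfold PS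
      rw [hT]
      simp only [Finset.mem_filter, Finset.mem_range]
      constructor
      · rintro ⟨h1, h2, h3, h4⟩
        have h5 : 3 * n < 2 * p := by
          have : 3 * (n : ℝ) < 2 * p := by linarith
          exact_mod_cast this
        have h6 : p < 2 * n := by exact_mod_cast h4
        exact ⟨⟨⟨⟨⟨by omega, h2⟩, by omega⟩, by omega⟩, by omega⟩, by omega⟩
      · rintro ⟨⟨⟨⟨⟨h1, h2⟩, h3⟩, h4⟩, h5⟩, h6⟩
        refine ⟨by omega, h2, ?_, by exact_mod_cast h1⟩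
        have : 3 * (n : ℝ) < 2 * p := by exact_mod_cast (by omega : 3 * n < 2 * p)
        linarith
    rw [e1, e2, e3, e4, ← Finset.sum_filter_add_sum_filter_not T (fun p => p ≤ n)]
    apply add_le_add
    · rw [← Finset.sum_filter_add_sum_filter_not (T.filter (fun p => p ≤ n)) (fun p => p ≠ n)]
      apply add_le_add
      · apply le_of_eq
        apply Finset.sum_congr rfl
        intro p hp
        rw [Finset.mem_filter, Finset.mem_filter] at hp
        unfold EW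
        rw [if_pos hp.1.2]
      · have hsub : (T.filter (fun p => p ≤ n)).filter (fun p => ¬ p ≠ n) ⊆ {n} := by
          intro p hp
          rw [Finset.mem_filter] at hp
          rw [Finset.mem_singleton]
          exact not_not.1 hp.2
        have hbd : ∀ p ∈ (T.filter (fun p => p ≤ n)).filter (fun p => ¬ p ≠ n),
            EW n p * Real.log p ≤ 1000000 * n * Real.log n := by
          intro p hp
          have h1 : p = n := Finset.mem_singleton.1 (hsub hp)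
          subst h1
          unfold EW
          rw [if_pos le_rfl]
          exact mul_le_mul_of_nonneg_right (PM_EA_self p (by omega)) hln
        have h2 := Finset.sum_le_card_nsmul _ _ _ hbd
        rw [nsmul_eq_mul] at h2
        have h3 : (((T.filter (fun p => p ≤ n)).filter (fun p => ¬ p ≠ n)).card : ℝ) ≤ 1 := by
          have := Finset.card_le_card hsub
          rw [Finset.card_singleton] at this
          exact_mod_cast this
        refine h2.trans ?_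
        have h4 : 0 ≤ 1000000 * (n : ℝ) * Real.log n := by positivity
        calc _ ≤ 1 * (1000000 * (n : ℝ) * Real.log n) := mul_le_mul_of_nonneg_right h3 h4
          _ = _ := one_mul _
    · apply le_of_eq
      rw [← Finset.sum_filter_add_sum_filter_not (T.filter (fun p => ¬ p ≤ n)) (fun p => 5 * p ≤ 6 * n)]
      congr 1
      · apply Finset.sum_congr rfl
        intro p hp
        rw [Finset.mem_filter, Finset.mem_filter] at hp
        unfold EW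
        rw [if_neg hp.1.2, if_pos hp.2]
      · rw [← Finset.sum_filter_add_sum_filter_not ((T.filter (fun p => ¬ p ≤ n)).filter
          (fun p => ¬ 5 * p ≤ 6 * n)) (fun p => 2 * p ≤ 3 * n)]
        congr 1
        · apply Finset.sum_congr rfl
          intro p hp
          rw [Finset.mem_filter, Finset.mem_filter, Finset.mem_filter] at hp
          unfold EW
          rw [if_neg hp.1.1.2, if_neg hp.1.2, if_pos hp.2]
        · apply Finset.sum_congr rfl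
          intro p hp
          rw [Finset.mem_filter, Finset.mem_filter, Finset.mem_filter] at hp
          unfold EW
          rw [if_neg hp.1.1.2, if_neg hp.1.2, if_neg hp.2]
  · rw [← Finset.mul_sum]
    apply mul_le_mul_of_nonneg_left _ hK0
    refine le_trans ?_ (Chebyshev.theta_le_log4_mul_x (x := 2 * n) (by positivity))
    unfold Chebyshev.theta
    apply Finset.sum_le_sum_of_subset_of_nonneg
    · intro p hp
      rw [Finset.mem_filter, Finset.mem_filter, Finset.mem_range] at hp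
      rw [Finset.mem_filter, Finset.mem_Ioc]
      refine ⟨⟨hp.1.2.pos, ?_⟩, hp.1.2⟩
      rw [Nat.le_floor_iff (by positivity)]
      have : ((p : ℕ) : ℝ) ≤ ((2 * n : ℕ) : ℝ) := by exact_mod_cast hp.1.1.le
      push_cast at this
      exact this
    · intro p hp _
      rw [Finset.mem_filter] at hp
      exact Real.log_nonneg (by exact_mod_cast hp.2.one_lt.le)

lemma PM_ev {f : ℕ → ℝ} {L : ℝ} (h : Tendsto (fun n : ℕ => f n / (n : ℝ) ^ 2) atTop (𝓝 L)) (ε : ℝ)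
    (hε : 0 < ε) : ∀ᶠ n : ℕ in atTop, f n ≤ (L + ε) * (n : ℝ) ^ 2 := by
  filter_upwards [h.eventually_lt_const (show L < L + ε by linarith), eventually_ge_atTop 1] with n h1 hn
  have hn0 : (0 : ℝ) < (n : ℝ) ^ 2 := by
    have : (0 : ℝ) < n := by exact_mod_cast hn
    positivity
  rw [div_lt_iff₀ hn0] at h1
  exact h1.le

lemma PM_log5 : 65 * Real.log 2 ≤ 28 * Real.log 5 := by
  have h1 : Real.log ((2 : ℝ) ^ 65) ≤ Real.log ((5 : ℝ) ^ 28) :=
    Real.log_le_log (by positivity) (by norm_num)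
  rw [Real.log_pow, Real.log_pow] at h1
  push_cast at h1
  exact h1

lemma PM_log3 : 84 * Real.log 2 ≤ 53 * Real.log 3 := by
  have h1 : Real.log ((2 : ℝ) ^ 84) ≤ Real.log ((3 : ℝ) ^ 53) :=
    Real.log_le_log (by positivity) (by norm_num)
  rw [Real.log_pow, Real.log_pow] at h1
  push_cast at h1
  exact h1

lemma PM_nlogn (ε : ℝ) (hε : 0 < ε) : ∀ᶠ n : ℕ in atTop,
    1000000 * (n : ℝ) * Real.log n ≤ ε * (n : ℝ) ^ 2 := by
  have h1 : Tendsto (fun x : ℝ => Real.log x / x) atTop (𝓝 0) :=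
    Real.isLittleO_log_id_atTop.tendsto_div_nhds_zero
  have h2 := h1.comp (tendsto_natCast_atTop_atTop (R := ℝ))
  have hε' : 0 < ε / 1000000 := by positivity
  filter_upwards [h2.eventually_lt_const hε', eventually_ge_atTop 1] with n h3 hn
  have hn0 : (0 : ℝ) < n := by exact_mod_cast hn
  simp only [Function.comp_apply] at h3
  rw [div_lt_iff₀ hn0] at h3
  nlinarith

/-- **the p-adic part**, from the results of the other tasks -/
theorem P_main_of (hmed : PMmed) (hcrude : PMcrude)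
    (hE4 : ∃ K0 : ℝ, 0 ≤ K0 ∧ ∀ n : ℕ, 100 ≤ n → ∀ p : ℕ, p.Prime → n < 20 * p → 72 * n < p ^ 2 →
      ∀ (q : ℕ) (α β γ : ℕ → ℚ), UInt q α → UInt q β → UInt q γ → (∀ i < 3, β i = 0) → (∀ i < 5, γ i = 0) →
      ((padicNorm p ((q : ℚ) ^ (36 * n - 72) * DD n α β γ) : ℚ) : ℝ) ≤
        if p < 2 * n then (p : ℝ) ^ (EW n p + K0) else 1)
    (hF2A : Tendsto (fun n : ℕ => (∑ p ∈ PS (1 / 20) 1 n, EA n p * Real.log p) / (n : ℝ) ^ 2) atTop
      (𝓝 ((LA : ℝ) - 507 * Real.log 20)))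
    (hF2B : ∀ (τ : ℕ) (lo hi : ℚ), 1 ≤ lo → lo ≤ hi → hi ≤ 2 →
      Tendsto (fun n : ℕ => (∑ p ∈ PS lo hi n, EB τ n p * Real.log p) / (n : ℝ) ^ 2) atTop
      (𝓝 ((LB τ lo hi : ℚ) : ℝ)))
    (hF2U : Tendsto (fun n : ℕ => (∑ p ∈ PS (1 / 20) 72 n,
      (∑ j ∈ Finset.Icc 1 1440, (1 / 2 * tn (72 * n) j p + 3 / 2 * tn (24 * n) j p)) * Real.log p) / (n : ℝ) ^ 2)
      atTop (𝓝 (LU : ℝ)))
    (hF3n : LA + LB 5625 1 (6 / 5) + LB 5700 (6 / 5) (3 / 2) + LB 5776 (3 / 2) 2 + LU ≤ 67912 / 10)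
    (hF4 : ∀ ε : ℝ, 0 < ε → ∀ᶠ n : ℕ in atTop,
      36 * (n : ℝ) * (∑ p ∈ (Finset.range (n + 1)).filter (fun p : ℕ => p.Prime ∧ p ^ 2 ≤ 72 * n),
          200 * Real.log (72 * n + 1) +
        ∑ p ∈ (Finset.range (n + 1)).filter (fun p : ℕ => p.Prime ∧ 20 * p ≤ n), 76 * Real.log p) ≤
      (684 / 5 + ε) * (n : ℝ) ^ 2)
    (hF5 : ∀ᶠ n : ℕ in atTop,
      ∑ p ∈ (Finset.range (n + 1)).filter (fun p : ℕ => p.Prime ∧ 20 * p ≤ n),
        (∑ i ∈ Finset.range (36 * n - 72), Real.log ((padicNorm p (((2 * i - 1).factorial : ℕ) : ℚ) : ℚ) : ℝ) +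
         3 * ∑ i ∈ Finset.range (12 * n - 24), Real.log ((padicNorm p (((2 * i - 1).factorial : ℕ) : ℚ) : ℚ) : ℝ)) ≤
      - (∑ i ∈ Finset.range (36 * n - 72), Real.log ((2 * i - 1).factorial : ℝ) +
         3 * ∑ i ∈ Finset.range (12 * n - 24), Real.log ((2 * i - 1).factorial : ℝ)) +
        ∑ p ∈ PS (1 / 20) 72 n,
          (∑ j ∈ Finset.Icc 1 1440, (1 / 2 * tn (72 * n) j p + 3 / 2 * tn (24 * n) j p)) * Real.log p)
    (hF6 : ∀ ε : ℝ, 0 < ε → ∀ᶠ n : ℕ in atTop,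
      1728 * (n : ℝ) ^ 2 * Real.log n + (5184 * Real.log 2 + 3024 * Real.log 3 - 2592 - ε) * (n : ℝ) ^ 2 ≤
        ∑ i ∈ Finset.range (36 * n - 72), Real.log ((2 * i - 1).factorial : ℝ) +
         3 * ∑ i ∈ Finset.range (12 * n - 24), Real.log ((2 * i - 1).factorial : ℝ)) :
    ∀ (q : ℕ) (α β γ : ℕ → ℚ), UInt q α → UInt q β → UInt q γ → (∀ i < 3, β i = 0) → (∀ i < 5, γ i = 0) →
    ∀ᶠ n : ℕ in atTop, DD n α β γ ≠ 0 →
    ∑ p ∈ (Finset.range (72 * n + 1)).filter Nat.Prime,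
      Real.log ((padicNorm p ((q : ℚ) ^ (36 * n - 72) * DD n α β γ) : ℚ) : ℝ) ≤
    -(1728 * (n : ℝ) ^ 2 * Real.log n) + 1087 * (n : ℝ) ^ 2 := by
  classical
  intro q α β γ hα hβ hγ hβ3 hγ5
  obtain ⟨K0, hK0, hE4'⟩ := hE4
  obtain ⟨L1, hL1⟩ : ∃ L1 : ℝ, L1 = ((LB 5625 1 (6 / 5) : ℚ) : ℝ) := ⟨_, rfl⟩
  obtain ⟨L2, hL2⟩ : ∃ L2 : ℝ, L2 = ((LB 5700 (6 / 5) (3 / 2) : ℚ) : ℝ) := ⟨_, rfl⟩
  obtain ⟨L3, hL3⟩ : ∃ L3 : ℝ, L3 = ((LB 5776 (3 / 2) 2 : ℚ) : ℝ) := ⟨_, rfl⟩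
  have hF3 : ((LA : ℝ) + L1 + L2 + L3 + LU) ≤ 67912 / 10 := by
    have h := (Rat.cast_le (K := ℝ)).2 hF3n
    rw [Rat.cast_add, Rat.cast_add, Rat.cast_add, Rat.cast_add, ← hL1, ← hL2, ← hL3] at h
    refine h.trans (le_of_eq ?_)
    norm_num
  have hB1 : Tendsto (fun n : ℕ => (∑ p ∈ PS 1 (6 / 5) n, EB 5625 n p * Real.log p) / (n : ℝ) ^ 2) atTop
      (𝓝 L1) := by
    have h := hF2B 5625 1 (6 / 5) le_rfl (by norm_num) (by norm_num)
    rw [← hL1] at h
    have e1 : ((1 : ℚ) : ℝ) = 1 := by norm_num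
    have e2 : ((6 / 5 : ℚ) : ℝ) = 6 / 5 := by norm_num
    rw [e1, e2] at h
    exact h
  have hB2 : Tendsto (fun n : ℕ => (∑ p ∈ PS (6 / 5) (3 / 2) n, EB 5700 n p * Real.log p) / (n : ℝ) ^ 2)
      atTop (𝓝 L2) := by
    have h := hF2B 5700 (6 / 5) (3 / 2) (by norm_num) (by norm_num) (by norm_num)
    rw [← hL2] at h
    have e1 : ((3 / 2 : ℚ) : ℝ) = 3 / 2 := by norm_num
    have e2 : ((6 / 5 : ℚ) : ℝ) = 6 / 5 := by norm_num
    rw [e1, e2] at h
    exact h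
  have hB3 : Tendsto (fun n : ℕ => (∑ p ∈ PS (3 / 2) 2 n, EB 5776 n p * Real.log p) / (n : ℝ) ^ 2)
      atTop (𝓝 L3) := by
    have h := hF2B 5776 (3 / 2) 2 (by norm_num) (by norm_num) (by norm_num)
    rw [← hL3] at h
    have e1 : ((3 / 2 : ℚ) : ℝ) = 3 / 2 := by norm_num
    have e2 : ((2 : ℚ) : ℝ) = 2 := by norm_num
    rw [e1, e2] at h
    exact h
  have hε : (0 : ℝ) < 1 / 200 := by norm_num
  have ev2 := PM_ev hF2A (1 / 200) hε
  have ev3 := PM_ev hB1 (1 / 200) hε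
  have ev4 := PM_ev hB2 (1 / 200) hε
  have ev4' := PM_ev hB3 (1 / 200) hε
  have ev5 := PM_ev hF2U (1 / 200) hε
  have ev6 := hF4 (1 / 200) hε
  have ev8 := hF6 (1 / 200) hε
  have ev9 : ∀ᶠ n : ℕ in atTop, K0 * (Real.log 4 * 2) ≤ 1 / 200 * n := by
    have := (tendsto_natCast_atTop_atTop (R := ℝ)).const_mul_atTop hε
    exact this.eventually_ge_atTop _
  filter_upwards [ev2, ev3, ev4, ev4', ev5, ev6, hF5, ev8, ev9, PM_nlogn (1 / 200) hε,
    eventually_ge_atTop 60000] with n g2 g3 g4 g4a g5 g6 g7 g8 g9 g10 hn hD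
  have hn0 : (0 : ℝ) < n := by exact_mod_cast (by omega : 0 < n)
  have hn1 : 1 ≤ n := by omega
  have hqq : (0 : ℚ) < q := by exact_mod_cast hα.1
  have hz : (q : ℚ) ^ (36 * n - 72) * DD n α β γ ≠ 0 := mul_ne_zero (pow_pos hqq _).ne' hD
  rw [← Finset.sum_filter_add_sum_filter_not _ (fun p => 20 * p ≤ n)]
  have e1 : ((Finset.range (72 * n + 1)).filter Nat.Prime).filter (fun p => 20 * p ≤ n) =
      (Finset.range (n + 1)).filter (fun p : ℕ => p.Prime ∧ 20 * p ≤ n) := by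
    ext p
    simp only [Finset.mem_filter, Finset.mem_range]
    constructor
    · rintro ⟨⟨h1, h2⟩, h3⟩; exact ⟨by omega, h2, h3⟩
    · rintro ⟨h1, h2, h3⟩; exact ⟨⟨by omega, h2⟩, h3⟩
  rw [e1]
  have hsmall : ∑ p ∈ (Finset.range (n + 1)).filter (fun p : ℕ => p.Prime ∧ 20 * p ≤ n),
      Real.log ((padicNorm p ((q : ℚ) ^ (36 * n - 72) * DD n α β γ) : ℚ) : ℝ) ≤
      36 * (n : ℝ) * (∑ p ∈ (Finset.range (n + 1)).filter (fun p : ℕ => p.Prime ∧ p ^ 2 ≤ 72 * n),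
        200 * Real.log (72 * n + 1) +
      ∑ p ∈ (Finset.range (n + 1)).filter (fun p : ℕ => p.Prime ∧ 20 * p ≤ n), 76 * Real.log p) +
      ∑ p ∈ (Finset.range (n + 1)).filter (fun p : ℕ => p.Prime ∧ 20 * p ≤ n),
      (∑ i ∈ Finset.range (36 * n - 72), Real.log ((padicNorm p (((2 * i - 1).factorial : ℕ) : ℚ) : ℚ) : ℝ) +
       3 * ∑ i ∈ Finset.range (12 * n - 24), Real.log ((padicNorm p (((2 * i - 1).factorial : ℕ) : ℚ) : ℚ) : ℝ)) := by
    calc _ ≤ ∑ p ∈ (Finset.range (n + 1)).filter (fun p : ℕ => p.Prime ∧ 20 * p ≤ n),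
          (36 * (n : ℝ) * ((if p ^ 2 ≤ 72 * n then 200 * Real.log (72 * n + 1) else 0) + 76 * Real.log p) +
          (∑ i ∈ Finset.range (36 * n - 72), Real.log ((padicNorm p (((2 * i - 1).factorial : ℕ) : ℚ) : ℚ) : ℝ) +
       3 * ∑ i ∈ Finset.range (12 * n - 24), Real.log ((padicNorm p (((2 * i - 1).factorial : ℕ) : ℚ) : ℚ) : ℝ))) := by
          apply Finset.sum_le_sum
          intro p hp
          rw [Finset.mem_filter] at hp
          exact PM_small hmed hcrude n p hn1 hp.2.1 q α β γ hα hβ hγ hβ3 hγ5 hz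
      _ ≤ _ := by
          rw [Finset.sum_add_distrib, ← Finset.mul_sum, Finset.sum_add_distrib]
          apply add_le_add_left
          apply mul_le_mul_of_nonneg_left _ (by positivity)
          apply add_le_add_left
          rw [← Finset.sum_filter]
          apply Finset.sum_le_sum_of_subset_of_nonneg
          · intro p hp
            simp only [Finset.mem_filter, Finset.mem_range] at hp ⊢
            exact ⟨hp.1.1, hp.1.2.1, hp.2⟩
          · intro p _ _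
            have : 0 ≤ Real.log (72 * (n : ℝ) + 1) := Real.log_nonneg (by linarith)
            positivity
  have hlarge : ∑ p ∈ ((Finset.range (72 * n + 1)).filter Nat.Prime).filter (fun p => ¬ 20 * p ≤ n),
      Real.log ((padicNorm p ((q : ℚ) ^ (36 * n - 72) * DD n α β γ) : ℚ) : ℝ) ≤
      ∑ p ∈ PS (1 / 20) 1 n, EA n p * Real.log p + 1000000 * n * Real.log n +
      (∑ p ∈ PS 1 (6 / 5) n, EB 5625 n p * Real.log p +
      (∑ p ∈ PS (6 / 5) (3 / 2) n, EB 5700 n p * Real.log p +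
      ∑ p ∈ PS (3 / 2) 2 n, EB 5776 n p * Real.log p)) + K0 * (Real.log 4 * (2 * n)) := by
    refine le_trans ?_ (PM_EW_split n (by omega) K0 hK0)
    have h1 : ∑ p ∈ ((Finset.range (72 * n + 1)).filter Nat.Prime).filter (fun p => ¬ 20 * p ≤ n),
        Real.log ((padicNorm p ((q : ℚ) ^ (36 * n - 72) * DD n α β γ) : ℚ) : ℝ) ≤
        ∑ p ∈ ((Finset.range (72 * n + 1)).filter Nat.Prime).filter (fun p => ¬ 20 * p ≤ n),
        (if p < 2 * n then (EW n p + K0) * Real.log p else 0) := by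
      apply Finset.sum_le_sum
      intro p hp
      rw [Finset.mem_filter, Finset.mem_filter] at hp
      exact PM_log_large K0 hE4' n hn p hp.1.2 hp.2 q α β γ hα hβ hγ hβ3 hγ5 hz
    refine h1.trans (le_of_eq ?_)
    rw [← Finset.sum_filter]
    apply Finset.sum_congr _ fun _ _ => rfl
    ext p
    simp only [Finset.mem_filter, Finset.mem_range]
    constructor
    · rintro ⟨⟨⟨h1, h2⟩, h3⟩, h4⟩; exact ⟨⟨h4, h2⟩, h3⟩
    · rintro ⟨⟨h1, h2⟩, h3⟩; exact ⟨⟨⟨by omega, h2⟩, h3⟩, h1⟩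
  have hfin : K0 * (Real.log 4 * (2 * n)) ≤ 1 / 200 * (n : ℝ) ^ 2 := by
    have := mul_le_mul_of_nonneg_right g9 hn0.le
    nlinarith
  have hn2 : (0 : ℝ) < (n : ℝ) ^ 2 := by positivity
  have h20 : Real.log 20 = 2 * Real.log 2 + Real.log 5 := by
    rw [show (20 : ℝ) = 2 ^ 2 * 5 by norm_num, Real.log_mul (by norm_num) (by norm_num),
      Real.log_pow]
    push_cast; ring
  rw [h20] at g2
  have hl2 := Real.log_two_gt_d9
  have hl5 := PM_log5
  have hl3 := PM_log3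
  have hconst : (684 / 5 + 2592 + ((LA : ℝ) + L1 + L2 + L3 + LU) - 6198 * Real.log 2 - 3024 * Real.log 3
      - 507 * Real.log 5 + 10 / 200) ≤ 1087 := by
    linarith
  have htot : (684 / 5 + 2592 + ((LA : ℝ) + L1 + L2 + L3 + LU) - 6198 * Real.log 2 - 3024 * Real.log 3
      - 507 * Real.log 5 + 10 / 200) * (n : ℝ) ^ 2 ≤ 1087 * (n : ℝ) ^ 2 :=
    mul_le_mul_of_nonneg_right hconst hn2.le
  have g2' : ∑ p ∈ PS (1 / 20) 1 n, EA n p * Real.log p ≤
      (LA : ℝ) * (n : ℝ) ^ 2 - 1014 * Real.log 2 * (n : ℝ) ^ 2 - 507 * Real.log 5 * (n : ℝ) ^ 2 +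
        1 / 200 * (n : ℝ) ^ 2 := by
    refine g2.trans (le_of_eq ?_); ring
  have g3' : ∑ p ∈ PS 1 (6 / 5) n, EB 5625 n p * Real.log p ≤ L1 * (n : ℝ) ^ 2 + 1 / 200 * (n : ℝ) ^ 2 := by
    refine g3.trans (le_of_eq ?_); ring
  have g4' : ∑ p ∈ PS (6 / 5) (3 / 2) n, EB 5700 n p * Real.log p ≤
      L2 * (n : ℝ) ^ 2 + 1 / 200 * (n : ℝ) ^ 2 := by
    refine g4.trans (le_of_eq ?_); ring
  have g4a' : ∑ p ∈ PS (3 / 2) 2 n, EB 5776 n p * Real.log p ≤
      L3 * (n : ℝ) ^ 2 + 1 / 200 * (n : ℝ) ^ 2 := by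
    refine g4a.trans (le_of_eq ?_); ring
  have g5' : ∑ p ∈ PS (1 / 20) 72 n,
      (∑ j ∈ Finset.Icc 1 1440, (1 / 2 * tn (72 * n) j p + 3 / 2 * tn (24 * n) j p)) * Real.log p ≤
      (LU : ℝ) * (n : ℝ) ^ 2 + 1 / 200 * (n : ℝ) ^ 2 := by
    refine g5.trans (le_of_eq ?_); ring
  have g6' : 36 * (n : ℝ) * (∑ p ∈ (Finset.range (n + 1)).filter (fun p : ℕ => p.Prime ∧ p ^ 2 ≤ 72 * n),
          200 * Real.log (72 * n + 1) +
        ∑ p ∈ (Finset.range (n + 1)).filter (fun p : ℕ => p.Prime ∧ 20 * p ≤ n), 76 * Real.log p) ≤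
      684 / 5 * (n : ℝ) ^ 2 + 1 / 200 * (n : ℝ) ^ 2 := by
    refine g6.trans (le_of_eq ?_); ring
  have g8' : 1728 * (n : ℝ) ^ 2 * Real.log n + 5184 * Real.log 2 * (n : ℝ) ^ 2 +
      3024 * Real.log 3 * (n : ℝ) ^ 2 - 2592 * (n : ℝ) ^ 2 - 1 / 200 * (n : ℝ) ^ 2 ≤
        ∑ i ∈ Finset.range (36 * n - 72), Real.log ((2 * i - 1).factorial : ℝ) +
         3 * ∑ i ∈ Finset.range (12 * n - 24), Real.log ((2 * i - 1).factorial : ℝ) := by
    refine le_trans (le_of_eq ?_) g8; ring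
  have htot' : 684 / 5 * (n : ℝ) ^ 2 + 2592 * (n : ℝ) ^ 2 + (LA : ℝ) * (n : ℝ) ^ 2 + L1 * (n : ℝ) ^ 2 +
      L2 * (n : ℝ) ^ 2 + L3 * (n : ℝ) ^ 2 +
      (LU : ℝ) * (n : ℝ) ^ 2 - 6198 * Real.log 2 * (n : ℝ) ^ 2 - 3024 * Real.log 3 * (n : ℝ) ^ 2
      - 507 * Real.log 5 * (n : ℝ) ^ 2 + 10 / 200 * (n : ℝ) ^ 2 ≤ 1087 * (n : ℝ) ^ 2 := by
    refine le_trans (le_of_eq ?_) htot; ring
  have hfinal := add_le_add hsmall hlarge
  refine hfinal.trans ?_
  clear hfinal hsmall hlarge hconst htot g2 g3 g4 g4a g5 g6 g8 hF4 hF6 hF2B hF2A hF2U hB1 hB2 hB3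
  linarith

/-- large primes, from `D3_large` -/
theorem P_large_of
    (hD3 : ∀ {n p : ℕ} [Fact p.Prime], 1 ≤ n → 6 * n < p ^ 2 → 2 * n < p → ∀ (q : ℕ) (α β γ : ℕ → ℚ),
      UInt q α → UInt q β → UInt q γ → (∀ i < 3, β i = 0) → (∀ i < 5, γ i = 0) → ∀ m : ℕ,
      padicNorm p ((q : ℚ) ^ (3 * m) * MD3 (AL n α) (BL n β) (BL n γ) m) ≤ 1) :
    ∀ (q : ℕ) (α β γ : ℕ → ℚ), UInt q α → UInt q β → UInt q γ → (∀ i < 3, β i = 0) → (∀ i < 5, γ i = 0) →
    ∀ n : ℕ, 1 ≤ n → ∀ p : ℕ, p.Prime → 72 * n < p →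
    padicNorm p ((q : ℚ) ^ (36 * n - 72) * DD n α β γ) ≤ 1 := by
  intro q α β γ hα hβ hγ hβ3 hγ5 n hn p hp h
  have : Fact p.Prime := ⟨hp⟩
  have h1 := hD3 (p := p) hn (by nlinarith) (by omega) q α β γ hα hβ hγ hβ3 hγ5 (12 * n - 24)
  have e : 3 * (12 * n - 24) = 36 * n - 72 := by omega
  rw [e] at h1
  exact h1

end

end Pool.Agent.H574R2.Q4
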