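import Pool.Agent.H574R2.Q4.Defs
import Pool.Agent.H337R2.Asym

/-! STUBS of the project `dim_Q ⟨1, ζ(3), ζ(5), ..., ζ(75)⟩ ≥ 4`. Never import this file in a finished module. -/

open Polynomial Pool.Agent.H337R2 Filter Topology

namespace Pool.Agent.H574R2.Q4

noncomputable section

/-! ### A. Linear algebra with three blocks -/

/-- monic rows and columns -/
theorem A1_monic (A B C : ℚ[X] →ₗ[ℚ] ℚ) (m : ℕ) (Q P P' P'' : ℕ → ℚ[X])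
    (hQ : ∀ i < 3 * m, (Q i).Monic ∧ (Q i).natDegree = i) (hP : ∀ i < m, (P i).Monic ∧ (P i).natDegree = i)
    (hP' : ∀ i < m, (P' i).Monic ∧ (P' i).natDegree = i) (hP'' : ∀ i < m, (P'' i).Monic ∧ (P'' i).natDegree = i) :
    (Matrix.of fun i j : Fin (3 * m) =>
      if j.1 < m then A (Q i.1 * P j.1)
      else if j.1 < 2 * m then B (Q i.1 * P' (j.1 - m))
      else C (Q i.1 * P'' (j.1 - 2 * m))).det = MD3 A B C m := by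
  sorry

theorem A2_MD_ne (A B C : ℚ[X] →ₗ[ℚ] ℚ) (m : ℕ) (R S : Type) [Fintype R] [DecidableEq R] [Fintype S]
    (e : R ≃ (S ⊕ S) ⊕ S) (hS : Fintype.card S = m) (Q : R → ℚ[X]) (P : S → ℚ[X])
    (hQ : ∀ r, (Q r).natDegree < 3 * m) (hP : ∀ s, (P s).natDegree < m)
    (h : (Matrix.of fun r s : R => Sum.elim (Sum.elim (fun c => A (Q r * P c)) (fun c => B (Q r * P c)))
      (fun c => C (Q r * P c)) (e s)).det ≠ 0) : MD3 A B C m ≠ 0 := by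
  sorry

/-- Lagrange bases -/
theorem A5_lagrange (A B C : ℚ[X] →ₗ[ℚ] ℚ) (θ₁ θ₂ : ℝ) (m : ℕ) (z : ℕ → ℚ)
    (hz : Set.InjOn z (Finset.range (3 * m))) :
    ((Matrix.of fun i j : Fin (3 * m) =>
      if j.1 < m then
        ((A (lag (Finset.range (3 * m)) z i.1 * lag (Finset.range m) z j.1) : ℚ) : ℝ) +
          θ₁ * ((B (lag (Finset.range (3 * m)) z i.1 * lag (Finset.range m) z j.1) : ℚ) : ℝ) +
          θ₂ * ((C (lag (Finset.range (3 * m)) z i.1 * lag (Finset.range m) z j.1) : ℚ) : ℝ)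
      else if j.1 < 2 * m then
        ((B (lag (Finset.range (3 * m)) z i.1 * lag (Finset.Ico m (2 * m)) z j.1) : ℚ) : ℝ)
      else ((C (lag (Finset.range (3 * m)) z i.1 * lag (Finset.Ico (2 * m) (3 * m)) z j.1) : ℚ) : ℝ)).det) ^ 2 =
    ((MD3 A B C m : ℚ) : ℝ) ^ 2 * (VD (Finset.range (3 * m)) z * VD (Finset.range m) z *
      VD (Finset.Ico m (2 * m)) z * VD (Finset.Ico (2 * m) (3 * m)) z) := by
  sorry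

/-- optimal splitting -/
theorem D1_split (y : ℤ) : ∃ z : ℤ, T1 z + 3 * T1 (y - z) ≤ T4 y := by
  sorry

/-! ### B. The linear form -/

theorem B1_hasSum {n : ℕ} (hn : 10 ≤ n) (α β γ : ℕ → ℚ) (θ₁ θ₂ : ℝ)
    (h : ∀ i, Odd i → 3 ≤ i → i ≤ 75 → zr i = (α i : ℝ) + θ₁ * (β i : ℝ) + θ₂ * (γ i : ℝ))
    (Q : ℚ[X]) (hQ : Q.natDegree ≤ 48 * n) :
    HasSum (fun t : ℕ => wv n (3 * n + 1 + t) * ((Q.eval (((3 * n + 1 + t : ℕ) : ℚ) ^ 2) : ℚ) : ℝ))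
      (((AL n α Q : ℚ) : ℝ) + θ₁ * ((BL n β Q : ℚ) : ℝ) + θ₂ * ((BL n γ Q : ℚ) : ℝ)) := by
  sorry

/-! ### C. p-adic size of the entries -/

theorem C1_pa {n p : ℕ} [Fact p.Prime] (hn : 1 ≤ n) (hp2 : 6 * n < p ^ 2) (E : ℚ[X]) {k : ℕ}
    (hk : k ∈ sM n) (A : ℚ) (hA : 0 ≤ A) (hE : PB p (p : ℚ) A (TS (-(k : ℚ)) E)) (i : ℕ) :
    padicNorm p (pa (sM n) mM (PM n * E) k i) ≤ (p : ℚ) ^ (eM n p k - i : ℤ) * A := by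
  sorry

theorem C1_pa_int {n p : ℕ} [Fact p.Prime] (hn : 1 ≤ n) (E : ℚ[X]) {k : ℕ}
    (hk : k ∈ sM n) (A : ℚ) (hA : 0 ≤ A) (hE : PB p 1 A (TS (-(k : ℚ)) E)) (i : ℕ)
    (hno : ∀ k' ∈ sM n, k' ≠ k → ¬ (p : ℤ) ∣ (k' : ℤ) - k) :
    padicNorm p (pa (sM n) mM (PM n * E) k i) ≤ padicNorm p (cM n) * A := by
  sorry

theorem C2_xa {n p : ℕ} [Fact p.Prime] (hn : 1 ≤ n) (hp2 : 6 * n < p ^ 2) (q : ℕ) (α : ℕ → ℚ) (hα : UInt q α)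
    (E : ℚ[X]) (W : ℚ) (hW : 0 ≤ W) (A : ℕ → ℚ) (hA : ∀ k, 0 ≤ A k)
    (hE : ∀ k ∈ sM n, PB p (p : ℚ) (A k) (TS (-(k : ℚ)) E))
    (hE1 : ∀ k ∈ sM n, PB p 1 1 (TS (-(k : ℚ)) E))
    (h : ∀ k ∈ sM n, (p : ℚ) ^ (eM n p k) * A k ≤ W ∨
      (padicNorm p (cM n) ≤ W ∧ k < 2 * n + p ∧ ∀ k' ∈ sM n, k' ≠ k → ¬ (p : ℤ) ∣ (k' : ℤ) - k)) :
    padicNorm p ((q : ℚ) * xa n α (PM n * E)) ≤ W := by
  sorry

/-- `i0 = 3` for the second block, `i0 = 5` for the third block -/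
theorem C2_xb {n p : ℕ} [Fact p.Prime] (hn : 1 ≤ n) (hp2 : 6 * n < p ^ 2) (q : ℕ) (β : ℕ → ℚ) (hβ : UInt q β)
    (i0 : ℕ) (hβ0 : ∀ i < i0, β i = 0)
    (E : ℚ[X]) (W : ℚ) (hW : 0 ≤ W) (A : ℕ → ℚ) (hA : ∀ k, 0 ≤ A k)
    (hE : ∀ k ∈ sM n, PB p (p : ℚ) (A k) (TS (-(k : ℚ)) E))
    (hE1 : ∀ k ∈ sM n, PB p 1 1 (TS (-(k : ℚ)) E))
    (h : ∀ k ∈ sM n, (p : ℚ) ^ (eM n p k - i0) * A k ≤ W ∨
      (padicNorm p (cM n) ≤ W ∧ ∀ k' ∈ sM n, k' ≠ k → ¬ (p : ℤ) ∣ (k' : ℤ) - k)) :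
    padicNorm p ((q : ℚ) * xb n β (PM n * E)) ≤ W := by
  sorry

theorem C3_crude {n p : ℕ} [Fact p.Prime] (hn : 1 ≤ n) (q : ℕ) (u : ℕ → ℚ) (hu : UInt q u)
    (E : ℚ[X]) (A : ℚ) (hA : 0 ≤ A)
    (hE : ∀ k ∈ sM n, PB p ((72 * n + 1 : ℕ) : ℚ) A (TS (-(k : ℚ)) E)) :
    padicNorm p ((q : ℚ) * xa n u (PM n * E)) ≤ ((72 * n + 1 : ℕ) : ℚ) ^ 200 * A ∧
    padicNorm p ((q : ℚ) * xb n u (PM n * E)) ≤ ((72 * n + 1 : ℕ) : ℚ) ^ 200 * A := by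
  sorry

theorem C4_CP (i : ℕ) : (CP i).Monic ∧ (CP i).natDegree = i := by
  sorry

theorem C4_CP_PB {n p : ℕ} [Fact p.Prime] (hn : 1 ≤ n) (ρ : ℚ) (hρ1 : 1 ≤ ρ)
    (hρ : ∀ l : ℕ, 1 ≤ l → l ≤ 72 * n → (padicNorm p (l : ℚ))⁻¹ ≤ ρ) (i j : ℕ) (hi : 2 * i ≤ 72 * n)
    (hj : 2 * j ≤ 72 * n) (k : ℕ) :
    PB p ρ (padicNorm p (((2 * i - 1).factorial : ℕ) : ℚ) * padicNorm p (((2 * j - 1).factorial : ℕ) : ℚ))
      (TS (-(k : ℚ)) (EM n (CP i * CP j))) := by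
  sorry

/-! ### D. p-adic size of the determinant -/

theorem D2_kap_mem {n p k : ℕ} (hp : 0 < p) (hk : k ≤ 6 * n) : kap n p k ∈ Kset n p := by
  sorry

theorem D2_eM_kap {n p k : ℕ} (hn : 1 ≤ n) (hp : 0 < p) (hk : k ≤ 6 * n) : eM n p (kap n p k) = eM n p k := by
  sorry

/-- p-adic bound by lists -/
theorem D3_det_padic {n p : ℕ} [Fact p.Prime] (hn : 1 ≤ n) (hp2 : 6 * n < p ^ 2) (q : ℕ) (α β γ : ℕ → ℚ)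
    (hα : UInt q α) (hβ : UInt q β) (hγ : UInt q γ) (hβ3 : ∀ i < 3, β i = 0) (hγ5 : ∀ i < 5, γ i = 0) (m : ℕ) (a : ℤ) :
    padicNorm p ((q : ℚ) ^ (3 * m) * MD3 (AL n α) (BL n β) (BL n γ) m) ≤
      (p : ℚ) ^ ((m : ℤ) * (3 * a - 8) + ∑ κ ∈ Kset n p, T4 (eM n p κ - a)) := by
  sorry

/-- large primes -/
theorem D3_large {n p : ℕ} [Fact p.Prime] (hn : 1 ≤ n) (hp2 : 6 * n < p ^ 2) (hp : 2 * n < p) (q : ℕ) (α β γ : ℕ → ℚ)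
    (hα : UInt q α) (hβ : UInt q β) (hγ : UInt q γ) (hβ3 : ∀ i < 3, β i = 0) (hγ5 : ∀ i < 5, γ i = 0) (m : ℕ) :
    padicNorm p ((q : ℚ) ^ (3 * m) * MD3 (AL n α) (BL n β) (BL n γ) m) ≤ 1 := by
  sorry

/-- two-site classes: one generator (`n < p < 2n`) -/
theorem D3_two {n p : ℕ} [Fact p.Prime] (hn : 1 ≤ n) (hp100 : 100 ≤ p) (h1 : n < p) (h2 : p < 2 * n) (q : ℕ)
    (α β γ : ℕ → ℚ) (hα : UInt q α) (hβ : UInt q β) (hγ : UInt q γ) (hβ3 : ∀ i < 3, β i = 0)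
    (hγ5 : ∀ i < 5, γ i = 0) (m : ℕ) :
    padicNorm p ((q : ℚ) ^ (3 * m) * MD3 (AL n α) (BL n β) (BL n γ) m) ≤
      (p : ℚ) ^ (-(222 * m : ℤ) + ∑ κ ∈ Kfull n p, T2s (eM n p κ + 74)) := by
  sorry

theorem D4_small_med {n p : ℕ} [Fact p.Prime] (hn : 1 ≤ n) (hp2 : 72 * n < p ^ 2) (q : ℕ) (α β γ : ℕ → ℚ)
    (hα : UInt q α) (hβ : UInt q β) (hγ : UInt q γ) (hβ3 : ∀ i < 3, β i = 0) (hγ5 : ∀ i < 5, γ i = 0) (m : ℕ)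
    (hm : m ≤ 12 * n) :
    padicNorm p ((q : ℚ) ^ (3 * m) * MD3 (AL n α) (BL n β) (BL n γ) m) ≤
      ((p : ℚ) ^ 76) ^ (3 * m) * ((∏ i ∈ Finset.range (3 * m), padicNorm p (((2 * i - 1).factorial : ℕ) : ℚ)) *
        ∏ i ∈ Finset.range m, padicNorm p (((2 * i - 1).factorial : ℕ) : ℚ) ^ 3) := by
  sorry

theorem D4_small_crude {n p : ℕ} [Fact p.Prime] (hn : 1 ≤ n) (q : ℕ) (α β γ : ℕ → ℚ)
    (hα : UInt q α) (hβ : UInt q β) (hγ : UInt q γ) (m : ℕ) (hm : m ≤ 12 * n) :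
    padicNorm p ((q : ℚ) ^ (3 * m) * MD3 (AL n α) (BL n β) (BL n γ) m) ≤
      (((72 * n + 1 : ℕ) : ℚ) ^ 200) ^ (3 * m) *
        ((∏ i ∈ Finset.range (3 * m), padicNorm p (((2 * i - 1).factorial : ℕ) : ℚ)) *
        ∏ i ∈ Finset.range m, padicNorm p (((2 * i - 1).factorial : ℕ) : ℚ) ^ 3) := by
  sorry

/-! ### E. Class sums -/

theorem E1_Kset_sum {n p : ℕ} (hp : p.Prime) (hp2 : p ≠ 2) (hpn : p < 6 * n) (f : ℕ → ℤ) (M : ℤ) (hM : 0 ≤ M)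
    (hf : ∀ r < p, f r = f ((6 * n - r) % p)) (hfM : ∀ r < p, f r ≤ M) :
    2 * ∑ r ∈ Kset n p, f r ≤ ∑ r ∈ Finset.range p, f r + M := by
  sorry

/-- poles-poles -/
theorem E2_PP {n p : ℕ} (hn : 1 ≤ n) (hp : p.Prime) (hpn : n < 20 * p) :
    ((∑ r ∈ Finset.range p, Np n p r ^ 2 : ℕ) : ℝ) ≤
      2 * n + 2 * ∑ j ∈ Finset.Icc 1 120, tn (2 * n) j p + 1000 := by
  sorry

/-- poles-zeros -/
theorem E2_PZ {n p : ℕ} (hn : 1 ≤ n) (hp : p.Prime) (hpn : n < 20 * p) :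
    2 * ∑ j ∈ Finset.Icc 1 120, (tn (4 * n) j p - 2 * tn (2 * n) j p) - 1000 ≤
      ((∑ r ∈ Finset.range p, Np n p r * Zp n p r : ℕ) : ℝ) := by
  sorry

/-- zeros-zeros -/
theorem E2_ZZ {n p : ℕ} (hn : 1 ≤ n) (hp : p.Prime) (hpn : n < 20 * p) :
    ((∑ r ∈ Finset.range p, Zp n p r ^ 2 : ℕ) : ℝ) ≤
      4 * n + 4 * ∑ j ∈ Finset.Icc 1 120, tn (2 * n) j p +
        2 * ∑ j ∈ Finset.Icc 1 120, (tn (6 * n) j p - 2 * tn (4 * n) j p + tn (2 * n) j p) + 2000 := by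
  sorry

theorem E3_A : ∃ K0 : ℝ, ∀ n p : ℕ, p.Prime → 10 ≤ n → n < 20 * p → p ≤ n → 72 * n < p ^ 2 → ∀ a : ℤ,
    a = ((52 * n / p : ℕ) : ℤ) + 1 - 74 * ((2 * n / p : ℕ) : ℤ) →
    ((((12 * n - 24 : ℕ) : ℤ) * (3 * a - 8) + ∑ κ ∈ Kset n p, T4 (eM n p κ - a) : ℤ) : ℝ) ≤ EA n p + K0 := by
  sorry

/-- two-site classes; every class of `Kfull` has two poles and at least `z` zeros if `(z + 2) p ≤ 6 n` -/
theorem E3_B : ∃ K0 : ℝ, ∀ n p : ℕ, p.Prime → 10 ≤ n → n < p → p < 2 * n → ∀ z : ℕ, (z + 2) * p ≤ 6 * n →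
    ((-(222 * (12 * n - 24 : ℕ) : ℤ) + ∑ κ ∈ Kfull n p, T2s (eM n p κ + 74) : ℤ) : ℝ) ≤
      EB (T2s (152 - z)).toNat n p + K0 := by
  sorry

/-- p-adic size of the determinant, all primes `p > n/20` -/
theorem E4_padic : ∃ K0 : ℝ, 0 ≤ K0 ∧ ∀ n : ℕ, 100 ≤ n → ∀ p : ℕ, p.Prime → n < 20 * p → 72 * n < p ^ 2 →
    ∀ (q : ℕ) (α β γ : ℕ → ℚ), UInt q α → UInt q β → UInt q γ → (∀ i < 3, β i = 0) → (∀ i < 5, γ i = 0) →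
    ((padicNorm p ((q : ℚ) ^ (36 * n - 72) * DD n α β γ) : ℚ) : ℝ) ≤
      if p < 2 * n then (p : ℝ) ^ (EW n p + K0) else 1 := by
  sorry

/-! ### F. Prime number theorem sums -/

theorem F1_tent (α j : ℕ) (hj : 1 ≤ j) (lo hi : ℚ) (h0 : 0 < lo) (h1 : lo ≤ hi) (h2 : hi ≤ 72) :
    Tendsto (fun n : ℕ => (∑ p ∈ PS lo hi n, tn (α * n) j p * Real.log p) / (n : ℝ) ^ 2) atTop
      (𝓝 ((It α j lo hi : ℚ) : ℝ)) := by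
  sorry

theorem F1_const (lo hi : ℚ) (h0 : 0 < lo) (h1 : lo ≤ hi) (h2 : hi ≤ 72) :
    Tendsto (fun n : ℕ => (∑ p ∈ PS lo hi n, (n : ℝ) * Real.log p) / (n : ℝ) ^ 2) atTop
      (𝓝 (((hi - lo : ℚ)) : ℝ)) := by
  sorry

theorem F1_id (lo hi : ℚ) (h0 : 0 < lo) (h1 : lo ≤ hi) (h2 : hi ≤ 72) :
    Tendsto (fun n : ℕ => (∑ p ∈ PS lo hi n, (p : ℝ) * Real.log p) / (n : ℝ) ^ 2) atTop
      (𝓝 ((((hi ^ 2 - lo ^ 2) / 2 : ℚ)) : ℝ)) := by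
  sorry

theorem F1_inv (lo hi : ℚ) (h0 : 0 < lo) (h1 : lo ≤ hi) (h2 : hi ≤ 72) :
    Tendsto (fun n : ℕ => (∑ p ∈ PS lo hi n, ((n : ℝ) ^ 2 / p) * Real.log p) / (n : ℝ) ^ 2) atTop
      (𝓝 (Real.log ((hi : ℚ) : ℝ) - Real.log ((lo : ℚ) : ℝ))) := by
  sorry

theorem F1_floor (α J : ℕ) (lo hi : ℚ) (h0 : 0 < lo) (h1 : lo ≤ hi) (h2 : hi ≤ 72) (hα : α ≤ 72)
    (hJ : (α : ℚ) ≤ J * lo) :
    Tendsto (fun n : ℕ => (∑ p ∈ PS lo hi n, ((n : ℝ) * ((α * n / p : ℕ) : ℝ)) * Real.log p) / (n : ℝ) ^ 2) atTop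
      (𝓝 ((Ifl α J lo hi : ℚ) : ℝ)) := by
  sorry

theorem F2_A : Tendsto (fun n : ℕ => (∑ p ∈ PS (1 / 20) 1 n, EA n p * Real.log p) / (n : ℝ) ^ 2) atTop
    (𝓝 ((LA : ℝ) - 507 * Real.log 20)) := by
  sorry

theorem F2_B (τ : ℕ) (lo hi : ℚ) (h1 : 1 ≤ lo) (h2 : lo ≤ hi) (h3 : hi ≤ 2) :
    Tendsto (fun n : ℕ => (∑ p ∈ PS lo hi n, EB τ n p * Real.log p) / (n : ℝ) ^ 2) atTop
    (𝓝 ((LB τ lo hi : ℚ) : ℝ)) := by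
  sorry

theorem F2_U : Tendsto (fun n : ℕ => (∑ p ∈ PS (1 / 20) 72 n,
      (∑ j ∈ Finset.Icc 1 1440, (1 / 2 * tn (72 * n) j p + 3 / 2 * tn (24 * n) j p)) * Real.log p) / (n : ℝ) ^ 2)
    atTop (𝓝 (LU : ℝ)) := by
  sorry

theorem F3_numeric : LA + LB 5625 1 (6 / 5) + LB 5700 (6 / 5) (3 / 2) + LB 5776 (3 / 2) 2 + LU ≤ 67912 / 10 := by
  sorry

/-- small primes: trivial exponents -/
theorem F4_small : ∀ ε : ℝ, 0 < ε → ∀ᶠ n : ℕ in atTop,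
    36 * (n : ℝ) * (∑ p ∈ (Finset.range (n + 1)).filter (fun p : ℕ => p.Prime ∧ p ^ 2 ≤ 72 * n),
        200 * Real.log (72 * n + 1) +
      ∑ p ∈ (Finset.range (n + 1)).filter (fun p : ℕ => p.Prime ∧ 20 * p ≤ n), 76 * Real.log p) ≤
    (684 / 5 + ε) * (n : ℝ) ^ 2 := by
  sorry

/-- factorials: the small prime part -/
theorem F5_fact : ∀ᶠ n : ℕ in atTop,
    ∑ p ∈ (Finset.range (n + 1)).filter (fun p : ℕ => p.Prime ∧ 20 * p ≤ n),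
      (∑ i ∈ Finset.range (36 * n - 72), Real.log ((padicNorm p (((2 * i - 1).factorial : ℕ) : ℚ) : ℚ) : ℝ) +
       3 * ∑ i ∈ Finset.range (12 * n - 24), Real.log ((padicNorm p (((2 * i - 1).factorial : ℕ) : ℚ) : ℚ) : ℝ)) ≤
    - (∑ i ∈ Finset.range (36 * n - 72), Real.log ((2 * i - 1).factorial : ℝ) +
       3 * ∑ i ∈ Finset.range (12 * n - 24), Real.log ((2 * i - 1).factorial : ℝ)) +
      ∑ p ∈ PS (1 / 20) 72 n,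
        (∑ j ∈ Finset.Icc 1 1440, (1 / 2 * tn (72 * n) j p + 3 / 2 * tn (24 * n) j p)) * Real.log p := by
  sorry

theorem F6_superfac : ∀ ε : ℝ, 0 < ε → ∀ᶠ n : ℕ in atTop,
    1728 * (n : ℝ) ^ 2 * Real.log n + (5184 * Real.log 2 + 3024 * Real.log 3 - 2592 - ε) * (n : ℝ) ^ 2 ≤
      ∑ i ∈ Finset.range (36 * n - 72), Real.log ((2 * i - 1).factorial : ℝ) +
       3 * ∑ i ∈ Finset.range (12 * n - 24), Real.log ((2 * i - 1).factorial : ℝ) := by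
  sorry

/-- **the p-adic part** -/
theorem P_main : ∀ (q : ℕ) (α β γ : ℕ → ℚ), UInt q α → UInt q β → UInt q γ → (∀ i < 3, β i = 0) → (∀ i < 5, γ i = 0) →
    ∀ᶠ n : ℕ in atTop, DD n α β γ ≠ 0 →
    ∑ p ∈ (Finset.range (72 * n + 1)).filter Nat.Prime,
      Real.log ((padicNorm p ((q : ℚ) ^ (36 * n - 72) * DD n α β γ) : ℚ) : ℝ) ≤
    -(1728 * (n : ℝ) ^ 2 * Real.log n) + 1087 * (n : ℝ) ^ 2 := by
  sorry

theorem P_large : ∀ (q : ℕ) (α β γ : ℕ → ℚ), UInt q α → UInt q β → UInt q γ → (∀ i < 3, β i = 0) → (∀ i < 5, γ i = 0) →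
    ∀ n : ℕ, 1 ≤ n → ∀ p : ℕ, p.Prime → 72 * n < p →
    padicNorm p ((q : ℚ) ^ (36 * n - 72) * DD n α β γ) ≤ 1 := by
  sorry

/-! ### G. The archimedean part -/

theorem G0_nd_inj {n : ℕ} (hn : 30 ≤ n) : Set.InjOn (nd n) (Finset.range (36 * n - 72)) := by
  sorry

theorem G0_zq_inj {n : ℕ} (hn : 30 ≤ n) : Set.InjOn (zq n) (Finset.range (36 * n - 72)) := by
  sorry

theorem G0_nd_X {n i : ℕ} (hn : 30 ≤ n) (h1 : 9 * n - 1 ≤ i) (h2 : i < 12 * n - 24) :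
    1200 * n ≤ nd n i ∧ nd n i < 1404 * n := by
  sorry

theorem G0_nd_Y {n i : ℕ} (hn : 30 ≤ n) (h1 : 12 * n - 24 ≤ i) (h2 : i < 36 * n - 72) :
    0 ≤ nd n i ∧ nd n i < 81 * n := by
  sorry

/-- entries of the zeta part. The punctured products are written with `Real.log 0 = 0`. -/
theorem G1_entryN {n : ℕ} (hn : 30 ≤ n) (α β γ : ℕ → ℚ) (θ₁ θ₂ : ℝ)
    (h : ∀ i, Odd i → 3 ≤ i → i ≤ 75 → zr i = (α i : ℝ) + θ₁ * (β i : ℝ) + θ₂ * (γ i : ℝ)) (MM : ℝ) (hM : 0 ≤ MM)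
    (hsup : ∀ v : ℕ, 12 * n ≤ v →
      wv n v * Real.exp (Lp n (Finset.range (36 * n - 72)) (100 * v) + Lp n (Finset.range (12 * n - 24)) (100 * v)) ≤
        MM / (v : ℝ) ^ 2)
    (i j : ℕ) (hi : i < 36 * n - 72) (hj : j < 12 * n - 24) :
    |((AL n α (lag (Finset.range (36 * n - 72)) (zq n) i * lag (Finset.range (12 * n - 24)) (zq n) j) : ℚ) : ℝ) + θ₁ *
      ((BL n β (lag (Finset.range (36 * n - 72)) (zq n) i * lag (Finset.range (12 * n - 24)) (zq n) j) : ℚ) : ℝ) + θ₂ *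
      ((BL n γ (lag (Finset.range (36 * n - 72)) (zq n) i * lag (Finset.range (12 * n - 24)) (zq n) j) : ℚ) : ℝ)| ≤
    (if j < 9 * n - 1 then wv n (3 * n + 1 + j) *
      Real.exp (Lp n (Finset.range (36 * n - 72)) (100 * (3 * n + 1 + j)) +
        Lp n (Finset.range (12 * n - 24)) (100 * (3 * n + 1 + j))) else 0) + 1000 * MM := by
  sorry

/-- entries of the pole parts -/
theorem G2_entryY (β : ℕ → ℚ) : ∃ C : ℝ, 0 < C ∧ ∀ n : ℕ, 30 ≤ n → ∀ a b : ℕ,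
    (a = 12 * n - 24 ∧ b = 24 * n - 48 ∨ a = 24 * n - 48 ∧ b = 36 * n - 72) → ∀ MY : ℝ,
    (∀ u : ℤ, |u| ≤ n → n * phi (100 * (u : ℝ) / n) + Lp n (Finset.range (36 * n - 72)) (100 * u) +
      Lp n (Finset.Ico a b) (100 * u) ≤ MY) →
    ∀ i < 36 * n - 72, ∀ j, a ≤ j → j < b →
    |((BL n β (lag (Finset.range (36 * n - 72)) (zq n) i * lag (Finset.Ico a b) (zq n) j) : ℚ) : ℝ)| ≤
      Real.exp (MY + C * Real.log n) := by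
  sorry

/-- potential of one brick with `3n - 6` nodes (with the mirror image); `o` is the shift of the third family -/
theorem G3_brick : ∃ C : ℝ, 0 < C ∧ ∀ n : ℕ, 30 ≤ n → ∀ g < 12, ∀ o : ℤ, 0 ≤ o → o ≤ 1 → ∀ u : ℤ,
    |∑ j ∈ Finset.range (3 * n - 6), (Real.log (((u - (bb g * n + cc g * (j : ℤ) + o) : ℤ) : ℝ) / 100) +
        Real.log (((u + (bb g * n + cc g * (j : ℤ) + o) : ℤ) : ℝ) / 100)) -
      (n * Ub g ((u : ℝ) / n) + 6 * n * Real.log n)| ≤ C * Real.log (n + |(u : ℝ)|) := by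
  sorry

theorem G3_Lp : ∃ C : ℝ, 0 < C ∧ ∀ n : ℕ, 30 ≤ n → ∀ a b : ℕ, a ≤ b → b ≤ 12 → ∀ u : ℤ,
    |Lp n (Finset.Ico (a * (3 * n - 6)) (b * (3 * n - 6))) u -
      (n * ∑ g ∈ Finset.Ico a b, Ub g ((u : ℝ) / n) + 6 * (b - a) * n * Real.log n)| ≤ C * Real.log (n + |(u : ℝ)|) := by
  sorry

/-- the weight -/
theorem G4_weight : ∃ C : ℝ, 0 < C ∧ ∀ n : ℕ, 30 ≤ n → ∀ v : ℕ, 3 * n < v →
    |Real.log (wv n v) - n * phi (100 * (v : ℝ) / n)| ≤ C * Real.log (n + v) := by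
  sorry

/-- saturated part -/
theorem G5_sat : ∃ C : ℝ, 0 < C ∧ ∀ n : ℕ, 30 ≤ n →
    ∑ i ∈ Finset.range (9 * n - 1), (Real.log (wv n (3 * n + 1 + i)) + Lp n (Finset.range (9 * n - 1)) (100 * (3 * n + 1 + i))) ≤
      eS * (n : ℝ) ^ 2 + 162 * (n : ℝ) ^ 2 * Real.log n + C * n * Real.log n := by
  sorry

/-- energy of two bricks -/
theorem G6_pair : ∃ C : ℝ, 0 < C ∧ ∀ n : ℕ, 30 ≤ n → ∀ g < 12, ∀ h < 12, ∀ o : ℤ, 0 ≤ o → o ≤ 1 →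
    |∑ j ∈ Finset.range (3 * n - 6), Lp n (Finset.Ico (h * (3 * n - 6)) ((h + 1) * (3 * n - 6)))
        (bb g * n + cc g * (j : ℤ) + o) -
      (en g h * (n : ℝ) ^ 2 + 18 * (n : ℝ) ^ 2 * Real.log n)| ≤ C * n * Real.log n := by
  sorry

/-- cross energies cancel: `½ log` of the four products -/
theorem G6_cross {n : ℕ} (hn : 30 ≤ n) :
    (Real.log (VD (Finset.range (36 * n - 72)) (zq n)) + Real.log (VD (Finset.range (12 * n - 24)) (zq n)) +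
      Real.log (VD (Finset.Ico (12 * n - 24) (24 * n - 48)) (zq n)) +
      Real.log (VD (Finset.Ico (24 * n - 48) (36 * n - 72)) (zq n))) / 2 ≥
    ∑ i ∈ Finset.range (9 * n - 1), (Lp n (Finset.range (36 * n - 72)) (nd n i) + Lp n (Finset.range (12 * n - 24)) (nd n i)
      - Lp n (Finset.range (9 * n - 1)) (nd n i)) +
    ∑ i ∈ Finset.Ico (9 * n - 1) (12 * n - 24), Lp n (Finset.Ico (9 * n - 1) (36 * n - 72)) (nd n i) +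
    ∑ i ∈ Finset.Ico (12 * n - 24) (24 * n - 48), Lp n (Finset.Ico (12 * n - 24) (36 * n - 72)) (nd n i) +
    ∑ i ∈ Finset.Ico (24 * n - 48) (36 * n - 72), Lp n (Finset.Ico (24 * n - 48) (36 * n - 72)) (nd n i)
      - 100 * n * Real.log (100 * n) := by
  sorry

/-! #### Certificates (numerical values: `sup FN = -201.336` on `[1200,∞)` at `w = 1525.6`, `inf FN = -201.374` on
`[300,1200]` at `w = 1200`, `sup FY = 67.666` at `w = ±44.463`, `eS = -2725.152`, `eN = -528.022`) -/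

theorem V1_upper (w : ℝ) (h1 : 1200 ≤ w) : FN w ≤ -201 := by
  sorry

/-- decay -/
theorem V1_tail (w : ℝ) (h1 : 10000 ≤ w) : FN w ≤ -201 - 4 * (Real.log w - Real.log 10000) := by
  sorry

theorem V2_lower (w : ℝ) (h0 : 300 ≤ w) (h1 : w ≤ 1200) : -202 ≤ FN w := by
  sorry

theorem V3_upperY (w : ℝ) (h0 : -100 ≤ w) (h1 : w ≤ 100) : FY w ≤ 68 := by
  sorry

theorem V4_eS : eS ≤ -2725 := by
  sorry

theorem V5_eN : -529 ≤ eN := by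
  sorry

/-- **the archimedean part** -/
theorem A_main (α β γ : ℕ → ℚ) (θ₁ θ₂ : ℝ)
    (h : ∀ i, Odd i → 3 ≤ i → i ≤ 75 → zr i = (α i : ℝ) + θ₁ * (β i : ℝ) + θ₂ * (γ i : ℝ)) :
    ∀ᶠ n : ℕ in atTop, DD n α β γ ≠ 0 →
    Real.log |((DD n α β γ : ℚ) : ℝ)| ≤ 1728 * (n : ℝ) ^ 2 * Real.log n - 1157 * (n : ℝ) ^ 2 := by
  sorry

/-! ### H. Non-vanishing (`n = 2p`) -/

theorem H2_pa {p : ℕ} [Fact p.Prime] (hp : 100 ≤ p) (r : ℕ) (hr1 : 1 ≤ r) (hr2 : 2 * r < p) :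
    ∃ w : ℚ, padicNorm p w = 1 ∧ ∀ e j i : ℕ, e ≤ 190 → 4 ≤ j → j ≤ 7 → 1 ≤ i → i ≤ 76 →
      padicNorm p (pa (sM (2 * p)) mM (PM (2 * p) * EM (2 * p) (XN (2 * p) r ^ e * OT p r 192)) (r + j * p) i
        / (p : ℚ) ^ (i + e) -
        w * (-2 * r) ^ e * PowerSeries.coeff (76 - i) (ser j e)) ≤ (p : ℚ)⁻¹ := by
  sorry

theorem H3_diag {p : ℕ} [Fact p.Prime] (hp : 100 ≤ p) (α β : ℕ → ℚ) (hα : ∀ i, padicNorm p (α i) ≤ 1)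
    (hβ : ∀ i, padicNorm p (β i) ≤ 1) (i0 : ℕ) (hi0 : i0 = 3 ∨ i0 = 5 ∨ i0 = 7 ∨ i0 = 9) (hβ0 : ∀ i < i0, β i = 0)
    (r : ℕ) (hr1 : 1 ≤ r) (hr2 : 2 * r < p) :
    ∃ w : ℚ, padicNorm p w = 1 ∧ ∀ e : ℕ, e ≤ 190 →
      padicNorm p ((p : ℚ) ^ (-(e : ℤ)) * AL (2 * p) α (XN (2 * p) r ^ e * OT p r 192) -
        w * (-2 * r) ^ e * Fm e) ≤ (p : ℚ)⁻¹ ∧
      padicNorm p ((p : ℚ) ^ (-(e : ℤ) - i0) * BL (2 * p) β (XN (2 * p) r ^ e * OT p r 192) -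
        w * (-2 * r) ^ e * (β i0 * Bm i0 e)) ≤ (p : ℚ)⁻¹ := by
  sorry

theorem H4_offdiag {p : ℕ} [Fact p.Prime] (hp : 100 ≤ p) (α β : ℕ → ℚ) (hα : ∀ i, padicNorm p (α i) ≤ 1)
    (hβ : ∀ i, padicNorm p (β i) ≤ 1) (i0 : ℕ) (hi0 : i0 = 3 ∨ i0 = 5 ∨ i0 = 7 ∨ i0 = 9) (hβ0 : ∀ i < i0, β i = 0)
    (r s l l' : ℕ) (hr1 : 1 ≤ r) (hr2 : 2 * r < p) (hs1 : 1 ≤ s) (hs2 : 2 * s < p) (hrs : r ≠ s)
    (hl : l < 144) (hl' : l' < 48) :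
    padicNorm p ((p : ℚ) ^ (-(l : ℤ) - (l' : ℤ)) * AL (2 * p) α
      ((XN (2 * p) r ^ l * OT p r 144) * (XN (2 * p) s ^ l' * OT p s 48))) ≤ (p : ℚ)⁻¹ ∧
    padicNorm p ((p : ℚ) ^ (-(l : ℤ) - (l' : ℤ) - i0) * BL (2 * p) β
      ((XN (2 * p) r ^ l * OT p r 144) * (XN (2 * p) s ^ l' * OT p s 48))) ≤ (p : ℚ)⁻¹ := by
  sorry

theorem H5_local (i1 i2 : ℕ) (h1 : i1 = 3 ∨ i1 = 5 ∨ i1 = 7) (h2 : i2 = 5 ∨ i2 = 7 ∨ i2 = 9) (h12 : i1 < i2) :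
    (Matrix.of fun l l' : Fin 144 => if l'.1 < 48 then Fm (l.1 + l'.1)
      else if l'.1 < 96 then Bm i1 (l.1 + (l'.1 - 48)) else Bm i2 (l.1 + (l'.1 - 96))).det ≠ 0 := by
  sorry

theorem H6_nonvanish (α β γ : ℕ → ℚ) (q : ℕ) (hα : UInt q α) (hβ : UInt q β) (hγ : UInt q γ) (i1 i2 : ℕ)
    (h1 : i1 = 3 ∨ i1 = 5 ∨ i1 = 7) (h2 : i2 = 5 ∨ i2 = 7 ∨ i2 = 9) (h12 : i1 < i2)
    (hβ0 : ∀ i < i1, β i = 0) (hβ1 : β i1 ≠ 0) (hγ0 : ∀ i < i2, γ i = 0) (hγ1 : γ i2 ≠ 0) :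
    ∃ p0 : ℕ, ∀ p : ℕ, p0 ≤ p → p.Prime → DD (2 * p) α β γ ≠ 0 := by
  sorry

/-! ### Z. Conclusion -/

theorem Z1_dim (h9 : 3 ≤ Module.finrank ℚ (Submodule.span ℚ
      (Set.range fun i : Fin 5 => if i.1 = 0 then (1 : ℝ) else zr (2 * i.1 + 1))))
    (h : Module.finrank ℚ (Submodule.span ℚ (Set.range fun i : Fin 38 => if i.1 = 0 then (1 : ℝ) else zr (2 * i.1 + 1))) < 4) :
    ∃ (θ₁ θ₂ : ℝ) (α β γ : ℕ → ℚ) (q i1 i2 : ℕ), UInt q α ∧ UInt q β ∧ UInt q γ ∧ (i1 = 3 ∨ i1 = 5 ∨ i1 = 7) ∧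
      (i2 = 5 ∨ i2 = 7 ∨ i2 = 9) ∧ i1 < i2 ∧ (∀ i < i1, β i = 0) ∧ β i1 ≠ 0 ∧ (∀ i < i2, γ i = 0) ∧ γ i2 ≠ 0 ∧
      (∀ i, Odd i → 3 ≤ i → i ≤ 75 → zr i = (α i : ℝ) + θ₁ * (β i : ℝ) + θ₂ * (γ i : ℝ)) := by
  sorry

theorem Z_main (h9 : 3 ≤ Module.finrank ℚ (Submodule.span ℚ
      (Set.range fun i : Fin 5 => if i.1 = 0 then (1 : ℝ) else zr (2 * i.1 + 1)))) :
    4 ≤ Module.finrank ℚ (Submodule.span ℚ (Set.range fun i : Fin 38 => if i.1 = 0 then (1 : ℝ) else zr (2 * i.1 + 1))) := by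
  sorry

end

end Pool.Agent.H574R2.Q4
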