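import Pool.Agent.H574R2.Q4.Defs

/-! Certificates for the potential `FN`, `w ≥ 1200` (task V1, helper680, adapted from `Pool.Agent.H574R2.D9.V1`). -/

open Polynomial Pool.Agent.H337R2

namespace Pool.Agent.H574R2.Q4

namespace V1

/-- the list of the potential, step `1`, denominator `35700` -/
def lF : List (ℤ × ℤ) :=
  [(1050, -1404), (-336, -1200), (-357, -300), (-27489, -100), (8925, -81), (1275, -57), (1700, -36), (-1700, 36), (-1275, 57), (-8925, 81), (27489, 100), (357, 300), (336, 1200), (-1050, 1404)]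

lemma FN_eq (w : ℝ) : FN w = (252 * Real.log 2 + 104 * Real.log 5 - 148) +
    EF 35700 1 lF w := by
  have h100 : Real.log 100 = 2 * Real.log 2 + 2 * Real.log 5 := by
    rw [show (100 : ℝ) = 2 ^ 2 * 5 ^ 2 by norm_num, Real.log_mul (by norm_num) (by norm_num), Real.log_pow, Real.log_pow]
    norm_num
  unfold FN phi
  simp only [Finset.sum_range_succ, Finset.sum_range_zero, Ub, bb, cc, h100, EF, lF, List.map_cons, List.map_nil, List.sum_cons, List.sum_nil]
  norm_num
  ring_nf

lemma const_bounds : 252 * Real.log 2 + 104 * Real.log 5 - 148 ≤ 194055 / 1000 := by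
  have h2 := abs_le.mp (lnA_spec 2 (by norm_num) (by norm_num))
  have h5 := abs_le.mp (lnA_spec 5 (by norm_num) (by norm_num))
  have e2 : lnA 2 = 693147180560 := by decide +kernel
  have e5 : lnA 5 = 1609437912428 := by decide +kernel
  rw [e2] at h2
  rw [e5] at h5
  push_cast at h2 h5
  linarith [h2.1, h2.2, h5.1, h5.2]

lemma E_up (v : ℝ) (h1 : 1200 ≤ v) (h2 : v ≤ 10000) : EF 35700 1 lF v ≤ ((-395055 : ℝ) / 1000) := by
  have s0 : v ≤ (1232 : ℝ) → (1200 : ℝ) ≤ v → EF 35700 1 lF v ≤ ((-395055 : ℝ) / 1000) := fun ha hb =>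
    EF_le (Dc := 35700) (M := 1) (l := lF) (A := -14103463500000000000) (by norm_num) (by norm_num) (by norm_num) _ (by norm_num) (st := 32) (c := 1)
      (by norm_num) (x0 := 1200) (by decide +kernel) v (by norm_num; linarith) (by norm_num; linarith)
  have s1 : v ≤ (1360 : ℝ) → (1232 : ℝ) ≤ v → EF 35700 1 lF v ≤ ((-395055 : ℝ) / 1000) := fun ha hb =>
    EF_le (Dc := 35700) (M := 1) (l := lF) (A := -14103463500000000000) (by norm_num) (by norm_num) (by norm_num) _ (by norm_num) (st := 64) (c := 2)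
      (by norm_num) (x0 := 1232) (by decide +kernel) v (by norm_num; linarith) (by norm_num; linarith)
  have s2 : v ≤ (1392 : ℝ) → (1360 : ℝ) ≤ v → EF 35700 1 lF v ≤ ((-395055 : ℝ) / 1000) := fun ha hb =>
    EF_le (Dc := 35700) (M := 1) (l := lF) (A := -14103463500000000000) (by norm_num) (by norm_num) (by norm_num) _ (by norm_num) (st := 32) (c := 1)
      (by norm_num) (x0 := 1360) (by decide +kernel) v (by norm_num; linarith) (by norm_num; linarith)
  have s3 : v ≤ (1400 : ℝ) → (1392 : ℝ) ≤ v → EF 35700 1 lF v ≤ ((-395055 : ℝ) / 1000) := fun ha hb =>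
    EF_le (Dc := 35700) (M := 1) (l := lF) (A := -14103463500000000000) (by norm_num) (by norm_num) (by norm_num) _ (by norm_num) (st := 8) (c := 1)
      (by norm_num) (x0 := 1392) (by decide +kernel) v (by norm_num; linarith) (by norm_num; linarith)
  have s4 : v ≤ (1404 : ℝ) → (1400 : ℝ) ≤ v → EF 35700 1 lF v ≤ ((-395055 : ℝ) / 1000) := fun ha hb =>
    EF_le (Dc := 35700) (M := 1) (l := lF) (A := -14103463500000000000) (by norm_num) (by norm_num) (by norm_num) _ (by norm_num) (st := 4) (c := 1)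
      (by norm_num) (x0 := 1400) (by decide +kernel) v (by norm_num; linarith) (by norm_num; linarith)
  have s5 : v ≤ (1628 : ℝ) → (1404 : ℝ) ≤ v → EF 35700 1 lF v ≤ ((-395055 : ℝ) / 1000) := fun ha hb =>
    EF_le (Dc := 35700) (M := 1) (l := lF) (A := -14103463500000000000) (by norm_num) (by norm_num) (by norm_num) _ (by norm_num) (st := 32) (c := 7)
      (by norm_num) (x0 := 1404) (by decide +kernel) v (by norm_num; linarith) (by norm_num; linarith)
  have s6 : v ≤ (1820 : ℝ) → (1628 : ℝ) ≤ v → EF 35700 1 lF v ≤ ((-395055 : ℝ) / 1000) := fun ha hb =>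
    EF_le (Dc := 35700) (M := 1) (l := lF) (A := -14103463500000000000) (by norm_num) (by norm_num) (by norm_num) _ (by norm_num) (st := 64) (c := 3)
      (by norm_num) (x0 := 1628) (by decide +kernel) v (by norm_num; linarith) (by norm_num; linarith)
  have s7 : v ≤ (2204 : ℝ) → (1820 : ℝ) ≤ v → EF 35700 1 lF v ≤ ((-395055 : ℝ) / 1000) := fun ha hb =>
    EF_le (Dc := 35700) (M := 1) (l := lF) (A := -14103463500000000000) (by norm_num) (by norm_num) (by norm_num) _ (by norm_num) (st := 128) (c := 3)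
      (by norm_num) (x0 := 1820) (by decide +kernel) v (by norm_num; linarith) (by norm_num; linarith)
  have s8 : v ≤ (3228 : ℝ) → (2204 : ℝ) ≤ v → EF 35700 1 lF v ≤ ((-395055 : ℝ) / 1000) := fun ha hb =>
    EF_le (Dc := 35700) (M := 1) (l := lF) (A := -14103463500000000000) (by norm_num) (by norm_num) (by norm_num) _ (by norm_num) (st := 256) (c := 4)
      (by norm_num) (x0 := 2204) (by decide +kernel) v (by norm_num; linarith) (by norm_num; linarith)
  have s9 : v ≤ (5788 : ℝ) → (3228 : ℝ) ≤ v → EF 35700 1 lF v ≤ ((-395055 : ℝ) / 1000) := fun ha hb =>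
    EF_le (Dc := 35700) (M := 1) (l := lF) (A := -14103463500000000000) (by norm_num) (by norm_num) (by norm_num) _ (by norm_num) (st := 512) (c := 5)
      (by norm_num) (x0 := 3228) (by decide +kernel) v (by norm_num; linarith) (by norm_num; linarith)
  have s10 : v ≤ (10908 : ℝ) → (5788 : ℝ) ≤ v → EF 35700 1 lF v ≤ ((-395055 : ℝ) / 1000) := fun ha hb =>
    EF_le (Dc := 35700) (M := 1) (l := lF) (A := -14103463500000000000) (by norm_num) (by norm_num) (by norm_num) _ (by norm_num) (st := 1024) (c := 5)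
      (by norm_num) (x0 := 5788) (by decide +kernel) v (by norm_num; linarith) (by norm_num; linarith)
  rcases le_total v (1232 : ℝ) with k0 | k0
  · exact s0 k0 (by linarith)
  rcases le_total v (1360 : ℝ) with k1 | k1
  · exact s1 k1 (by linarith)
  rcases le_total v (1392 : ℝ) with k2 | k2
  · exact s2 k2 (by linarith)
  rcases le_total v (1400 : ℝ) with k3 | k3
  · exact s3 k3 (by linarith)
  rcases le_total v (1404 : ℝ) with k4 | k4
  · exact s4 k4 (by linarith)
  rcases le_total v (1628 : ℝ) with k5 | k5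
  · exact s5 k5 (by linarith)
  rcases le_total v (1820 : ℝ) with k6 | k6
  · exact s6 k6 (by linarith)
  rcases le_total v (2204 : ℝ) with k7 | k7
  · exact s7 k7 (by linarith)
  rcases le_total v (3228 : ℝ) with k8 | k8
  · exact s8 k8 (by linarith)
  rcases le_total v (5788 : ℝ) with k9 | k9
  · exact s9 k9 (by linarith)
  exact s10 (by linarith) (by linarith)

lemma Psi_up (w k : ℝ) (hw : 0 < w) (hk : 0 < w - k) :
    Psi (w - k) ≤ Psi w - k * Real.log w + k ^ 2 * (1 / w) := by
  have h1 : Real.log ((w - k) / w) ≤ (w - k) / w - 1 :=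
    Real.log_le_sub_one_of_pos (div_pos hk hw)
  rw [Real.log_div hk.ne' hw.ne'] at h1
  have h2 := mul_le_mul_of_nonneg_left h1 hk.le
  have h3 : (w - k) * ((w - k) / w - 1) = -k + k ^ 2 * (1 / w) := by
    field_simp
    ring
  rw [h3] at h2
  unfold Psi
  linarith [h2, mul_sub (w - k) (Real.log (w - k)) (Real.log w)]

lemma Psi_lo (w k : ℝ) (hw : 0 < w) (hk : 0 < w - k) :
    Psi w - k * Real.log w ≤ Psi (w - k) := by
  have h1 : Real.log (w / (w - k)) ≤ w / (w - k) - 1 :=
    Real.log_le_sub_one_of_pos (div_pos hw hk)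
  rw [Real.log_div hw.ne' hk.ne'] at h1
  have h2 := mul_le_mul_of_nonneg_left h1 hk.le
  have h3 : (w - k) * (w / (w - k) - 1) = k := by
    field_simp
    ring
  rw [h3] at h2
  unfold Psi
  linarith [h2, mul_sub (w - k) (Real.log w) (Real.log (w - k))]

lemma E_tail (w : ℝ) (h1 : 10000 ≤ w) : EF 35700 1 lF w + 52 * Real.log w ≤ 9 := by
  have hw : 0 < w := by linarith
  have hiw : 1 / w ≤ 1 / 10000 := one_div_le_one_div_of_le (by norm_num) h1
  have t0 := Psi_up w (-1404) hw (by linarith)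
  have t1 := Psi_lo w (-1200) hw (by linarith)
  have t2 := Psi_lo w (-300) hw (by linarith)
  have t3 := Psi_lo w (-100) hw (by linarith)
  have t4 := Psi_up w (-81) hw (by linarith)
  have t5 := Psi_up w (-57) hw (by linarith)
  have t6 := Psi_up w (-36) hw (by linarith)
  have t7 := Psi_lo w (36) hw (by linarith)
  have t8 := Psi_lo w (57) hw (by linarith)
  have t9 := Psi_lo w (81) hw (by linarith)
  have t10 := Psi_up w (100) hw (by linarith)
  have t11 := Psi_up w (300) hw (by linarith)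
  have t12 := Psi_up w (1200) hw (by linarith)
  have t13 := Psi_lo w (1404) hw (by linarith)
  have e : EF 35700 1 lF w = ((1050 : ℝ) / 35700) * Psi (w - (-1404)) +
    ((-336 : ℝ) / 35700) * Psi (w - (-1200)) +
    ((-357 : ℝ) / 35700) * Psi (w - (-300)) +
    ((-27489 : ℝ) / 35700) * Psi (w - (-100)) +
    ((8925 : ℝ) / 35700) * Psi (w - (-81)) +
    ((1275 : ℝ) / 35700) * Psi (w - (-57)) +
    ((1700 : ℝ) / 35700) * Psi (w - (-36)) +
    ((-1700 : ℝ) / 35700) * Psi (w - (36)) +
    ((-1275 : ℝ) / 35700) * Psi (w - (57)) +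
    ((-8925 : ℝ) / 35700) * Psi (w - (81)) +
    ((27489 : ℝ) / 35700) * Psi (w - (100)) +
    ((357 : ℝ) / 35700) * Psi (w - (300)) +
    ((336 : ℝ) / 35700) * Psi (w - (1200)) +
    ((-1050 : ℝ) / 35700) * Psi (w - (1404)) := by
    simp only [EF, lF, List.map_cons, List.map_nil, List.sum_cons, List.sum_nil]
    norm_num
    ring_nf
  rw [e]
  have m0 := mul_le_mul_of_nonneg_left t0 (by norm_num : (0 : ℝ) ≤ 1050 / 35700)
  have m1 := mul_le_mul_of_nonneg_left t1 (by norm_num : (0 : ℝ) ≤ 336 / 35700)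
  have m2 := mul_le_mul_of_nonneg_left t2 (by norm_num : (0 : ℝ) ≤ 357 / 35700)
  have m3 := mul_le_mul_of_nonneg_left t3 (by norm_num : (0 : ℝ) ≤ 27489 / 35700)
  have m4 := mul_le_mul_of_nonneg_left t4 (by norm_num : (0 : ℝ) ≤ 8925 / 35700)
  have m5 := mul_le_mul_of_nonneg_left t5 (by norm_num : (0 : ℝ) ≤ 1275 / 35700)
  have m6 := mul_le_mul_of_nonneg_left t6 (by norm_num : (0 : ℝ) ≤ 1700 / 35700)
  have m7 := mul_le_mul_of_nonneg_left t7 (by norm_num : (0 : ℝ) ≤ 1700 / 35700)
  have m8 := mul_le_mul_of_nonneg_left t8 (by norm_num : (0 : ℝ) ≤ 1275 / 35700)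
  have m9 := mul_le_mul_of_nonneg_left t9 (by norm_num : (0 : ℝ) ≤ 8925 / 35700)
  have m10 := mul_le_mul_of_nonneg_left t10 (by norm_num : (0 : ℝ) ≤ 27489 / 35700)
  have m11 := mul_le_mul_of_nonneg_left t11 (by norm_num : (0 : ℝ) ≤ 357 / 35700)
  have m12 := mul_le_mul_of_nonneg_left t12 (by norm_num : (0 : ℝ) ≤ 336 / 35700)
  have m13 := mul_le_mul_of_nonneg_left t13 (by norm_num : (0 : ℝ) ≤ 1050 / 35700)
  linarith [m0, m1, m2, m3, m4, m5, m6, m7, m8, m9, m10, m11, m12, m13]

end V1

open V1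

/-- decay -/
theorem V1_tail (w : ℝ) (h1 : 10000 ≤ w) : FN w ≤ -201 - 4 * (Real.log w - Real.log 10000) := by
  rw [FN_eq]
  have h := E_tail w h1
  have hc := const_bounds
  have h2 := abs_le.mp (lnA_spec 2 (by norm_num) (by norm_num))
  have h5 := abs_le.mp (lnA_spec 5 (by norm_num) (by norm_num))
  have e2 : lnA 2 = 693147180560 := by decide +kernel
  have e5 : lnA 5 = 1609437912428 := by decide +kernel
  rw [e2] at h2
  rw [e5] at h5
  push_cast at h2 h5
  have h10 : Real.log 10000 = 4 * Real.log 2 + 4 * Real.log 5 := by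
    rw [show (10000 : ℝ) = 2 ^ 4 * 5 ^ 4 by norm_num, Real.log_mul (by norm_num) (by norm_num), Real.log_pow, Real.log_pow]
    norm_num
  have h3 : Real.log 10000 ≤ Real.log w := Real.log_le_log (by norm_num) h1
  rw [h10] at h3 ⊢
  linarith [h2.1, h2.2, h5.1, h5.2, hc]

theorem V1_upper (w : ℝ) (h1 : 1200 ≤ w) : FN w ≤ -201 := by
  rcases le_total w 10000 with h | h
  · rw [FN_eq]
    linarith [E_up w h1 h, const_bounds]
  · have h2 := V1_tail w h
    have h3 : Real.log 10000 ≤ Real.log w := Real.log_le_log (by norm_num) h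
    linarith

end Pool.Agent.H574R2.Q4
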