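import Pool.Agent.H574R2.Q4.Defs

/-! # The lower bound for `FN` on `[300, 1200]` (adapted from `Pool.Agent.H574R2.D9.V2`) (helper202) -/

open Polynomial Pool.Agent.H337R2

namespace Pool.Agent.H574R2.Q4

namespace V2

/-- the list of `-FN` -/
def vl : List (ℤ × ℤ) := [(-1050, -1404), (336, -1200), (357, -300), (27489, -100), (-8925, -81), (-1275, -57), (-1700, -36), (1700, 36), (1275, 57), (8925, 81), (-27489, 100), (-357, 300), (-336, 1200), (1050, 1404)]

/-- the integer bound -/
def vA : ℤ := 14139149220000000000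

theorem FN_eq (w : ℝ) : FN w = - EF 35700 1 vl w +
    (252 * Real.log 2 + 104 * Real.log 5 - 148) := by
  have l100 : Real.log 100 = 2 * Real.log 2 + 2 * Real.log 5 := by
    rw [show (100 : ℝ) = 2 ^ 2 * 5 ^ 2 by norm_num, Real.log_mul (by norm_num) (by norm_num),
      Real.log_pow, Real.log_pow]
    push_cast; ring
  have u0 : Ub 0 w = ((Psi (w - 300) - Psi (w - 600)) + (Psi (w + 600) - Psi (w + 300))) / 100 -
      6 * Real.log 100 := by
    unfold Ub bb cc; norm_num [sub_sub, add_assoc]
  have u1 : Ub 1 w = ((Psi (w - 600) - Psi (w - 900)) + (Psi (w + 900) - Psi (w + 600))) / 100 -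
      6 * Real.log 100 := by
    unfold Ub bb cc; norm_num [sub_sub, add_assoc]
  have u2 : Ub 2 w = ((Psi (w - 900) - Psi (w - 1200)) + (Psi (w + 1200) - Psi (w + 900))) / 100 -
      6 * Real.log 100 := by
    unfold Ub bb cc; norm_num [sub_sub, add_assoc]
  have u3 : Ub 3 w = ((Psi (w - 1200) - Psi (w - 1404)) + (Psi (w + 1404) - Psi (w + 1200))) / 68 -
      6 * Real.log 100 := by
    unfold Ub bb cc; norm_num [sub_sub, add_assoc]
  have u4 : Ub 4 w = ((Psi w - Psi (w - 18)) + (Psi (w + 18) - Psi w)) / 6 -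
      6 * Real.log 100 := by
    unfold Ub bb cc; norm_num [sub_sub, add_assoc]
  have u5 : Ub 5 w = ((Psi (w - 18) - Psi (w - 36)) + (Psi (w + 36) - Psi (w + 18))) / 6 -
      6 * Real.log 100 := by
    unfold Ub bb cc; norm_num [sub_sub, add_assoc]
  have u6 : Ub 6 w = ((Psi (w - 36) - Psi (w - 57)) + (Psi (w + 57) - Psi (w + 36))) / 7 -
      6 * Real.log 100 := by
    unfold Ub bb cc; norm_num [sub_sub, add_assoc]
  have u7 : Ub 7 w = ((Psi (w - 57) - Psi (w - 81)) + (Psi (w + 81) - Psi (w + 57))) / 8 -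
      6 * Real.log 100 := by
    unfold Ub bb cc; norm_num [sub_sub, add_assoc]
  have hR : ∑ g ∈ Finset.range 8, Ub g w = Ub 0 w + Ub 1 w + Ub 2 w + Ub 3 w + Ub 4 w + Ub 5 w +
      Ub 6 w + Ub 7 w := by
    simp [Finset.sum_range_succ]
  have hE : EF 35700 1 vl w = ((-1050) * Psi (w + 1404) + (336) * Psi (w + 1200) + (357) * Psi (w + 300) + (27489) * Psi (w + 100) + (-8925) * Psi (w + 81) + (-1275) * Psi (w + 57) + (-1700) * Psi (w + 36) + (1700) * Psi (w - 36) + (1275) * Psi (w - 57) + (8925) * Psi (w - 81) + (-27489) * Psi (w - 100) + (-357) * Psi (w - 300) + (-336) * Psi (w - 1200) + (1050) * Psi (w - 1404)) / 35700 := by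
    unfold EF vl
    simp only [List.map_cons, List.map_nil, List.sum_cons, List.sum_nil]
    push_cast
    norm_num
    ring
  unfold FN phi
  rw [hR, hE, u0, u1, u2, u3, u4, u5, u6, u7, l100]
  ring

theorem c1 : cellOK 1 vl vA 300 546 = true := by decide +kernel
theorem c2 : cellOK 1 vl vA 546 792 = true := by decide +kernel
theorem c3 : cellOK 1 vl vA 792 990 = true := by decide +kernel
theorem c4 : cellOK 1 vl vA 990 1123 = true := by decide +kernel
theorem c5 : cellOK 1 vl vA 1123 1190 = true := by decide +kernel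
theorem c6 : cellOK 1 vl vA 1190 1200 = true := by decide +kernel

theorem cell {x0 x1 : ℤ} (h : cellOK 1 vl vA x0 x1 = true) (w : ℝ) (h0 : (x0 : ℝ) ≤ w)
    (h1 : w ≤ x1) : EF 35700 1 vl w ≤ 1980273 / 5000 := by
  have := cellOK_spec (Dc := 35700) (by norm_num) (by norm_num) (by norm_num) h
    (1980273 / 5000) (by unfold vA; norm_num) w h0 h1
  have e : w / ((1 : ℕ) : ℝ) = w := by push_cast; ring
  rwa [e] at this

theorem EF_bound (w : ℝ) (h0 : 300 ≤ w) (h1 : w ≤ 1200) :
    EF 35700 1 vl w ≤ 1980273 / 5000 := by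
  rcases le_or_gt w 546 with k1 | k1
  · exact cell c1 w (by push_cast; linarith) (by push_cast; linarith)
  rcases le_or_gt w 792 with k2 | k2
  · exact cell c2 w (by push_cast; linarith) (by push_cast; linarith)
  rcases le_or_gt w 990 with k3 | k3
  · exact cell c3 w (by push_cast; linarith) (by push_cast; linarith)
  rcases le_or_gt w 1123 with k4 | k4
  · exact cell c4 w (by push_cast; linarith) (by push_cast; linarith)
  rcases le_or_gt w 1190 with k5 | k5
  · exact cell c5 w (by push_cast; linarith) (by push_cast; linarith)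
  exact cell c6 w (by push_cast; linarith) (by push_cast; linarith)

theorem log_low (j : ℕ) (hj : 1 ≤ j) (hj2 : j < 2 ^ 20) (v : ℤ) (h : lnA j = v) :
    (v : ℝ) - 20000 ≤ 10 ^ 12 * Real.log j := by
  have := lnA_spec j hj hj2
  rw [abs_le, h] at this
  simp only [lnE] at this
  push_cast at this
  linarith [this.1]

end V2

theorem V2_lower (w : ℝ) (h0 : 300 ≤ w) (h1 : w ≤ 1200) : -202 ≤ FN w := by
  have hE := V2.EF_bound w h0 h1
  have l2 := V2.log_low 2 (by norm_num) (by norm_num) 693147180560 (by decide +kernel)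
  have l5 := V2.log_low 5 (by norm_num) (by norm_num) 1609437912428 (by decide +kernel)
  push_cast at l2 l5
  rw [V2.FN_eq]
  linarith

end Pool.Agent.H574R2.Q4
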