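import Pool.Agent.H574R2.Q4.Defs

/-! Task V3: certificate for the potential `FY` on `[-100, 100]`. -/

open Polynomial Pool.Agent.H337R2

namespace Pool.Agent.H574R2.Q4

namespace TV3

/-- the list of the potential, step `1`, denominator `23800` -/
def lY : List (ℤ × ℤ) :=
  [(350, -1404), (-112, -1200), (-18326, -100), (8925, -81), (1275, -57), (1700, -36), (-1700, 36), (-1275, 57), (-8925, 81), (18326, 100), (112, 1200), (-350, 1404)]

lemma FY_eq (w : ℝ) : FY w = (444 * Real.log 2 + 296 * Real.log 5 - 148 - 96 * Real.log 100) +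
    EF 23800 1 lY w := by
  unfold FY phi Ub
  simp only [EF, lY, List.map_cons, List.map_nil, List.sum_cons, List.sum_nil,
    Finset.sum_range_succ, Finset.sum_range_zero, Finset.sum_Ico_eq_sum_range, bb, cc]
  norm_num
  ring_nf

lemma const_bound : 444 * Real.log 2 + 296 * Real.log 5 - 148 - 96 * Real.log 100 ≤ 1940547 / 10000 := by
  have h2 := abs_le.mp (lnA_spec 2 (by norm_num) (by norm_num))
  have h5 := abs_le.mp (lnA_spec 5 (by norm_num) (by norm_num))
  have h100 := abs_le.mp (lnA_spec 100 (by norm_num) (by norm_num))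
  have e2 : lnA 2 = 693147180560 := by decide +kernel
  have e5 : lnA 5 = 1609437912428 := by decide +kernel
  have e100 : lnA 100 = 4605170186006 := by decide +kernel
  rw [e2] at h2
  rw [e5] at h5
  rw [e100] at h100
  push_cast at h2 h5 h100
  linarith [h2.1, h2.2, h5.1, h5.2, h100.1, h100.2]

lemma E_up (v : ℝ) (h1 : -100 ≤ v) (h2 : v ≤ 100) : EF 23800 1 lY v ≤ ((-1260547 : ℝ) / 10000) := by
  have s0 : v ≤ (-92 : ℝ) / 1 → (-100 : ℝ) / 1 ≤ v → EF 23800 1 lY v ≤ ((-1260547 : ℝ) / 10000) := fun ha hb =>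
    EF_le (Dc := 23800) (M := 1) (l := lY) (A := -3000101860000000000) (by norm_num) (by norm_num) (by norm_num) _ (by norm_num) (st := 8) (c := 1)
      (by norm_num) (x0 := -100) (by decide +kernel) v (by norm_num; linarith) (by norm_num; linarith)
  have s1 : v ≤ (-88 : ℝ) / 1 → (-92 : ℝ) / 1 ≤ v → EF 23800 1 lY v ≤ ((-1260547 : ℝ) / 10000) := fun ha hb =>
    EF_le (Dc := 23800) (M := 1) (l := lY) (A := -3000101860000000000) (by norm_num) (by norm_num) (by norm_num) _ (by norm_num) (st := 4) (c := 1)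
      (by norm_num) (x0 := -92) (by decide +kernel) v (by norm_num; linarith) (by norm_num; linarith)
  have s2 : v ≤ (-82 : ℝ) / 1 → (-88 : ℝ) / 1 ≤ v → EF 23800 1 lY v ≤ ((-1260547 : ℝ) / 10000) := fun ha hb =>
    EF_le (Dc := 23800) (M := 1) (l := lY) (A := -3000101860000000000) (by norm_num) (by norm_num) (by norm_num) _ (by norm_num) (st := 2) (c := 3)
      (by norm_num) (x0 := -88) (by decide +kernel) v (by norm_num; linarith) (by norm_num; linarith)
  have s3 : v ≤ (-81 : ℝ) / 1 → (-82 : ℝ) / 1 ≤ v → EF 23800 1 lY v ≤ ((-1260547 : ℝ) / 10000) := fun ha hb =>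
    EF_le (Dc := 23800) (M := 1) (l := lY) (A := -3000101860000000000) (by norm_num) (by norm_num) (by norm_num) _ (by norm_num) (st := 1) (c := 1)
      (by norm_num) (x0 := -82) (by decide +kernel) v (by norm_num; linarith) (by norm_num; linarith)
  have s4 : v ≤ (-65 : ℝ) / 1 → (-81 : ℝ) / 1 ≤ v → EF 23800 1 lY v ≤ ((-1260547 : ℝ) / 10000) := fun ha hb =>
    EF_le (Dc := 23800) (M := 1) (l := lY) (A := -3000101860000000000) (by norm_num) (by norm_num) (by norm_num) _ (by norm_num) (st := 8) (c := 2)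
      (by norm_num) (x0 := -81) (by decide +kernel) v (by norm_num; linarith) (by norm_num; linarith)
  have s5 : v ≤ (-37 : ℝ) / 1 → (-65 : ℝ) / 1 ≤ v → EF 23800 1 lY v ≤ ((-1260547 : ℝ) / 10000) := fun ha hb =>
    EF_le (Dc := 23800) (M := 1) (l := lY) (A := -3000101860000000000) (by norm_num) (by norm_num) (by norm_num) _ (by norm_num) (st := 4) (c := 7)
      (by norm_num) (x0 := -65) (by decide +kernel) v (by norm_num; linarith) (by norm_num; linarith)
  have s6 : v ≤ (-36 : ℝ) / 1 → (-37 : ℝ) / 1 ≤ v → EF 23800 1 lY v ≤ ((-1260547 : ℝ) / 10000) := fun ha hb =>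
    EF_le (Dc := 23800) (M := 1) (l := lY) (A := -3000101860000000000) (by norm_num) (by norm_num) (by norm_num) _ (by norm_num) (st := 1) (c := 1)
      (by norm_num) (x0 := -37) (by decide +kernel) v (by norm_num; linarith) (by norm_num; linarith)
  have s7 : v ≤ (-28 : ℝ) / 1 → (-36 : ℝ) / 1 ≤ v → EF 23800 1 lY v ≤ ((-1260547 : ℝ) / 10000) := fun ha hb =>
    EF_le (Dc := 23800) (M := 1) (l := lY) (A := -3000101860000000000) (by norm_num) (by norm_num) (by norm_num) _ (by norm_num) (st := 8) (c := 1)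
      (by norm_num) (x0 := -36) (by decide +kernel) v (by norm_num; linarith) (by norm_num; linarith)
  have s8 : v ≤ (20 : ℝ) / 1 → (-28 : ℝ) / 1 ≤ v → EF 23800 1 lY v ≤ ((-1260547 : ℝ) / 10000) := fun ha hb =>
    EF_le (Dc := 23800) (M := 1) (l := lY) (A := -3000101860000000000) (by norm_num) (by norm_num) (by norm_num) _ (by norm_num) (st := 16) (c := 3)
      (by norm_num) (x0 := -28) (by decide +kernel) v (by norm_num; linarith) (by norm_num; linarith)
  have s9 : v ≤ (36 : ℝ) / 1 → (20 : ℝ) / 1 ≤ v → EF 23800 1 lY v ≤ ((-1260547 : ℝ) / 10000) := fun ha hb =>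
    EF_le (Dc := 23800) (M := 1) (l := lY) (A := -3000101860000000000) (by norm_num) (by norm_num) (by norm_num) _ (by norm_num) (st := 8) (c := 2)
      (by norm_num) (x0 := 20) (by decide +kernel) v (by norm_num; linarith) (by norm_num; linarith)
  have s10 : v ≤ (56 : ℝ) / 1 → (36 : ℝ) / 1 ≤ v → EF 23800 1 lY v ≤ ((-1260547 : ℝ) / 10000) := fun ha hb =>
    EF_le (Dc := 23800) (M := 1) (l := lY) (A := -3000101860000000000) (by norm_num) (by norm_num) (by norm_num) _ (by norm_num) (st := 4) (c := 5)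
      (by norm_num) (x0 := 36) (by decide +kernel) v (by norm_num; linarith) (by norm_num; linarith)
  have s11 : v ≤ (57 : ℝ) / 1 → (56 : ℝ) / 1 ≤ v → EF 23800 1 lY v ≤ ((-1260547 : ℝ) / 10000) := fun ha hb =>
    EF_le (Dc := 23800) (M := 1) (l := lY) (A := -3000101860000000000) (by norm_num) (by norm_num) (by norm_num) _ (by norm_num) (st := 1) (c := 1)
      (by norm_num) (x0 := 56) (by decide +kernel) v (by norm_num; linarith) (by norm_num; linarith)
  have s12 : v ≤ (65 : ℝ) / 1 → (57 : ℝ) / 1 ≤ v → EF 23800 1 lY v ≤ ((-1260547 : ℝ) / 10000) := fun ha hb =>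
    EF_le (Dc := 23800) (M := 1) (l := lY) (A := -3000101860000000000) (by norm_num) (by norm_num) (by norm_num) _ (by norm_num) (st := 4) (c := 2)
      (by norm_num) (x0 := 57) (by decide +kernel) v (by norm_num; linarith) (by norm_num; linarith)
  have s13 : v ≤ (81 : ℝ) / 1 → (65 : ℝ) / 1 ≤ v → EF 23800 1 lY v ≤ ((-1260547 : ℝ) / 10000) := fun ha hb =>
    EF_le (Dc := 23800) (M := 1) (l := lY) (A := -3000101860000000000) (by norm_num) (by norm_num) (by norm_num) _ (by norm_num) (st := 8) (c := 2)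
      (by norm_num) (x0 := 65) (by decide +kernel) v (by norm_num; linarith) (by norm_num; linarith)
  have s14 : v ≤ (97 : ℝ) / 1 → (81 : ℝ) / 1 ≤ v → EF 23800 1 lY v ≤ ((-1260547 : ℝ) / 10000) := fun ha hb =>
    EF_le (Dc := 23800) (M := 1) (l := lY) (A := -3000101860000000000) (by norm_num) (by norm_num) (by norm_num) _ (by norm_num) (st := 4) (c := 4)
      (by norm_num) (x0 := 81) (by decide +kernel) v (by norm_num; linarith) (by norm_num; linarith)
  have s15 : v ≤ (99 : ℝ) / 1 → (97 : ℝ) / 1 ≤ v → EF 23800 1 lY v ≤ ((-1260547 : ℝ) / 10000) := fun ha hb =>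
    EF_le (Dc := 23800) (M := 1) (l := lY) (A := -3000101860000000000) (by norm_num) (by norm_num) (by norm_num) _ (by norm_num) (st := 2) (c := 1)
      (by norm_num) (x0 := 97) (by decide +kernel) v (by norm_num; linarith) (by norm_num; linarith)
  have s16 : v ≤ (100 : ℝ) / 1 → (99 : ℝ) / 1 ≤ v → EF 23800 1 lY v ≤ ((-1260547 : ℝ) / 10000) := fun ha hb =>
    EF_le (Dc := 23800) (M := 1) (l := lY) (A := -3000101860000000000) (by norm_num) (by norm_num) (by norm_num) _ (by norm_num) (st := 1) (c := 1)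
      (by norm_num) (x0 := 99) (by decide +kernel) v (by norm_num; linarith) (by norm_num; linarith)
  rcases le_total v ((-92 : ℝ) / 1) with k0 | k0
  · exact s0 k0 (by norm_num; linarith)
  rcases le_total v ((-88 : ℝ) / 1) with k1 | k1
  · exact s1 k1 (by linarith)
  rcases le_total v ((-82 : ℝ) / 1) with k2 | k2
  · exact s2 k2 (by linarith)
  rcases le_total v ((-81 : ℝ) / 1) with k3 | k3
  · exact s3 k3 (by linarith)
  rcases le_total v ((-65 : ℝ) / 1) with k4 | k4
  · exact s4 k4 (by linarith)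
  rcases le_total v ((-37 : ℝ) / 1) with k5 | k5
  · exact s5 k5 (by linarith)
  rcases le_total v ((-36 : ℝ) / 1) with k6 | k6
  · exact s6 k6 (by linarith)
  rcases le_total v ((-28 : ℝ) / 1) with k7 | k7
  · exact s7 k7 (by linarith)
  rcases le_total v ((20 : ℝ) / 1) with k8 | k8
  · exact s8 k8 (by linarith)
  rcases le_total v ((36 : ℝ) / 1) with k9 | k9
  · exact s9 k9 (by linarith)
  rcases le_total v ((56 : ℝ) / 1) with k10 | k10
  · exact s10 k10 (by linarith)
  rcases le_total v ((57 : ℝ) / 1) with k11 | k11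
  · exact s11 k11 (by linarith)
  rcases le_total v ((65 : ℝ) / 1) with k12 | k12
  · exact s12 k12 (by linarith)
  rcases le_total v ((81 : ℝ) / 1) with k13 | k13
  · exact s13 k13 (by linarith)
  rcases le_total v ((97 : ℝ) / 1) with k14 | k14
  · exact s14 k14 (by linarith)
  rcases le_total v ((99 : ℝ) / 1) with k15 | k15
  · exact s15 k15 (by linarith)
  exact s16 (by norm_num; linarith) (by linarith)

end TV3

theorem V3_upperY (w : ℝ) (h0 : -100 ≤ w) (h1 : w ≤ 100) : FY w ≤ 68 := by
  rw [TV3.FY_eq]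
  linarith [TV3.E_up w h0 h1, TV3.const_bound]

end Pool.Agent.H574R2.Q4
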