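import Pool.Agent.H574R2.Q4.ZF
import Pool.Agent.H574R2.Q4.F4z
import Pool.Agent.H574R2.Q4.G2z
import Pool.Agent.H574R2.Q4.G6c

/-! # `dim_ℚ ⟨1, ζ(3), ζ(5), ..., ζ(75)⟩ ≥ 4` -/

open Polynomial Pool.Agent.H337R2 Filter Topology

namespace Pool.Agent.H574R2.Q4

noncomputable section

theorem Z_main (h9 : 3 ≤ Module.finrank ℚ (Submodule.span ℚ
      (Set.range fun i : Fin 5 => if i.1 = 0 then (1 : ℝ) else zr (2 * i.1 + 1)))) :
    4 ≤ Module.finrank ℚ (Submodule.span ℚ (Set.range fun i : Fin 38 => if i.1 = 0 then (1 : ℝ) else zr (2 * i.1 + 1))) :=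
  ZG.Z_main_gl (fun ε hε => F4_small ε hε) (fun β => G2_entryY β) (fun hn => G6_cross hn) h9

end

end Pool.Agent.H574R2.Q4
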