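import Pool.Agent.H574R2.Q4.Defs

open Polynomial Pool.Agent.H337R2

namespace Pool.Agent.H574R2.Q4

noncomputable section

lemma Z1_aux_denom (u : ℕ → ℚ) (hu : ∀ i, 76 ≤ i → u i = 0) (q : ℕ)
    (hq : ∀ i < 76, (u i).den ∣ q) (hq0 : 0 < q) : UInt q u := by
  refine ⟨hq0, fun i => ?_⟩
  by_cases hi : i < 76
  · obtain ⟨k, hk⟩ := hq i hi
    refine ⟨(u i).num * k, ?_⟩
    have h1 : (u i).num = u i * ((u i).den : ℚ) := (Rat.mul_den_eq_num _).symm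
    rw [hk]
    push_cast
    rw [h1]
    ring
  · exact ⟨0, by rw [hu i (not_lt.1 hi)]; simp⟩

/-- if all the numbers lie in `ℚ + ℚ x` then the dimension is at most two -/
lemma Z1_small (x : ℝ)
    (hx : ∀ i, Odd i → 3 ≤ i → i ≤ 9 → ∃ a b : ℚ, zr i = (a : ℝ) + x * (b : ℝ))
    (h9 : 3 ≤ Module.finrank ℚ (Submodule.span ℚ
      (Set.range fun i : Fin 5 => if i.1 = 0 then (1 : ℝ) else zr (2 * i.1 + 1)))) : False := by
  have hfin : FiniteDimensional ℚ (Submodule.span ℚ (Set.range ![(1 : ℝ), x])) :=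
    FiniteDimensional.span_of_finite ℚ (Set.finite_range _)
  have hle : Submodule.span ℚ
      (Set.range fun i : Fin 5 => if i.1 = 0 then (1 : ℝ) else zr (2 * i.1 + 1)) ≤
      Submodule.span ℚ (Set.range ![(1 : ℝ), x]) := by
    rw [Submodule.span_le]
    rintro _ ⟨i, rfl⟩
    have h1 : (1 : ℝ) ∈ Submodule.span ℚ (Set.range ![(1 : ℝ), x]) :=
      Submodule.subset_span ⟨0, rfl⟩
    have h2 : x ∈ Submodule.span ℚ (Set.range ![(1 : ℝ), x]) := Submodule.subset_span ⟨1, rfl⟩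
    by_cases hi : i.1 = 0
    · simp only [hi, if_true]
      exact h1
    · simp only [hi, if_false]
      obtain ⟨a, b, hab⟩ := hx (2 * i.1 + 1) ⟨i.1, rfl⟩ (by omega) (by omega)
      rw [hab]
      have e : (a : ℝ) + x * (b : ℝ) = a • (1 : ℝ) + b • x := by
        rw [Rat.smul_def, Rat.smul_def]
        ring
      rw [e]
      exact Submodule.add_mem _ (Submodule.smul_mem _ _ h1) (Submodule.smul_mem _ _ h2)
  have h1 := Submodule.finrank_mono hle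
  have h2 : Module.finrank ℚ (Submodule.span ℚ (Set.range ![(1 : ℝ), x])) ≤ 2 := by
    have := finrank_range_le_card (R := ℚ) ![(1 : ℝ), x]
    simpa [Set.finrank] using this
  omega

theorem Z1_dim (h9 : 3 ≤ Module.finrank ℚ (Submodule.span ℚ
      (Set.range fun i : Fin 5 => if i.1 = 0 then (1 : ℝ) else zr (2 * i.1 + 1))))
    (h : Module.finrank ℚ (Submodule.span ℚ (Set.range fun i : Fin 38 => if i.1 = 0 then (1 : ℝ) else zr (2 * i.1 + 1))) < 4) :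
    ∃ (θ₁ θ₂ : ℝ) (α β γ : ℕ → ℚ) (q i1 i2 : ℕ), UInt q α ∧ UInt q β ∧ UInt q γ ∧ (i1 = 3 ∨ i1 = 5 ∨ i1 = 7) ∧
      (i2 = 5 ∨ i2 = 7 ∨ i2 = 9) ∧ i1 < i2 ∧ (∀ i < i1, β i = 0) ∧ β i1 ≠ 0 ∧ (∀ i < i2, γ i = 0) ∧ γ i2 ≠ 0 ∧
      (∀ i, Odd i → 3 ≤ i → i ≤ 75 → zr i = (α i : ℝ) + θ₁ * (β i : ℝ) + θ₂ * (γ i : ℝ)) := by
  classical
  -- the first irrational value
  have hex1 : ∃ i, (Odd i ∧ 3 ≤ i ∧ i ≤ 7) ∧ ¬ ∃ a : ℚ, zr i = (a : ℝ) := by
    by_contra hcon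
    push Not at hcon
    refine Z1_small (zr 9) (fun i h1 h2 h3 => ?_) h9
    by_cases h7 : i ≤ 7
    · obtain ⟨a, ha⟩ := hcon i ⟨h1, h2, h7⟩
      exact ⟨a, 0, by rw [ha]; simp⟩
    · obtain ⟨k, rfl⟩ := h1
      have : k = 4 := by omega
      subst this
      exact ⟨0, 1, by simp⟩
  obtain ⟨i1, ⟨hi1o, hi13, hi17⟩, hi1n, hi1m⟩ : ∃ i1, (Odd i1 ∧ 3 ≤ i1 ∧ i1 ≤ 7) ∧
      (¬ ∃ a : ℚ, zr i1 = (a : ℝ)) ∧ ∀ i, Odd i → 3 ≤ i → i < i1 → ∃ a : ℚ, zr i = (a : ℝ) := by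
    refine ⟨Nat.find hex1, (Nat.find_spec hex1).1, (Nat.find_spec hex1).2, fun i h1 h2 h3 => ?_⟩
    by_contra h4
    exact Nat.find_min hex1 h3 ⟨⟨h1, h2, h3.le.trans (Nat.find_spec hex1).1.2.2⟩, h4⟩
  set θ₁ := zr i1 with hθ₁
  have hex2 : ∃ i, (Odd i ∧ 3 ≤ i ∧ i ≤ 9) ∧ ¬ ∃ a b : ℚ, zr i = (a : ℝ) + θ₁ * (b : ℝ) := by
    by_contra hcon
    push Not at hcon
    exact Z1_small θ₁ (fun i h1 h2 h3 => hcon i ⟨h1, h2, h3⟩) h9
  obtain ⟨i2, ⟨hi2o, hi23, hi29⟩, hi2n, hi2m⟩ : ∃ i2, (Odd i2 ∧ 3 ≤ i2 ∧ i2 ≤ 9) ∧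
      (¬ ∃ a b : ℚ, zr i2 = (a : ℝ) + θ₁ * (b : ℝ)) ∧
      ∀ i, Odd i → 3 ≤ i → i < i2 → ∃ a b : ℚ, zr i = (a : ℝ) + θ₁ * (b : ℝ) := by
    refine ⟨Nat.find hex2, (Nat.find_spec hex2).1, (Nat.find_spec hex2).2, fun i h1 h2 h3 => ?_⟩
    by_contra h4
    exact Nat.find_min hex2 h3 ⟨⟨h1, h2, h3.le.trans (Nat.find_spec hex2).1.2.2⟩, h4⟩
  set θ₂ := zr i2 with hθ₂
  have h12 : i1 < i2 := by
    by_contra hcon
    rcases Nat.lt_or_ge i2 i1 with h5 | h5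
    · obtain ⟨a, ha⟩ := hi1m i2 hi2o hi23 h5
      exact hi2n ⟨a, 0, by rw [hθ₂, ha]; simp⟩
    · have : i2 = i1 := by omega
      exact hi2n ⟨0, 1, by rw [hθ₂, this]; simp [hθ₁]⟩
  -- the two spans
  set f : Fin 38 → ℝ := fun i => if i.1 = 0 then (1 : ℝ) else zr (2 * i.1 + 1) with hf
  set V := Submodule.span ℚ (Set.range f) with hV
  have hfin : FiniteDimensional ℚ V := by
    rw [hV]
    exact FiniteDimensional.span_of_finite ℚ (Set.finite_range f)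
  have hmem : ∀ i, Odd i → 3 ≤ i → i ≤ 75 → zr i ∈ V := by
    intro i hi h3 h9
    obtain ⟨k, rfl⟩ := hi
    refine Submodule.subset_span ⟨⟨k, by omega⟩, ?_⟩
    simp only [hf]
    rw [if_neg (by omega)]
  have h1mem : (1 : ℝ) ∈ V := Submodule.subset_span ⟨⟨0, by norm_num⟩, by simp [hf]⟩
  have hli : LinearIndependent ℚ ![(1 : ℝ), θ₁, θ₂] := by
    rw [Fintype.linearIndependent_iff]
    intro g hg
    rw [Fin.sum_univ_three] at hg
    simp only [Matrix.cons_val_zero, Matrix.cons_val_one, Matrix.cons_val, Rat.smul_def,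
      mul_one] at hg
    have g2 : g 2 = 0 := by
      by_contra h2
      apply hi2n
      refine ⟨-g 0 / g 2, -g 1 / g 2, ?_⟩
      have h2' : ((g 2 : ℚ) : ℝ) ≠ 0 := by exact_mod_cast h2
      push_cast
      field_simp
      linarith
    rw [g2] at hg
    have g1 : g 1 = 0 := by
      by_contra h2
      apply hi1n
      refine ⟨-g 0 / g 1, ?_⟩
      have h2' : ((g 1 : ℚ) : ℝ) ≠ 0 := by exact_mod_cast h2
      push_cast at hg ⊢
      field_simp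
      linarith
    rw [g1] at hg
    have g0 : g 0 = 0 := by
      push_cast at hg
      simpa using hg
    intro i
    fin_cases i
    · exact g0
    · exact g1
    · exact g2
  have hle : Submodule.span ℚ (Set.range ![(1 : ℝ), θ₁, θ₂]) ≤ V := by
    rw [Submodule.span_le]
    rintro _ ⟨i, rfl⟩
    fin_cases i
    · exact h1mem
    · exact hmem i1 hi1o hi13 (by omega)
    · exact hmem i2 hi2o hi23 (by omega)
  have heq : Submodule.span ℚ (Set.range ![(1 : ℝ), θ₁, θ₂]) = V := by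
    apply Submodule.eq_of_le_of_finrank_le hle
    rw [finrank_span_eq_card hli, Fintype.card_fin]
    exact Nat.lt_succ_iff.1 h
  have hall : ∀ i, Odd i → 3 ≤ i → i ≤ 75 →
      ∃ a b c : ℚ, zr i = (a : ℝ) + θ₁ * (b : ℝ) + θ₂ * (c : ℝ) := by
    intro i ho h3 h75
    have h1 := hmem i ho h3 h75
    rw [← heq, Submodule.mem_span_range_iff_exists_fun] at h1
    obtain ⟨c, hc⟩ := h1
    rw [Fin.sum_univ_three] at hc
    simp only [Matrix.cons_val_zero, Matrix.cons_val_one, Matrix.cons_val, Rat.smul_def,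
      mul_one] at hc
    exact ⟨c 0, c 1, c 2, by rw [← hc]; ring⟩
  -- the coefficients
  have hex : ∀ i, ∃ abc : ℚ × ℚ × ℚ,
      (Odd i → 3 ≤ i → i ≤ 75 → zr i = (abc.1 : ℝ) + θ₁ * (abc.2.1 : ℝ) + θ₂ * (abc.2.2 : ℝ)) ∧
      (¬ (Odd i ∧ 3 ≤ i ∧ i ≤ 75) → abc = 0) ∧ (i < i1 → abc.2.1 = 0) ∧ (i < i2 → abc.2.2 = 0) ∧
      (i = i1 → abc.2.1 ≠ 0) ∧ (i = i2 → abc.2.2 ≠ 0) := by
    intro i
    by_cases hi : Odd i ∧ 3 ≤ i ∧ i ≤ 75
    · obtain ⟨ho, h3, h75⟩ := hi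
      rcases lt_trichotomy i i1 with h5 | h5 | h5
      · obtain ⟨a, ha⟩ := hi1m i ho h3 h5
        exact ⟨(a, 0, 0), fun _ _ _ => by simp [ha], fun hn => absurd ⟨ho, h3, h75⟩ hn,
          fun _ => rfl, fun _ => rfl, fun h6 => by omega, fun h6 => by omega⟩
      · exact ⟨(0, 1, 0), fun _ _ _ => by simp [h5, hθ₁], fun hn => absurd ⟨ho, h3, h75⟩ hn,
          fun h6 => by omega, fun _ => rfl, fun _ => one_ne_zero, fun h6 => by omega⟩
      · rcases lt_trichotomy i i2 with h6 | h6 | h6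
        · obtain ⟨a, b, hab⟩ := hi2m i ho h3 h6
          exact ⟨(a, b, 0), fun _ _ _ => by simp [hab], fun hn => absurd ⟨ho, h3, h75⟩ hn,
            fun h7 => by omega, fun _ => rfl, fun h7 => by omega, fun h7 => by omega⟩
        · exact ⟨(0, 0, 1), fun _ _ _ => by simp [h6, hθ₂], fun hn => absurd ⟨ho, h3, h75⟩ hn,
            fun h7 => by omega, fun h7 => by omega, fun h7 => by omega, fun _ => one_ne_zero⟩
        · obtain ⟨a, b, c, habc⟩ := hall i ho h3 h75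
          exact ⟨(a, b, c), fun _ _ _ => habc, fun hn => absurd ⟨ho, h3, h75⟩ hn,
            fun h7 => by omega, fun h7 => by omega, fun h7 => by omega, fun h7 => by omega⟩
    · refine ⟨0, fun h1 h2 h3 => absurd ⟨h1, h2, h3⟩ hi, fun _ => rfl, fun _ => rfl, fun _ => rfl,
        ?_, ?_⟩
      · rintro rfl
        exact absurd ⟨hi1o, hi13, by omega⟩ hi
      · rintro rfl
        exact absurd ⟨hi2o, hi23, by omega⟩ hi
  choose ab hab hab0 hb1 hc1 hb2 hc2 using hex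
  have hout : ∀ i, 76 ≤ i → ab i = 0 := fun i hi => hab0 i (fun h1 => by omega)
  set q : ℕ := ∏ i ∈ Finset.range 76, ((ab i).1.den * ((ab i).2.1.den * (ab i).2.2.den)) with hq
  have hq0 : 0 < q := Finset.prod_pos fun i _ =>
    Nat.mul_pos (Rat.den_pos _) (Nat.mul_pos (Rat.den_pos _) (Rat.den_pos _))
  have hdvd : ∀ i < 76, (ab i).1.den * ((ab i).2.1.den * (ab i).2.2.den) ∣ q := fun i hi =>
    Finset.dvd_prod_of_mem (fun i => (ab i).1.den * ((ab i).2.1.den * (ab i).2.2.den))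
      (Finset.mem_range.2 hi)
  refine ⟨θ₁, θ₂, fun i => (ab i).1, fun i => (ab i).2.1, fun i => (ab i).2.2, q, i1, i2,
    ?_, ?_, ?_, ?_, ?_, h12, fun i hi => hb1 i hi, hb2 i1 rfl, fun i hi => hc1 i hi, hc2 i2 rfl,
    fun i h1 h2 h3 => hab i h1 h2 h3⟩
  · exact Z1_aux_denom _ (fun i hi => by simp only [hout i hi]; rfl) q
      (fun i hi => (Dvd.intro _ rfl).trans (hdvd i hi)) hq0
  · exact Z1_aux_denom _ (fun i hi => by simp only [hout i hi]; rfl) q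
      (fun i hi => ((Dvd.intro _ rfl).trans (Dvd.intro_left _ rfl)).trans (hdvd i hi)) hq0
  · exact Z1_aux_denom _ (fun i hi => by simp only [hout i hi]; rfl) q
      (fun i hi => ((Dvd.intro_left _ rfl).trans (Dvd.intro_left _ rfl)).trans (hdvd i hi)) hq0
  · obtain ⟨k, hk⟩ := hi1o
    omega
  · obtain ⟨k, hk⟩ := hi2o
    omega

end

end Pool.Agent.H574R2.Q4
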