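import Pool.Agent.H574R2.Q4.Defs

import Pool.Agent.H336R2.HD.A5

/-!
# Z: assembly of the proof of `dim_Q ⟨1, ζ(3), ζ(5), ..., ζ(75)⟩ ≥ 4`

All results of the other tasks are hypotheses of `Z_main_of`.
-/

open Polynomial Pool.Agent.H337R2 Filter Topology

namespace Pool.Agent.H574R2.Q4

noncomputable section

/-- The contradiction, all inputs as hypotheses. -/
theorem Z_contra_of
    (hPm : ∀ (q : ℕ) (α β γ : ℕ → ℚ), UInt q α → UInt q β → UInt q γ → (∀ i < 3, β i = 0) → (∀ i < 5, γ i = 0) →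
      ∀ᶠ n : ℕ in atTop, DD n α β γ ≠ 0 →
      ∑ p ∈ (Finset.range (72 * n + 1)).filter Nat.Prime,
        Real.log ((padicNorm p ((q : ℚ) ^ (36 * n - 72) * DD n α β γ) : ℚ) : ℝ) ≤
      -(1728 * (n : ℝ) ^ 2 * Real.log n) + 1087 * (n : ℝ) ^ 2)
    (hPl : ∀ (q : ℕ) (α β γ : ℕ → ℚ), UInt q α → UInt q β → UInt q γ → (∀ i < 3, β i = 0) → (∀ i < 5, γ i = 0) →
      ∀ n : ℕ, 1 ≤ n → ∀ p : ℕ, p.Prime → 72 * n < p →
      padicNorm p ((q : ℚ) ^ (36 * n - 72) * DD n α β γ) ≤ 1)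
    (α β γ : ℕ → ℚ) (q i1 i2 : ℕ) (hα : UInt q α) (hβ : UInt q β) (hγ : UInt q γ)
    (h1 : i1 = 3 ∨ i1 = 5 ∨ i1 = 7) (h2 : i2 = 5 ∨ i2 = 7 ∨ i2 = 9)
    (hβ0 : ∀ i < i1, β i = 0) (hγ0 : ∀ i < i2, γ i = 0)
    (hA : ∀ᶠ n : ℕ in atTop, DD n α β γ ≠ 0 →
      Real.log |((DD n α β γ : ℚ) : ℝ)| ≤ 1728 * (n : ℝ) ^ 2 * Real.log n - 1157 * (n : ℝ) ^ 2)
    (hH6 : ∃ p0 : ℕ, ∀ p : ℕ, p0 ≤ p → p.Prime → DD (2 * p) α β γ ≠ 0) : False := by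
  obtain ⟨p0, hp0⟩ := hH6
  have hβ3 : ∀ i < 3, β i = 0 := fun i hi => hβ0 i (by omega)
  have hγ5 : ∀ i < 5, γ i = 0 := fun i hi => hγ0 i (by omega)
  have hq : 0 < q := hα.1
  have hP := hPm q α β γ hα hβ hγ hβ3 hγ5
  have hq0 : (0 : ℝ) < q := by exact_mod_cast hq
  have hlq : 0 ≤ Real.log q := Real.log_nonneg (by exact_mod_cast hq)
  -- the power of q
  have hQ : ∀ᶠ n : ℕ in atTop, 36 * (n : ℝ) * Real.log q < (n : ℝ) ^ 2 := by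
    have h1 : ∀ᶠ n : ℕ in atTop, 36 * Real.log q < (n : ℝ) :=
      (tendsto_natCast_atTop_atTop (R := ℝ)).eventually_gt_atTop _
    filter_upwards [h1, eventually_ge_atTop 1] with n h2 h3
    have h4 : (1 : ℝ) ≤ n := by exact_mod_cast h3
    nlinarith
  obtain ⟨N, hN⟩ := eventually_atTop.1 ((hP.and hA).and (hQ.and (eventually_ge_atTop 1)))
  obtain ⟨p', hn, hnp⟩ := Nat.exists_infinite_primes (max N p0)
  obtain ⟨n, hnn⟩ : ∃ n : ℕ, n = 2 * p' := ⟨_, rfl⟩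
  have hnN : N ≤ n := by
    have := (le_max_left N p0).trans hn
    omega
  obtain ⟨⟨h1, h2⟩, h3, h4⟩ := hN n hnN
  have hne : DD n α β γ ≠ 0 := by
    rw [hnn]
    exact hp0 p' ((le_max_right _ _).trans hn) hnp
  have h1' := h1 hne
  have h2' := h2 hne
  set z : ℚ := (q : ℚ) ^ (36 * n - 72) * DD n α β γ with hz
  have hqq : (q : ℚ) ≠ 0 := by exact_mod_cast hq.ne'
  have hz0 : z ≠ 0 := mul_ne_zero (pow_ne_zero _ hqq) hne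
  have hS : ∀ p ∈ (Finset.range (72 * n + 1)).filter Nat.Prime, p.Prime := fun p hp =>
    (Finset.mem_filter.1 hp).2
  have hprod := Pool.Agent.H336R2.HD.A5_prod_formula z hz0
    ((Finset.range (72 * n + 1)).filter Nat.Prime) hS
    (fun p => ((padicNorm p z : ℚ) : ℝ)) (fun p _ => le_rfl) (fun p hp hpS => by
      apply hPl q α β γ hα hβ hγ hβ3 hγ5 n h4 p hp
      by_contra hlt
      apply hpS
      rw [Finset.mem_filter, Finset.mem_range]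
      exact ⟨by omega, hp⟩)
  have hpos : ∀ p ∈ (Finset.range (72 * n + 1)).filter Nat.Prime,
      ((padicNorm p z : ℚ) : ℝ) ≠ 0 := by
    intro p hp
    have : Fact p.Prime := ⟨hS p hp⟩
    have h5 : padicNorm p z ≠ 0 := padicNorm.nonzero hz0
    exact_mod_cast h5
  have hDpos : 0 < |((DD n α β γ : ℚ) : ℝ)| := abs_pos.2 (by exact_mod_cast hne)
  have habs : |(z : ℝ)| = (q : ℝ) ^ (36 * n - 72) * |((DD n α β γ : ℚ) : ℝ)| := by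
    rw [hz]
    push_cast
    rw [abs_mul, abs_of_pos (pow_pos hq0 _)]
  have hlog := Real.log_nonneg hprod
  rw [habs, Real.log_mul (mul_pos (pow_pos hq0 _) hDpos).ne' (Finset.prod_ne_zero_iff.2 hpos),
    Real.log_mul (pow_pos hq0 _).ne' hDpos.ne', Real.log_pow,
    Real.log_prod (fun p hp => hpos p hp)] at hlog
  have hmq : ((36 * n - 72 : ℕ) : ℝ) * Real.log q ≤ 36 * n * Real.log q := by
    apply mul_le_mul_of_nonneg_right _ hlq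
    have : 36 * n - 72 ≤ 36 * n := Nat.sub_le _ _
    exact_mod_cast this
  have hn1 : (1 : ℝ) ≤ n := by exact_mod_cast h4
  have hn2 : (1 : ℝ) ≤ (n : ℝ) ^ 2 := by nlinarith
  linarith

/-- The conclusion, all inputs as hypotheses. -/
theorem Z_main_of
    (hPm : ∀ (q : ℕ) (α β γ : ℕ → ℚ), UInt q α → UInt q β → UInt q γ → (∀ i < 3, β i = 0) → (∀ i < 5, γ i = 0) →
      ∀ᶠ n : ℕ in atTop, DD n α β γ ≠ 0 →
      ∑ p ∈ (Finset.range (72 * n + 1)).filter Nat.Prime,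
        Real.log ((padicNorm p ((q : ℚ) ^ (36 * n - 72) * DD n α β γ) : ℚ) : ℝ) ≤
      -(1728 * (n : ℝ) ^ 2 * Real.log n) + 1087 * (n : ℝ) ^ 2)
    (hPl : ∀ (q : ℕ) (α β γ : ℕ → ℚ), UInt q α → UInt q β → UInt q γ → (∀ i < 3, β i = 0) → (∀ i < 5, γ i = 0) →
      ∀ n : ℕ, 1 ≤ n → ∀ p : ℕ, p.Prime → 72 * n < p →
      padicNorm p ((q : ℚ) ^ (36 * n - 72) * DD n α β γ) ≤ 1)
    (hA : ∀ (α β γ : ℕ → ℚ) (θ₁ θ₂ : ℝ),
      (∀ i, Odd i → 3 ≤ i → i ≤ 75 → zr i = (α i : ℝ) + θ₁ * (β i : ℝ) + θ₂ * (γ i : ℝ)) →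
      ∀ᶠ n : ℕ in atTop, DD n α β γ ≠ 0 →
      Real.log |((DD n α β γ : ℚ) : ℝ)| ≤ 1728 * (n : ℝ) ^ 2 * Real.log n - 1157 * (n : ℝ) ^ 2)
    (hH6 : ∀ (α β γ : ℕ → ℚ) (q : ℕ), UInt q α → UInt q β → UInt q γ → ∀ i1 i2 : ℕ,
      (i1 = 3 ∨ i1 = 5 ∨ i1 = 7) → (i2 = 5 ∨ i2 = 7 ∨ i2 = 9) → i1 < i2 →
      (∀ i < i1, β i = 0) → β i1 ≠ 0 → (∀ i < i2, γ i = 0) → γ i2 ≠ 0 →
      ∃ p0 : ℕ, ∀ p : ℕ, p0 ≤ p → p.Prime → DD (2 * p) α β γ ≠ 0)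
    (hZ1 : 3 ≤ Module.finrank ℚ (Submodule.span ℚ
        (Set.range fun i : Fin 5 => if i.1 = 0 then (1 : ℝ) else zr (2 * i.1 + 1))) →
      Module.finrank ℚ (Submodule.span ℚ
        (Set.range fun i : Fin 38 => if i.1 = 0 then (1 : ℝ) else zr (2 * i.1 + 1))) < 4 →
      ∃ (θ₁ θ₂ : ℝ) (α β γ : ℕ → ℚ) (q i1 i2 : ℕ), UInt q α ∧ UInt q β ∧ UInt q γ ∧ (i1 = 3 ∨ i1 = 5 ∨ i1 = 7) ∧
        (i2 = 5 ∨ i2 = 7 ∨ i2 = 9) ∧ i1 < i2 ∧ (∀ i < i1, β i = 0) ∧ β i1 ≠ 0 ∧ (∀ i < i2, γ i = 0) ∧ γ i2 ≠ 0 ∧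
        (∀ i, Odd i → 3 ≤ i → i ≤ 75 → zr i = (α i : ℝ) + θ₁ * (β i : ℝ) + θ₂ * (γ i : ℝ)))
    (h9 : 3 ≤ Module.finrank ℚ (Submodule.span ℚ
      (Set.range fun i : Fin 5 => if i.1 = 0 then (1 : ℝ) else zr (2 * i.1 + 1)))) :
    4 ≤ Module.finrank ℚ (Submodule.span ℚ
      (Set.range fun i : Fin 38 => if i.1 = 0 then (1 : ℝ) else zr (2 * i.1 + 1))) := by
  by_contra hcon
  rw [not_le] at hcon
  obtain ⟨θ₁, θ₂, α, β, γ, q, i1, i2, hα, hβ, hγ, h1, h2, h12, hβ0, hβ1, hγ0, hγ1, hz⟩ := hZ1 h9 hcon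
  exact Z_contra_of hPm hPl α β γ q i1 i2 hα hβ hγ h1 h2 hβ0 hγ0 (hA α β γ θ₁ θ₂ hz)
    (hH6 α β γ q hα hβ hγ i1 i2 h1 h2 h12 hβ0 hβ1 hγ0 hγ1)

end

end Pool.Agent.H574R2.Q4
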