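import Pool.Agent.H574R2.Q4.ZG
import Pool.Agent.H574R2.Q4.AM
import Pool.Agent.H574R2.Q4.B1
import Pool.Agent.H574R2.Q4.C3
import Pool.Agent.H574R2.Q4.C4
import Pool.Agent.H574R2.Q4.D4a
import Pool.Agent.H574R2.Q4.F5
import Pool.Agent.H574R2.Q4.F6
import Pool.Agent.H574R2.Q4.PM
import Pool.Agent.H574R2.Q4.G0
import Pool.Agent.H574R2.Q4.G1
import Pool.Agent.H574R2.Q4.G3
import Pool.Agent.H574R2.Q4.G4
import Pool.Agent.H574R2.Q4.G5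
import Pool.Agent.H574R2.Q4.G6
import Pool.Agent.H574R2.Q4.V1
import Pool.Agent.H574R2.Q4.V2
import Pool.Agent.H574R2.Q4.V3
import Pool.Agent.H574R2.Q4.V4
import Pool.Agent.H574R2.Q4.H3
import Pool.Agent.H574R2.Q4.H4
import Pool.Agent.H574R2.Q4.H5
import Pool.Agent.H574R2.Q4.H6pre
import Pool.Agent.H574R2.Q4.Z1
import Pool.Agent.H574R2.Q4.Zpre

/-! # Assembly (with the statements of the last tasks F4, G2, G6c as hypotheses) -/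

open Polynomial Pool.Agent.H337R2 Filter Topology

namespace Pool.Agent.H574R2.Q4.ZG

noncomputable section

def SF4 : Prop := ∀ ε : ℝ, 0 < ε → ∀ᶠ n : ℕ in atTop,
    36 * (n : ℝ) * (∑ p ∈ (Finset.range (n + 1)).filter (fun p : ℕ => p.Prime ∧ p ^ 2 ≤ 72 * n),
        200 * Real.log (72 * n + 1) +
      ∑ p ∈ (Finset.range (n + 1)).filter (fun p : ℕ => p.Prime ∧ 20 * p ≤ n), 76 * Real.log p) ≤
    (684 / 5 + ε) * (n : ℝ) ^ 2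

/-- **the p-adic part** -/
theorem P_main (hF4 : SF4) :
    ∀ (q : ℕ) (α β γ : ℕ → ℚ), UInt q α → UInt q β → UInt q γ → (∀ i < 3, β i = 0) → (∀ i < 5, γ i = 0) →
    ∀ᶠ n : ℕ in atTop, DD n α β γ ≠ 0 →
    ∑ p ∈ (Finset.range (72 * n + 1)).filter Nat.Prime,
      Real.log ((padicNorm p ((q : ℚ) ^ (36 * n - 72) * DD n α β γ) : ℚ) : ℝ) ≤
    -(1728 * (n : ℝ) ^ 2 * Real.log n) + 1087 * (n : ℝ) ^ 2 := by
  refine P_main_of ?_ ?_ E4_padic F2_A F2_B F2_U F3_numeric hF4 F5_fact F6_superfac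
  · intro n p _ hn hp q α β γ hα hβ hγ hβ3 hγ5 m hm
    exact D4_small_med_of (fun A B C m Q P P' P'' h1 h2 h3 h4 => A1_monic A B C m Q P P' P'' h1 h2 h3 h4)
      (fun h1 h2 q α h3 E W h4 A h5 h6 h7 h8 => C2_xa h1 h2 q α h3 E W h4 A h5 h6 h7 h8)
      (fun h1 h2 q β h3 i0 h0 E W h4 A h5 h6 h7 h8 => C2_xb h1 h2 q β h3 i0 h0 E W h4 A h5 h6 h7 h8)
      (fun h1 ρ h2 h3 i j h4 h5 k => C4_CP_PB h1 ρ h2 h3 i j h4 h5 k) hn hp q α β γ hα hβ hγ hβ3 hγ5 m hm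
  · intro n p _ hn q α β γ hα hβ hγ m hm
    exact D4_small_crude_of (fun A B C m Q P P' P'' h1 h2 h3 h4 => A1_monic A B C m Q P P' P'' h1 h2 h3 h4)
      (fun h1 q u h2 E A h3 h4 => C3_crude h1 q u h2 E A h3 h4)
      (fun h1 ρ h2 h3 i j h4 h5 k => C4_CP_PB h1 ρ h2 h3 i j h4 h5 k) hn q α β γ hα hβ hγ m hm

theorem P_large : ∀ (q : ℕ) (α β γ : ℕ → ℚ), UInt q α → UInt q β → UInt q γ → (∀ i < 3, β i = 0) → (∀ i < 5, γ i = 0) →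
    ∀ n : ℕ, 1 ≤ n → ∀ p : ℕ, p.Prime → 72 * n < p →
    padicNorm p ((q : ℚ) ^ (36 * n - 72) * DD n α β γ) ≤ 1 :=
  P_large_of (fun hn hp2 hp q α β γ hα hβ hγ hβ3 hγ5 m => D3_large hn hp2 hp q α β γ hα hβ hγ hβ3 hγ5 m)

theorem A_main (hG2 : AM.SG2) (hG6c : AM.SG6c) (α β γ : ℕ → ℚ) (θ₁ θ₂ : ℝ)
    (h : ∀ i, Odd i → 3 ≤ i → i ≤ 75 → zr i = (α i : ℝ) + θ₁ * (β i : ℝ) + θ₂ * (γ i : ℝ)) :
    ∀ᶠ n : ℕ in atTop, DD n α β γ ≠ 0 →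
    Real.log |((DD n α β γ : ℚ) : ℝ)| ≤ 1728 * (n : ℝ) ^ 2 * Real.log n - 1157 * (n : ℝ) ^ 2 := by
  refine A_main_of ?_ ?_ ?_ ?_ ?_ hG2 ?_ ?_ ?_ ?_ hG6c ?_ ?_ ?_ ?_ ?_ ?_ α β γ θ₁ θ₂ h
  · intro A B C θ₁ θ₂ m z hz
    exact A5_lagrange A B C θ₁ θ₂ m z hz
  · intro n hn
    exact G0_zq_inj hn
  · intro n i hn h1 h2
    exact G0_nd_X hn h1 h2
  · intro n i hn h1 h2
    exact G0_nd_Y hn h1 h2
  · intro n hn α β γ θ₁ θ₂ h MM hM hsup i j hi hj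
    exact G1_entryN_of (fun hn a b c t1 t2 h Q hQ => B1_hasSum hn a b c t1 t2 h Q hQ) hn α β γ θ₁ θ₂ h MM hM hsup i j hi hj
  · exact G3_Lp
  · exact G4_weight
  · exact G5_sat
  · exact G6_pair_of G3_Lp
  · intro w h1
    exact V1_upper w h1
  · intro w h1
    exact V1_tail w h1
  · intro w h0 h1
    exact V2_lower w h0 h1
  · intro w h0 h1
    exact V3_upperY w h0 h1
  · exact V4_eS
  · exact V5_eN

theorem H6_nonvanish (α β γ : ℕ → ℚ) (q : ℕ) (hα : UInt q α) (hβ : UInt q β) (hγ : UInt q γ) (i1 i2 : ℕ)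
    (h1 : i1 = 3 ∨ i1 = 5 ∨ i1 = 7) (h2 : i2 = 5 ∨ i2 = 7 ∨ i2 = 9) (h12 : i1 < i2)
    (hβ0 : ∀ i < i1, β i = 0) (hβ1 : β i1 ≠ 0) (hγ0 : ∀ i < i2, γ i = 0) (hγ1 : γ i2 ≠ 0) :
    ∃ p0 : ℕ, ∀ p : ℕ, p0 ≤ p → p.Prime → DD (2 * p) α β γ ≠ 0 :=
  H6_of (fun A B C m R S _ _ _ e hS Q P hQ hP h => A2_MD_ne A B C m R S e hS Q P hQ hP h)
    (fun hp α β hα hβ i0 hi0 hβ0 r hr1 hr2 => H3_diag hp α β hα hβ i0 hi0 hβ0 r hr1 hr2)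
    (fun hp α β hα hβ i0 hi0 hβ0 r s l l' hr1 hr2 hs1 hs2 hrs hl hl' =>
      H4_offdiag hp α β hα hβ i0 hi0 hβ0 r s l l' hr1 hr2 hs1 hs2 hrs hl hl')
    (fun i1 i2 h1 h2 h12 => H5_local i1 i2 h1 h2 h12)
    α β γ q hα hβ hγ i1 i2 h1 h2 h12 hβ0 hβ1 hγ0 hγ1

theorem Z_main_gl (hF4 : SF4) (hG2 : AM.SG2) (hG6c : AM.SG6c) (h9 : 3 ≤ Module.finrank ℚ (Submodule.span ℚ
      (Set.range fun i : Fin 5 => if i.1 = 0 then (1 : ℝ) else zr (2 * i.1 + 1)))) :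
    4 ≤ Module.finrank ℚ (Submodule.span ℚ (Set.range fun i : Fin 38 => if i.1 = 0 then (1 : ℝ) else zr (2 * i.1 + 1))) :=
  Z_main_of (P_main hF4) P_large (fun α β γ θ₁ θ₂ h => A_main hG2 hG6c α β γ θ₁ θ₂ h)
    (fun α β γ q hα hβ hγ i1 i2 h1 h2 h12 hβ0 hβ1 hγ0 hγ1 =>
      H6_nonvanish α β γ q hα hβ hγ i1 i2 h1 h2 h12 hβ0 hβ1 hγ0 hγ1)
    (fun h9 h => Z1_dim h9 h) h9

end

end Pool.Agent.H574R2.Q4.ZG
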