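import Pool.Agent.H574R2.Q4.A
import Pool.Agent.H574R2.Q4.C2
import Pool.Agent.H574R2.Q4.D1
import Pool.Agent.H574R2.Q4.D2
import Pool.Agent.H574R2.Q4.D3pre
import Pool.Agent.H574R2.Q4.D3two
import Pool.Agent.H574R2.Q4.E1
import Pool.Agent.H574R2.Q4.E2z
import Pool.Agent.H574R2.Q4.E3A
import Pool.Agent.H574R2.Q4.E3B
import Pool.Agent.H574R2.Q4.E4a
import Pool.Agent.H574R2.Q4.F1
import Pool.Agent.H574R2.Q4.F1f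
import Pool.Agent.H574R2.Q4.F2pre
import Pool.Agent.H574R2.Q4.F3

/-! # Glue of the p-adic part -/

open Polynomial Pool.Agent.H337R2 Filter Topology

namespace Pool.Agent.H574R2.Q4.ZG

noncomputable section

theorem D3_det_padic {n p : ℕ} [Fact p.Prime] (hn : 1 ≤ n) (hp2 : 6 * n < p ^ 2) (q : ℕ) (α β γ : ℕ → ℚ)
    (hα : UInt q α) (hβ : UInt q β) (hγ : UInt q γ) (hβ3 : ∀ i < 3, β i = 0) (hγ5 : ∀ i < 5, γ i = 0)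
    (m : ℕ) (a : ℤ) (S : Finset ℕ) (h : ∀ k ∈ sM n, kap n p k ∈ S) :
    padicNorm p ((q : ℚ) ^ (3 * m) * MD3 (AL n α) (BL n β) (BL n γ) m) ≤
      (p : ℚ) ^ ((m : ℤ) * (3 * a - 8) + ∑ κ ∈ S, T4 (eM n p κ - a)) := by
  refine D3_det_padic_of (fun A B C m Q P P' P'' h1 h2 h3 h4 => A1_monic A B C m Q P P' P'' h1 h2 h3 h4)
    ?_ ?_ D1_split (fun h1 h2 h3 => D2_eM_kap h1 h2 h3) hn hp2 q α β γ hα hβ hγ hβ3 hγ5 m a S h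
  · intro n p _ hn hp2 q α hα E W hW A hA hE hE1 h
    exact C2_xa hn hp2 q α hα E W hW A hA hE hE1 h
  · intro n p _ hn hp2 q β hβ i0 hβ0 E W hW A hA hE hE1 h
    exact C2_xb hn hp2 q β hβ i0 hβ0 E W hW A hA hE hE1 h

theorem D3_large {n p : ℕ} [Fact p.Prime] (hn : 1 ≤ n) (hp2 : 6 * n < p ^ 2) (hp : 2 * n < p) (q : ℕ)
    (α β γ : ℕ → ℚ) (hα : UInt q α) (hβ : UInt q β) (hγ : UInt q γ) (hβ3 : ∀ i < 3, β i = 0)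
    (hγ5 : ∀ i < 5, γ i = 0) (m : ℕ) :
    padicNorm p ((q : ℚ) ^ (3 * m) * MD3 (AL n α) (BL n β) (BL n γ) m) ≤ 1 := by
  refine D3_large_of (fun A B C m Q P P' P'' h1 h2 h3 h4 => A1_monic A B C m Q P P' P'' h1 h2 h3 h4)
    ?_ ?_ hn hp2 hp q α β γ hα hβ hγ hβ3 hγ5 m
  · intro n p _ hn hp2 q α hα E W hW A hA hE hE1 h
    exact C2_xa hn hp2 q α hα E W hW A hA hE hE1 h
  · intro n p _ hn hp2 q β hβ i0 hβ0 E W hW A hA hE hE1 h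
    exact C2_xb hn hp2 q β hβ i0 hβ0 E W hW A hA hE hE1 h

theorem E3_A : ∃ K0 : ℝ, ∀ n p : ℕ, p.Prime → 10 ≤ n → n < 20 * p → p ≤ n → 72 * n < p ^ 2 → ∀ a : ℤ,
    a = ((52 * n / p : ℕ) : ℤ) + 1 - 74 * ((2 * n / p : ℕ) : ℤ) →
    ((((12 * n - 24 : ℕ) : ℤ) * (3 * a - 8) + ∑ κ ∈ Kset n p, T4 (eM n p κ - a) : ℤ) : ℝ) ≤ EA n p + K0 :=
  E3_A_of (fun h1 h2 h3 f M h4 h5 h6 => E1_Kset_sum h1 h2 h3 f M h4 h5 h6)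
    (fun h1 h2 h3 => E2_PP h1 h2 h3) (fun h1 h2 h3 => E2_PZ h1 h2 h3) (fun h1 h2 h3 => E2_ZZ h1 h2 h3)

theorem E4_padic : ∃ K0 : ℝ, 0 ≤ K0 ∧ ∀ n : ℕ, 100 ≤ n → ∀ p : ℕ, p.Prime → n < 20 * p → 72 * n < p ^ 2 →
    ∀ (q : ℕ) (α β γ : ℕ → ℚ), UInt q α → UInt q β → UInt q γ → (∀ i < 3, β i = 0) → (∀ i < 5, γ i = 0) →
    ((padicNorm p ((q : ℚ) ^ (36 * n - 72) * DD n α β γ) : ℚ) : ℝ) ≤
      if p < 2 * n then (p : ℝ) ^ (EW n p + K0) else 1 := by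
  refine E4_padic_of ?_ ?_ ?_ E3_A E3_B
  · intro n p _ hn hp2 q α β γ hα hβ hγ hβ3 hγ5 m a
    refine D3_det_padic hn hp2 q α β γ hα hβ hγ hβ3 hγ5 m a _ ?_
    intro k hk
    have := Finset.mem_Icc.mp hk
    exact D2_kap_mem (Fact.out : p.Prime).pos (by omega)
  · intro n p _ hn hp2 hp q α β γ hα hβ hγ hβ3 hγ5 m
    exact D3_large hn hp2 hp q α β γ hα hβ hγ hβ3 hγ5 m
  · intro n p _ hn hp100 h1 h2 q α β γ hα hβ hγ hβ3 hγ5 m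
    exact D3_two hn hp100 h1 h2 q α β γ hα hβ hγ hβ3 hγ5 m

theorem F2_A : Tendsto (fun n : ℕ => (∑ p ∈ PS (1 / 20) 1 n, EA n p * Real.log p) / (n : ℝ) ^ 2) atTop
    (𝓝 ((LA : ℝ) - 507 * Real.log 20)) :=
  F2_A_of (fun α j h lo hi h0 h1 h2 => F1_tent α j h lo hi h0 h1 h2) (fun lo hi h0 h1 h2 => F1_const lo hi h0 h1 h2)
    (fun lo hi h0 h1 h2 => F1_id lo hi h0 h1 h2) (fun lo hi h0 h1 h2 => F1_inv lo hi h0 h1 h2)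
    (fun α J lo hi h0 h1 h2 h3 h4 => F1_floor α J lo hi h0 h1 h2 h3 h4)

theorem F2_B (τ : ℕ) (lo hi : ℚ) (h1 : 1 ≤ lo) (h2 : lo ≤ hi) (h3 : hi ≤ 2) :
    Tendsto (fun n : ℕ => (∑ p ∈ PS lo hi n, EB τ n p * Real.log p) / (n : ℝ) ^ 2) atTop
    (𝓝 ((LB τ lo hi : ℚ) : ℝ)) :=
  F2_B_of (fun lo hi h0 h1 h2 => F1_const lo hi h0 h1 h2)
    (fun lo hi h0 h1 h2 => F1_id lo hi h0 h1 h2) τ lo hi h1 h2 h3

theorem F2_U : Tendsto (fun n : ℕ => (∑ p ∈ PS (1 / 20) 72 n,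
      (∑ j ∈ Finset.Icc 1 1440, (1 / 2 * tn (72 * n) j p + 3 / 2 * tn (24 * n) j p)) * Real.log p) / (n : ℝ) ^ 2)
    atTop (𝓝 (LU : ℝ)) :=
  F2_U_of (fun α j h lo hi h0 h1 h2 => F1_tent α j h lo hi h0 h1 h2)

end

end Pool.Agent.H574R2.Q4.ZG
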